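import Mathlib
import Pool.Agent.TH165.ACC.NFin

/-!
# Quotients of toric germs by finite groups
-/

set_option autoImplicit false

namespace Pool.Agent.Helper58K9.QT

open Pool.Agent.H436R3.Fol Pool.Agent.H436R3.KT Pool.Agent.W497.Mld Pool.Agent.TH165.ACC
  MvPolynomial

section

variable {L K : Type} [Field L] [Algebra ℂ L] [Field K] [Algebra ℂ K] [Algebra L K]

/-- The valuation `w` of `K` lies over the valuation `v` of `L`, with ramification index `e`. -/
def Over (w : DVal K) (v : DVal L) (e : ℤ) : Prop :=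
  0 < e ∧ ∀ f : L, f ≠ 0 → w.ord (algebraMap L K f) = e * v.ord f

/-- The elements `y 1, ..., y k` of the valuation ring of `w` have residues which are algebraically
independent over `ℂ`. -/
def ResInd (w : DVal K) {k : ℕ} (y : Fin k → K) : Prop :=
  ∀ p : MvPolynomial (Fin k) ℂ, p ≠ 0 → aeval y p ≠ 0 ∧ w.ord (aeval y p) = 0

/-- The derivation `D` is logarithmic at `w`: it maps every power of the maximal ideal to itself. -/
def LogAt (w : DVal K) (D : Derivation ℂ K K) : Prop := ∀ f : K, f ≠ 0 → w.Reg (D f / f)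

/-- `L` is a finitely generated field of transcendence degree `k + 1` over `ℂ`. -/
def FF (k : ℕ) (L : Type) [Field L] [Algebra ℂ L] : Prop :=
  (∃ S : Subalgebra ℂ L, S.FG ∧ ∀ f : L, ∃ a b : L, a ∈ S ∧ b ∈ S ∧ b ≠ 0 ∧ f * b = a) ∧
    Algebra.trdeg ℂ L = ((k + 1 : ℕ) : Cardinal)

/-- The germ `X ∋ P` is the quotient of the germ `T ∋ O` by a finite group `G`: `T = Spec R` has the
function field `K`, which is a Galois extension of the function field `L` of `X`, with group `G`;
the action of `G` on `K` preserves `R` and fixes the closed point `O` of `T`; the coordinate ring of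
`X` is the ring of invariants of `R`; and `P` is the image of `O`. -/
structure IsQuotient (X : AffVar L) (P : Pt X) (R : Subalgebra ℂ K) (O : R →ₐ[ℂ] ℂ) : Prop where
  fin : FiniteDimensional L K
  gal : IsGalois L K
  inv : ∀ γ : K ≃ₐ[L] K, ∀ f ∈ R, γ f ∈ R
  fix : ∀ γ : K ≃ₐ[L] K, ∀ f f' : R, (f' : K) = γ f → O f' = O f
  quot : ∀ f : L, f ∈ X.R ↔ algebraMap L K f ∈ R
  pt : ∀ (f : X.R) (f' : R), (f' : K) = algebraMap L K f → O f' = P f

/-- In suitable coordinates `x_1, ..., x_n` of the function field `K`, the germ `T ∋ O` is an affine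
toric variety of dimension `n` with its fixed point, the automorphism `γ` maps Laurent monomials to
constant multiples of Laurent monomials (it normalises the torus), and the boundary `B_T` of `T`
which is defined by `K_T + B_T = π^* (K_X + B)`, where `π : T → X` is the quotient map, is torus
invariant and has no component in common with the ramification divisor of `π`: for every prime
divisor `w` of `T` over the prime divisor `v` of `X` with ramification index `e`, the multiplicity
`1 - e (1 - B.mult v)` of `B_T` at `w` is zero, or `w` is torus invariant and `e = 1`. -/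
def IsToricFor (n : ℕ) {X : AffVar L} (B : EffDiv X) (R : Subalgebra ℂ K) (O : R →ₐ[ℂ] ℂ)
    (γ : K ≃ₐ[L] K) : Prop :=
  ∃ (_ : Algebra (MvPolynomial (Fin n) ℂ) K) (_ : IsFractionRing (MvPolynomial (Fin n) ℂ) K)
    (_ : IsScalarTower ℂ (MvPolynomial (Fin n) ℂ) K) (g : ToricGerm n K),
    g.X.R = R ∧ (∀ (f : g.X.R) (f' : R), (f' : K) = f → O f' = g.P f) ∧
    (∀ m : Fin n → ℤ, ∃ (c : ℂ) (m' : Fin n → ℤ),
      γ (ym K m) = algebraMap ℂ K c * ym K m') ∧
    ∀ (w : DVal K) (v : DVal L) (e : ℤ), IsLocalRing' R w → Over w v e →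
      1 - e * (1 - B.mult v) = 0 ∨ (IsMonomial n w ∧ e = 1)

end

/-- The germ `(X ∋ P, B)` is a toric quotient germ: it is the quotient of a toric pair
`(T ∋ O, B_T)` by a finite group `G` which acts on `T` and fixes `O`. For every `γ ∈ G` there is a
torus, normalised by `γ`, which makes `T ∋ O` an affine toric germ and leaves `B_T` invariant; the
divisor `B_T`, defined by `K_T + B_T = π^* (K_X + B)`, has no component in common with the
ramification divisor of `π : T → X`. (If `G` acts freely in codimension one, `B_T` is the preimage of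
`B`, and the condition says that it is torus invariant.) -/
def IsToricQuotient (n : ℕ) {L : Type} [Field L] [Algebra ℂ L] (X : AffVar L) (P : Pt X)
    (B : EffDiv X) : Prop :=
  ∃ (K : Type) (_ : Field K) (_ : Algebra ℂ K) (_ : Algebra L K) (_ : IsScalarTower ℂ L K)
    (R : Subalgebra ℂ K) (O : R →ₐ[ℂ] ℂ), IsQuotient X P R O ∧
      ∀ γ : K ≃ₐ[L] K, IsToricFor n B R O γ

/-- The minimal log discrepancies `m ≥ 0` of the toric quotient germs `(X ∋ P, B)` of dimension `n`
such that the coefficients of `B` lie in `Γ`. -/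
def quotMlds (n : ℕ) (Γ : Set ℝ) : Set ℝ :=
  {m : ℝ | 0 ≤ m ∧ ∃ (L : Type) (_ : Field L) (_ : Algebra ℂ L) (X : AffVar L) (P : Pt X)
    (B : EffDiv X) (e : LocEq B P), CoeffIn B Γ ∧ Pool.Agent.W497.Mld.IsMld e m ∧
      IsToricQuotient n X P B}

/-- the valuation `f ↦ w (γ f)` -/
noncomputable def comap {K : Type} [Field K] [Algebra ℂ K] (w : DVal K) (γ : K ≃ₐ[ℂ] K) :
    DVal K where
  ord := fun f => w.ord (γ f)
  map_mul := by
    intro f g hf hg
    rw [map_mul, w.map_mul _ _ ((map_ne_zero γ).2 hf) ((map_ne_zero γ).2 hg)]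
  map_add := by
    intro f g hf hg hfg
    rw [map_add]
    exact w.map_add _ _ ((map_ne_zero γ).2 hf) ((map_ne_zero γ).2 hg)
      (by rw [← map_add]; exact (map_ne_zero γ).2 hfg)
  surj := by
    obtain ⟨f, hf, h⟩ := w.surj
    exact ⟨γ.symm f, (map_ne_zero γ.symm).2 hf, by rw [AlgEquiv.apply_symm_apply]; exact h⟩
  const := by
    intro c hc
    rw [AlgEquiv.commutes]
    exact w.const c hc

open PowerSeries in
/-- the power series `exp (c t ^ V)` -/
noncomputable def EE {Ω : Type} [Field Ω] (V : ℕ) (c : Ω) : PowerSeries Ω :=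
  PowerSeries.mk fun n => if V ∣ n then c ^ (n / V) / ((n / V).factorial : Ω) else 0

/-- Diagonalisation of the integral matrix `A`: the columns of `P` are right eigenvectors and the
rows of `Q` are left eigenvectors, with the eigenvalues `η`; `κ` enumerates the eigenvalues `≠ 1`. -/
structure IsDiag {n s : ℕ} (r : ℕ) (A : Matrix (Fin n) (Fin n) ℤ) (P Q : Matrix (Fin n) (Fin n) ℂ)
    (η : Fin n → ℂ) (κ : Fin s → Fin n) : Prop where
  pos : 0 < r
  pow : A ^ r = 1
  PQ : P * Q = 1
  QP : Q * P = 1
  eta : ∀ k, η k ^ r = 1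
  right : A.map (Int.cast : ℤ → ℂ) * P = P * Matrix.diagonal η
  left : Q * A.map (Int.cast : ℤ → ℂ) = Matrix.diagonal η * Q
  inj : Function.Injective κ
  ran : ∀ k, (∃ i, κ i = k) ↔ η k ≠ 1

end Pool.Agent.Helper58K9.QT
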