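import Mathlib
import Pool.Agent.Helper58K9.QT.Defs

/-!
# [EXP] The exponential of monomials, truncated logarithms, and Laurent series
-/

set_option autoImplicit false

namespace Pool.Agent.Helper58K9.QT

open PowerSeries

variable {Ω : Type} [Field Ω] [CharZero Ω]

omit [CharZero Ω] in
theorem EE_coeff (V : ℕ) (c : Ω) (n : ℕ) :
    coeff n (EE V c) = if V ∣ n then c ^ (n / V) / ((n / V).factorial : Ω) else 0 := by
  rw [EE, coeff_mk]

theorem EE_const {V : ℕ} (hV : 0 < V) (c : Ω) : constantCoeff (EE V c) = 1 := by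
  rw [← coeff_zero_eq_constantCoeff_apply, EE_coeff, if_pos (dvd_zero V)]
  simp

theorem EE_zero (V : ℕ) (hV : 0 < V) : EE V (0 : Ω) = 1 := by
  ext n
  rw [EE_coeff, coeff_one]
  by_cases hn : n = 0
  · subst hn; simp
  · rw [if_neg hn]
    split_ifs with h
    · have : 0 < n / V := Nat.div_pos (Nat.le_of_dvd (Nat.pos_of_ne_zero hn) h) hV
      rw [zero_pow this.ne', zero_div]
    · rfl

theorem EE_deriv {V : ℕ} (hV : 0 < V) (c : Ω) :
    d⁄dX Ω (EE V c) = C ((V : Ω) * c) * X ^ (V - 1) * EE V c := by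
  ext n
  rw [coeff_derivative, mul_assoc, coeff_C_mul, coeff_X_pow_mul', EE_coeff]
  by_cases h : V ∣ n + 1
  · obtain ⟨m, hm⟩ := h
    have hm0 : 0 < m := by
      rcases Nat.eq_zero_or_pos m with h0 | h0
      · subst h0; omega
      · exact h0
    obtain ⟨k, rfl⟩ : ∃ k, m = k + 1 := ⟨m - 1, by omega⟩
    have hle : V - 1 ≤ n := by
      have : V ≤ n + 1 := Nat.le_of_dvd (by omega) ⟨k + 1, hm⟩
      omega
    have hsub : n - (V - 1) = V * k := by
      have : n + 1 = V * k + V := by rw [hm]; ring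
      omega
    rw [if_pos hle, hsub, EE_coeff, if_pos (dvd_mul_right V k), if_pos ⟨k + 1, hm⟩, hm,
      Nat.mul_div_cancel_left _ hV, Nat.mul_div_cancel_left _ hV, Nat.factorial_succ]
    have h1 : ((n : Ω) + 1) = (V : Ω) * ((k : Ω) + 1) := by exact_mod_cast congrArg (Nat.cast : ℕ → Ω) hm
    rw [h1]
    have h2 : ((k : Ω) + 1) ≠ 0 := by exact_mod_cast Nat.succ_ne_zero k
    have h3 : ((k.factorial : ℕ) : Ω) ≠ 0 := by exact_mod_cast k.factorial_ne_zero
    push_cast
    field_simp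
    ring
  · rw [if_neg h, zero_mul]
    split_ifs with h1
    · rw [EE_coeff, if_neg, mul_zero]
      intro h2
      refine h ?_
      have : n + 1 = n - (V - 1) + V := by omega
      rw [this]
      exact dvd_add h2 dvd_rfl
    · rw [mul_zero]

/-- uniqueness for the equation `F' = G F` -/
theorem ode_unique {F G H : PowerSeries Ω} (hF : d⁄dX Ω F = G * F) (hH : d⁄dX Ω H = G * H)
    (h0 : constantCoeff F = constantCoeff H) : F = H := by
  rw [← sub_eq_zero]
  have hD : d⁄dX Ω (F - H) = G * (F - H) := by rw [map_sub, hF, hH, mul_sub]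
  have hc : coeff 0 (F - H) = 0 := by
    rw [coeff_zero_eq_constantCoeff_apply, map_sub, h0, sub_self]
  generalize F - H = K at hD hc
  ext n
  rw [map_zero]
  induction n using Nat.strong_induction_on with
  | _ n ih =>
    rcases Nat.eq_zero_or_pos n with hn | hn
    · rw [hn]; exact hc
    · obtain ⟨m, rfl⟩ : ∃ m, n = m + 1 := ⟨n - 1, by omega⟩
      have h1 := congrArg (coeff m) hD
      rw [coeff_derivative, coeff_mul] at h1
      rw [Finset.sum_eq_zero] at h1
      · have h2 : ((m : Ω) + 1) ≠ 0 := by exact_mod_cast Nat.succ_ne_zero m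
        exact (mul_eq_zero.1 h1).resolve_right h2
      · intro ij hij
        rw [Finset.HasAntidiagonal.mem_antidiagonal] at hij
        rw [ih ij.2 (by omega), mul_zero]

theorem EE_add {V : ℕ} (hV : 0 < V) (c c' : Ω) : EE V (c + c') = EE V c * EE V c' := by
  refine ode_unique (EE_deriv hV (c + c')) ?_ ?_
  · rw [Derivation.leibniz, EE_deriv hV, EE_deriv hV, smul_eq_mul, smul_eq_mul, mul_add, map_add]
    ring
  · rw [map_mul, EE_const hV, EE_const hV, EE_const hV, one_mul]

/-- a derivation applied to the coefficients -/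
theorem EE_der {k : Type} [CommRing k] [Algebra k Ω] (D : Derivation k Ω Ω) {V : ℕ} (hV : 0 < V)
    (c : Ω) (n : ℕ) : D (coeff n (EE V c)) = coeff n (C (D c) * X ^ V * EE V c) := by
  rw [mul_assoc, coeff_C_mul, coeff_X_pow_mul', EE_coeff]
  by_cases h : V ∣ n
  · obtain ⟨m, rfl⟩ := h
    rw [if_pos (dvd_mul_right V m), Nat.mul_div_cancel_left _ hV]
    have hf : D (((m.factorial : ℕ) : Ω)⁻¹) = 0 := by
      rw [Derivation.leibniz_inv, Derivation.map_natCast, smul_zero]
    rw [div_eq_mul_inv, Derivation.leibniz, hf, smul_zero, zero_add, Derivation.leibniz_pow]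
    rcases Nat.eq_zero_or_pos m with hm | hm
    · subst hm
      have : ¬ V ≤ V * 0 := by omega
      rw [if_neg this]
      simp
    · obtain ⟨j, rfl⟩ : ∃ j, m = j + 1 := ⟨m - 1, by omega⟩
      have hle : V ≤ V * (j + 1) := Nat.le_mul_of_pos_right _ (by omega)
      have hs : V * (j + 1) - V = V * j := by rw [mul_add, mul_one, Nat.add_sub_cancel]
      rw [if_pos hle, hs, EE_coeff, if_pos (dvd_mul_right V j), Nat.mul_div_cancel_left _ hV,
        Nat.add_sub_cancel, Nat.factorial_succ]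
      have h2 : ((j : Ω) + 1) ≠ 0 := by exact_mod_cast Nat.succ_ne_zero j
      have h3 : ((j.factorial : ℕ) : Ω) ≠ 0 := by exact_mod_cast j.factorial_ne_zero
      push_cast
      simp only [smul_eq_mul, nsmul_eq_mul]
      push_cast
      field_simp
  · rw [if_neg h, map_zero]
    split_ifs with h1
    · rw [EE_coeff, if_neg, mul_zero]
      intro h2
      refine h ?_
      have : n = n - V + V := by omega
      rw [this]
      exact dvd_add h2 dvd_rfl
    · rw [mul_zero]

theorem EE_rescale {V : ℕ} (hV : 0 < V) (ζ c : Ω) : rescale ζ (EE V c) = EE V (ζ ^ V * c) := by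
  ext n
  rw [coeff_rescale, EE_coeff, EE_coeff]
  by_cases h : V ∣ n
  · obtain ⟨m, rfl⟩ := h
    rw [if_pos (dvd_mul_right V m), if_pos (dvd_mul_right V m), Nat.mul_div_cancel_left _ hV,
      mul_pow, ← pow_mul, mul_div_assoc]
  · rw [if_neg h, if_neg h, mul_zero]

/-- truncated logarithm: apply `d/dX` to the difference -/
theorem log_trunc {E lam : PowerSeries Ω} (h1 : constantCoeff E = 1) (h0 : constantCoeff lam = 0)
    (h : d⁄dX Ω E = d⁄dX Ω lam * E) (N : ℕ) :
    (X : PowerSeries Ω) ^ (N + 1) ∣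
      (∑ i ∈ Finset.range N, C ((-1) ^ i / ((i : Ω) + 1)) * (E - 1) ^ (i + 1)) - lam := by
  set L := (∑ i ∈ Finset.range N, C ((-1) ^ i / ((i : Ω) + 1)) * (E - 1) ^ (i + 1)) - lam with hL
  have hX : X ∣ (E - 1) := by
    rw [X_dvd_iff, map_sub, h1, map_one, sub_self]
  have hgeo : E * (∑ i ∈ Finset.range N, (-(E - 1)) ^ i) = 1 - (-(E - 1)) ^ N := by
    have := mul_neg_geom_sum (-(E - 1)) N
    rwa [show (1 : PowerSeries Ω) - -(E - 1) = E by ring] at this
  have hterm : ∀ i : ℕ, d⁄dX Ω (C ((-1) ^ i / ((i : Ω) + 1)) * (E - 1) ^ (i + 1)) =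
      d⁄dX Ω lam * (E * (-(E - 1)) ^ i) := by
    intro i
    have h2 : ((i : Ω) + 1) ≠ 0 := by exact_mod_cast Nat.succ_ne_zero i
    rw [Derivation.leibniz, Derivation.leibniz_pow, derivative_C, smul_zero, add_zero, map_sub,
      derivative_one, sub_zero, Nat.add_sub_cancel, smul_eq_mul, smul_eq_mul, h, nsmul_eq_mul]
    have h3 : C ((-1) ^ i / ((i : Ω) + 1)) * (((i + 1 : ℕ) : PowerSeries Ω)) = (-1) ^ i := by
      rw [show (((i + 1 : ℕ) : PowerSeries Ω)) = C ((i : Ω) + 1) by
        rw [← Nat.cast_one (R := Ω), ← Nat.cast_add, map_natCast], ← map_mul,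
        div_mul_cancel₀ _ h2, map_pow, map_neg, map_one]
    calc C ((-1) ^ i / ((i : Ω) + 1)) * (((i + 1 : ℕ) : PowerSeries Ω) *
          ((E - 1) ^ i * (d⁄dX Ω lam * E))) =
        (C ((-1) ^ i / ((i : Ω) + 1)) * (((i + 1 : ℕ) : PowerSeries Ω))) *
          ((E - 1) ^ i * (d⁄dX Ω lam * E)) := by ring
      _ = _ := by rw [h3, neg_pow (E - 1) i]; ring
  have hD : d⁄dX Ω L = - (d⁄dX Ω lam * (-(E - 1)) ^ N) := by
    rw [hL, map_sub, map_sum]
    simp only [hterm]
    rw [← Finset.mul_sum, ← Finset.mul_sum, hgeo]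
    ring
  have hLc : constantCoeff L = 0 := by
    rw [hL, map_sub, h0, map_sum, sub_zero]
    refine Finset.sum_eq_zero fun i _ => ?_
    rw [map_mul, map_pow, map_sub, h1, map_one, sub_self, zero_pow (Nat.succ_ne_zero i), mul_zero]
  have hXD : (X : PowerSeries Ω) ^ N ∣ d⁄dX Ω L := by
    rw [hD, dvd_neg]
    refine Dvd.dvd.mul_left (pow_dvd_pow_of_dvd ?_ N) _
    rwa [dvd_neg]
  rw [X_pow_dvd_iff] at hXD ⊢
  intro m hm
  rcases Nat.eq_zero_or_pos m with hm0 | hm0
  · rw [hm0, coeff_zero_eq_constantCoeff_apply]; exact hLc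
  · obtain ⟨j, rfl⟩ : ∃ j, m = j + 1 := ⟨m - 1, by omega⟩
    have h4 := hXD j (by omega)
    rw [coeff_derivative] at h4
    have h2 : ((j : Ω) + 1) ≠ 0 := by exact_mod_cast Nat.succ_ne_zero j
    exact (mul_eq_zero.1 h4).resolve_right h2

end Pool.Agent.Helper58K9.QT
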