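import Mathlib
import Pool.Agent.Helper58K9.QT.Defs

/-!
# [LS] Derivations and rotations of fields of Laurent series
-/

set_option autoImplicit false

namespace Pool.Agent.Helper58K9.QT

variable {Ω : Type} [Field Ω] [Algebra ℂ Ω]

namespace LSL

/-- the derivation `D`, coefficientwise -/
noncomputable def cwFun (D : Derivation ℂ Ω Ω) (F : LaurentSeries Ω) : LaurentSeries Ω where
  coeff n := D (F.coeff n)
  isPWO_support' := F.isPWO_support.mono (by
    intro n hn h0
    exact hn (by
      have : F.coeff n = 0 := h0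
      simp only [this, map_zero]))

theorem cwFun_coeff (D : Derivation ℂ Ω Ω) (F : LaurentSeries Ω) (n : ℤ) :
    (cwFun D F).coeff n = D (F.coeff n) := rfl

theorem cwFun_supp (D : Derivation ℂ Ω Ω) (F : LaurentSeries Ω) :
    (cwFun D F).support ⊆ F.support := by
  intro n hn
  rw [HahnSeries.mem_support] at hn ⊢
  intro h0
  exact hn (by rw [cwFun_coeff, h0, map_zero])

theorem algebraMap_mul (c : ℂ) (F : LaurentSeries Ω) :
    algebraMap ℂ (LaurentSeries Ω) c * F = HahnSeries.C (algebraMap ℂ Ω c) * F := by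
  rw [HahnSeries.algebraMap_apply', PowerSeries.algebraMap_apply, HahnSeries.ofPowerSeries_C]

theorem cwFun_add (D : Derivation ℂ Ω Ω) (F G : LaurentSeries Ω) :
    cwFun D (F + G) = cwFun D F + cwFun D G := by
  ext n
  simp only [cwFun_coeff, HahnSeries.coeff_add, map_add]

theorem cwFun_smul (D : Derivation ℂ Ω Ω) (c : ℂ) (F : LaurentSeries Ω) :
    cwFun D (algebraMap ℂ (LaurentSeries Ω) c * F) =
      @HSMul.hSMul ℂ (LaurentSeries Ω) (LaurentSeries Ω)
        (@instHSMul _ _ HahnSeries.instModule.toSMul) c (cwFun D F) := by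
  ext n
  rw [algebraMap_mul, HahnSeries.C_mul_eq_smul, cwFun_coeff, HahnSeries.coeff_smul,
    HahnSeries.coeff_smul, smul_eq_mul, ← Algebra.smul_def, Derivation.map_smul, cwFun_coeff]

/-- coefficientwise derivation, as a linear map -/
noncomputable def cwLin (D : Derivation ℂ Ω Ω) :
    @LinearMap ℂ ℂ _ _ (RingHom.id ℂ) (LaurentSeries Ω) (LaurentSeries Ω) _ _
      (Algebra.toModule (R := ℂ) (A := LaurentSeries Ω)) HahnSeries.instModule :=
  @LinearMap.mk ℂ ℂ _ _ (RingHom.id ℂ) (LaurentSeries Ω) (LaurentSeries Ω) _ _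
    (Algebra.toModule (R := ℂ) (A := LaurentSeries Ω)) HahnSeries.instModule
    ⟨cwFun D, cwFun_add D⟩ (fun c F => by
      rw [RingHom.id_apply]
      exact (congrArg (cwFun D) (Algebra.smul_def c F)).trans (cwFun_smul D c F))

theorem cwLin_apply (D : Derivation ℂ Ω Ω) (F : LaurentSeries Ω) : cwLin D F = cwFun D F := rfl

/-- the rotation -/
noncomputable def rotFun (ζ : Ω) (F : LaurentSeries Ω) : LaurentSeries Ω where
  coeff n := ζ ^ n * F.coeff n
  isPWO_support' := F.isPWO_support.mono (by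
    intro n hn h0
    exact hn (by
      have : F.coeff n = 0 := h0
      simp only [this, mul_zero]))

omit [Algebra ℂ Ω] in
theorem rotFun_coeff (ζ : Ω) (F : LaurentSeries Ω) (n : ℤ) :
    (rotFun ζ F).coeff n = ζ ^ n * F.coeff n := rfl

end LSL

open LSL in
/-- a derivation of the coefficients extends to the Laurent series -/
theorem exists_cw (D : Derivation ℂ Ω Ω) :
    ∃ D' : Derivation ℂ (LaurentSeries Ω) (LaurentSeries Ω),
      ∀ (F : LaurentSeries Ω) (n : ℤ), (D' F).coeff n = D (F.coeff n) := by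
  refine ⟨Derivation.mk' (cwLin D) ?_, ?_⟩
  · intro F G
    ext n
    rw [cwLin_apply, cwLin_apply, cwLin_apply, smul_eq_mul, smul_eq_mul, HahnSeries.coeff_add,
      cwFun_coeff]
    rw [mul_comm G (cwFun D F), HahnSeries.coeff_mul_right' G.isPWO_support (cwFun_supp D G),
      HahnSeries.coeff_mul_left' F.isPWO_support (cwFun_supp D F), HahnSeries.coeff_mul, map_sum,
      ← Finset.sum_add_distrib]
    refine Finset.sum_congr rfl fun ij _ => ?_
    rw [Derivation.leibniz, cwFun_coeff, cwFun_coeff, smul_eq_mul, smul_eq_mul]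
    ring
  · intro F n
    rfl

open LSL in
/-- the substitution `t ↦ ζ t` -/
theorem exists_rot {ζ : Ω} (hζ : ζ ≠ 0) : ∃ S : LaurentSeries Ω →+* LaurentSeries Ω,
    ∀ (F : LaurentSeries Ω) (n : ℤ), (S F).coeff n = ζ ^ n * F.coeff n := by
  refine ⟨{ toFun := rotFun ζ, map_one' := ?_, map_mul' := ?_, map_zero' := ?_, map_add' := ?_ },
    ?_⟩
  · ext n
    rw [rotFun_coeff, HahnSeries.coeff_one]
    split_ifs with h
    · rw [h, zpow_zero, mul_one]
    · rw [mul_zero]
  · intro F G
    ext n
    have hs : ∀ H : LaurentSeries Ω, ∀ m, m ∈ (rotFun ζ H).support ↔ m ∈ H.support := by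
      intro H m
      rw [HahnSeries.mem_support, HahnSeries.mem_support, rotFun_coeff, mul_ne_zero_iff]
      exact ⟨fun h => h.2, fun h => ⟨zpow_ne_zero _ hζ, h⟩⟩
    rw [rotFun_coeff, HahnSeries.coeff_mul, HahnSeries.coeff_mul, Finset.mul_sum]
    refine Finset.sum_congr ?_ ?_
    · ext ij
      simp only [Finset.mem_antidiagonal, hs]
    · intro ij hij
      rw [Finset.mem_antidiagonal] at hij
      rw [rotFun_coeff, rotFun_coeff, ← hij.2.2, zpow_add₀ hζ]
      ring
  · ext n
    rw [rotFun_coeff, HahnSeries.coeff_zero, mul_zero]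
  · intro F G
    ext n
    simp only [rotFun_coeff, HahnSeries.coeff_add, mul_add]
  · intro F n
    rfl

end Pool.Agent.Helper58K9.QT
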