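import Mathlib
import Pool.Agent.Helper58K9.QT.Defs

/-!
# [THETA, part A] Embeddings of the function field of a torus given by eigenvectors
-/

set_option autoImplicit false

namespace Pool.Agent.Helper58K9.QT

open Pool.Agent.H436R3.Fol Pool.Agent.H436R3.KT Pool.Agent.W497.Mld Pool.Agent.TH165.ACC
  MvPolynomial

namespace ThA

variable {n : ℕ} {F : Type} [Field F] [Algebra ℂ F]

theorem sum_app {ι : Type} (s : Finset ι) (D : ι → Derivation ℂ F F) (f : F) :
    (∑ i ∈ s, D i) f = ∑ i ∈ s, D i f := by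
  classical
  induction s using Finset.induction_on with
  | empty => simp
  | insert a s ha ih => rw [Finset.sum_insert ha, Finset.sum_insert ha, Derivation.add_apply, ih]

/-- the character in coordinates -/
theorem phi_eq {Φ : (Fin n → ℤ) → F} (hΦ : ∀ m m', Φ (m + m') = Φ m * Φ m')
    (hΦ0 : ∀ m, Φ m ≠ 0) (m : Fin n → ℤ) : Φ m = ∏ i, Φ (Pi.single i 1) ^ m i := by
  classical
  let ψ : Multiplicative (Fin n → ℤ) →* Fˣ :=
    { toFun := fun m => Units.mk0 (Φ m.toAdd) (hΦ0 _)
      map_one' := by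
        apply Units.ext
        change Φ 0 = 1
        have h := hΦ 0 0
        rw [add_zero] at h
        exact mul_left_cancel₀ (hΦ0 0) (by rw [mul_one]; exact h.symm)
      map_mul' := fun a b => by
        apply Units.ext
        exact hΦ _ _ }
  have hψ : ∀ m, ((ψ (Multiplicative.ofAdd m) : Fˣ) : F) = Φ m := fun m => rfl
  have hm : Multiplicative.ofAdd m =
      ∏ i, Multiplicative.ofAdd (Pi.single i (1 : ℤ) : Fin n → ℤ) ^ m i := by
    simp only [← ofAdd_zsmul]
    rw [← ofAdd_sum]
    congr 1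
    funext j
    simp [Finset.sum_apply, Pi.single_apply]
  rw [← hψ m, hm, map_prod, Units.coe_prod]
  refine Finset.prod_congr rfl fun i _ => ?_
  rw [map_zpow, Units.val_zpow_eq_zpow_val, hψ]

theorem phi_indep {Φ : (Fin n → ℤ) → F} (hΦ0 : ∀ m, Φ m ≠ 0)
    (E' : Fin n → Derivation ℂ F F) (hE : ∀ j m, E' j (Φ m) = (m j : F) * Φ m)
    (S : Finset (Fin n →₀ ℕ)) (c : (Fin n →₀ ℕ) → ℂ)
    (h : ∑ s ∈ S, algebraMap ℂ F (c s) * Φ (ex s) = 0) : ∀ s ∈ S, c s = 0 := by
  classical
  induction S using Finset.induction_on generalizing c with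
  | empty => intro s hs; exact absurd hs (Finset.notMem_empty _)
  | insert a S ha ih =>
    rw [Finset.sum_insert ha] at h
    have hS : ∀ s ∈ S, c s = 0 := by
      intro s hs
      have hsa : s ≠ a := fun e => ha (e ▸ hs)
      obtain ⟨j, hj⟩ : ∃ j, s j ≠ a j := by
        by_contra hc
        push Not at hc
        exact hsa (Finsupp.ext hc)
      have h1 := congrArg (E' j) h
      rw [map_add, map_sum, map_zero] at h1
      have h2 : ∀ s, E' j (algebraMap ℂ F (c s) * Φ (ex s)) =
          algebraMap ℂ F (c s * (s j : ℂ)) * Φ (ex s) := by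
        intro s
        rw [Derivation.leibniz, Derivation.map_algebraMap, hE, smul_zero, add_zero, smul_eq_mul,
          map_mul, map_natCast]
        simp only [TH165.ACC.ex, Int.cast_natCast]
        ring
      simp only [h2] at h1
      have h3 : ∑ s ∈ S, algebraMap ℂ F (c s * ((s j : ℂ) - (a j : ℂ))) * Φ (ex s) = 0 := by
        have e : ∀ s, algebraMap ℂ F (c s * ((s j : ℂ) - (a j : ℂ))) * Φ (ex s) =
            algebraMap ℂ F (c s * (s j : ℂ)) * Φ (ex s)
              - algebraMap ℂ F (a j : ℂ) * (algebraMap ℂ F (c s) * Φ (ex s)) := by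
          intro s
          simp only [map_mul, map_sub]
          ring
        simp only [e, Finset.sum_sub_distrib, ← Finset.mul_sum]
        simp only [map_mul] at h1 ⊢
        linear_combination h1 - algebraMap ℂ F (a j : ℂ) * h
      have h4 := ih (fun s => c s * ((s j : ℂ) - (a j : ℂ))) h3 s hs
      rcases mul_eq_zero.mp h4 with h5 | h5
      · exact h5
      · exfalso
        apply hj
        have := sub_eq_zero.mp h5
        exact_mod_cast this
    intro s hs
    rcases Finset.mem_insert.mp hs with rfl | hs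
    · rw [Finset.sum_eq_zero (fun s' hs' => by rw [hS s' hs', map_zero, zero_mul]), add_zero] at h
      rcases mul_eq_zero.mp h with h5 | h5
      · exact (map_eq_zero _).mp h5
      · exact absurd h5 (hΦ0 _)
    · exact hS s hs

variable {K : Type} [Field K] [Algebra ℂ K]
  [Algebra (MvPolynomial (Fin n) ℂ) K] [IsFractionRing (MvPolynomial (Fin n) ℂ) K]
  [IsScalarTower ℂ (MvPolynomial (Fin n) ℂ) K]

/-- homomorphisms which agree on the variables agree -/
theorem hom_ext {f g : K →+* F} (h1 : ∀ c : ℂ, f (algebraMap ℂ K c) = g (algebraMap ℂ K c))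
    (h2 : ∀ i : Fin n, f (cv K i) = g (cv K i)) : f = g := by
  apply IsFractionRing.injective_comp_algebraMap (A := MvPolynomial (Fin n) ℂ)
  apply MvPolynomial.ringHom_ext
  · intro c
    have := h1 c
    rw [← jo_C (ι := Fin n)] at this
    exact this
  · intro i
    exact h2 i

theorem Th_ym (Θ : K →+* F) {Φ : (Fin n → ℤ) → F} (hΦ : ∀ m m', Φ (m + m') = Φ m * Φ m')
    (hΦ0 : ∀ m, Φ m ≠ 0) (h : ∀ i, Θ (cv K i) = Φ (Pi.single i 1)) (m : Fin n → ℤ) :
    Θ (ym K m) = Φ m := by
  rw [ym, map_prod, phi_eq hΦ hΦ0 m]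
  refine Finset.prod_congr rfl fun i _ => ?_
  rw [map_zpow₀, h]

theorem cv_eq_ym (i : Fin n) : cv K i = ym K (Pi.single i 1) := by
  classical
  rw [ym, Finset.prod_eq_single i]
  · simp
  · intro j _ hj
    rw [Pi.single_eq_of_ne hj, zpow_zero]
  · intro h; exact absurd (Finset.mem_univ i) h

/-- a derivation along a homomorphism is determined by its values at the variables -/
theorem der_ext (Θ : K →ₐ[ℂ] F) (D : Derivation ℂ K K) (E : Derivation ℂ F F)
    (h : ∀ i : Fin n, Θ (D (cv K i)) = E (Θ (cv K i))) (a : K) : Θ (D a) = E (Θ a) := by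
  have hp : ∀ p : MvPolynomial (Fin n) ℂ, Θ (D (jo (Fin n) K p)) = E (Θ (jo (Fin n) K p)) := by
    intro p
    induction p using MvPolynomial.induction_on with
    | C c =>
      rw [jo_C, Derivation.map_algebraMap, map_zero, AlgHom.commutes, Derivation.map_algebraMap]
    | add p q hp hq => simp only [map_add, hp, hq]
    | mul_X p i hp =>
      have hi := h i
      rw [cv] at hi
      rw [map_mul (jo (Fin n) K), map_mul Θ, D.leibniz, E.leibniz]
      simp only [smul_eq_mul, map_add, map_mul, hp, hi]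
  obtain ⟨p, q, hq, rfl⟩ := exists_frac (MvPolynomial (Fin n) ℂ) a
  rw [← jo_apply, ← jo_apply]
  have hq0 : jo (Fin n) K q ≠ 0 := jo_ne hq
  set b := jo (Fin n) K p / jo (Fin n) K q with hb
  have h1 : b * jo (Fin n) K q = jo (Fin n) K p := div_mul_cancel₀ _ hq0
  have h2 := hp p
  rw [← h1, map_mul Θ, D.leibniz, E.leibniz] at h2
  simp only [smul_eq_mul, map_add, map_mul, hp q] at h2
  have h3 : Θ (jo (Fin n) K q) ≠ 0 := (map_ne_zero_iff _ Θ.toRingHom.injective).mpr hq0
  have h4 : Θ (jo (Fin n) K q) * (Θ (D b) - E (Θ b)) = 0 := by linear_combination h2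
  rcases mul_eq_zero.mp h4 with h5 | h5
  · exact absurd h5 h3
  · exact sub_eq_zero.mp h5

theorem exists_Th {Φ : (Fin n → ℤ) → F} (hΦ : ∀ m m', Φ (m + m') = Φ m * Φ m')
    (hΦ0 : ∀ m, Φ m ≠ 0) {P Q : Matrix (Fin n) (Fin n) ℂ} (hPQ : P * Q = 1)
    {E : Fin n → Derivation ℂ F F}
    (hE : ∀ l m, E l (Φ m) = algebraMap ℂ F (∑ i, Q l i * (m i : ℂ)) * Φ m) :
    ∃ Θ : K →ₐ[ℂ] F, (∀ m, Θ (ym K m) = Φ m) ∧
      ∀ l a, Θ ((∑ m, algebraMap ℂ K (Q l m) • tor K m : Derivation ℂ K K) a) = E l (Θ a) := by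
  classical
  let φ0 : MvPolynomial (Fin n) ℂ →ₐ[ℂ] F := aeval fun i => Φ (Pi.single i 1)
  have hφ0 : ∀ p, φ0 p = ∑ s ∈ p.support, algebraMap ℂ F (p.coeff s) * Φ (ex s) := by
    intro p
    conv_lhs => rw [p.as_sum]
    rw [map_sum]
    refine Finset.sum_congr rfl fun s _ => ?_
    rw [aeval_monomial, Finsupp.prod_fintype _ _ (fun i => pow_zero _), phi_eq hΦ hΦ0 (ex s)]
    simp only [TH165.ACC.ex, zpow_natCast]
  let E' : Fin n → Derivation ℂ F F := fun j => ∑ l, P j l • E l
  have hE' : ∀ j m, E' j (Φ m) = (m j : F) * Φ m := by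
    intro j m
    have h1 : E' j (Φ m) = ∑ l, P j l • (E l (Φ m)) := sum_app _ _ _
    rw [h1]
    have h2 : (∑ l, P j l * ∑ i, Q l i * (m i : ℂ)) = (m j : ℂ) := by
      have : (∑ l, P j l * ∑ i, Q l i * (m i : ℂ)) = ∑ i, (P * Q) j i * (m i : ℂ) := by
        simp only [Matrix.mul_apply, Finset.mul_sum, Finset.sum_mul]
        rw [Finset.sum_comm]
        refine Finset.sum_congr rfl fun i _ => Finset.sum_congr rfl fun l _ => ?_
        ring
      rw [this, hPQ]
      simp [Matrix.one_apply]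
    calc ∑ l, P j l • (E l (Φ m)) =
        ∑ l, algebraMap ℂ F (P j l * ∑ i, Q l i * (m i : ℂ)) * Φ m := by
          refine Finset.sum_congr rfl fun l _ => ?_
          rw [hE, Algebra.smul_def, map_mul]
          ring
      _ = (m j : F) * Φ m := by
          rw [← Finset.sum_mul, ← map_sum, h2, map_intCast]
  have hinj : Function.Injective φ0 := by
    rw [injective_iff_map_eq_zero]
    intro p hp
    rw [hφ0] at hp
    have := phi_indep hΦ0 E' hE' p.support (fun s => p.coeff s) hp
    by_contra hp0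
    obtain ⟨s, hs⟩ := MvPolynomial.support_nonempty.mpr hp0
    exact mem_support_iff.mp hs (this s hs)
  let Θ : K →ₐ[ℂ] F := IsFractionRing.liftAlgHom hinj
  have hcv : ∀ i, Θ (cv K i) = Φ (Pi.single i 1) := by
    intro i
    change IsFractionRing.lift hinj (algebraMap _ _ (X i)) = _
    rw [IsFractionRing.lift_algebraMap]
    change φ0 (X i) = _
    rw [aeval_X]
  refine ⟨Θ, fun m => Th_ym Θ.toRingHom hΦ hΦ0 hcv m, fun l a => ?_⟩
  refine der_ext (n := n) Θ _ _ (fun i => ?_) a
  rw [hcv, hE]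
  have h1 : (∑ m, algebraMap ℂ K (Q l m) • tor K m : Derivation ℂ K K) (cv K i) =
      algebraMap ℂ K (Q l i) * cv K i := by
    rw [sum_app]
    simp only [Derivation.smul_apply, tor_cv, smul_eq_mul,
      mul_ite, mul_zero, Finset.sum_ite_eq', Finset.mem_univ, if_true]
  rw [h1, map_mul, AlgHom.commutes, hcv]
  congr 2
  rw [Finset.sum_eq_single i]
  · simp
  · intro j _ hj
    rw [Pi.single_eq_of_ne hj]
    simp
  · intro h; exact absurd (Finset.mem_univ i) h

end ThA

end Pool.Agent.Helper58K9.QT
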