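import Mathlib
import Pool.Agent.Helper58K9.QT.Defs

/-!
# [THETA, part B] Leading terms of Laurent series
-/

set_option autoImplicit false

namespace Pool.Agent.Helper58K9.QT

namespace ThB

open HahnSeries

variable {Ω : Type} [Field Ω]

theorem s01 : (single (0 : ℤ) (1 : Ω) : LaurentSeries Ω) = 1 := rfl

/-- `F = t ^ v * (u + ...)` -/
def Lead (F : LaurentSeries Ω) (v : ℤ) (u : Ω) : Prop :=
  ∃ G : PowerSeries Ω, PowerSeries.constantCoeff G = u ∧
    F = single v (1 : Ω) * ofPowerSeries ℤ Ω G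

theorem lead_ps (G : PowerSeries Ω) :
    Lead (ofPowerSeries ℤ Ω G) 0 (PowerSeries.constantCoeff G) :=
  ⟨G, rfl, by rw [s01, one_mul]⟩

theorem lead_single (v : ℤ) (u : Ω) : Lead (single v u) v u := by
  refine ⟨PowerSeries.C u, PowerSeries.constantCoeff_C u, ?_⟩
  rw [ofPowerSeries_C, C_apply, single_mul_single, add_zero, one_mul]

theorem Lead.mul {F F' : LaurentSeries Ω} {v v' : ℤ} {u u' : Ω} (h : Lead F v u)
    (h' : Lead F' v' u') : Lead (F * F') (v + v') (u * u') := by
  obtain ⟨G, rfl, rfl⟩ := h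
  obtain ⟨G', rfl, rfl⟩ := h'
  refine ⟨G * G', map_mul _ _ _, ?_⟩
  rw [map_mul, show (1 : Ω) = 1 * 1 by rw [one_mul], ← single_mul_single]
  simp only [one_mul]
  ring

theorem lead_one : Lead (1 : LaurentSeries Ω) 0 1 := by
  have := lead_single (Ω := Ω) 0 1
  rwa [s01] at this

theorem Lead.prod {ι : Type} (s : Finset ι) {F : ι → LaurentSeries Ω} {v : ι → ℤ} {u : ι → Ω}
    (h : ∀ i ∈ s, Lead (F i) (v i) (u i)) :
    Lead (∏ i ∈ s, F i) (∑ i ∈ s, v i) (∏ i ∈ s, u i) := by
  classical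
  induction s using Finset.induction_on with
  | empty => simpa using lead_one
  | insert a s ha ih =>
    rw [Finset.prod_insert ha, Finset.sum_insert ha, Finset.prod_insert ha]
    exact (h a (Finset.mem_insert_self _ _)).mul
      (ih fun i hi => h i (Finset.mem_insert_of_mem hi))

theorem Lead.coeff {F : LaurentSeries Ω} {v : ℤ} {u : Ω} (h : Lead F v u) : F.coeff v = u := by
  obtain ⟨G, rfl, rfl⟩ := h
  have := coeff_single_mul_add (r := (1 : Ω)) (x := ofPowerSeries ℤ Ω G) (a := 0) (b := v)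
  rw [zero_add] at this
  rw [this, one_mul, PowerSeries.coeff_coe, if_neg (lt_irrefl _)]
  simp

theorem Lead.coeff_lt {F : LaurentSeries Ω} {v : ℤ} {u : Ω} (h : Lead F v u) {i : ℤ} (hi : i < v) :
    F.coeff i = 0 := by
  obtain ⟨G, rfl, rfl⟩ := h
  have := coeff_single_mul_add (r := (1 : Ω)) (x := ofPowerSeries ℤ Ω G) (a := i - v) (b := v)
  rw [sub_add_cancel] at this
  rw [this, one_mul, PowerSeries.coeff_coe, if_pos (by omega)]

theorem Lead.ne_zero {F : LaurentSeries Ω} {v : ℤ} {u : Ω} (h : Lead F v u) (hu : u ≠ 0) :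
    F ≠ 0 := by
  rintro rfl
  exact hu (by rw [← h.coeff]; rfl)

theorem Lead.order {F : LaurentSeries Ω} {v : ℤ} {u : Ω} (h : Lead F v u) (hu : u ≠ 0) :
    F.order = v := by
  apply le_antisymm
  · apply order_le_of_coeff_ne_zero
    rw [h.coeff]; exact hu
  · by_contra hc
    push Not at hc
    exact (mt coeff_order_eq_zero.mp (h.ne_zero hu)) (h.coeff_lt hc)

theorem lead_of {F : LaurentSeries Ω} {v : ℤ} (h : ∀ i < v, F.coeff i = 0) :
    Lead F v (F.coeff v) := by
  refine ⟨PowerSeries.mk fun n => F.coeff (v + n), ?_, ?_⟩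
  · rw [← PowerSeries.coeff_zero_eq_constantCoeff_apply, PowerSeries.coeff_mk]; simp
  · ext i
    have := coeff_single_mul_add (r := (1 : Ω))
      (x := ofPowerSeries ℤ Ω (PowerSeries.mk fun n => F.coeff (v + n))) (a := i - v) (b := v)
    rw [sub_add_cancel] at this
    rw [this, one_mul, PowerSeries.coeff_coe]
    split_ifs with hi
    · exact h i (by omega)
    · rw [PowerSeries.coeff_mk]
      congr 1
      omega

theorem Lead.inv {F : LaurentSeries Ω} {v : ℤ} {u : Ω} (h : Lead F v u) (hu : u ≠ 0) :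
    Lead F⁻¹ (-v) u⁻¹ := by
  obtain ⟨G, hG, rfl⟩ := h
  have hG0 : PowerSeries.constantCoeff G ≠ 0 := by rw [hG]; exact hu
  refine ⟨G⁻¹, ?_, ?_⟩
  · rw [PowerSeries.constantCoeff_inv, hG]
  · have h1 : single v (1 : Ω) * ofPowerSeries ℤ Ω G *
        (single (-v) 1 * ofPowerSeries ℤ Ω G⁻¹) = 1 := by
      have h2 : ofPowerSeries ℤ Ω G * ofPowerSeries ℤ Ω G⁻¹ = 1 := by
        rw [← map_mul, PowerSeries.mul_inv_cancel _ hG0, map_one]
      have h3 : single v (1 : Ω) * single (-v) 1 = (1 : LaurentSeries Ω) := by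
        rw [single_mul_single, add_neg_cancel, one_mul, s01]
      calc single v (1 : Ω) * ofPowerSeries ℤ Ω G * (single (-v) 1 * ofPowerSeries ℤ Ω G⁻¹)
          = (single v (1 : Ω) * single (-v) 1) *
            (ofPowerSeries ℤ Ω G * ofPowerSeries ℤ Ω G⁻¹) := by ring
        _ = 1 := by rw [h2, h3, one_mul]
    exact inv_eq_of_mul_eq_one_right h1

theorem Lead.pow {F : LaurentSeries Ω} {v : ℤ} {u : Ω} (h : Lead F v u) (n : ℕ) :
    Lead (F ^ n) (n * v) (u ^ n) := by
  induction n with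
  | zero => simpa using lead_one
  | succ n ih =>
    rw [pow_succ, pow_succ, Nat.cast_succ, add_mul, one_mul]
    exact ih.mul h

theorem Lead.zpow {F : LaurentSeries Ω} {v : ℤ} {u : Ω} (h : Lead F v u) (hu : u ≠ 0) (n : ℤ) :
    Lead (F ^ n) (n * v) (u ^ n) := by
  obtain ⟨k, rfl | rfl⟩ := n.eq_nat_or_neg
  · rw [zpow_natCast, zpow_natCast]
    exact h.pow k
  · rw [zpow_neg, zpow_neg, zpow_natCast, zpow_natCast, neg_mul]
    exact (h.pow k).inv (pow_ne_zero _ hu)

theorem Lead.aeval {Ω : Type} [Field Ω] [Algebra ℂ Ω] {k : ℕ} {Y : Fin k → LaurentSeries Ω}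
    {L : Fin k → Ω} (h : ∀ i, Lead (Y i) 0 (L i)) (p : MvPolynomial (Fin k) ℂ) :
    Lead (MvPolynomial.aeval Y p) 0 (MvPolynomial.aeval L p) := by
  choose G hG hY using h
  have hY' : ∀ i, Y i = ofPowerSeries ℤ Ω (G i) := by
    intro i
    rw [hY, s01, one_mul]
  have h1 : MvPolynomial.aeval Y p = ofPowerSeries ℤ Ω (MvPolynomial.aeval G p) := by
    induction p using MvPolynomial.induction_on with
    | C c =>
      rw [← MvPolynomial.algebraMap_eq, AlgHom.commutes, AlgHom.commutes,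
        HahnSeries.algebraMap_apply']
    | add p q hp hq => rw [map_add, map_add, map_add, hp, hq]
    | mul_X p i hp =>
      rw [map_mul, map_mul, map_mul, hp, MvPolynomial.aeval_X, MvPolynomial.aeval_X, hY']
  have h2 : PowerSeries.constantCoeff (MvPolynomial.aeval G p) = MvPolynomial.aeval L p := by
    clear h1
    induction p using MvPolynomial.induction_on with
    | C c =>
      rw [← MvPolynomial.algebraMap_eq, AlgHom.commutes, AlgHom.commutes,
        PowerSeries.algebraMap_apply, PowerSeries.constantCoeff_C]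
    | add p q hp hq => rw [map_add, map_add, map_add, hp, hq]
    | mul_X p i hp =>
      rw [map_mul, map_mul, map_mul, hp, MvPolynomial.aeval_X, MvPolynomial.aeval_X, hG]
  rw [h1, ← h2]
  exact lead_ps _

end ThB

end Pool.Agent.Helper58K9.QT
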