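import Mathlib
import Pool.Agent.Helper58K9.QT.Expo
import Pool.Agent.Helper58K9.QT.Laurent
import Pool.Agent.Helper58K9.QT.ThA
import Pool.Agent.Helper58K9.QT.ThB

/-!
# [THETA, part C] The eigenvectors
-/

set_option autoImplicit false
set_option linter.unusedSectionVars false

namespace Pool.Agent.Helper58K9.QT

open Pool.Agent.H436R3.Fol Pool.Agent.H436R3.KT Pool.Agent.W497.Mld Pool.Agent.TH165.ACC
  MvPolynomial

namespace ThC

open ThA ThB HahnSeries

/-! ### combinatorics of the matrix -/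

section

variable {n : ℕ}

/-- the linear form of the row `l` of `Q` -/
noncomputable def qd (Q : Matrix (Fin n) (Fin n) ℂ) (l : Fin n) (m : Fin n → ℤ) : ℂ :=
  ∑ i, Q l i * (m i : ℂ)

theorem qd_add (Q : Matrix (Fin n) (Fin n) ℂ) (l : Fin n) (m m' : Fin n → ℤ) :
    qd Q l (m + m') = qd Q l m + qd Q l m' := by
  simp only [qd, Pi.add_apply, Int.cast_add, mul_add, Finset.sum_add_distrib]

theorem qd_sub (Q : Matrix (Fin n) (Fin n) ℂ) (l : Fin n) (m m' : Fin n → ℤ) :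
    qd Q l (m - m') = qd Q l m - qd Q l m' := by
  simp only [qd, Pi.sub_apply, Int.cast_sub, mul_sub, Finset.sum_sub_distrib]

theorem qd_sum {ι : Type} (S : Finset ι) (Q : Matrix (Fin n) (Fin n) ℂ) (l : Fin n)
    (m : ι → Fin n → ℤ) : qd Q l (∑ i ∈ S, m i) = ∑ i ∈ S, qd Q l (m i) := by
  classical
  induction S using Finset.induction_on with
  | empty => simp [qd]
  | insert a s ha ih => rw [Finset.sum_insert ha, Finset.sum_insert ha, qd_add, ih]

variable {s r : ℕ} {A : Matrix (Fin n) (Fin n) ℤ} {P Q : Matrix (Fin n) (Fin n) ℂ}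
  {η : Fin n → ℂ} {κ : Fin s → Fin n}

theorem qd_A (hd : IsDiag r A P Q η κ) (l : Fin n) (m : Fin n → ℤ) :
    qd Q l (A.mulVec m) = η l * qd Q l m := by
  have h := congrFun (congrArg Matrix.mulVec hd.left) (fun i => (m i : ℂ))
  have h1 := congrFun h l
  rw [← Matrix.mulVec_mulVec, ← Matrix.mulVec_mulVec, Matrix.mulVec_diagonal] at h1
  have h2 : (A.map (Int.cast : ℤ → ℂ)).mulVec (fun i => (m i : ℂ)) =
      fun i => ((A.mulVec m i : ℤ) : ℂ) := by
    funext i
    simp [Matrix.mulVec, dotProduct]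
  rw [h2] at h1
  exact h1

theorem qd_Apow (hd : IsDiag r A P Q η κ) (l : Fin n) (m : Fin n → ℤ) (j : ℕ) :
    qd Q l ((A ^ j).mulVec m) = η l ^ j * qd Q l m := by
  induction j with
  | zero => simp
  | succ j ih => rw [pow_succ', ← Matrix.mulVec_mulVec, qd_A hd, ih, pow_succ']; ring

/-- the sum of the orbit -/
def NA (r : ℕ) (A : Matrix (Fin n) (Fin n) ℤ) (m : Fin n → ℤ) : Fin n → ℤ :=
  ∑ j ∈ Finset.range r, (A ^ j).mulVec m

theorem NA_add (m m' : Fin n → ℤ) : NA r A (m + m') = NA r A m + NA r A m' := by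
  simp only [NA, Matrix.mulVec_add, Finset.sum_add_distrib]

theorem NA_sub (m m' : Fin n → ℤ) : NA r A (m - m') = NA r A m - NA r A m' := by
  simp only [NA, Matrix.mulVec_sub, Finset.sum_sub_distrib]

theorem NA_A (hd : IsDiag r A P Q η κ) (m : Fin n → ℤ) : NA r A (A.mulVec m) = NA r A m := by
  have h1 : ∀ j, (A ^ j).mulVec (A.mulVec m) = (A ^ (j + 1)).mulVec m := by
    intro j
    rw [Matrix.mulVec_mulVec, ← pow_succ]
  simp only [NA, h1]
  have h2 := Finset.sum_range_succ (fun j => (A ^ j).mulVec m) r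
  have h3 := Finset.sum_range_succ' (fun j => (A ^ j).mulVec m) r
  rw [h2, hd.pow, pow_zero] at h3
  exact (add_right_cancel h3).symm

theorem qd_NA (hd : IsDiag r A P Q η κ) {l : Fin n} (hl : η l = 1) (m : Fin n → ℤ) :
    qd Q l (NA r A m) = r * qd Q l m := by
  rw [NA, qd_sum]
  simp only [qd_Apow hd, hl, one_pow, one_mul, Finset.sum_const, Finset.card_range, nsmul_eq_mul]

theorem pr_vecMul (m W : Fin n → ℤ) (A : Matrix (Fin n) (Fin n) ℤ) :
    pr (A.mulVec m) W = pr m (Matrix.vecMul W A) := by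
  simp only [pr, Matrix.mulVec, dotProduct, Matrix.vecMul, Finset.sum_mul, Finset.mul_sum]
  rw [Finset.sum_comm]
  exact Finset.sum_congr rfl fun i _ => Finset.sum_congr rfl fun j _ => by ring

theorem pr_A {W : Fin n → ℤ} (hW : Matrix.vecMul W A = W) (m : Fin n → ℤ) :
    pr (A.mulVec m) W = pr m W := by rw [pr_vecMul, hW]

end

/-! ### coefficientwise derivations and rotations -/

section

variable {Ω : Type} [Field Ω] [Algebra ℂ Ω]

theorem cw_single {D : Derivation ℂ Ω Ω}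
    {D' : Derivation ℂ (LaurentSeries Ω) (LaurentSeries Ω)}
    (h : ∀ (F : LaurentSeries Ω) (n : ℤ), (D' F).coeff n = D (F.coeff n)) (a : ℤ) (u : Ω) :
    D' (single a u) = single a (D u) := by
  ext i
  rw [h]
  by_cases hi : i = a
  · rw [hi, coeff_single_same, coeff_single_same]
  · rw [coeff_single_of_ne hi, coeff_single_of_ne hi, map_zero]

theorem cw_EE {D : Derivation ℂ Ω Ω}
    {D' : Derivation ℂ (LaurentSeries Ω) (LaurentSeries Ω)}
    (h : ∀ (F : LaurentSeries Ω) (n : ℤ), (D' F).coeff n = D (F.coeff n)) {V : ℕ} (hV : 0 < V)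
    (c : Ω) [CharZero Ω] : D' (ofPowerSeries ℤ Ω (EE V c)) =
      single (V : ℤ) (D c) * ofPowerSeries ℤ Ω (EE V c) := by
  have e : (single (V : ℤ) (D c) : LaurentSeries Ω) =
      ofPowerSeries ℤ Ω (PowerSeries.C (D c) * PowerSeries.X ^ V) := by
    rw [map_mul, ofPowerSeries_C, ofPowerSeries_X_pow, HahnSeries.C_apply, single_mul_single, zero_add, mul_one]
  rw [e, ← map_mul]
  ext i
  rw [h, PowerSeries.coeff_coe, PowerSeries.coeff_coe]
  split_ifs with hi
  · rw [map_zero]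
  · exact EE_der D hV c _

theorem cw_prod {D : Derivation ℂ Ω Ω}
    {D' : Derivation ℂ (LaurentSeries Ω) (LaurentSeries Ω)}
    (h : ∀ (F : LaurentSeries Ω) (n : ℤ), (D' F).coeff n = D (F.coeff n)) {ι : Type}
    (S : Finset ι) {V : ι → ℕ} (hV : ∀ i, 0 < V i) (c : ι → Ω) [CharZero Ω] :
    D' (∏ i ∈ S, ofPowerSeries ℤ Ω (EE (V i) (c i))) =
      (∑ i ∈ S, single (V i : ℤ) (D (c i))) * ∏ i ∈ S, ofPowerSeries ℤ Ω (EE (V i) (c i)) := by
  classical
  induction S using Finset.induction_on with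
  | empty => simp
  | insert a s ha ih =>
    rw [Finset.prod_insert ha, Finset.sum_insert ha, D'.leibniz, ih, cw_EE h (hV a)]
    simp only [smul_eq_mul]
    ring

theorem cw_order {D : Derivation ℂ Ω Ω}
    {D' : Derivation ℂ (LaurentSeries Ω) (LaurentSeries Ω)}
    (h : ∀ (F : LaurentSeries Ω) (n : ℤ), (D' F).coeff n = D (F.coeff n)) {F : LaurentSeries Ω}
    (h0 : D' F ≠ 0) : F.order ≤ (D' F).order := by
  by_contra hc
  push Not at hc
  have h1 := coeff_eq_zero_of_lt_order hc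
  have h2 : (D' F).coeff (D' F).order ≠ 0 := mt coeff_order_eq_zero.mp h0
  rw [h, h1, map_zero] at h2
  exact h2 rfl

theorem rot_single {ζ : Ω} {S : LaurentSeries Ω →+* LaurentSeries Ω}
    (h : ∀ (F : LaurentSeries Ω) (n : ℤ), (S F).coeff n = ζ ^ n * F.coeff n) (a : ℤ) (u : Ω) :
    S (single a u) = single a (ζ ^ a * u) := by
  ext i
  rw [h]
  by_cases hi : i = a
  · rw [hi, coeff_single_same, coeff_single_same]
  · rw [coeff_single_of_ne hi, coeff_single_of_ne hi, mul_zero]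

theorem rot_ps {ζ : Ω} {S : LaurentSeries Ω →+* LaurentSeries Ω}
    (h : ∀ (F : LaurentSeries Ω) (n : ℤ), (S F).coeff n = ζ ^ n * F.coeff n) (G : PowerSeries Ω) :
    S (ofPowerSeries ℤ Ω G) = ofPowerSeries ℤ Ω (PowerSeries.rescale ζ G) := by
  ext i
  rw [h, PowerSeries.coeff_coe, PowerSeries.coeff_coe]
  split_ifs with hi
  · rw [mul_zero]
  · rw [PowerSeries.coeff_rescale]
    obtain ⟨j, rfl⟩ := Int.eq_ofNat_of_zero_le (not_lt.mp hi)
    simp

end

/-! ### the eigenvectors -/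

section

variable {n s : ℕ} (Ω : Type) [Field Ω] [Algebra ℂ Ω]
  [Algebra (MvPolynomial (Fin (n + s)) ℂ) Ω] [IsFractionRing (MvPolynomial (Fin (n + s)) ℂ) Ω]
  [IsScalarTower ℂ (MvPolynomial (Fin (n + s)) ℂ) Ω]

/-- the auxiliary variables -/
noncomputable def bb (n : ℕ) {s : ℕ} (Ω : Type) [Field Ω] [Algebra ℂ Ω]
  [Algebra (MvPolynomial (Fin (n + s)) ℂ) Ω] [IsFractionRing (MvPolynomial (Fin (n + s)) ℂ) Ω]
  [IsScalarTower ℂ (MvPolynomial (Fin (n + s)) ℂ) Ω] (i : Fin s) : Ω := cv Ω (Fin.natAdd n i)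

/-- the leading monomial -/
noncomputable def base (r : ℕ) (A : Matrix (Fin n) (Fin n) ℤ) (m : Fin n → ℤ) : Ω :=
  ym Ω (Fin.append (NA r A m) (0 : Fin s → ℤ))

/-- the exponential factor -/
noncomputable def EP (Q : Matrix (Fin n) (Fin n) ℂ) (κ : Fin s → Fin n) (V : Fin s → ℤ)
    (h : Fin s → ℂ) (m : Fin n → ℤ) : PowerSeries Ω :=
  ∏ i, EE (V i).toNat (algebraMap ℂ Ω (h i * qd Q (κ i) m) * bb n Ω i)

/-- the eigenvectors -/
noncomputable def Phi (r : ℕ) (A : Matrix (Fin n) (Fin n) ℤ) (Q : Matrix (Fin n) (Fin n) ℂ)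
    (κ : Fin s → Fin n) (W : Fin n → ℤ) (V : Fin s → ℤ) (z : ℂ) (h : Fin s → ℂ)
    (m : Fin n → ℤ) : LaurentSeries Ω :=
  single (pr m W) (algebraMap ℂ Ω z * base (s := s) Ω r A m) *
    ofPowerSeries ℤ Ω (EP Ω Q κ V h m)

variable {Ω}
variable {r : ℕ} {A : Matrix (Fin n) (Fin n) ℤ} {P Q : Matrix (Fin n) (Fin n) ℂ}
  {η : Fin n → ℂ} {κ : Fin s → Fin n} {W : Fin n → ℤ} {V : Fin s → ℤ}

theorem append_add (u v : Fin n → ℤ) (a b : Fin s → ℤ) :
    Fin.append (u + v) (a + b) = Fin.append u a + Fin.append v b := by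
  funext i
  refine Fin.addCases (fun i => ?_) (fun i => ?_) i
  · simp [Fin.append_left]
  · simp [Fin.append_right]

theorem base_add (m m' : Fin n → ℤ) : base (s := s) Ω r A (m + m') =
    base (s := s) Ω r A m * base (s := s) Ω r A m' := by
  rw [base, base, base, ← ym_add, ← append_add, NA_add, add_zero]

theorem base_ne (m : Fin n → ℤ) : base (s := s) Ω r A m ≠ 0 := ym_ne _

include Ω in
theorem charZ : CharZero Ω := charZero_of_injective_algebraMap (algebraMap ℂ Ω).injective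

theorem EP_const (hV : ∀ i, 0 < V i) (h : Fin s → ℂ) (m : Fin n → ℤ) :
    PowerSeries.constantCoeff (EP Ω Q κ V h m) = 1 := by
  have : CharZero Ω := charZ (Ω := Ω)
  rw [EP, map_prod]
  refine Finset.prod_eq_one fun i _ => ?_
  rw [EE_const (by have := hV i; omega)]

theorem EP_add (hV : ∀ i, 0 < V i) (h : Fin s → ℂ) (m m' : Fin n → ℤ) :
    EP Ω Q κ V h (m + m') = EP Ω Q κ V h m * EP Ω Q κ V h m' := by
  have : CharZero Ω := charZ (Ω := Ω)
  rw [EP, EP, EP, ← Finset.prod_mul_distrib]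
  refine Finset.prod_congr rfl fun i _ => ?_
  rw [← EE_add (by have := hV i; omega), qd_add, mul_add, map_add, add_mul]

theorem Phi_add (hV : ∀ i, 0 < V i) (z z' : ℂ) (h : Fin s → ℂ) (m m' : Fin n → ℤ) :
    Phi Ω r A Q κ W V (z * z') h (m + m') =
      Phi Ω r A Q κ W V z h m * Phi Ω r A Q κ W V z' h m' := by
  rw [Phi, Phi, Phi, EP_add hV, base_add, pr_add, map_mul (algebraMap ℂ Ω),
    map_mul (ofPowerSeries ℤ Ω)]
  have : (single (pr m W + pr m' W) (algebraMap ℂ Ω z * algebraMap ℂ Ω z' *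
      (base (s := s) Ω r A m * base (s := s) Ω r A m')) : LaurentSeries Ω) =
      single (pr m W) (algebraMap ℂ Ω z * base (s := s) Ω r A m) *
        single (pr m' W) (algebraMap ℂ Ω z' * base (s := s) Ω r A m') := by
    rw [single_mul_single]
    congr 1
    ring
  rw [this]
  ring

theorem Phi_lead (hV : ∀ i, 0 < V i) (z : ℂ) (h : Fin s → ℂ) (m : Fin n → ℤ) :
    Lead (Phi Ω r A Q κ W V z h m) (pr m W) (algebraMap ℂ Ω z * base (s := s) Ω r A m) := by
  have := (lead_single (pr m W) (algebraMap ℂ Ω z * base (s := s) Ω r A m)).mul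
    (lead_ps (EP Ω Q κ V h m))
  rwa [add_zero, EP_const hV, mul_one] at this

theorem lc_ne {z : ℂ} (hz : z ≠ 0) (m : Fin n → ℤ) :
    algebraMap ℂ Ω z * base (s := s) Ω r A m ≠ 0 :=
  mul_ne_zero ((map_ne_zero _).mpr hz) (base_ne m)

theorem Phi_ne (hV : ∀ i, 0 < V i) {z : ℂ} (hz : z ≠ 0) (h : Fin s → ℂ) (m : Fin n → ℤ) :
    Phi Ω r A Q κ W V z h m ≠ 0 := (Phi_lead hV z h m).ne_zero (lc_ne hz m)

theorem Phi_z (z z' : ℂ) (h : Fin s → ℂ) (m : Fin n → ℤ) :
    Phi Ω r A Q κ W V (z * z') h m =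
      algebraMap ℂ (LaurentSeries Ω) z * Phi Ω r A Q κ W V z' h m := by
  rw [Phi, Phi, HahnSeries.algebraMap_apply', PowerSeries.algebraMap_apply, ofPowerSeries_C,
    HahnSeries.C_apply, ← mul_assoc, single_mul_single, zero_add, map_mul (algebraMap ℂ Ω),
    mul_assoc (algebraMap ℂ Ω z)]

/-- the rotation -/
theorem Phi_rot (hV : ∀ i, 0 < V i) {ζ : ℂ} {S : LaurentSeries Ω →+* LaurentSeries Ω}
    (hS : ∀ (F : LaurentSeries Ω) (n : ℤ), (S F).coeff n = (algebraMap ℂ Ω ζ) ^ n * F.coeff n)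
    (z : ℂ) (h : Fin s → ℂ) (m : Fin n → ℤ) :
    S (Phi Ω r A Q κ W V z h m) =
      Phi Ω r A Q κ W V (ζ ^ pr m W * z) (fun i => ζ ^ V i * h i) m := by
  have : CharZero Ω := charZ (Ω := Ω)
  rw [Phi, map_mul, rot_single hS, rot_ps hS, Phi]
  congr 1
  · congr 1
    rw [map_mul, map_zpow₀, mul_assoc]
  · congr 1
    rw [EP, EP, map_prod]
    refine Finset.prod_congr rfl fun i _ => ?_
    rw [EE_rescale (by have := hV i; omega)]
    congr 1
    have : ζ ^ V i = ζ ^ (V i).toNat := by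
      rw [← zpow_natCast, Int.toNat_of_nonneg (hV i).le]
    rw [this]
    simp only [map_mul, map_pow]
    ring

end

end ThC

end Pool.Agent.Helper58K9.QT
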