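import Mathlib
import Pool.Agent.Helper58K9.QT.ThC

/-!
# [THETA, part D] Derivations and logarithms
-/

set_option autoImplicit false
set_option linter.unusedSectionVars false

namespace Pool.Agent.Helper58K9.QT

open Pool.Agent.H436R3.Fol Pool.Agent.H436R3.KT Pool.Agent.W497.Mld Pool.Agent.TH165.ACC
  MvPolynomial

namespace ThD

open ThA ThB ThC HahnSeries

variable {n s : ℕ} {Ω : Type} [Field Ω] [Algebra ℂ Ω]
  [Algebra (MvPolynomial (Fin (n + s)) ℂ) Ω] [IsFractionRing (MvPolynomial (Fin (n + s)) ℂ) Ω]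
  [IsScalarTower ℂ (MvPolynomial (Fin (n + s)) ℂ) Ω]

variable {r : ℕ} {A : Matrix (Fin n) (Fin n) ℤ} {P Q : Matrix (Fin n) (Fin n) ℂ}
  {η : Fin n → ℂ} {κ : Fin s → Fin n} {W : Fin n → ℤ} {V : Fin s → ℤ}

/-- a coefficientwise derivation applied to an eigenvector -/
theorem cw_Phi (hV : ∀ i, 0 < V i) {D : Derivation ℂ Ω Ω}
    {D' : Derivation ℂ (LaurentSeries Ω) (LaurentSeries Ω)}
    (h : ∀ (F : LaurentSeries Ω) (n : ℤ), (D' F).coeff n = D (F.coeff n)) (m : Fin n → ℤ)
    {β : ℂ} (hβ : D (base (s := s) Ω r A m) = algebraMap ℂ Ω β * base (s := s) Ω r A m)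
    {g : Fin s → ℂ} (hg : ∀ i, D (bb n Ω i) = algebraMap ℂ Ω (g i)) (z : ℂ) :
    D' (Phi Ω r A Q κ W V z (fun _ => 1) m) =
      (algebraMap ℂ (LaurentSeries Ω) β +
        ∑ i, single (V i) (algebraMap ℂ Ω (g i * qd Q (κ i) m))) *
        Phi Ω r A Q κ W V z (fun _ => 1) m := by
  have : CharZero Ω := charZ (Ω := Ω)
  have h1 : D (algebraMap ℂ Ω z * base (s := s) Ω r A m) =
      algebraMap ℂ Ω β * (algebraMap ℂ Ω z * base (s := s) Ω r A m) := by
    rw [D.leibniz, Derivation.map_algebraMap, hβ, smul_zero, add_zero, smul_eq_mul]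
    ring
  have h2 : (single (pr m W) (algebraMap ℂ Ω β * (algebraMap ℂ Ω z * base (s := s) Ω r A m)) :
      LaurentSeries Ω) = algebraMap ℂ (LaurentSeries Ω) β *
        single (pr m W) (algebraMap ℂ Ω z * base (s := s) Ω r A m) := by
    rw [HahnSeries.algebraMap_apply', PowerSeries.algebraMap_apply, ofPowerSeries_C,
      HahnSeries.C_apply, single_mul_single, zero_add]
  have h3 : D' (ofPowerSeries ℤ Ω (EP Ω Q κ V (fun _ => 1) m)) =
      (∑ i, single (V i) (algebraMap ℂ Ω (g i * qd Q (κ i) m))) *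
        ofPowerSeries ℤ Ω (EP Ω Q κ V (fun _ => 1) m) := by
    rw [EP, map_prod, cw_prod h _ (fun i => by have := hV i; omega)]
    congr 1
    refine Finset.sum_congr rfl fun i _ => ?_
    rw [Int.toNat_of_nonneg (hV i).le, D.leibniz, Derivation.map_algebraMap, hg, smul_zero,
      add_zero, smul_eq_mul, one_mul, ← map_mul, mul_comm]
  rw [ThC.Phi, D'.leibniz, cw_single h, h1, h2, h3]
  simp only [smul_eq_mul]
  ring

theorem D_base_x (l : Fin n) (m : Fin n → ℤ) (ρ : ℂ) :
    (∑ i, algebraMap ℂ Ω (ρ * Q l i) • tor Ω (Fin.castAdd s i) : Derivation ℂ Ω Ω)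
      (base (s := s) Ω r A m) =
      algebraMap ℂ Ω (ρ * qd Q l (NA r A m)) * base (s := s) Ω r A m := by
  rw [der_sum_apply]
  simp only [base, tor_ym, Fin.append_left]
  rw [qd, Finset.mul_sum, map_sum, Finset.sum_mul]
  refine Finset.sum_congr rfl fun i _ => ?_
  simp only [map_mul, map_intCast]
  ring

theorem D_bb_x (l : Fin n) (ρ : ℂ) (i : Fin s) :
    (∑ i, algebraMap ℂ Ω (ρ * Q l i) • tor Ω (Fin.castAdd s i) : Derivation ℂ Ω Ω)
      (bb n Ω i) = algebraMap ℂ Ω 0 := by
  rw [der_sum_apply, map_zero]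
  refine Finset.sum_eq_zero fun j _ => ?_
  rw [bb, tor_cv, if_neg, mul_zero]
  intro h
  have := congrArg Fin.val h
  simp at this
  omega

theorem D_base_b (i : Fin s) (m : Fin n → ℤ) :
    pd Ω (Fin.natAdd n i) (base (s := s) Ω r A m) =
      algebraMap ℂ Ω 0 * base (s := s) Ω r A m := by
  have h1 : tor Ω (Fin.natAdd n i) (base (s := s) Ω r A m) = 0 := by
    rw [base, tor_ym, Fin.append_right]
    simp
  rw [tor, Derivation.smul_apply, smul_eq_mul] at h1
  rw [map_zero, zero_mul]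
  exact (mul_eq_zero.mp h1).resolve_left (cv_ne _)

theorem D_bb_b (i j : Fin s) :
    pd Ω (Fin.natAdd n i) (bb n Ω j) = algebraMap ℂ Ω (if i = j then 1 else 0) := by
  rw [bb, pd_cv]
  by_cases h : i = j
  · rw [if_pos h, if_pos (by rw [h]), map_one]
  · rw [if_neg h, if_neg, map_zero]
    intro h'
    apply h
    have := congrArg Fin.val h'
    simp at this
    exact Fin.ext this

/-- derivations of a field (this fixes the module structure) -/
abbrev Der (F : Type) [Field F] [Algebra ℂ F] : Type := Derivation ℂ F F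

theorem mkDer {F : Type} [Field F] [Algebra ℂ F] (d : F → F) (hadd : ∀ a b, d (a + b) = d a + d b)
    (hmul : ∀ a b, d (a * b) = a * d b + b * d a) (hc : ∀ c : ℂ, d (algebraMap ℂ F c) = 0) :
    ∃ E : Der F, ∀ a, E a = d a := by
  refine ⟨Derivation.mk' { toFun := d, map_add' := hadd, map_smul' := ?_ } ?_, fun F => rfl⟩
  · intro c a
    rw [Algebra.smul_def, Algebra.smul_def, hmul, hc, mul_zero, add_zero, RingHom.id_apply]
  · intro a b
    exact hmul a b

theorem std (D' : Derivation ℂ (LaurentSeries Ω) (LaurentSeries Ω)) (u : LaurentSeries Ω) :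
    ∃ E : Der (LaurentSeries Ω), ∀ F, E F = u * D' F := by
  refine mkDer (fun F => u * D' F) ?_ ?_ ?_
  · intro a b
    change u * D' (a + b) = u * D' a + u * D' b
    rw [map_add, mul_add]
  · intro a b
    change u * D' (a * b) = a * (u * D' b) + b * (u * D' a)
    rw [D'.leibniz]
    simp only [smul_eq_mul]
    ring
  · intro c
    change u * D' (algebraMap ℂ _ c) = 0
    rw [Derivation.map_algebraMap, mul_zero]

/-- the derivation of the Laurent series which belongs to the row `l` of `Q` -/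
theorem exists_E (hd : IsDiag r A P Q η κ) (hV : ∀ i, 0 < V i) (l : Fin n) :
    ∃ E : Der (LaurentSeries Ω),
      (∀ z m, E (Phi Ω r A Q κ W V z (fun _ => 1) m) =
        algebraMap ℂ (LaurentSeries Ω) (qd Q l m) * Phi Ω r A Q κ W V z (fun _ => 1) m) ∧
      (η l = 1 → ∀ F : LaurentSeries Ω, E F ≠ 0 → F.order ≤ (E F).order) ∧
      (∀ i, κ i = l → ∀ F : LaurentSeries Ω, E F ≠ 0 → F.order ≤ (E F).order + V i) := by
  by_cases hl : η l = 1
  · obtain ⟨E', hE⟩ := exists_cw
      (∑ i, algebraMap ℂ Ω ((r : ℂ)⁻¹ * Q l i) • tor Ω (Fin.castAdd s i) : Derivation ℂ Ω Ω)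
    obtain ⟨E, hE'⟩ := std E' 1
    simp only [one_mul] at hE'
    refine ⟨E, fun z m => ?_, fun _ F h0 => ?_, fun i hi => ?_⟩
    · rw [hE', cw_Phi hV hE m (D_base_x l m _) (D_bb_x l _) z]
      congr 1
      have hr : (r : ℂ) ≠ 0 := Nat.cast_ne_zero.mpr hd.pos.ne'
      rw [qd_NA hd hl, ← mul_assoc, inv_mul_cancel₀ hr, one_mul]
      simp
    · rw [hE'] at h0 ⊢
      exact cw_order hE h0
    · exact absurd hl ((hd.ran l).mp ⟨i, hi⟩)
  · obtain ⟨i, hi⟩ := (hd.ran l).mpr hl
    obtain ⟨E', hE⟩ := exists_cw (pd Ω (Fin.natAdd n i) : Derivation ℂ Ω Ω)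
    obtain ⟨E, hE'⟩ := std E' (single (-V i) (1 : Ω))
    refine ⟨E, fun z m => ?_, fun h => absurd h hl, fun i' hi' F h0 => ?_⟩
    · rw [hE', cw_Phi hV hE m (D_base_b i m) (D_bb_b i) z]
      rw [← mul_assoc]
      congr 1
      rw [map_zero, zero_add, Finset.sum_eq_single i]
      · rw [if_pos rfl, one_mul, single_mul_single, neg_add_cancel, one_mul,
          HahnSeries.algebraMap_apply', PowerSeries.algebraMap_apply, ofPowerSeries_C,
          HahnSeries.C_apply, hi]
      · intro j _ hj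
        rw [if_neg hj.symm, zero_mul, map_zero, map_zero]
      · intro h; exact absurd (Finset.mem_univ i) h
    · have : i' = i := hd.inj (hi'.trans hi.symm)
      subst this
      rw [hE'] at h0 ⊢
      have h1 : E' F ≠ 0 := right_ne_zero_of_mul h0
      have h2 := cw_order hE h1
      have h3 : (single (-V i') (1 : Ω) * E' F).order = -V i' + (E' F).order := by
        rw [order_mul (left_ne_zero_of_mul h0) h1, order_single one_ne_zero]
      rw [h3]
      omega

/-! ### logarithms -/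

/-- the truncated logarithm -/
noncomputable def lg {K : Type} [Field K] [Algebra ℂ K] (N : ℕ) (y : K) : K :=
  ∑ i ∈ Finset.range N, algebraMap ℂ K ((-1) ^ i / ((i : ℂ) + 1)) * (y - 1) ^ (i + 1)

/-- the exponent -/
noncomputable def lam (n : ℕ) {s : ℕ} (Ω : Type) [Field Ω] [Algebra ℂ Ω]
  [Algebra (MvPolynomial (Fin (n + s)) ℂ) Ω] [IsFractionRing (MvPolynomial (Fin (n + s)) ℂ) Ω]
  [IsScalarTower ℂ (MvPolynomial (Fin (n + s)) ℂ) Ω]
  (V : Fin s → ℤ) (c : Fin s → ℂ) : PowerSeries Ω :=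
  ∑ i, PowerSeries.C (algebraMap ℂ Ω (c i) * bb n Ω i) * PowerSeries.X ^ (V i).toNat

theorem prod_deriv (hV : ∀ i, 0 < V i) (S : Finset (Fin s)) (c : Fin s → Ω) :
    PowerSeries.derivative Ω (∏ i ∈ S, EE (V i).toNat (c i)) =
      PowerSeries.derivative Ω (∑ i ∈ S, PowerSeries.C (c i) * PowerSeries.X ^ (V i).toNat) *
        ∏ i ∈ S, EE (V i).toNat (c i) := by
  classical
  have : CharZero Ω := charZ (Ω := Ω)
  induction S using Finset.induction_on with
  | empty => simp
  | insert a S ha ih =>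
    have hVa : 0 < (V a).toNat := by have := hV a; omega
    rw [Finset.prod_insert ha, Finset.sum_insert ha, Derivation.leibniz, ih, map_add,
      EE_deriv hVa, Derivation.leibniz, Derivation.leibniz_pow, PowerSeries.derivative_C]
    simp only [smul_eq_mul, mul_zero, add_zero, PowerSeries.derivative_X]
    rw [map_mul, map_natCast, nsmul_eq_mul]
    ring

theorem lg_EP (hV : ∀ i, 0 < V i) (h : Fin s → ℂ) (m : Fin n → ℤ) (N : ℕ) :
    (PowerSeries.X : PowerSeries Ω) ^ (N + 1) ∣
      (∑ i ∈ Finset.range N, PowerSeries.C ((-1) ^ i / ((i : Ω) + 1)) *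
        (EP Ω Q κ V h m - 1) ^ (i + 1)) - lam n Ω V (fun i => h i * qd Q (κ i) m) := by
  have : CharZero Ω := charZ (Ω := Ω)
  refine log_trunc (EP_const hV h m) ?_ ?_ N
  · rw [lam, map_sum]
    refine Finset.sum_eq_zero fun i _ => ?_
    have hVi : (V i).toNat ≠ 0 := by have := hV i; omega
    rw [map_mul, map_pow, PowerSeries.constantCoeff_X, zero_pow hVi, mul_zero]
  · exact prod_deriv hV _ _

end ThD

end Pool.Agent.Helper58K9.QT
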