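import Mathlib
import Pool.Agent.Helper58K9.QT.Defs

/-!
# [TOR] Residues of monomial valuations and of prime divisors which meet the torus
-/

set_option autoImplicit false

namespace Pool.Agent.Helper58K9.QT

open Pool.Agent.H436R3.Fol Pool.Agent.H436R3.KT Pool.Agent.W497.Mld Pool.Agent.TH165.ACC
  MvPolynomial

variable {n k : ℕ} {K : Type} [Field K] [Algebra ℂ K]
  [Algebra (MvPolynomial (Fin n) ℂ) K] [IsFractionRing (MvPolynomial (Fin n) ℂ) K]
  [IsScalarTower ℂ (MvPolynomial (Fin n) ℂ) K]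

theorem ym_sum {ι : Type} (S : Finset ι) (f : ι → Fin n → ℤ) :
    ym K (∑ i ∈ S, f i) = ∏ i ∈ S, ym K (f i) := by
  classical
  induction S using Finset.induction_on with
  | empty => rw [Finset.sum_empty, Finset.prod_empty, ym_zero]
  | insert a S ha ih => rw [Finset.sum_insert ha, Finset.prod_insert ha, ym_add, ih]

theorem ym_nsmul (N : ℕ) (m : Fin n → ℤ) : ym K (N • m) = ym K m ^ N := by
  induction N with
  | zero => rw [zero_smul, ym_zero, pow_zero]
  | succ N ih => rw [add_smul, one_smul, ym_add, ih, pow_succ]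

/-- Laurent polynomials as polynomials divided by monomials -/
theorem laur (T : Finset (Fin n → ℤ)) (a : (Fin n → ℤ) → ℂ) :
    ∃ (M : Fin n →₀ ℕ) (h : MvPolynomial (Fin n) ℂ),
      (∑ m ∈ T, algebraMap ℂ K (a m) * ym K m) * ym K (ex M) = jo (Fin n) K h ∧
      (∀ m ∈ T, ∃ s : Fin n →₀ ℕ, ex s = m + ex M ∧ h.coeff s = a m) ∧
      ∀ s ∈ h.support, ∃ m ∈ T, ex s = m + ex M ∧ a m ≠ 0 := by
  classical
  let M : Fin n →₀ ℕ := Finsupp.equivFunOnFinite.symm fun i => ∑ m ∈ T, (m i).natAbs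
  let s : (Fin n → ℤ) → (Fin n →₀ ℕ) := fun m =>
    Finsupp.equivFunOnFinite.symm fun i => (m i + ex M i).toNat
  have hs : ∀ m ∈ T, ex (s m) = m + ex M := by
    intro m hm
    funext i
    have h1 : (m i).natAbs ≤ ∑ m ∈ T, (m i).natAbs :=
      Finset.single_le_sum (f := fun m : Fin n → ℤ => (m i).natAbs) (fun _ _ => Nat.zero_le _) hm
    have h2 : ex M i = ((∑ m ∈ T, (m i).natAbs : ℕ) : ℤ) := rfl
    have h3 : ex (s m) i = (((m i + ex M i).toNat : ℕ) : ℤ) := rfl
    rw [h3, Pi.add_apply, Int.toNat_of_nonneg]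
    rw [h2]
    omega
  have hinj : ∀ m ∈ T, ∀ m' ∈ T, s m = s m' → m = m' := by
    intro m hm m' hm' h
    have h1 := hs m hm
    rw [h, hs m' hm'] at h1
    exact (add_right_cancel h1).symm
  refine ⟨M, ∑ m ∈ T, monomial (s m) (a m), ?_, ?_, ?_⟩
  · rw [map_sum, Finset.sum_mul]
    refine Finset.sum_congr rfl fun m hm => ?_
    rw [jo_monomial, hs m hm, ym_add, mul_assoc]
  · intro m hm
    refine ⟨s m, hs m hm, ?_⟩
    rw [coeff_sum, Finset.sum_eq_single m]
    · rw [coeff_monomial, if_pos rfl]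
    · intro m' hm' hne
      rw [coeff_monomial, if_neg fun h => hne (hinj _ hm' _ hm h)]
    · intro h
      exact absurd hm h
  · intro t ht
    rw [mem_support_iff, coeff_sum] at ht
    obtain ⟨m, hm, hm'⟩ := Finset.exists_ne_zero_of_sum_ne_zero ht
    rw [coeff_monomial] at hm'
    by_cases h : s m = t
    · rw [if_pos h] at hm'
      exact ⟨m, hm, by rw [← h]; exact hs m hm, hm'⟩
    · rw [if_neg h] at hm'
      exact absurd rfl hm'

/-- polynomials in Laurent monomials with independent exponents -/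
theorem aeval_ym {μ : Fin k → Fin n → ℤ} (hμ : LinearIndependent ℤ μ) {c : Fin k → ℂ}
    (hc : ∀ i, c i ≠ 0) {p : MvPolynomial (Fin k) ℂ} (hp : p ≠ 0) :
    ∃ (T : Finset (Fin n → ℤ)) (a : (Fin n → ℤ) → ℂ),
      aeval (fun i => algebraMap ℂ K (c i) * ym K (μ i)) p =
        ∑ m ∈ T, algebraMap ℂ K (a m) * ym K m ∧ (∃ m ∈ T, a m ≠ 0) ∧
      ∀ m ∈ T, ∃ s : Fin k → ℤ, m = ∑ i, s i • μ i := by
  classical
  let lam : (Fin k →₀ ℕ) → (Fin n → ℤ) := fun s => ∑ i, s i • μ i
  have hinj : Function.Injective lam := by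
    intro s t h
    rw [Fintype.linearIndependent_iff] at hμ
    have h1 : ∑ i, ((s i : ℤ) - (t i : ℤ)) • μ i = 0 := by
      have h2 : ∑ i, s i • μ i = ∑ i, t i • μ i := h
      simp only [sub_smul, Finset.sum_sub_distrib, natCast_zsmul]
      rw [h2, sub_self]
    have h2 := hμ _ h1
    ext i
    have := h2 i
    omega
  let b : (Fin k →₀ ℕ) → ℂ := fun s => p.coeff s * ∏ i, c i ^ s i
  have hb : ∀ s ∈ p.support, b s ≠ 0 := fun s hs =>
    mul_ne_zero (mem_support_iff.1 hs) (Finset.prod_ne_zero_iff.2 fun i _ => pow_ne_zero _ (hc i))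
  have hexp : aeval (fun i => algebraMap ℂ K (c i) * ym K (μ i)) p =
      ∑ s ∈ p.support, algebraMap ℂ K (b s) * ym K (lam s) := by
    rw [aeval_def, eval₂_eq']
    refine Finset.sum_congr rfl fun s _ => ?_
    simp only [mul_pow, Finset.prod_mul_distrib, b, lam]
    rw [map_mul, map_prod, ym_sum]
    simp only [map_pow, ym_nsmul]
    ring
  refine ⟨p.support.image lam, fun m => ∑ s ∈ p.support with lam s = m, b s, ?_, ?_, ?_⟩
  · rw [hexp, ← Finset.sum_fiberwise_of_maps_to
      (fun s hs => Finset.mem_image_of_mem lam hs)]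
    refine Finset.sum_congr rfl fun m _ => ?_
    rw [map_sum, Finset.sum_mul]
    refine Finset.sum_congr rfl fun s hs => ?_
    rw [(Finset.mem_filter.1 hs).2]
  · obtain ⟨s, hs⟩ : p.support.Nonempty := by
      rwa [Finset.nonempty_iff_ne_empty, Ne, support_eq_empty]
    refine ⟨lam s, Finset.mem_image_of_mem lam hs, ?_⟩
    have h1 : (p.support.filter fun t => lam t = lam s) = {s} := by
      ext t
      rw [Finset.mem_filter, Finset.mem_singleton]
      constructor
      · rintro ⟨-, h⟩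
        exact hinj h
      · rintro rfl
        exact ⟨hs, rfl⟩
    change ∑ t ∈ p.support with lam t = lam s, b t ≠ 0
    rw [h1, Finset.sum_singleton]
    exact hb s hs
  · intro m hm
    obtain ⟨s, -, rfl⟩ := Finset.mem_image.1 hm
    exact ⟨fun i => (s i : ℤ), Finset.sum_congr rfl fun i _ => (natCast_zsmul _ _).symm⟩

/-- [MONIND] Laurent monomials with linearly independent exponents are algebraically independent:
a polynomial in them is a Laurent polynomial with as many terms. -/
theorem ym_ind {μ : Fin k → Fin n → ℤ} (hμ : LinearIndependent ℤ μ) {c : Fin k → ℂ}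
    (hc : ∀ i, c i ≠ 0) {p : MvPolynomial (Fin k) ℂ} (hp : p ≠ 0) :
    aeval (fun i => algebraMap ℂ K (c i) * ym K (μ i)) p ≠ 0 := by
  obtain ⟨T, a, h1, ⟨m, hm, ham⟩, -⟩ := aeval_ym (K := K) hμ hc hp
  obtain ⟨M, h, e1, e2, -⟩ := laur (K := K) T a
  rw [h1]
  intro h0
  rw [h0, zero_mul] at e1
  obtain ⟨s, -, hs⟩ := e2 m hm
  have h2 : h ≠ 0 := by
    rintro rfl
    rw [coeff_zero] at hs
    exact ham hs.symm
  exact jo_ne h2 e1.symm

/-- The order of a monomial valuation at a polynomial in Laurent monomials of weight zero. -/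
theorem ord_ym_ind {w : DVal K} (hw : IsMonomial n w) {μ : Fin k → Fin n → ℤ}
    (hμ : LinearIndependent ℤ μ) (h0 : ∀ i, pr (μ i) (tv w) = 0) {p : MvPolynomial (Fin k) ℂ}
    (hp : p ≠ 0) : w.ord (aeval (fun i => ym K (μ i)) p) = 0 := by
  have hfun : (fun i => ym K (μ i)) =
      fun i => algebraMap ℂ K ((fun _ : Fin k => (1 : ℂ)) i) * ym K (μ i) := by
    funext i
    rw [map_one, one_mul]
  rw [hfun]
  have hne := ym_ind (K := K) hμ (c := fun _ => 1) (fun _ => one_ne_zero) hp
  obtain ⟨T, a, h1, ⟨m, hm, ham⟩, hT⟩ :=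
    aeval_ym (K := K) hμ (c := fun _ => 1) (fun _ => one_ne_zero) hp
  obtain ⟨M, h, e1, e2, e3⟩ := laur (K := K) T a
  have hT0 : ∀ m ∈ T, pr m (tv w) = 0 := by
    intro m hm
    obtain ⟨s, rfl⟩ := hT m hm
    have key : ∀ S : Finset (Fin k), pr (∑ i ∈ S, s i • μ i) (tv w) = 0 := by
      classical
      intro S
      induction S using Finset.induction_on with
      | empty => rw [Finset.sum_empty, pr_zero]
      | insert b S hb ih =>
        rw [Finset.sum_insert hb, pr_add, ih, pr_smul, h0, mul_zero, add_zero]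
    exact key _
  obtain ⟨s, -, hs⟩ := e2 m hm
  have h2 : h ≠ 0 := by
    rintro rfl
    rw [coeff_zero] at hs
    exact ham hs.symm
  obtain ⟨t, ht, ht'⟩ := (hw h h2).1
  obtain ⟨m', hm', hts, -⟩ := e3 t ht
  rw [hts, pr_add, hT0 m' hm', zero_add, ← e1, ← h1, w.map_mul _ _ hne (ym_ne _), ord_ym] at ht'
  exact add_eq_right.1 ht'

/-- there are `k` linearly independent vectors orthogonal to a vector in `ℤ^(k+1)` -/
theorem exists_orth (u : Fin (k + 1) → ℤ) :
    ∃ μ : Fin k → Fin (k + 1) → ℤ, LinearIndependent ℤ μ ∧ ∀ i, pr (μ i) u = 0 := by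
  let φ : (Fin (k + 1) → ℤ) →ₗ[ℤ] ℤ :=
    { toFun := fun m => pr m u
      map_add' := fun a b => pr_add a b u
      map_smul' := fun k a => pr_smul k a u }
  have h1 := Submodule.finrank_quotient_add_finrank (LinearMap.ker φ)
  rw [φ.quotKerEquivRange.finrank_eq] at h1
  have h2 : Module.finrank ℤ (LinearMap.range φ) ≤ 1 := by
    have := Submodule.finrank_le (LinearMap.range φ)
    rwa [Module.finrank_self] at this
  rw [Module.finrank_fin_fun] at h1
  have h3 : k ≤ Module.finrank ℤ (LinearMap.ker φ) := by omega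
  let b := Module.finBasis ℤ (LinearMap.ker φ)
  refine ⟨fun i => (b (Fin.castLE h3 i) : Fin (k + 1) → ℤ), ?_, fun i => ?_⟩
  · have h4 : LinearIndependent ℤ fun i : Fin (Module.finrank ℤ (LinearMap.ker φ)) =>
        ((b i : LinearMap.ker φ) : Fin (k + 1) → ℤ) :=
      b.linearIndependent.map' (Submodule.subtype _) (Submodule.ker_subtype _)
    exact h4.comp _ (Fin.castLE_injective h3)
  · exact (b (Fin.castLE h3 i)).2

section

variable {K : Type} [Field K] [Algebra ℂ K]
  [Algebra (MvPolynomial (Fin (k + 1)) ℂ) K] [IsFractionRing (MvPolynomial (Fin (k + 1)) ℂ) K]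
  [IsScalarTower ℂ (MvPolynomial (Fin (k + 1)) ℂ) K]

theorem resInd_mon {w : DVal K} (hw : IsMonomial (k + 1) w) : ∃ y : Fin k → K, ResInd w y := by
  obtain ⟨μ, hμ, h0⟩ := exists_orth (tv w : Fin (k + 1) → ℤ)
  refine ⟨fun i => ym K (μ i), fun p hp => ⟨?_, ord_ym_ind hw hμ h0 hp⟩⟩
  have h1 := ym_ind (K := K) hμ (c := fun _ => 1) (fun _ => one_ne_zero) hp
  simpa using h1

/-- Proof: some variable occurs in `p`; the others have algebraically independent residues. -/
theorem resInd_valP {p : MvPolynomial (Fin (k + 1)) ℂ} (hp : Prime p) :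
    ∃ y : Fin k → K, ResInd (valP K p hp) y := by
  classical
  obtain ⟨i0, hi0⟩ : ∃ i, i ∈ p.vars := by
    by_contra hcon
    push Not at hcon
    have h1 : p.vars = ∅ := Finset.eq_empty_of_forall_notMem hcon
    rw [vars_eq_empty_iff_eq_C] at h1
    apply hp.not_isUnit
    rw [h1]
    apply IsUnit.map C
    rw [isUnit_iff_ne_zero]
    intro h0
    rw [h0, C_0] at h1
    exact hp.ne_zero h1
  refine ⟨fun j => cv K (i0.succAbove j), fun q hq => ?_⟩
  have hinj : Function.Injective (i0.succAbove : Fin k → Fin (k + 1)) :=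
    Fin.succAbove_right_injective
  have h1 : aeval (fun j => cv K (i0.succAbove j)) q =
      jo (Fin (k + 1)) K (rename i0.succAbove q) := by
    rw [← aeval_cv, aeval_rename]
    rfl
  have h2 : rename i0.succAbove q ≠ 0 := by
    intro h
    exact hq ((map_eq_zero_iff _ (rename_injective _ hinj)).1 h)
  rw [h1]
  refine ⟨jo_ne h2, valP_other hp h2 ?_⟩
  rintro ⟨r, hr⟩
  have hr0 : r ≠ 0 := by
    rintro rfl
    rw [mul_zero] at hr
    exact h2 hr
  have h3 := degreeOf_mul_eq (n := i0) hp.ne_zero hr0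
  rw [← hr] at h3
  have h4 : degreeOf i0 (rename i0.succAbove q) = 0 := by
    rw [degreeOf_def, Multiset.count_eq_zero]
    intro h
    have h5 : i0 ∈ (rename i0.succAbove q).vars := by
      rw [vars_def]
      exact Multiset.mem_toFinset.2 h
    have h6 := vars_rename i0.succAbove q h5
    rw [Finset.mem_image] at h6
    obtain ⟨j, -, hj⟩ := h6
    exact Fin.succAbove_ne i0 j hj
  have h5 : degreeOf i0 p ≠ 0 := by
    rw [degreeOf_def, Ne, Multiset.count_eq_zero, not_not]
    rw [vars_def] at hi0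
    exact Multiset.mem_toFinset.1 hi0
  omega

end

end Pool.Agent.Helper58K9.QT
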