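import Mathlib
import Pool.Agent.Helper58K9.QT.ThD
import Pool.Agent.Helper58K9.QT.TorRes

/-!
# [THETA, part E] The rotation, the logarithms and the residues
-/

set_option autoImplicit false
set_option linter.unusedSectionVars false

namespace Pool.Agent.Helper58K9.QT

open Pool.Agent.H436R3.Fol Pool.Agent.H436R3.KT Pool.Agent.W497.Mld Pool.Agent.TH165.ACC
  MvPolynomial

namespace ThE

open ThA ThB ThC ThD HahnSeries

variable {n s : ℕ} {Ω : Type} [Field Ω] [Algebra ℂ Ω]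
  [Algebra (MvPolynomial (Fin (n + s)) ℂ) Ω] [IsFractionRing (MvPolynomial (Fin (n + s)) ℂ) Ω]
  [IsScalarTower ℂ (MvPolynomial (Fin (n + s)) ℂ) Ω]

variable {r : ℕ} {A : Matrix (Fin n) (Fin n) ℤ} {P Q : Matrix (Fin n) (Fin n) ℂ}
  {η : Fin n → ℂ} {κ : Fin s → Fin n} {W : Fin n → ℤ} {V : Fin s → ℤ}

theorem base_A (hd : IsDiag r A P Q η κ) (m : Fin n → ℤ) :
    base (s := s) Ω r A (A.mulVec m) = base (s := s) Ω r A m := by
  rw [base, base, NA_A hd]

theorem base_diff (hd : IsDiag r A P Q η κ) (m : Fin n → ℤ) :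
    base (s := s) Ω r A (A.mulVec m - m) = 1 := by
  rw [base, NA_sub, NA_A hd, sub_self]
  have : Fin.append (0 : Fin n → ℤ) (0 : Fin s → ℤ) = 0 := by
    funext i
    refine Fin.addCases (fun i => ?_) (fun i => ?_) i
    · simp [Fin.append_left]
    · simp [Fin.append_right]
  rw [this, ym_zero]

theorem Phi_A (hd : IsDiag r A P Q η κ) (hW : Matrix.vecMul W A = W) (z : ℂ) (h : Fin s → ℂ)
    (m : Fin n → ℤ) : ThC.Phi Ω r A Q κ W V z h (A.mulVec m) =
      ThC.Phi Ω r A Q κ W V z (fun i => h i * η (κ i)) m := by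
  rw [ThC.Phi, ThC.Phi, base_A hd, pr_A hW, EP, EP]
  congr 2
  refine Finset.prod_congr rfl fun i _ => ?_
  rw [qd_A hd, mul_assoc (h i)]

theorem Phi_diff (hd : IsDiag r A P Q η κ) (hW : Matrix.vecMul W A = W) (h : Fin s → ℂ)
    (m : Fin n → ℤ) : ThC.Phi Ω r A Q κ W V 1 h (A.mulVec m - m) =
      ofPowerSeries ℤ Ω (EP Ω Q κ V h (A.mulVec m - m)) := by
  rw [ThC.Phi, base_diff hd, pr_sub, pr_A hW, sub_self, map_one, one_mul, s01, one_mul]

theorem base_mul (m : Fin n → ℤ) (l : Fin s → ℤ) :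
    base (s := s) Ω r A m * ∏ i, bb n Ω i ^ l i =
      ym Ω (Fin.append (∑ j ∈ Finset.range r, (A ^ j).mulVec m) l) := by
  rw [base, ym, ym, Fin.prod_univ_add, Fin.prod_univ_add]
  simp only [Fin.append_left, Fin.append_right, Pi.zero_apply, zpow_zero,
    Finset.prod_const_one, mul_one]
  rfl

variable {K : Type} [Field K] [Algebra ℂ K]
  [Algebra (MvPolynomial (Fin n) ℂ) K] [IsFractionRing (MvPolynomial (Fin n) ℂ) K]
  [IsScalarTower ℂ (MvPolynomial (Fin n) ℂ) K]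

theorem Th_pow (hd : IsDiag r A P Q η κ) (hW : Matrix.vecMul W A = W)
    {c : (Fin n → ℤ) → ℂ} {γ : K ≃ₐ[ℂ] K}
    (hγ : ∀ m, γ (ym K m) = algebraMap ℂ K (c m) * ym K (A.mulVec m)) {ζ : ℂ}
    {W0 : Fin n → ℤ} (hW0 : Matrix.vecMul W0 A = W0) {τ : (Fin n → ℤ) → ℂ}
    (hτ : ∀ m, c m * τ (A.mulVec m) = τ m * ζ ^ pr m W0)
    {Θ : K →ₐ[ℂ] LaurentSeries Ω} (hζ : ζ ≠ 0)
    (hΘ : ∀ m, Θ (ym K m) = ThC.Phi Ω r A Q κ W V (τ m) (fun _ => 1) m) (j : ℕ) (m : Fin n → ℤ) :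
    Θ ((γ ^ j) (ym K m)) =
      ThC.Phi Ω r A Q κ W V (τ m * ζ ^ ((j : ℤ) * pr m W0)) (fun i => η (κ i) ^ j) m := by
  induction j generalizing m with
  | zero => simp [hΘ]
  | succ j ih =>
    rw [pow_succ, AlgEquiv.mul_apply, hγ, map_mul, map_mul, AlgEquiv.commutes, AlgHom.commutes, ih,
      ← Phi_z, Phi_A hd hW]
    congr 1
    · rw [← mul_assoc, hτ, pr_A hW0, mul_assoc, ← zpow_add₀ hζ]
      congr 2
      push_cast
      ring

theorem rot_const {ζ : Ω} {S : LaurentSeries Ω →+* LaurentSeries Ω}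
    (h : ∀ (F : LaurentSeries Ω) (n : ℤ), (S F).coeff n = ζ ^ n * F.coeff n) (c : ℂ) :
    S (algebraMap ℂ (LaurentSeries Ω) c) = algebraMap ℂ (LaurentSeries Ω) c := by
  rw [HahnSeries.algebraMap_apply', PowerSeries.algebraMap_apply, ofPowerSeries_C,
    HahnSeries.C_apply, rot_single h, zpow_zero, one_mul]

/-- the rotation is the automorphism -/
theorem rot_eq (hd : IsDiag r A P Q η κ) (hW : Matrix.vecMul W A = W) (hV : ∀ i, 0 < V i)
    {c : (Fin n → ℤ) → ℂ} {γ : K ≃ₐ[ℂ] K}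
    (hγ : ∀ m, γ (ym K m) = algebraMap ℂ K (c m) * ym K (A.mulVec m)) {ζ : ℂ}
    {W0 : Fin n → ℤ} (hW0 : Matrix.vecMul W0 A = W0) {τ : (Fin n → ℤ) → ℂ}
    (hτ : ∀ m, c m * τ (A.mulVec m) = τ m * ζ ^ pr m W0)
    {Θ : K →ₐ[ℂ] LaurentSeries Ω} (hζ : ζ ≠ 0)
    (hΘ : ∀ m, Θ (ym K m) = ThC.Phi Ω r A Q κ W V (τ m) (fun _ => 1) m) (j : ℕ)
    (h1 : ∀ m, ζ ^ pr m W = ζ ^ ((j : ℤ) * pr m W0)) (h2 : ∀ i, ζ ^ V i = η (κ i) ^ j)
    {S : LaurentSeries Ω →+* LaurentSeries Ω}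
    (hS : ∀ (F : LaurentSeries Ω) (n : ℤ), (S F).coeff n = (algebraMap ℂ Ω ζ) ^ n * F.coeff n)
    (a : K) : S (Θ a) = Θ ((γ ^ j) a) := by
  have h3 : S.comp Θ.toRingHom = Θ.toRingHom.comp ((γ ^ j : K ≃ₐ[ℂ] K) : K →+* K) := by
    apply hom_ext (n := n)
    · intro z
      change S (Θ (algebraMap ℂ K z)) = Θ ((γ ^ j) (algebraMap ℂ K z))
      rw [AlgHom.commutes, AlgEquiv.commutes, AlgHom.commutes, rot_const hS]
    · intro i
      change S (Θ (cv K i)) = Θ ((γ ^ j) (cv K i))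
      rw [cv_eq_ym, hΘ, Th_pow hd hW hγ hW0 hτ hζ hΘ, Phi_rot hV hS]
      congr 1
      · rw [h1, mul_comm]
      · funext i
        rw [h2, mul_one]
  exact congrFun (congrArg DFunLike.coe h3) a

/-- the truncated logarithm of a power series -/
theorem Th_lg {Θ : K →ₐ[ℂ] LaurentSeries Ω} {y : K} {G : PowerSeries Ω}
    (h : Θ y = ofPowerSeries ℤ Ω G) (N : ℕ) : Θ (lg N y) = ofPowerSeries ℤ Ω
      (∑ i ∈ Finset.range N, PowerSeries.C ((-1) ^ i / ((i : Ω) + 1)) * (G - 1) ^ (i + 1)) := by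
  rw [lg, map_sum, map_sum]
  refine Finset.sum_congr rfl fun i _ => ?_
  rw [map_mul, map_pow, map_sub, map_one, h, AlgHom.commutes, map_mul, map_pow, map_sub, map_one,
    HahnSeries.algebraMap_apply', PowerSeries.algebraMap_apply]
  congr 3
  rw [map_div₀, map_pow, map_neg, map_one, map_add, map_natCast, map_one]

/-- the matrix identity -/
theorem coef_eq (hd : IsDiag r A P Q η κ) (i i' : Fin s) :
    ∑ m, P m (κ i) / (η (κ i) - 1) *
      qd Q (κ i') (A.mulVec (Pi.single m 1) - Pi.single m 1) = if i' = i then 1 else 0 := by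
  classical
  have h1 : ∀ m, qd Q (κ i') (A.mulVec (Pi.single m 1) - Pi.single m 1) =
      (η (κ i') - 1) * Q (κ i') m := by
    intro m
    rw [qd_sub, qd_A hd]
    have : qd Q (κ i') (Pi.single m 1) = Q (κ i') m := by
      rw [qd, Finset.sum_eq_single m]
      · simp
      · intro j _ hj
        rw [Pi.single_eq_of_ne hj]; simp
      · intro h; exact absurd (Finset.mem_univ m) h
    rw [this]; ring
  have h2 : ∑ m, P m (κ i) / (η (κ i) - 1) * ((η (κ i') - 1) * Q (κ i') m) =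
      (η (κ i') - 1) / (η (κ i) - 1) * (Q * P) (κ i') (κ i) := by
    rw [Matrix.mul_apply, Finset.mul_sum]
    exact Finset.sum_congr rfl fun m _ => by ring
  simp only [h1]
  rw [h2, hd.QP, Matrix.one_apply]
  have h3 : η (κ i) - 1 ≠ 0 := sub_ne_zero.mpr ((hd.ran _).mp ⟨i, rfl⟩)
  by_cases h : i' = i
  · subst h
    rw [if_pos rfl, if_pos rfl, mul_one, div_self h3]
  · rw [if_neg h, if_neg (fun e => h (hd.inj e)), mul_zero]

theorem lam_sum (c : Fin n → ℂ) (g : Fin n → Fin s → ℂ) :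
    ∑ m, PowerSeries.C (algebraMap ℂ Ω (c m)) * lam n Ω V (g m) =
      lam n Ω V (fun i => ∑ m, c m * g m i) := by
  simp only [lam, Finset.mul_sum]
  rw [Finset.sum_comm]
  refine Finset.sum_congr rfl fun i _ => ?_
  rw [map_sum, Finset.sum_mul, map_sum, Finset.sum_mul]
  refine Finset.sum_congr rfl fun m _ => ?_
  simp only [map_mul]
  ring

theorem lam_ite (i : Fin s) : lam n Ω V (fun i' => if i' = i then 1 else 0) =
    PowerSeries.C (bb n Ω i) * PowerSeries.X ^ (V i).toNat := by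
  rw [lam, Finset.sum_eq_single i]
  · rw [if_pos rfl, map_one, one_mul]
  · intro j _ hj
    rw [if_neg hj, map_zero, zero_mul, map_zero, zero_mul]
  · intro h; exact absurd (Finset.mem_univ i) h

/-- elements with the leading terms `b_i t ^ (V i)` -/
theorem exists_f (hd : IsDiag r A P Q η κ) (hW : Matrix.vecMul W A = W) (hV : ∀ i, 0 < V i)
    {c : (Fin n → ℤ) → ℂ} {ζ : ℂ} {W0 : Fin n → ℤ} {τ : (Fin n → ℤ) → ℂ}
    (hτ0 : ∀ m, τ m ≠ 0) (hτa : ∀ m m', τ (m + m') = τ m * τ m')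
    (hτ : ∀ m, c m * τ (A.mulVec m) = τ m * ζ ^ pr m W0)
    {Θ : K →ₐ[ℂ] LaurentSeries Ω} (hζ : ζ ≠ 0)
    (hΘ : ∀ m, Θ (ym K m) = ThC.Phi Ω r A Q κ W V (τ m) (fun _ => 1) m) (i : Fin s) :
    ∃ f : K, Lead (Θ f) (V i) (bb n Ω i) := by
  classical
  let e : Fin n → Fin n → ℤ := fun m => Pi.single m 1
  let y : Fin n → K := fun m => algebraMap ℂ K (c (e m) * ζ ^ (-pr (e m) W0)) *
    ym K (A.mulVec (e m) - e m)
  have hy : ∀ m, Θ (y m) =
      ofPowerSeries ℤ Ω (EP Ω Q κ V (fun _ => 1) (A.mulVec (e m) - e m)) := by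
    intro m
    rw [map_mul, AlgHom.commutes, hΘ, ← Phi_z, ← Phi_diff hd hW]
    congr 1
    have h1 := hτ (e m)
    have h2 : τ (A.mulVec (e m)) = τ (A.mulVec (e m) - e m) * τ (e m) := by
      rw [← hτa, sub_add_cancel]
    rw [h2, ← mul_assoc, mul_comm (τ (e m))] at h1
    have h3 := mul_right_cancel₀ (hτ0 _) h1
    rw [zpow_neg, mul_right_comm, h3, mul_inv_cancel₀ (zpow_ne_zero _ hζ)]
  set N := (V i).toNat with hN
  let q : Fin n → ℂ := fun m => P m (κ i) / (η (κ i) - 1)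
  let f : K := ∑ m, algebraMap ℂ K (q m) * lg N (y m)
  let Gs : Fin n → PowerSeries Ω := fun m =>
    ∑ i ∈ Finset.range N, PowerSeries.C ((-1) ^ i / ((i : Ω) + 1)) *
      (EP Ω Q κ V (fun _ => 1) (A.mulVec (e m) - e m) - 1) ^ (i + 1)
  have hf : Θ f = ofPowerSeries ℤ Ω (∑ m, PowerSeries.C (algebraMap ℂ Ω (q m)) * Gs m) := by
    rw [map_sum, map_sum]
    refine Finset.sum_congr rfl fun m _ => ?_
    rw [map_mul, AlgHom.commutes, Th_lg (hy m), map_mul, HahnSeries.algebraMap_apply',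
      PowerSeries.algebraMap_apply]
  have hdvd : (PowerSeries.X : PowerSeries Ω) ^ (N + 1) ∣
      (∑ m, PowerSeries.C (algebraMap ℂ Ω (q m)) * Gs m) -
        PowerSeries.C (bb n Ω i) * PowerSeries.X ^ N := by
    have h1 : PowerSeries.C (bb n Ω i) * PowerSeries.X ^ N =
        ∑ m, PowerSeries.C (algebraMap ℂ Ω (q m)) *
          lam n Ω V (fun i' => 1 * qd Q (κ i') (A.mulVec (e m) - e m)) := by
      rw [lam_sum, ← lam_ite]
      congr 1
      funext i'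
      simp only [one_mul]
      exact (coef_eq hd i i').symm
    rw [h1, ← Finset.sum_sub_distrib]
    refine Finset.dvd_sum fun m _ => ?_
    rw [← mul_sub]
    exact Dvd.dvd.mul_left (lg_EP hV _ _ N) _
  obtain ⟨R, hR⟩ := hdvd
  refine ⟨f, PowerSeries.C (bb n Ω i) + PowerSeries.X * R, ?_, ?_⟩
  · rw [map_add, map_mul, PowerSeries.constantCoeff_X, zero_mul, add_zero,
      PowerSeries.constantCoeff_C]
  · rw [hf]
    have h1 : ∑ m, PowerSeries.C (algebraMap ℂ Ω (q m)) * Gs m =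
        PowerSeries.X ^ N * (PowerSeries.C (bb n Ω i) + PowerSeries.X * R) := by
      linear_combination hR
    rw [h1, map_mul, ofPowerSeries_X_pow, hN, Int.toNat_of_nonneg (hV i).le]

end ThE

end Pool.Agent.Helper58K9.QT
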