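import Mathlib
import Pool.Agent.Helper58K9.QT.Defs

/-!
# [RK] Ranks
-/

set_option autoImplicit false

namespace Pool.Agent.Helper58K9.QT

open Pool.Agent.TH165.ACC

theorem rank_nullity {V V' : Type} [AddCommGroup V] [Module.Finite ℤ V] [AddCommGroup V']
    (f : V →ₗ[ℤ] V') : Module.finrank ℤ (LinearMap.range f) + Module.finrank ℤ (LinearMap.ker f)
      = Module.finrank ℤ V := by
  rw [← f.quotKerEquivRange.finrank_eq]
  exact Submodule.finrank_quotient_add_finrank _

/-- integer vectors which are independent over `ℤ` are independent over `ℂ` -/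
theorem linInd_complex {n : ℕ} {ι : Type} [Fintype ι] {b : ι → Fin n → ℤ}
    (hb : LinearIndependent ℤ b) :
    LinearIndependent ℂ fun i => (fun j => ((b i j : ℤ) : ℂ) : Fin n → ℂ) := by
  classical
  -- over `ℚ`
  have h1 : LinearIndependent ℤ fun i => (fun j => ((b i j : ℤ) : ℚ) : Fin n → ℚ) := by
    let f : (Fin n → ℤ) →ₗ[ℤ] (Fin n → ℚ) :=
      LinearMap.pi fun j => (Algebra.linearMap ℤ ℚ) ∘ₗ LinearMap.proj j
    refine hb.map' f ?_
    rw [LinearMap.ker_eq_bot]
    intro x y hxy
    funext j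
    have := congrFun hxy j
    exact Int.cast_injective (α := ℚ) this
  have h2 := (LinearIndependent.iff_fractionRing ℤ ℚ).mp h1
  rw [Fintype.linearIndependent_iff] at h2 ⊢
  intro c hc i
  apply (Module.forall_dual_apply_eq_zero_iff ℚ (c i)).mp
  intro φ
  refine h2 (fun i => φ (c i)) ?_ i
  funext j
  have h3 := congrArg φ (congrFun hc j)
  rw [Finset.sum_apply, map_sum, Pi.zero_apply, map_zero] at h3
  rw [Finset.sum_apply, Pi.zero_apply, ← h3]
  refine Finset.sum_congr rfl fun i _ => ?_
  rw [Pi.smul_apply, Pi.smul_apply, smul_eq_mul, smul_eq_mul, mul_comm (c i), mul_comm (φ (c i))]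
  have h4 : ((b i j : ℤ) : ℂ) * c i = ((b i j : ℤ) : ℚ) • c i := by
    rw [Rat.smul_def]
    push_cast
    rfl
  rw [h4, map_smul, smul_eq_mul]

/-- the kernel of `∑ A^j` over `ℤ` has rank at most `s` -/
theorem ker_rank {n s r : ℕ} {A : Matrix (Fin n) (Fin n) ℤ}
    {P Q : Matrix (Fin n) (Fin n) ℂ} {η : Fin n → ℂ} {κ : Fin s → Fin n}
    (hd : IsDiag r A P Q η κ) :
    Module.finrank ℤ (LinearMap.ker (∑ j ∈ Finset.range r, A ^ j).mulVecLin) ≤ s := by
  classical
  set S := ∑ j ∈ Finset.range r, A ^ j with hS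
  let b := Module.finBasis ℤ (LinearMap.ker S.mulVecLin)
  set t := Module.finrank ℤ (LinearMap.ker S.mulVecLin) with ht
  have hb : LinearIndependent ℤ fun i => ((b i : LinearMap.ker S.mulVecLin) : Fin n → ℤ) :=
    b.linearIndependent.map' (LinearMap.ker S.mulVecLin).subtype (Submodule.ker_subtype _)
  have hb' := linInd_complex hb
  -- the powers of `A`
  have hQA : ∀ j, Q * (A ^ j).map (Int.cast : ℤ → ℂ) = Matrix.diagonal (fun k => η k ^ j) * Q := by
    intro j
    induction j with
    | zero =>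
      have h0 : ((1 : Matrix (Fin n) (Fin n) ℤ)).map (Int.cast : ℤ → ℂ) = 1 := by
        rw [Matrix.map_one _ Int.cast_zero Int.cast_one]
      rw [pow_zero, h0, mul_one]
      simp
    | succ j ih =>
      have h1 : (A ^ (j + 1)).map (Int.cast : ℤ → ℂ)
          = (A ^ j).map (Int.cast : ℤ → ℂ) * A.map (Int.cast : ℤ → ℂ) := by
        rw [pow_succ]
        exact Matrix.map_mul (f := Int.castRingHom ℂ)
      rw [h1, ← Matrix.mul_assoc, ih, Matrix.mul_assoc, hd.left, ← Matrix.mul_assoc,
        Matrix.diagonal_mul_diagonal]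
      congr 2
  have hQS : Q * S.map (Int.cast : ℤ → ℂ)
      = Matrix.diagonal (fun k => ∑ j ∈ Finset.range r, η k ^ j) * Q := by
    have h1 : S.map (Int.cast : ℤ → ℂ) = ∑ j ∈ Finset.range r, (A ^ j).map (Int.cast : ℤ → ℂ) := by
      rw [hS]
      exact map_sum (Int.castRingHom ℂ).mapMatrix _ _
    rw [h1, Finset.mul_sum, Finset.sum_congr rfl fun j _ => hQA j, ← Finset.sum_mul]
    congr 1
    ext i j
    rw [Matrix.sum_apply, Matrix.diagonal_apply]
    split_ifs with h
    · subst h
      simp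
    · simp [Matrix.diagonal_apply_ne _ h]
  -- the coordinates
  let F : (Fin n → ℂ) →ₗ[ℂ] (Fin s → ℂ) := LinearMap.funLeft ℂ ℂ κ ∘ₗ Q.mulVecLin
  have hF : LinearIndependent ℂ fun i => F (fun j => (((b i : LinearMap.ker S.mulVecLin)
      : Fin n → ℤ) j : ℂ)) := by
    rw [Fintype.linearIndependent_iff] at hb' ⊢
    intro c hc i
    refine hb' c ?_ i
    set v : Fin n → ℂ := ∑ i, c i • fun j => (((b i : LinearMap.ker S.mulVecLin)
      : Fin n → ℤ) j : ℂ) with hv
    have h1 : F v = 0 := by
      rw [hv, map_sum, ← hc]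
      exact Finset.sum_congr rfl fun i _ => map_smul _ _ _
    -- `S v = 0`
    have h2 : (S.map (Int.cast : ℤ → ℂ)).mulVec v = 0 := by
      have h3 : ∀ i, (S.map (Int.cast : ℤ → ℂ)).mulVec
          (fun j => (((b i : LinearMap.ker S.mulVecLin) : Fin n → ℤ) j : ℂ)) = 0 := by
        intro i
        have h4 : S.mulVec ((b i : LinearMap.ker S.mulVecLin) : Fin n → ℤ) = 0 := (b i).2
        funext j
        have h5 := congrFun h4 j
        rw [Matrix.mulVec, dotProduct, Pi.zero_apply] at h5 ⊢
        have h6 := congrArg (Int.cast : ℤ → ℂ) h5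
        push_cast at h6
        exact h6
      rw [hv, Matrix.mulVec_sum]
      refine Finset.sum_eq_zero fun i _ => ?_
      rw [Matrix.mulVec_smul, h3, smul_zero]
    have h3 : Q.mulVec v = 0 := by
      funext k
      by_cases hk : η k = 1
      · have h4 := congrArg (Q.mulVec) h2
        rw [Matrix.mulVec_mulVec, hQS, ← Matrix.mulVec_mulVec, Matrix.mulVec_zero] at h4
        have h5 := congrFun h4 k
        rw [Matrix.mulVec_diagonal, hk, Pi.zero_apply] at h5
        simp only [one_pow, Finset.sum_const, Finset.card_range, nsmul_eq_mul, mul_one] at h5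
        rcases mul_eq_zero.mp h5 with h6 | h6
        · exact absurd (Nat.cast_eq_zero.mp h6) hd.pos.ne'
        · exact h6
      · obtain ⟨i, hi⟩ := (hd.ran k).mpr hk
        rw [← hi]
        exact congrFun h1 i
    have h4 := congrArg (P.mulVec) h3
    rw [Matrix.mulVec_mulVec, hd.PQ, Matrix.one_mulVec, Matrix.mulVec_zero] at h4
    exact h4
  have := hF.fintype_card_le_finrank
  rwa [Fintype.card_fin, Module.finrank_fin_fun] at this

/-- Proof: the vectors `(∑_j A^j m, l)` form a group of rank `k + 1` (the rank of `∑_j A^j` is the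
multiplicity of the eigenvalue `1`, that is, `k + 1 - s`); the function `(m, l) ↦ pr m W + pr l V`
factors rationally through this group because `W` is invariant, so that its kernel has an image of
rank at least `k`. -/
theorem exists_rank {k s r : ℕ} {A : Matrix (Fin (k + 1)) (Fin (k + 1)) ℤ}
    {P Q : Matrix (Fin (k + 1)) (Fin (k + 1)) ℂ} {η : Fin (k + 1) → ℂ} {κ : Fin s → Fin (k + 1)}
    (hd : IsDiag r A P Q η κ) {W : Fin (k + 1) → ℤ} (hW : Matrix.vecMul W A = W) (V : Fin s → ℤ) :
    ∃ (μ : Fin k → Fin (k + 1) → ℤ) (l : Fin k → Fin s → ℤ),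
      (∀ i, pr (μ i) W + pr (l i) V = 0) ∧
      LinearIndependent ℤ fun i => (Fin.append (∑ j ∈ Finset.range r, (A ^ j).mulVec (μ i)) (l i) :
        Fin (k + 1 + s) → ℤ) := by
  classical
  set S := ∑ j ∈ Finset.range r, A ^ j with hS
  have hSm : ∀ m, ∑ j ∈ Finset.range r, (A ^ j).mulVec m = S.mulVec m := by
    intro m
    rw [hS, Matrix.sum_mulVec]
  let Φ : ((Fin (k + 1) → ℤ) × (Fin s → ℤ)) →ₗ[ℤ] (Fin (k + 1 + s) → ℤ) :=
    { toFun := fun p => Fin.append (S.mulVec p.1) p.2
      map_add' := by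
        intro p q
        funext i
        refine Fin.addCases (fun i => ?_) (fun i => ?_) i
        · simp [Matrix.mulVec_add]
        · simp
      map_smul' := by
        intro c p
        funext i
        refine Fin.addCases (fun i => ?_) (fun i => ?_) i
        · change (Fin.append (S.mulVec (c • p.1)) (c • p.2) : Fin (k + 1 + s) → ℤ) _
            = c * (Fin.append (S.mulVec p.1) p.2 : Fin (k + 1 + s) → ℤ) _
          rw [Fin.append_left, Fin.append_left, Matrix.mulVec_smul, Pi.smul_apply, smul_eq_mul]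
        · simp }
  have hΦ : ∀ p, Φ p = Fin.append (S.mulVec p.1) p.2 := fun p => rfl
  let lam : ((Fin (k + 1) → ℤ) × (Fin s → ℤ)) →ₗ[ℤ] ℤ :=
    { toFun := fun p => pr p.1 W + pr p.2 V
      map_add' := by
        intro p q
        rw [Prod.fst_add, Prod.snd_add, pr_add, pr_add]
        ring
      map_smul' := by
        intro c p
        rw [Prod.smul_fst, Prod.smul_snd, pr_smul, pr_smul, RingHom.id_apply, smul_eq_mul]
        ring }
  have hlam : ∀ p, lam p = pr p.1 W + pr p.2 V := fun p => rfl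
  let U := LinearMap.ker lam
  let Ψ : U →ₗ[ℤ] (Fin (k + 1 + s) → ℤ) := Φ.domRestrict U
  have h1 := rank_nullity lam
  have h2 := rank_nullity Ψ
  have h3 : Module.finrank ℤ (LinearMap.range lam) ≤ 1 := by
    have := Submodule.finrank_le (LinearMap.range lam)
    rwa [Module.finrank_self] at this
  have h4 : Module.finrank ℤ ((Fin (k + 1) → ℤ) × (Fin s → ℤ)) = k + 1 + s := by
    rw [Module.finrank_prod, Module.finrank_fin_fun, Module.finrank_fin_fun]
  have h5 : Module.finrank ℤ (LinearMap.ker Ψ) ≤ s := by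
    refine le_trans ?_ (ker_rank hd)
    have hmem : ∀ z : LinearMap.ker Ψ, ((z : U) : (Fin (k + 1) → ℤ) × (Fin s → ℤ)).1 ∈
        LinearMap.ker S.mulVecLin ∧ ((z : U) : (Fin (k + 1) → ℤ) × (Fin s → ℤ)).2 = 0 := by
      intro z
      have hz : Φ ((z : U) : (Fin (k + 1) → ℤ) × (Fin s → ℤ)) = 0 := z.2
      rw [hΦ] at hz
      constructor
      · rw [LinearMap.mem_ker, Matrix.mulVecLin_apply]
        funext i
        have := congrFun hz (Fin.castAdd s i)
        rwa [Fin.append_left] at this
      · funext i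
        have := congrFun hz (Fin.natAdd (k + 1) i)
        rwa [Fin.append_right] at this
    let G : LinearMap.ker Ψ →ₗ[ℤ] LinearMap.ker S.mulVecLin :=
      LinearMap.codRestrict (LinearMap.ker S.mulVecLin)
        (LinearMap.fst ℤ _ _ ∘ₗ U.subtype ∘ₗ (LinearMap.ker Ψ).subtype) (fun z => (hmem z).1)
    have hG : Function.Injective G := by
      intro z z' hzz
      have h6 := congrArg (fun y : LinearMap.ker S.mulVecLin => (y : Fin (k + 1) → ℤ)) hzz
      apply Subtype.ext
      apply Subtype.ext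
      apply Prod.ext
      · exact h6
      · rw [(hmem z).2, (hmem z').2]
    exact LinearMap.finrank_le_finrank_of_injective hG
  have h6 : k ≤ Module.finrank ℤ (LinearMap.range Ψ) := by
    have : Module.finrank ℤ U = Module.finrank ℤ (LinearMap.ker lam) := rfl
    omega
  let b := Module.finBasis ℤ (LinearMap.range Ψ)
  have hpre : ∀ i : Fin k, ∃ u : U, Ψ u = b (Fin.castLE h6 i) := fun i => (b (Fin.castLE h6 i)).2
  choose u hu using hpre
  refine ⟨fun i => ((u i : U) : (Fin (k + 1) → ℤ) × (Fin s → ℤ)).1,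
    fun i => ((u i : U) : (Fin (k + 1) → ℤ) × (Fin s → ℤ)).2, fun i => ?_, ?_⟩
  · have := (u i).2
    exact this
  · have h7 : (fun i => (Fin.append (∑ j ∈ Finset.range r, (A ^ j).mulVec
        ((u i : U) : (Fin (k + 1) → ℤ) × (Fin s → ℤ)).1)
        ((u i : U) : (Fin (k + 1) → ℤ) × (Fin s → ℤ)).2 : Fin (k + 1 + s) → ℤ))
        = fun i => ((b (Fin.castLE h6 i) : LinearMap.range Ψ) : Fin (k + 1 + s) → ℤ) := by
      funext i
      rw [← hu i, hSm]
      rfl
    rw [h7]
    have h8 : LinearIndependent ℤ fun i => ((b i : LinearMap.range Ψ) : Fin (k + 1 + s) → ℤ) :=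
      b.linearIndependent.map' (LinearMap.range Ψ).subtype (Submodule.ker_subtype _)
    exact h8.comp (Fin.castLE h6) (Fin.castLE_injective h6)

end Pool.Agent.Helper58K9.QT
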