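import Mathlib
import Pool.Agent.Helper58K9.QT.Defs

/-!
# [LOWER] The weights of a valuation with tame inertia
-/

set_option autoImplicit false

namespace Pool.Agent.Helper58K9.QT

open Pool.Agent.H436R3.Fol Pool.Agent.H436R3.KT Pool.Agent.W497.Mld Pool.Agent.TH165.ACC
  MvPolynomial

namespace Low

section cr

variable {K : Type} [Field K] [Algebra ℂ K] (w : DVal K)

/-- congruence of elements of the valuation ring modulo the maximal ideal -/
def CR (a b : K) : Prop := w.Reg a ∧ w.Reg b ∧ w.Pos (a - b)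

variable {w}

theorem pos_zero : w.Pos 0 := Or.inl rfl

theorem pos_neg {f : K} (h : w.Pos f) : w.Pos (-f) := by
  have := w.pos_mul_left (w.reg_neg w.reg_one) h
  rwa [neg_one_mul] at this

theorem pos_reg {f : K} (h : w.Pos f) : w.Reg f := by
  rcases h with h | h
  · exact Or.inl h
  · exact Or.inr h.le

theorem pos_const {c : ℂ} (h : w.Pos (algebraMap ℂ K c)) : c = 0 := by
  by_contra hc
  rcases h with h | h
  · exact hc ((map_eq_zero _).1 h)
  · rw [w.const c hc] at h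
    exact lt_irrefl _ h

theorem reg_sub {f g : K} (hf : w.Reg f) (hg : w.Reg g) : w.Reg (f - g) := by
  rw [sub_eq_add_neg]
  exact w.reg_add hf (w.reg_neg hg)

theorem reg_sum {ι : Type} (s : Finset ι) {f : ι → K} (h : ∀ i ∈ s, w.Reg (f i)) :
    w.Reg (∑ i ∈ s, f i) := by
  classical
  induction s using Finset.induction_on with
  | empty => rw [Finset.sum_empty]; exact w.reg_zero
  | insert i s hi ih =>
    rw [Finset.sum_insert hi]
    exact w.reg_add (h i (Finset.mem_insert_self _ _))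
      (ih fun j hj => h j (Finset.mem_insert_of_mem hj))

theorem reg_prod {ι : Type} (s : Finset ι) {f : ι → K} (h : ∀ i ∈ s, w.Reg (f i)) :
    w.Reg (∏ i ∈ s, f i) := by
  classical
  induction s using Finset.induction_on with
  | empty => rw [Finset.prod_empty]; exact w.reg_one
  | insert i s hi ih =>
    rw [Finset.prod_insert hi]
    exact w.reg_mul (h i (Finset.mem_insert_self _ _))
      (ih fun j hj => h j (Finset.mem_insert_of_mem hj))

theorem CR.refl {a : K} (h : w.Reg a) : CR w a a := ⟨h, h, by rw [sub_self]; exact pos_zero⟩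

theorem CR.of_pos {a b : K} (hb : w.Reg b) (h : w.Pos (a - b)) : CR w a b := by
  refine ⟨?_, hb, h⟩
  have := w.reg_add (pos_reg h) hb
  rwa [sub_add_cancel] at this

theorem CR.add {a b a' b' : K} (h : CR w a b) (h' : CR w a' b') : CR w (a + a') (b + b') := by
  refine ⟨w.reg_add h.1 h'.1, w.reg_add h.2.1 h'.2.1, ?_⟩
  have := w.pos_add h.2.2 h'.2.2
  convert this using 1
  ring

theorem CR.mul {a b a' b' : K} (h : CR w a b) (h' : CR w a' b') : CR w (a * a') (b * b') := by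
  refine ⟨w.reg_mul h.1 h'.1, w.reg_mul h.2.1 h'.2.1, ?_⟩
  have := w.pos_add (w.pos_mul_left h.1 h'.2.2) (w.pos_mul_left h'.2.1 h.2.2)
  convert this using 1
  ring

theorem CR.sum {ι : Type} (s : Finset ι) {f g : ι → K} (h : ∀ i ∈ s, CR w (f i) (g i)) :
    CR w (∑ i ∈ s, f i) (∑ i ∈ s, g i) := by
  classical
  induction s using Finset.induction_on with
  | empty => rw [Finset.sum_empty, Finset.sum_empty]; exact CR.refl w.reg_zero
  | insert i s hi ih =>
    rw [Finset.sum_insert hi, Finset.sum_insert hi]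
    exact (h i (Finset.mem_insert_self _ _)).add
      (ih fun j hj => h j (Finset.mem_insert_of_mem hj))

theorem CR.prod {ι : Type} (s : Finset ι) {f g : ι → K} (h : ∀ i ∈ s, CR w (f i) (g i)) :
    CR w (∏ i ∈ s, f i) (∏ i ∈ s, g i) := by
  classical
  induction s using Finset.induction_on with
  | empty => rw [Finset.prod_empty, Finset.prod_empty]; exact CR.refl w.reg_one
  | insert i s hi ih =>
    rw [Finset.prod_insert hi, Finset.prod_insert hi]
    exact (h i (Finset.mem_insert_self _ _)).mul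
      (ih fun j hj => h j (Finset.mem_insert_of_mem hj))

theorem reg_int (m : ℤ) : w.Reg (m : K) := by
  have := w.reg_const (m : ℂ)
  rwa [map_intCast] at this

theorem CR.det {n : ℕ} {M M' : Matrix (Fin n) (Fin n) K} (h : ∀ i j, CR w (M i j) (M' i j)) :
    CR w M.det M'.det := by
  rw [Matrix.det_apply', Matrix.det_apply']
  exact CR.sum _ fun σ _ => (CR.refl (reg_int _)).mul (CR.prod _ fun i _ => h _ _)

theorem reg_det {n : ℕ} {M : Matrix (Fin n) (Fin n) K} (h : ∀ i j, w.Reg (M i j)) : w.Reg M.det :=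
  (CR.det fun i j => CR.refl (h i j)).1

theorem CR.ord {a : K} {c : ℂ} (h : CR w a (algebraMap ℂ K c)) (hc : c ≠ 0) :
    a ≠ 0 ∧ w.ord a = 0 := by
  have h1 : ¬ w.Pos a := by
    intro h2
    apply hc
    apply pos_const (w := w)
    have := w.pos_add h2 (pos_neg h.2.2)
    convert this using 1
    ring
  have ha : a ≠ 0 := fun h2 => h1 (Or.inl h2)
  refine ⟨ha, ?_⟩
  rcases h.1 with h2 | h2
  · exact absurd h2 ha
  · rcases eq_or_lt_of_le h2 with h3 | h3
    · exact h3.symm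
    · exact absurd (Or.inr h3) h1

end cr

section main

variable {n s r : ℕ} {K : Type} [Field K] [Algebra ℂ K]
  [Algebra (MvPolynomial (Fin n) ℂ) K] [IsFractionRing (MvPolynomial (Fin n) ℂ) K]
  [IsScalarTower ℂ (MvPolynomial (Fin n) ℂ) K]

/-- the elements `y_m` -/
noncomputable def yy (K : Type) [Field K] [Algebra ℂ K]
    [Algebra (MvPolynomial (Fin n) ℂ) K] [IsFractionRing (MvPolynomial (Fin n) ℂ) K]
    [IsScalarTower ℂ (MvPolynomial (Fin n) ℂ) K]
    (A : Matrix (Fin n) (Fin n) ℤ) (c : (Fin n → ℤ) → ℂ) (ζ : ℂ) (W : Fin n → ℤ)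
    (m : Fin n → ℤ) : K :=
  algebraMap ℂ K (c m * ζ ^ (-pr m W)) * ym K (A.mulVec m - m) - 1

variable {A : Matrix (Fin n) (Fin n) ℤ} {P Q : Matrix (Fin n) (Fin n) ℂ} {η : Fin n → ℂ}
    {κ : Fin s → Fin n} {c : (Fin n → ℤ) → ℂ} {γ : K ≃ₐ[ℂ] K} {ζ : ℂ} {w : DVal K}

theorem ord_inv (hζ0 : ζ ≠ 0) (hw : ∀ f : K, f ≠ 0 → w.Pos (γ f / f - algebraMap ℂ K (ζ ^ w.ord f)))
    {f : K} (hf : f ≠ 0) : w.ord (γ f) = w.ord f := by
  have hγf : γ f ≠ 0 := (map_ne_zero γ).2 hf
  have h1 := (CR.of_pos (w.reg_const _) (hw f hf)).ord (zpow_ne_zero _ hζ0)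
  have h2 := h1.2
  rw [w.ord_div hγf hf] at h2
  linarith

theorem pr_mulVec (hζ0 : ζ ≠ 0) (hc0 : ∀ m, c m ≠ 0)
    (hγ : ∀ m, γ (ym K m) = algebraMap ℂ K (c m) * ym K (A.mulVec m))
    (hw : ∀ f : K, f ≠ 0 → w.Pos (γ f / f - algebraMap ℂ K (ζ ^ w.ord f))) (m : Fin n → ℤ) :
    pr (A.mulVec m) (tv w) = pr m (tv w) := by
  have h1 := ord_inv hζ0 hw (ym_ne (K := K) m)
  have hcm : algebraMap ℂ K (c m) ≠ 0 := (map_ne_zero _).2 (hc0 m)
  rw [hγ, w.map_mul _ _ hcm (ym_ne _), w.const _ (hc0 m), ord_ym, ord_ym, zero_add] at h1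
  exact h1

theorem pr_single (l : Fin n) (u : Fin n → ℤ) : pr (Pi.single l 1) u = u l := by
  unfold pr
  rw [Finset.sum_eq_single l]
  · simp
  · intro b _ hb
    rw [Pi.single_eq_of_ne hb]
    ring
  · intro h
    exact absurd (Finset.mem_univ _) h

theorem tv_inv (hζ0 : ζ ≠ 0) (hc0 : ∀ m, c m ≠ 0)
    (hγ : ∀ m, γ (ym K m) = algebraMap ℂ K (c m) * ym K (A.mulVec m))
    (hw : ∀ f : K, f ≠ 0 → w.Pos (γ f / f - algebraMap ℂ K (ζ ^ w.ord f))) :
    Matrix.vecMul (tv w) A = tv (n := n) w := by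
  funext l
  have h1 := pr_mulVec hζ0 hc0 hγ hw (Pi.single l 1)
  rw [pr_single] at h1
  rw [← h1]
  unfold pr
  rw [Matrix.vecMul, dotProduct]
  refine Finset.sum_congr rfl fun i _ => ?_
  have h2 : A.mulVec (Pi.single l 1) i = A i l := by
    rw [Matrix.mulVec_single_one]
    rfl
  rw [h2, mul_comm]

theorem pos_yy (hζ0 : ζ ≠ 0)
    (hγ : ∀ m, γ (ym K m) = algebraMap ℂ K (c m) * ym K (A.mulVec m))
    (hw : ∀ f : K, f ≠ 0 → w.Pos (γ f / f - algebraMap ℂ K (ζ ^ w.ord f))) (m : Fin n → ℤ) :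
    w.Pos (yy K A c ζ (tv w) m) := by
  have h1 := hw (ym K m) (ym_ne m)
  rw [hγ, ord_ym] at h1
  have h2 := w.pos_mul_left (w.reg_const (ζ ^ (-pr m (tv w)))) h1
  convert h2 using 1
  unfold yy
  have h3 : ym K (A.mulVec m - m) = ym K (A.mulVec m) / ym K m := by
    rw [sub_eq_add_neg, ym_add, ym_neg, div_eq_mul_inv]
  have h4 : algebraMap ℂ K (ζ ^ (-pr m (tv w))) * algebraMap ℂ K (ζ ^ (pr m (tv w))) = 1 := by
    rw [← map_mul, ← zpow_add₀ hζ0, neg_add_cancel, zpow_zero, map_one]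
  rw [h3, map_mul, mul_sub, h4]
  ring

theorem γ_yy (hζ0 : ζ ≠ 0) (hc0 : ∀ m, c m ≠ 0) (hc : ∀ m m', c (m + m') = c m * c m')
    (hγ : ∀ m, γ (ym K m) = algebraMap ℂ K (c m) * ym K (A.mulVec m))
    (hw : ∀ f : K, f ≠ 0 → w.Pos (γ f / f - algebraMap ℂ K (ζ ^ w.ord f))) (m : Fin n → ℤ) :
    γ (yy K A c ζ (tv w) m) = yy K A c ζ (tv w) (A.mulVec m) := by
  unfold yy
  rw [map_sub, map_mul, map_one, AlgEquiv.commutes, hγ, pr_mulVec hζ0 hc0 hγ hw, Matrix.mulVec_sub]
  have h1 : c m * c (A.mulVec m - m) = c (A.mulVec m) := by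
    rw [← hc, add_sub_cancel]
  rw [← h1, ← mul_assoc, ← map_mul]
  congr 3
  ring

theorem tor_const (j : Fin n) (a : ℂ) (f : K) :
    tor K j (algebraMap ℂ K a * f) = algebraMap ℂ K a * tor K j f := by
  rw [Derivation.leibniz, Derivation.map_algebraMap, smul_zero, add_zero, smul_eq_mul]

theorem tor_yy (hζ0 : ζ ≠ 0)
    (hγ : ∀ m, γ (ym K m) = algebraMap ℂ K (c m) * ym K (A.mulVec m))
    (hw : ∀ f : K, f ≠ 0 → w.Pos (γ f / f - algebraMap ℂ K (ζ ^ w.ord f))) (m : Fin n → ℤ) (j : Fin n) :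
    CR w (tor K j (yy K A c ζ (tv w) m)) (algebraMap ℂ K (((A.mulVec m - m) j : ℤ) : ℂ)) := by
  have h1 := pos_yy hζ0 hγ hw m
  have h2 : tor K j (yy K A c ζ (tv w) m) = algebraMap ℂ K (((A.mulVec m - m) j : ℤ) : ℂ) *
      (yy K A c ζ (tv w) m + 1) := by
    unfold yy
    rw [map_sub, tor_const, Derivation.map_one_eq_zero, tor_ym, map_intCast]
    ring
  rw [h2]
  refine CR.of_pos (w.reg_const _) ?_
  have h3 := w.pos_mul_left (w.reg_const (((A.mulVec m - m) j : ℤ) : ℂ)) h1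
  convert h3 using 1
  ring

/-- the eigenfunction -/
noncomputable def FF' (K : Type) [Field K] [Algebra ℂ K]
    [Algebra (MvPolynomial (Fin n) ℂ) K] [IsFractionRing (MvPolynomial (Fin n) ℂ) K]
    [IsScalarTower ℂ (MvPolynomial (Fin n) ℂ) K]
    (A : Matrix (Fin n) (Fin n) ℤ) (c : (Fin n → ℤ) → ℂ) (ζ : ℂ) (W : Fin n → ℤ) (r : ℕ)
    (P : Matrix (Fin n) (Fin n) ℂ) (η : Fin n → ℂ) (k : Fin n) : K :=
  algebraMap ℂ K ((r * (η k - 1))⁻¹) * ∑ l, algebraMap ℂ K (P l k) *
    ∑ i ∈ Finset.range r, algebraMap ℂ K ((η k)⁻¹ ^ i) * yy K A c ζ W ((A ^ i).mulVec (Pi.single l 1))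

theorem pos_F (hζ0 : ζ ≠ 0)
    (hγ : ∀ m, γ (ym K m) = algebraMap ℂ K (c m) * ym K (A.mulVec m))
    (hw : ∀ f : K, f ≠ 0 → w.Pos (γ f / f - algebraMap ℂ K (ζ ^ w.ord f))) (k : Fin n) :
    w.Pos (FF' K A c ζ (tv w) r P η k) := by
  have hs : ∀ {ι : Type} (s : Finset ι) (f : ι → K), (∀ i ∈ s, w.Pos (f i)) → w.Pos (∑ i ∈ s, f i) := by
    classical
    intro ι s f h
    induction s using Finset.induction_on with
    | empty => rw [Finset.sum_empty]; exact pos_zero
    | insert i s hi ih =>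
      rw [Finset.sum_insert hi]
      exact w.pos_add (h i (Finset.mem_insert_self _ _))
        (ih fun j hj => h j (Finset.mem_insert_of_mem hj))
  unfold FF'
  refine w.pos_mul_left (w.reg_const _) (hs _ _ fun l _ => w.pos_mul_left (w.reg_const _)
    (hs _ _ fun i _ => w.pos_mul_left (w.reg_const _) (pos_yy hζ0 hγ hw _)))

theorem γ_F (hd : IsDiag r A P Q η κ) (hζ0 : ζ ≠ 0) (hc0 : ∀ m, c m ≠ 0)
    (hc : ∀ m m', c (m + m') = c m * c m')
    (hγ : ∀ m, γ (ym K m) = algebraMap ℂ K (c m) * ym K (A.mulVec m))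
    (hw : ∀ f : K, f ≠ 0 → w.Pos (γ f / f - algebraMap ℂ K (ζ ^ w.ord f))) (k : Fin n) :
    γ (FF' K A c ζ (tv w) r P η k) = algebraMap ℂ K (η k) * FF' K A c ζ (tv w) r P η k := by
  have hη0 : η k ≠ 0 := by
    intro h0
    have := hd.eta k
    rw [h0, zero_pow hd.pos.ne'] at this
    exact zero_ne_one this
  have key : ∀ l : Fin n, γ (∑ i ∈ Finset.range r, algebraMap ℂ K ((η k)⁻¹ ^ i) *
      yy K A c ζ (tv w) ((A ^ i).mulVec (Pi.single l 1))) =
      algebraMap ℂ K (η k) * ∑ i ∈ Finset.range r, algebraMap ℂ K ((η k)⁻¹ ^ i) *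
      yy K A c ζ (tv w) ((A ^ i).mulVec (Pi.single l 1)) := by
    intro l
    set g : ℕ → K := fun i => algebraMap ℂ K ((η k)⁻¹ ^ i) *
      yy K A c ζ (tv w) ((A ^ i).mulVec (Pi.single l 1)) with hg
    have h1 : ∀ i, γ (g i) = algebraMap ℂ K (η k) * g (i + 1) := by
      intro i
      simp only [hg]
      rw [map_mul, AlgEquiv.commutes, γ_yy hζ0 hc0 hc hγ hw, Matrix.mulVec_mulVec, ← pow_succ',
        ← mul_assoc, ← map_mul]
      congr 2
      rw [pow_succ']
      field_simp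
    have h2 : g r = g 0 := by
      simp only [hg]
      rw [hd.pow, inv_pow, hd.eta, pow_zero, pow_zero, inv_one]
    have h3 : ∑ i ∈ Finset.range r, g (i + 1) = ∑ i ∈ Finset.range r, g i := by
      have h4 := Finset.sum_range_succ' g r
      rw [Finset.sum_range_succ, h2] at h4
      exact (add_right_cancel h4).symm
    rw [map_sum, Finset.sum_congr rfl fun i _ => h1 i, ← Finset.mul_sum, h3]
  unfold FF'
  rw [map_mul, AlgEquiv.commutes, map_sum]
  have h5 : ∀ l ∈ (Finset.univ : Finset (Fin n)), γ (algebraMap ℂ K (P l k) *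
      ∑ i ∈ Finset.range r, algebraMap ℂ K ((η k)⁻¹ ^ i) *
        yy K A c ζ (tv w) ((A ^ i).mulVec (Pi.single l 1))) = algebraMap ℂ K (η k) *
      (algebraMap ℂ K (P l k) * ∑ i ∈ Finset.range r, algebraMap ℂ K ((η k)⁻¹ ^ i) *
        yy K A c ζ (tv w) ((A ^ i).mulVec (Pi.single l 1))) := by
    intro l _
    rw [map_mul, AlgEquiv.commutes, key]
    ring
  rw [Finset.sum_congr rfl h5, ← Finset.mul_sum]
  ring

theorem pow_right (hd : IsDiag r A P Q η κ) (i : ℕ) (j k : Fin n) :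
    ∑ l, (((A ^ i) j l : ℤ) : ℂ) * P l k = η k ^ i * P j k := by
  have h1 : ∀ i : ℕ, (A.map (Int.cast : ℤ → ℂ)) ^ i * P = P * Matrix.diagonal (fun k => η k ^ i) := by
    intro i
    induction i with
    | zero => simp
    | succ i ih =>
      rw [pow_succ', Matrix.mul_assoc, ih, ← Matrix.mul_assoc, hd.right, Matrix.mul_assoc,
        Matrix.diagonal_mul_diagonal]
      congr 2
      funext k
      rw [pow_succ']
  have h2 := congrFun (congrFun (h1 i) j) k
  rw [Matrix.mul_apply, Matrix.mul_diagonal] at h2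
  rw [mul_comm, ← h2]
  refine Finset.sum_congr rfl fun l _ => ?_
  congr 1
  have h3 : (A ^ i).map (Int.castRingHom ℂ) = (A.map (Int.castRingHom ℂ)) ^ i :=
    Matrix.map_pow A (Int.castRingHom ℂ) i
  exact congrFun (congrFun h3 j) l

theorem tor_F (hd : IsDiag r A P Q η κ) (hζ0 : ζ ≠ 0)
    (hγ : ∀ m, γ (ym K m) = algebraMap ℂ K (c m) * ym K (A.mulVec m))
    (hw : ∀ f : K, f ≠ 0 → w.Pos (γ f / f - algebraMap ℂ K (ζ ^ w.ord f))) (j k : Fin n)
    (hk : η k ≠ 1) :
    CR w (tor K j (FF' K A c ζ (tv w) r P η k)) (algebraMap ℂ K (P j k)) := by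
  have hη0 : η k ≠ 0 := by
    intro h0
    have := hd.eta k
    rw [h0, zero_pow hd.pos.ne'] at this
    exact zero_ne_one this
  have hr0 : (r : ℂ) ≠ 0 := by exact_mod_cast hd.pos.ne'
  have hk1 : η k - 1 ≠ 0 := sub_ne_zero.2 hk
  have e1 : tor K j (FF' K A c ζ (tv w) r P η k) = algebraMap ℂ K ((r * (η k - 1))⁻¹) *
      ∑ l, algebraMap ℂ K (P l k) * ∑ i ∈ Finset.range r, algebraMap ℂ K ((η k)⁻¹ ^ i) *
        tor K j (yy K A c ζ (tv w) ((A ^ i).mulVec (Pi.single l 1))) := by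
    unfold FF'
    simp only [tor_const, map_sum]
  have e2 : P j k = (r * (η k - 1))⁻¹ * ∑ l, P l k * ∑ i ∈ Finset.range r, (η k)⁻¹ ^ i *
      (((A.mulVec ((A ^ i).mulVec (Pi.single l 1)) - (A ^ i).mulVec (Pi.single l 1)) j : ℤ) : ℂ) := by
    have e3 : ∀ (l : Fin n) (i : ℕ), (((A.mulVec ((A ^ i).mulVec (Pi.single l 1)) -
        (A ^ i).mulVec (Pi.single l 1)) j : ℤ) : ℂ) =
        (((A ^ (i + 1)) j l : ℤ) : ℂ) - (((A ^ i) j l : ℤ) : ℂ) := by
      intro l i
      rw [Matrix.mulVec_mulVec, ← pow_succ', Pi.sub_apply, Matrix.mulVec_single_one,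
        Matrix.mulVec_single_one]
      push_cast
      rfl
    simp only [e3, Finset.mul_sum]
    rw [Finset.sum_comm]
    have e4 : ∀ i ∈ Finset.range r, ∑ l, (r * (η k - 1))⁻¹ * (P l k * ((η k)⁻¹ ^ i *
        ((((A ^ (i + 1)) j l : ℤ) : ℂ) - (((A ^ i) j l : ℤ) : ℂ)))) = (r : ℂ)⁻¹ * P j k := by
      intro i _
      have h1 := pow_right hd (i + 1) j k
      have h2 := pow_right hd i j k
      have h3 : ∑ l, (r * (η k - 1))⁻¹ * (P l k * ((η k)⁻¹ ^ i *
        ((((A ^ (i + 1)) j l : ℤ) : ℂ) - (((A ^ i) j l : ℤ) : ℂ)))) = (r * (η k - 1))⁻¹ * (η k)⁻¹ ^ i *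
        (∑ l, (((A ^ (i + 1)) j l : ℤ) : ℂ) * P l k - ∑ l, (((A ^ i) j l : ℤ) : ℂ) * P l k) := by
        rw [← Finset.sum_sub_distrib, Finset.mul_sum]
        refine Finset.sum_congr rfl fun l _ => ?_
        ring
      rw [h3, h1, h2]
      rw [inv_pow, pow_succ]
      field_simp
    rw [Finset.sum_congr rfl e4, Finset.sum_const, Finset.card_range, nsmul_eq_mul]
    field_simp
  have e5 : algebraMap ℂ K (P j k) = algebraMap ℂ K ((r * (η k - 1))⁻¹) *
      ∑ l, algebraMap ℂ K (P l k) * ∑ i ∈ Finset.range r, algebraMap ℂ K ((η k)⁻¹ ^ i) *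
      algebraMap ℂ K ((((A.mulVec ((A ^ i).mulVec (Pi.single l 1)) -
        (A ^ i).mulVec (Pi.single l 1)) j : ℤ) : ℂ)) := by
    conv_lhs => rw [e2]
    simp only [map_mul, map_sum]
  rw [e1, e5]
  exact (CR.refl (w.reg_const _)).mul (CR.sum _ fun l _ => (CR.refl (w.reg_const _)).mul
    (CR.sum _ fun i _ => (CR.refl (w.reg_const _)).mul (tor_yy hζ0 hγ hw _ j)))

end main

end Low

open Low

variable {n s r : ℕ} {K : Type} [Field K] [Algebra ℂ K]
  [Algebra (MvPolynomial (Fin n) ℂ) K] [IsFractionRing (MvPolynomial (Fin n) ℂ) K]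
  [IsScalarTower ℂ (MvPolynomial (Fin n) ℂ) K]

/-- Proof. `w (γ f) = w f`, so `W0 = tv w` is invariant. With `y_m = c m ζ^(-W0 m) x^(A m - m) - 1`:
`y_m` is in the maximal ideal and `γ y_m = y_(A m)`; this gives the second claim, as a nonzero
constant is not in the maximal ideal. For `k` with `η k ≠ 1` let `ξ` be the `k`-th column of `P`,
`f_k = (1 / r) ∑_(i < r) η^(-i) ∑_l ξ_l y_(A^i e_l) / (η - 1)`, then `γ f_k = η f_k`,
`w (f_k) > 0` and `tor_j f_k - ξ_j` is in the maximal ideal. So `f_k ≠ 0`, `V0 k = w (f_k)` and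
`ζ ^ V0 k = η`. For a logarithmic family `N` the entries of `N` are in `O_w` (apply the family to
`x_j`); the matrix `Ξ` with the columns `P_k` (`η k = 1`) and `(tor_j f_k)_j` (`η k ≠ 1`) is
congruent to `P`, so it has a unit determinant, and the column `k` of `N Ξ` is divisible by `f_k`
if `η k ≠ 1`. So `w (det N) ≥ ∑ w (f_k)`. -/
theorem lower {A : Matrix (Fin n) (Fin n) ℤ} {P Q : Matrix (Fin n) (Fin n) ℂ} {η : Fin n → ℂ}
    {κ : Fin s → Fin n} (hd : IsDiag r A P Q η κ) {c : (Fin n → ℤ) → ℂ} (hc0 : ∀ m, c m ≠ 0)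
    (hc : ∀ m m', c (m + m') = c m * c m') {γ : K ≃ₐ[ℂ] K} (hγr : γ ^ r = 1)
    (hγ : ∀ m, γ (ym K m) = algebraMap ℂ K (c m) * ym K (A.mulVec m)) {ζ : ℂ}
    (hζ : IsPrimitiveRoot ζ r) {w : DVal K}
    (hw : ∀ f : K, f ≠ 0 → w.Pos (γ f / f - algebraMap ℂ K (ζ ^ w.ord f))) :
    Matrix.vecMul (tv w) A = tv w ∧
    (∀ m m', A.mulVec m - m = A.mulVec m' - m' →
      c m * ζ ^ (-pr m (tv w)) = c m' * ζ ^ (-pr m' (tv w))) ∧
    ∃ V0 : Fin s → ℤ, (∀ i, 0 < V0 i) ∧ (∀ i, ζ ^ V0 i = η (κ i)) ∧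
      ∀ N : Matrix (Fin n) (Fin n) K, N.det ≠ 0 → (∀ i, LogAt w (∑ j, N i j • tor K j)) →
        ∑ i, V0 i ≤ w.ord N.det := by
  classical
  have hζ0 : ζ ≠ 0 := hζ.ne_zero hd.pos.ne'
  refine ⟨tv_inv hζ0 hc0 hγ hw, ?_, ?_⟩
  · intro m m' hmm
    have h1 := pos_yy hζ0 hγ hw m
    have h2 := pos_yy hζ0 hγ hw m'
    have h3 := w.pos_add h1 (pos_neg h2)
    have h4 : yy K A c ζ (tv w) m + -yy K A c ζ (tv w) m' =
        algebraMap ℂ K (c m * ζ ^ (-pr m (tv w)) - c m' * ζ ^ (-pr m' (tv w))) *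
          ym K (A.mulVec m - m) := by
      unfold yy
      rw [← hmm, map_sub]
      ring
    rw [h4] at h3
    have h5 : w.Reg (ym K (-(A.mulVec m - m))) := by
      refine Or.inr ?_
      rw [ord_ym, pr_neg, pr_sub, pr_mulVec hζ0 hc0 hγ hw, sub_self, neg_zero]
    have h6 := w.pos_mul_left h5 h3
    have h7 : ym K (-(A.mulVec m - m)) * (algebraMap ℂ K (c m * ζ ^ (-pr m (tv w)) -
        c m' * ζ ^ (-pr m' (tv w))) * ym K (A.mulVec m - m)) =
        algebraMap ℂ K (c m * ζ ^ (-pr m (tv w)) - c m' * ζ ^ (-pr m' (tv w))) := by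
      have := ym_mul_neg (K := K) (A.mulVec m - m)
      linear_combination algebraMap ℂ K (c m * ζ ^ (-pr m (tv w)) -
        c m' * ζ ^ (-pr m' (tv w))) * this
    rw [h7] at h6
    exact sub_eq_zero.1 (pos_const h6)
  -- the eigenfunctions
  set F : Fin n → K := fun k => FF' K A c ζ (tv w) r P η k with hF
  have hPdet : P.det ≠ 0 := by
    intro h0
    have := congrArg Matrix.det hd.PQ
    rw [Matrix.det_mul, h0, zero_mul, Matrix.det_one] at this
    exact zero_ne_one this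
  have hFpos : ∀ k, w.Pos (F k) := fun k => pos_F hζ0 hγ hw k
  have hFtor : ∀ j k, η k ≠ 1 → CR w (tor K j (F k)) (algebraMap ℂ K (P j k)) :=
    fun j k hk => tor_F hd hζ0 hγ hw j k hk
  have hF0 : ∀ k, η k ≠ 1 → F k ≠ 0 := by
    intro k hk h0
    apply hPdet
    refine Matrix.det_eq_zero_of_column_eq_zero k fun j => ?_
    have h1 := hFtor j k hk
    rw [h0, map_zero] at h1
    have h2 := pos_neg h1.2.2
    rw [zero_sub, neg_neg] at h2
    exact pos_const h2
  have hFord : ∀ k, η k ≠ 1 → 0 < w.ord (F k) := by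
    intro k hk
    rcases hFpos k with h | h
    · exact absurd h (hF0 k hk)
    · exact h
  refine ⟨fun i => w.ord (F (κ i)), fun i => hFord _ ((hd.ran _).1 ⟨i, rfl⟩), fun i => ?_, ?_⟩
  · have hk := (hd.ran _).1 ⟨i, rfl⟩
    have h1 := hw (F (κ i)) (hF0 _ hk)
    have h2 : γ (F (κ i)) = algebraMap ℂ K (η (κ i)) * F (κ i) := γ_F hd hζ0 hc0 hc hγ hw (κ i)
    rw [h2, mul_div_assoc, div_self (hF0 _ hk), mul_one, ← map_sub] at h1
    exact (sub_eq_zero.1 (pos_const h1)).symm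
  · intro N hN hlog
    have happ : ∀ (i : Fin n) (f : K), (∑ j, N i j • tor K j) f = ∑ j, N i j * tor K j f := by
      intro i f
      have h1 : ∀ (s : Finset (Fin n)), (∑ j ∈ s, N i j • tor K j) f = ∑ j ∈ s, N i j * tor K j f := by
        intro s
        induction s using Finset.induction_on with
        | empty => rw [Finset.sum_empty, Finset.sum_empty]; rfl
        | insert a s ha ih =>
          rw [Finset.sum_insert ha, Finset.sum_insert ha, Derivation.add_apply, ih,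
            Derivation.smul_apply, smul_eq_mul]
      exact h1 Finset.univ
    have hNreg : ∀ i j, w.Reg (N i j) := by
      intro i j
      have h1 := hlog i (ym K (Pi.single j 1)) (ym_ne _)
      rw [happ] at h1
      have h2 : ∑ l, N i l * tor K l (ym K (Pi.single j 1)) = N i j * ym K (Pi.single j 1) := by
        rw [Finset.sum_eq_single j]
        · rw [tor_ym, Pi.single_eq_same]
          push_cast
          ring
        · intro b _ hb
          rw [tor_ym, Pi.single_eq_of_ne hb]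
          push_cast
          ring
        · intro h
          exact absurd (Finset.mem_univ _) h
      rw [h2, mul_div_assoc, div_self (ym_ne _), mul_one] at h1
      exact h1
    set Ξ : Matrix (Fin n) (Fin n) K := Matrix.of fun j k =>
      if η k = 1 then algebraMap ℂ K (P j k) else tor K j (F k) with hΞ
    have hΞc : ∀ j k, CR w (Ξ j k) (algebraMap ℂ K (P j k)) := by
      intro j k
      rw [hΞ, Matrix.of_apply]
      split_ifs with h
      · exact CR.refl (w.reg_const _)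
      · exact hFtor j k h
    have hΞd : Ξ.det ≠ 0 ∧ w.ord Ξ.det = 0 := by
      have h1 : CR w Ξ.det (P.map (algebraMap ℂ K)).det := CR.det fun j k => hΞc j k
      have h2 : (P.map (algebraMap ℂ K)).det = algebraMap ℂ K P.det :=
        (RingHom.map_det (algebraMap ℂ K) P).symm
      rw [h2] at h1
      exact h1.ord hPdet
    set vk : Fin n → K := fun k => if η k = 1 then 1 else F k with hvk
    set M' : Matrix (Fin n) (Fin n) K := Matrix.of fun i k =>
      if η k = 1 then (N * Ξ) i k else (∑ j, N i j * tor K j (F k)) / F k with hM'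
    have hvk0 : ∀ k, vk k ≠ 0 := by
      intro k
      simp only [hvk]
      split_ifs with h
      · exact one_ne_zero
      · exact hF0 k h
    have hM'reg : ∀ i k, w.Reg (M' i k) := by
      intro i k
      rw [hM', Matrix.of_apply]
      split_ifs with h
      · rw [Matrix.mul_apply]
        exact reg_sum _ fun j _ => w.reg_mul (hNreg i j) (hΞc j k).1
      · have h1 := hlog i (F k) (hF0 k h)
        rw [happ] at h1
        exact h1
    have hfac : N * Ξ = Matrix.of fun i k => vk k * M' i k := by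
      refine Matrix.ext fun i k => ?_
      rw [Matrix.of_apply, hM', Matrix.of_apply]
      simp only [hvk]
      split_ifs with h
      · rw [one_mul]
      · rw [Matrix.mul_apply, mul_div_cancel₀ _ (hF0 k h)]
        refine Finset.sum_congr rfl fun j _ => ?_
        rw [hΞ, Matrix.of_apply, if_neg h]
    have hdet : N.det * Ξ.det = (∏ k, vk k) * M'.det := by
      rw [← Matrix.det_mul, hfac, Matrix.det_mul_row]
    have hprod : ∏ k, vk k ≠ 0 := Finset.prod_ne_zero_iff.2 fun k _ => hvk0 k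
    have hM'0 : M'.det ≠ 0 := by
      intro h0
      rw [h0, mul_zero] at hdet
      exact mul_ne_zero hN hΞd.1 hdet
    have h1 := congrArg w.ord hdet
    rw [w.map_mul _ _ hN hΞd.1, w.map_mul _ _ hprod hM'0, hΞd.2, add_zero,
      w.ord_prod _ _ fun k _ => hvk0 k] at h1
    have h2 : 0 ≤ w.ord M'.det := by
      rcases reg_det hM'reg with h | h
      · exact absurd h hM'0
      · exact h
    have h3 : ∑ i, w.ord (F (κ i)) = ∑ k, w.ord (vk k) := by
      refine Fintype.sum_of_injective κ hd.inj _ _ (fun k hk => ?_) fun i => ?_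
      · have h4 : η k = 1 := by
          by_contra h5
          exact hk ((hd.ran k).2 h5)
        simp only [hvk]
        rw [if_pos h4, w.ord_one]
      · have h4 := (hd.ran (κ i)).1 ⟨i, rfl⟩
        simp only [hvk]
        rw [if_neg h4]
    show ∑ i, w.ord (F (κ i)) ≤ w.ord N.det
    rw [h1, h3]
    linarith

end Pool.Agent.Helper58K9.QT
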