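import Mathlib
import Pool.Agent.Helper58K9.QT.Defs

/-!
# Basic lemmas
-/

set_option autoImplicit false
set_option linter.unusedSectionVars false

namespace Pool.Agent.Helper58K9.QT

open Pool.Agent.H436R3.Fol Pool.Agent.H436R3.KT Pool.Agent.W497.Mld Pool.Agent.TH165.ACC
  MvPolynomial

section ov

variable {L K : Type} [Field L] [Algebra ℂ L] [Field K] [Algebra ℂ K] [Algebra L K]
  [IsScalarTower ℂ L K] {v : DVal L} {w : DVal K} {e : ℤ}

theorem Over.pos_iff (h : Over w v e) (f : L) : w.Pos (algebraMap L K f) ↔ v.Pos f := by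
  by_cases hf : f = 0
  · subst hf
    simp [DVal.Pos]
  · have h1 : algebraMap L K f ≠ 0 := (map_ne_zero _).2 hf
    simp only [DVal.Pos, hf, h1, false_or]
    rw [h.2 f hf]
    exact mul_pos_iff_of_pos_left h.1

theorem Over.reg_iff (h : Over w v e) (f : L) : w.Reg (algebraMap L K f) ↔ v.Reg f := by
  by_cases hf : f = 0
  · subst hf
    simp [DVal.Reg]
  · have h1 : algebraMap L K f ≠ 0 := (map_ne_zero _).2 hf
    simp only [DVal.Reg, hf, h1, false_or]
    rw [h.2 f hf]
    constructor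
    · intro h2
      by_contra h3
      push Not at h3
      nlinarith [h.1]
    · intro h2
      exact mul_nonneg h.1.le h2

end ov

theorem reg_of_pos {K : Type} [Field K] [Algebra ℂ K] {w : DVal K} {f : K} (h : w.Pos f) :
    w.Reg f := by
  rcases h with h | h
  · exact Or.inl h
  · exact Or.inr h.le

/-- the functions on a germ are regular at the valuations with centre `P` -/
theorem reg_of_center {K : Type} [Field K] [Algebra ℂ K] {R : Subalgebra ℂ K} {O : R →ₐ[ℂ] ℂ}
    {w : DVal K} (h : ∀ f : R, w.Pos (f : K) ↔ O f = 0) {f : K} (hf : f ∈ R) : w.Reg f := by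
  have h1 : w.Pos (((⟨f, hf⟩ : R) - algebraMap ℂ R (O ⟨f, hf⟩) : R) : K) := by
    rw [h]
    rw [map_sub, AlgHom.commutes]
    simp
  have h2 : f = (((⟨f, hf⟩ : R) - algebraMap ℂ R (O ⟨f, hf⟩) : R) : K) +
      algebraMap ℂ K (O ⟨f, hf⟩) := by
    rw [Subalgebra.coe_sub, Subalgebra.coe_algebraMap]
    ring
  rw [h2]
  exact w.reg_add (reg_of_pos h1) (w.reg_const _)

section det

variable {n : ℕ} {K : Type} [Field K] [Algebra ℂ K]

theorem det_reg {w : DVal K} {M : Matrix (Fin n) (Fin n) K} (h : ∀ i j, w.Reg (M i j)) :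
    w.Reg M.det := det_mem' w.O M h

/-- the determinant of a logarithmic family in coordinates `t, y` -/
theorem log_det {k : ℕ} {w : DVal K} (T : Fin (k + 1) → Derivation ℂ K K)
    {N : Matrix (Fin (k + 1)) (Fin (k + 1)) K} (hN0 : N.det ≠ 0)
    (hN : ∀ i, LogAt w (∑ j, N i j • T j)) {t : K} {y : Fin k → K} (ht0 : t ≠ 0)
    (hy : ∀ i, y i ≠ 0 ∧ w.ord (y i) = 0)
    (hU : (Matrix.of fun i j : Fin (k + 1) => T i ((Fin.cons t y : Fin (k + 1) → K) j)).det ≠ 0) :
    w.ord t ≤ w.ord N.det + w.ord (Matrix.of fun i j : Fin (k + 1) =>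
      T i ((Fin.cons t y : Fin (k + 1) → K) j)).det := by
  set U : Matrix (Fin (k + 1)) (Fin (k + 1)) K :=
    Matrix.of fun i j : Fin (k + 1) => T i ((Fin.cons t y : Fin (k + 1) → K) j) with hUd
  let d : Fin (k + 1) → K := Fin.cons t⁻¹ fun _ => 1
  have h1 : w.Reg (N * U * Matrix.diagonal d).det := by
    apply det_reg
    intro i j
    rw [Matrix.mul_diagonal]
    have h2 : (N * U) i j = (∑ l, N i l • T l) ((Fin.cons t y : Fin (k + 1) → K) j) := by
      rw [Matrix.mul_apply, der_sum_apply]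
      rfl
    rw [h2]
    refine Fin.cases ?_ (fun j => ?_) j
    · simp only [Fin.cons_zero, d]
      rw [← div_eq_mul_inv]
      exact hN i t ht0
    · simp only [Fin.cons_succ, d, mul_one]
      have h3 := hN i (y j) (hy j).1
      have h4 : (∑ l, N i l • T l) (y j) = (∑ l, N i l • T l) (y j) / y j * y j := by
        rw [div_mul_cancel₀ _ (hy j).1]
      rw [h4]
      exact w.reg_mul h3 (Or.inr (hy j).2.ge)
  have h5 : (N * U * Matrix.diagonal d).det = N.det * U.det * t⁻¹ := by
    rw [Matrix.det_mul, Matrix.det_mul, Matrix.det_diagonal, Fin.prod_univ_succ]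
    simp [d]
  rw [h5] at h1
  have h6 : N.det * U.det * t⁻¹ ≠ 0 := mul_ne_zero (mul_ne_zero hN0 hU) (inv_ne_zero ht0)
  have h7 := w.ord_nonneg h6 h1
  rw [w.map_mul _ _ (mul_ne_zero hN0 hU) (inv_ne_zero ht0), w.map_mul _ _ hN0 hU,
    w.ord_inv ht0] at h7
  omega

end det

theorem pr_add_right {n : ℕ} (m u u' : Fin n → ℤ) : pr m (u + u') = pr m u + pr m u' := by
  simp only [pr, Pi.add_apply, mul_add, Finset.sum_add_distrib]

theorem ym_single {n : ℕ} {K : Type} [Field K] [Algebra ℂ K]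
    [Algebra (MvPolynomial (Fin n) ℂ) K] [IsFractionRing (MvPolynomial (Fin n) ℂ) K]
    [IsScalarTower ℂ (MvPolynomial (Fin n) ℂ) K] (i : Fin n) :
    ym K (Pi.single i 1 : Fin n → ℤ) = cv K i := by
  rw [ym, Finset.prod_eq_single i]
  · simp
  · intro j _ hj
    rw [Pi.single_eq_of_ne hj, zpow_zero]
  · intro h
    exact absurd (Finset.mem_univ _) h

theorem pr_single {n : ℕ} (i : Fin n) (u : Fin n → ℤ) : pr (Pi.single i 1) u = u i := by
  rw [pr, Finset.sum_eq_single i]
  · simp
  · intro j _ hj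
    rw [Pi.single_eq_of_ne hj, zero_mul]
  · intro h
    exact absurd (Finset.mem_univ _) h

section mu

variable {k d : ℕ} {L K : Type} [Field L] [Algebra ℂ L] [Field K] [Algebra ℂ K] [Algebra L K]
  [IsScalarTower ℂ L K] [Algebra (MvPolynomial (Fin (k + 1)) ℂ) K]
  [IsFractionRing (MvPolynomial (Fin (k + 1)) ℂ) K]
  [IsScalarTower ℂ (MvPolynomial (Fin (k + 1)) ℂ) K]

theorem map_det_eq {F : Foliation L d} {C : Matrix (Fin (k + 1)) (Fin (k + 1)) K}
    {ε : Fin d ≃ Fin (k + 1)} (hCT : ∀ (i : Fin d) (f : L),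
      algebraMap L K (F.D i f) = ∑ j, C (ε i) j * tor K j (algebraMap L K f))
    (t : L) (y : Fin k → L) :
    algebraMap L K (Matrix.of fun i j : Fin (k + 1) =>
      F.D (ε.symm i) ((Fin.cons t y : Fin (k + 1) → L) j)).det =
    C.det * (Matrix.of fun i j : Fin (k + 1) =>
      tor K i ((Fin.cons (algebraMap L K t) fun i => algebraMap L K (y i) :
        Fin (k + 1) → K) j)).det := by
  rw [← Matrix.det_mul]
  rw [RingHom.map_det]
  congr 1
  ext i j
  rw [RingHom.mapMatrix_apply, Matrix.map_apply, Matrix.mul_apply]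
  have h2 := hCT (ε.symm i) ((Fin.cons t y : Fin (k + 1) → L) j)
  rw [Equiv.apply_symm_apply] at h2
  change algebraMap L K (F.D (ε.symm i) ((Fin.cons t y : Fin (k + 1) → L) j)) = _
  rw [h2]
  refine Finset.sum_congr rfl fun l _ => ?_
  congr 1
  change _ = tor K l _
  congr 1
  refine Fin.cases ?_ (fun j => ?_) j <;> simp

end mu

end Pool.Agent.Helper58K9.QT
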