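import Mathlib
import Pool.Agent.Helper58K9.QT.Defs

/-!
# [RES] Residue fields in algebraic extensions
-/

set_option autoImplicit false

namespace Pool.Agent.Helper58K9.QT

open Pool.Agent.H436R3.Fol

variable {L K : Type} [Field L] [Algebra ℂ L] [Field K] [Algebra ℂ K] [Algebra L K]
  [IsScalarTower ℂ L K]

namespace ResP

omit [IsScalarTower ℂ L K] in
theorem reg_map {v : DVal L} {w : DVal K} {e : ℤ} (h : Over w v e) {f : L} (hf : v.Reg f) :
    w.Reg (algebraMap L K f) := by
  by_cases h0 : f = 0
  · left; rw [h0, map_zero]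
  right
  rw [h.2 f h0]
  exact mul_nonneg h.1.le (hf.resolve_left h0)

omit [IsScalarTower ℂ L K] in
theorem pos_map {v : DVal L} {w : DVal K} {e : ℤ} (h : Over w v e) {f : L} (hf : v.Pos f) :
    w.Pos (algebraMap L K f) := by
  by_cases h0 : f = 0
  · left; rw [h0, map_zero]
  right
  rw [h.2 f h0]
  exact mul_pos h.1 (hf.resolve_left h0)

omit [IsScalarTower ℂ L K] in
theorem pos_of_map {v : DVal L} {w : DVal K} {e : ℤ} (h : Over w v e) {f : L}
    (hf : w.Pos (algebraMap L K f)) : v.Pos f := by
  by_cases h0 : f = 0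
  · left; exact h0
  right
  have h1 := hf.resolve_left ((map_ne_zero _).2 h0)
  rw [h.2 f h0] at h1
  exact pos_of_mul_pos_right h1 h.1.le

theorem reg_of_pos {F : Type} [Field F] [Algebra ℂ F] {w : DVal F} {f : F} (hf : w.Pos f) :
    w.Reg f := hf.imp id le_of_lt

theorem reg_pow {F : Type} [Field F] [Algebra ℂ F] {w : DVal F} {f : F} (hf : w.Reg f) (n : ℕ) :
    w.Reg (f ^ n) := by
  induction n with
  | zero => rw [pow_zero]; exact w.reg_one
  | succ n ih => rw [pow_succ]; exact w.reg_mul ih hf

theorem pos_sum {F ι : Type} [Field F] [Algebra ℂ F] {w : DVal F} (s : Finset ι) (f : ι → F)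
    (hf : ∀ i ∈ s, w.Pos (f i)) : w.Pos (∑ i ∈ s, f i) := by
  classical
  induction s using Finset.induction_on with
  | empty => left; simp
  | insert a s ha ih =>
    rw [Finset.sum_insert ha]
    exact w.pos_add (hf a (Finset.mem_insert_self _ _))
      (ih fun i hi => hf i (Finset.mem_insert_of_mem hi))

theorem reg_sum {F ι : Type} [Field F] [Algebra ℂ F] {w : DVal F} (s : Finset ι) (f : ι → F)
    (hf : ∀ i ∈ s, w.Reg (f i)) : w.Reg (∑ i ∈ s, f i) := by
  classical
  induction s using Finset.induction_on with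
  | empty => left; simp
  | insert a s ha ih =>
    rw [Finset.sum_insert ha]
    exact w.reg_add (hf a (Finset.mem_insert_self _ _))
      (ih fun i hi => hf i (Finset.mem_insert_of_mem hi))

theorem not_pos_one {F : Type} [Field F] [Algebra ℂ F] {w : DVal F} : ¬ w.Pos 1 := by
  rintro (h | h)
  · exact one_ne_zero h
  · rw [w.ord_one] at h
    exact lt_irrefl _ h

/-- a positive integer is a unit -/
theorem pos_of_nat_mul {F : Type} [Field F] [Algebra ℂ F] {w : DVal F} {n : ℕ} (hn : n ≠ 0) {f : F}
    (hf : w.Pos ((n : F) * f)) : w.Pos f := by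
  have h1 : f = algebraMap ℂ F ((n : ℂ)⁻¹) * ((n : F) * f) := by
    have h2 : algebraMap ℂ F ((n : ℂ)⁻¹) * (n : F) = 1 := by
      have h3 : (n : F) = algebraMap ℂ F (n : ℂ) := by simp
      rw [h3, ← map_mul, inv_mul_cancel₀ (by exact_mod_cast hn), map_one]
    rw [← mul_assoc, h2, one_mul]
  rw [h1]
  exact w.pos_mul_left (w.reg_const _) hf

end ResP

open ResP

omit [IsScalarTower ℂ L K] in
/-- [RES] An element `u` of `O_w` is residually algebraic over `O_v`, with a separable minimal
equation: there are `c_0, ..., c_d` in `O_v` with `P (u)` in the maximal ideal and `P' (u)` a unit,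
`P = ∑ c_i X^i`. -/
theorem exists_res_poly' [Algebra.IsAlgebraic L K] {v : DVal L} {w : DVal K} {e : ℤ}
    (h : Over w v e) {u : K} (hu : w.Reg u) : ∃ p : Polynomial L, (∀ i, v.Reg (p.coeff i)) ∧
      w.Pos (Polynomial.aeval u p) ∧ ¬ w.Pos (Polynomial.aeval u (Polynomial.derivative p)) := by
  classical
  -- nonzero reductions which kill `u`
  have hex : ∃ n : ℕ, ∃ p : Polynomial L, (∀ i, v.Reg (p.coeff i)) ∧ (∃ i, ¬ v.Pos (p.coeff i)) ∧
      w.Pos (Polynomial.aeval u p) ∧ p.natDegree = n := by
    obtain ⟨p0, hp0, hp0f⟩ : ∃ p : Polynomial L, p ≠ 0 ∧ Polynomial.aeval u p = 0 :=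
      Algebra.IsAlgebraic.isAlgebraic (R := L) u
    obtain ⟨j, hj, hmin⟩ : ∃ j ∈ p0.support, ∀ i ∈ p0.support,
        v.ord (p0.coeff j) ≤ v.ord (p0.coeff i) :=
      Finset.exists_min_image p0.support (fun i => v.ord (p0.coeff i))
        (Polynomial.nonempty_support_iff.2 hp0)
    have hc0 : p0.coeff j ≠ 0 := Polynomial.mem_support_iff.1 hj
    refine ⟨_, Polynomial.C (p0.coeff j)⁻¹ * p0, ?_, ⟨j, ?_⟩, ?_, rfl⟩
    · intro n
      rw [Polynomial.coeff_C_mul]
      by_cases h0 : p0.coeff n = 0
      · left; rw [h0, mul_zero]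
      right
      rw [v.map_mul _ _ (inv_ne_zero hc0) h0, v.ord_inv hc0]
      have := hmin n (Polynomial.mem_support_iff.2 h0)
      omega
    · rw [Polynomial.coeff_C_mul, inv_mul_cancel₀ hc0]
      exact not_pos_one
    · left
      rw [map_mul, hp0f, mul_zero]
  obtain ⟨p, hreg, ⟨i0, hi0⟩, hpos, hdeg⟩ := Nat.find_spec hex
  refine ⟨p, hreg, hpos, fun hder => ?_⟩
  -- all coefficients of positive index lie in the maximal ideal
  have hsmall : ∀ i, i ≠ 0 → v.Pos (p.coeff i) := by
    by_cases hd0 : p.natDegree = 0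
    · intro i hi
      left
      exact Polynomial.coeff_eq_zero_of_natDegree_lt (by omega)
    have hlt := Polynomial.natDegree_derivative_lt hd0
    intro i hi
    by_contra hcon
    have h2 : ∀ i, v.Reg ((Polynomial.derivative p).coeff i) := by
      intro i
      rw [Polynomial.coeff_derivative]
      refine v.reg_mul (hreg _) ?_
      have h3 : ((i : L) + 1) = algebraMap ℂ L ((i : ℂ) + 1) := by simp
      rw [h3]
      exact v.reg_const _
    have h3 : ¬ v.Pos ((Polynomial.derivative p).coeff (i - 1)) := by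
      intro h4
      apply hcon
      rw [Polynomial.coeff_derivative] at h4
      have h5 : i - 1 + 1 = i := by omega
      rw [h5] at h4
      have h6 : p.coeff i * (((i - 1 : ℕ) : L) + 1) = (i : L) * p.coeff i := by
        have h7 : (((i - 1 : ℕ) : L) + 1) = (i : L) := by
          rw [← Nat.cast_add_one, h5]
        rw [h7, mul_comm]
      rw [h6] at h4
      exact pos_of_nat_mul hi h4
    have h4 := Nat.find_min' hex ⟨Polynomial.derivative p, h2, ⟨i - 1, h3⟩, hder, rfl⟩
    omega
  have h0 : i0 = 0 := by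
    by_contra h1
    exact hi0 (hsmall i0 h1)
  subst h0
  apply hi0
  apply pos_of_map h
  have h1 : algebraMap L K (p.coeff 0) = Polynomial.aeval u p +
      -(∑ i ∈ Finset.range p.natDegree, algebraMap L K (p.coeff (i + 1)) * u ^ (i + 1)) := by
    rw [Polynomial.aeval_eq_sum_range, Finset.sum_range_succ']
    simp only [Algebra.smul_def, pow_zero, mul_one]
    ring
  rw [h1]
  refine w.pos_add hpos ?_
  have h2 : w.Pos (∑ i ∈ Finset.range p.natDegree,
      algebraMap L K (p.coeff (i + 1)) * u ^ (i + 1)) := by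
    refine pos_sum _ _ fun i _ => ?_
    rw [mul_comm]
    exact w.pos_mul_left (reg_pow hu _) (pos_map h (hsmall _ (by omega)))
  have h3 : -(∑ i ∈ Finset.range p.natDegree, algebraMap L K (p.coeff (i + 1)) * u ^ (i + 1)) =
      (-1) * ∑ i ∈ Finset.range p.natDegree, algebraMap L K (p.coeff (i + 1)) * u ^ (i + 1) := by
    ring
  rw [h3]
  exact w.pos_mul_left (w.reg_neg w.reg_one) h2

/-- [RES] An element `u` of `O_w` is residually algebraic over `O_v`, with a separable minimal
equation: there are `c_0, ..., c_d` in `O_v` with `P (u)` in the maximal ideal and `P' (u)` a unit,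
`P = ∑ c_i X^i`. -/
theorem exists_res_poly [Algebra.IsAlgebraic L K] {v : DVal L} {w : DVal K} {e : ℤ}
    (h : Over w v e) {u : K} (hu : w.Reg u) : ∃ p : Polynomial L, (∀ i, v.Reg (p.coeff i)) ∧
      w.Pos (Polynomial.aeval u p) ∧ ¬ w.Pos (Polynomial.aeval u (Polynomial.derivative p)) :=
  exists_res_poly' h hu

omit [IsScalarTower ℂ L K] in
/-- the derivation applied to the value of a polynomial -/
theorem ResP.der_aeval (D : Derivation ℂ K K) (u : K) (p : Polynomial L) :
    D (Polynomial.aeval u p) = (p.sum fun i c => D (algebraMap L K c) * u ^ i) +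
      Polynomial.aeval u (Polynomial.derivative p) * D u := by
  induction p using Polynomial.induction_on' with
  | add p q hp hq =>
    rw [map_add, map_add, hp, hq, Polynomial.sum_add_index, map_add, map_add]
    · ring
    · intro i; simp
    · intro i a b; rw [map_add, map_add]; ring
  | monomial n a =>
    rw [Polynomial.aeval_monomial, Derivation.leibniz, Derivation.leibniz_pow,
      Polynomial.sum_monomial_index _ _ (by simp), Polynomial.derivative_monomial,
      Polynomial.aeval_monomial]
    simp only [smul_eq_mul, nsmul_eq_mul, map_mul, map_natCast]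
    ring

/-- [STR] Proof: `exists_res_poly`. -/
theorem strict_of_over [Algebra.IsAlgebraic L K] {v : DVal L} {w : DVal K} {e : ℤ}
    (h : Over w v e) {D : Derivation ℂ K K} (hlog : LogAt w D)
    (hD : ∀ f : L, v.Reg f → w.Pos (D (algebraMap L K f))) : ∀ f : K, w.Reg f → w.Pos (D f) := by
  intro f hf
  obtain ⟨p, hreg, hpos, hder⟩ := exists_res_poly h hf
  have h1 : w.Pos (D (Polynomial.aeval f p)) := by
    by_cases h0 : Polynomial.aeval f p = 0
    · left; rw [h0, map_zero]
    have h2 : D (Polynomial.aeval f p) =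
        (D (Polynomial.aeval f p) / Polynomial.aeval f p) * Polynomial.aeval f p :=
      (div_mul_cancel₀ _ h0).symm
    rw [h2]
    exact w.pos_mul_left (hlog _ h0) hpos
  have h2 : w.Pos (p.sum fun i c => D (algebraMap L K c) * f ^ i) := by
    rw [Polynomial.sum_def]
    refine pos_sum _ _ fun i _ => ?_
    rw [mul_comm]
    exact w.pos_mul_left (reg_pow hf _) (hD _ (hreg i))
  have h3 : w.Pos (Polynomial.aeval f (Polynomial.derivative p) * D f) := by
    have h4 : Polynomial.aeval f (Polynomial.derivative p) * D f = D (Polynomial.aeval f p) +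
        (-1) * (p.sum fun i c => D (algebraMap L K c) * f ^ i) := by
      rw [ResP.der_aeval D f p]; ring
    rw [h4]
    exact w.pos_add h1 (w.pos_mul_left (w.reg_neg w.reg_one) h2)
  have hne : Polynomial.aeval f (Polynomial.derivative p) ≠ 0 := fun h0 => hder (Or.inl h0)
  have hord : w.ord (Polynomial.aeval f (Polynomial.derivative p)) ≤ 0 := by
    by_contra h0
    exact hder (Or.inr (by omega))
  by_cases h0 : D f = 0
  · left; exact h0
  right
  have h4 := h3.resolve_left (mul_ne_zero hne h0)
  rw [w.map_mul _ _ hne h0] at h4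
  omega

end Pool.Agent.Helper58K9.QT
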