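import Mathlib
import Pool.Agent.Helper58K9.QT.ResPoly

/-!
# [DESC] Residual transcendence degree in algebraic extensions
-/

set_option autoImplicit false

namespace Pool.Agent.Helper58K9.QT

open Pool.Agent.H436R3.Fol MvPolynomial

namespace Desc

/-- algebraically independent families descend in algebraic extensions of fields -/
theorem descend_ind {F E : Type} [Field F] [Field E] [Algebra ℂ F] [Algebra ℂ E]
    (φ : F →ₐ[ℂ] E) (h : ∀ x : E, ∃ P : Polynomial F, P ≠ 0 ∧ P.eval₂ (φ : F →+* E) x = 0)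
    {k : ℕ} {x : Fin k → E}
    (hx : AlgebraicIndependent ℂ x) : ∃ x' : Fin k → F, AlgebraicIndependent ℂ x' := by
  let _ : Algebra F E := (φ : F →+* E).toAlgebra
  have : IsScalarTower ℂ F E := IsScalarTower.of_algebraMap_eq fun c => (φ.commutes c).symm
  have : Algebra.IsAlgebraic F E := ⟨fun x => h x⟩
  have h1 := hx.cardinalMk_le_trdeg
  rw [← trdeg_add_eq ℂ F (A := E), trdeg_eq_zero (R := F) (A := E),
    add_zero] at h1
  obtain ⟨ι, s, hs⟩ := exists_isTranscendenceBasis' ℂ F
  rw [← hs.cardinalMk_eq_trdeg] at h1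
  obtain ⟨f⟩ := (Cardinal.le_def _ _).1 h1
  exact ⟨fun i => s (f i), hs.1.comp f f.injective⟩

section one

variable {L : Type} [Field L] [Algebra ℂ L] (v : DVal L)

/-- the valuation ring, as a subalgebra -/
def OA : Subalgebra ℂ L where
  carrier := {f | v.Reg f}
  mul_mem' := v.reg_mul
  one_mem' := v.reg_one
  add_mem' := v.reg_add
  zero_mem' := v.reg_zero
  algebraMap_mem' := v.reg_const

theorem mem_OA {f : L} : f ∈ OA v ↔ v.Reg f := Iff.rfl

/-- the maximal ideal -/
def mxA : Ideal (OA v) where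
  carrier := {f | v.Pos (f : L)}
  add_mem' := by
    intro a b ha hb
    exact v.pos_add ha hb
  zero_mem' := Or.inl rfl
  smul_mem' := by
    intro c a ha
    exact v.pos_mul_left c.2 ha

theorem mem_mxA {f : OA v} : f ∈ mxA v ↔ v.Pos (f : L) := Iff.rfl

theorem not_pos {f : L} (hf : v.Reg f) (h : ¬ v.Pos f) : f ≠ 0 ∧ v.ord f = 0 := by
  have h0 : f ≠ 0 := fun h0 => h (Or.inl h0)
  have h1 : 0 ≤ v.ord f := hf.resolve_left h0
  refine ⟨h0, ?_⟩
  by_contra h2
  exact h (Or.inr (lt_of_le_of_ne h1 (Ne.symm h2)))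

instance mxA_max : (mxA v).IsMaximal := by
  rw [Ideal.isMaximal_iff]
  constructor
  · intro h
    rcases (mem_mxA v).1 h with h | h
    · exact one_ne_zero h
    · have h1 : v.ord ((1 : OA v) : L) = 0 := v.ord_one
      omega
  · intro J x _ hx hxJ
    have h1 := not_pos v x.2 (fun h => hx h)
    have h2 : v.Reg ((x : L)⁻¹) := Or.inr (by rw [v.ord_inv h1.1, h1.2, neg_zero])
    have h3 : (⟨(x : L)⁻¹, h2⟩ : OA v) * x = 1 := Subtype.ext (inv_mul_cancel₀ h1.1)
    rw [← h3]
    exact J.mul_mem_left _ hxJ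

/-- the residue field -/
abbrev kp : Type := OA v ⧸ mxA v

noncomputable instance : Field (kp v) := Ideal.Quotient.field _

/-- the residue -/
noncomputable def rs : OA v →ₐ[ℂ] kp v := Ideal.Quotient.mkₐ ℂ (mxA v)

theorem rs_eq_zero {f : OA v} : rs v f = 0 ↔ v.Pos (f : L) := by
  rw [rs, Ideal.Quotient.mkₐ_eq_mk, Ideal.Quotient.eq_zero_iff_mem, mem_mxA]

theorem rs_surj (x : kp v) : ∃ f : OA v, rs v f = x := Ideal.Quotient.mk_surjective x

theorem resInd_iff {k : ℕ} (y : Fin k → OA v) :
    ResInd v (fun i => (y i : L)) ↔ AlgebraicIndependent ℂ (fun i => rs v (y i)) := by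
  have h1 : ∀ p : MvPolynomial (Fin k) ℂ,
      aeval (fun i => (y i : L)) p = ((aeval y p : OA v) : L) := by
    intro p
    have h3 := MvPolynomial.comp_aeval_apply (φ := (OA v).val) (f := y) p
    exact h3.symm
  have h2 : ∀ p : MvPolynomial (Fin k) ℂ,
      aeval (fun i => rs v (y i)) p = rs v (aeval y p) := by
    intro p
    have h3 := MvPolynomial.comp_aeval_apply (φ := rs v) (f := y) p
    exact h3.symm
  constructor
  · intro h
    rw [algebraicIndependent_iff]
    intro p hp
    by_contra hp0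
    rw [h2, rs_eq_zero, ← h1] at hp
    have h3 := h p hp0
    rcases hp with hp | hp
    · exact h3.1 hp
    · rw [h3.2] at hp; exact lt_irrefl _ hp
  · intro h p hp
    rw [h1]
    refine not_pos v (aeval y p).2 (fun h3 => hp ?_)
    rw [← rs_eq_zero, ← h2] at h3
    exact (algebraicIndependent_iff.1 h) p h3

theorem resInd_reg {k : ℕ} {y : Fin k → L} (hy : ResInd v y) (i : Fin k) : v.Reg (y i) := by
  have h := hy (X i) (X_ne_zero i)
  rw [aeval_X] at h
  exact Or.inr h.2.ge

end one

section two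

variable {L K : Type} [Field L] [Algebra ℂ L] [Field K] [Algebra ℂ K] [Algebra L K]
  [IsScalarTower ℂ L K] {v : DVal L} {w : DVal K} {e : ℤ}

theorem pos_iff (h : Over w v e) (f : L) : w.Pos (algebraMap L K f) ↔ v.Pos f := by
  by_cases hf : f = 0
  · subst hf
    simp [DVal.Pos]
  · have h1 : algebraMap L K f ≠ 0 := (map_ne_zero _).2 hf
    simp only [DVal.Pos, hf, h1, false_or]
    rw [h.2 f hf]
    exact mul_pos_iff_of_pos_left h.1

theorem reg_of (h : Over w v e) {f : L} (hf : v.Reg f) : w.Reg (algebraMap L K f) := by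
  rcases hf with hf | hf
  · left; rw [hf, map_zero]
  · by_cases h0 : f = 0
    · left; rw [h0, map_zero]
    · right; rw [h.2 f h0]; exact mul_nonneg h.1.le hf

/-- the inclusion of the valuation rings -/
noncomputable def io (h : Over w v e) : OA v →ₐ[ℂ] OA w :=
  ((IsScalarTower.toAlgHom ℂ L K).comp (OA v).val).codRestrict (OA w) fun f => reg_of h f.2

theorem coe_io (h : Over w v e) (f : OA v) : ((io h f : OA w) : K) = algebraMap L K f := rfl

/-- the extension of the residue fields -/
noncomputable def kio (h : Over w v e) : kp v →ₐ[ℂ] kp w :=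
  Ideal.quotientMapₐ (mxA w) (io h) (fun f hf => (pos_iff h (f : L)).2 hf)

theorem kio_rs (h : Over w v e) (f : OA v) : kio h (rs v f) = rs w (io h f) := rfl

theorem isAlg [Algebra.IsAlgebraic L K] (h : Over w v e) (x : kp w) :
    ∃ P : Polynomial (kp v), P ≠ 0 ∧ P.eval₂ (kio h : kp v →+* kp w) x = 0 := by
  obtain ⟨u, rfl⟩ := rs_surj w x
  obtain ⟨p, hp, h1, h2⟩ := exists_res_poly h u.2
  have hl : p ∈ Polynomial.lifts ((OA v).val : OA v →+* L) := by
    rw [Polynomial.lifts_iff_coeff_lifts]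
    intro n
    exact ⟨⟨p.coeff n, hp n⟩, rfl⟩
  obtain ⟨P, hP⟩ := (Polynomial.mem_lifts _).1 hl
  have key : ∀ Q : Polynomial (OA v),
      (Q.map (rs v : OA v →+* kp v)).eval₂ (kio h : kp v →+* kp w) (rs w u) = 0 ↔
        w.Pos (Polynomial.aeval (u : K) (Q.map ((OA v).val : OA v →+* L))) := by
    intro Q
    have e1 : (Q.map (rs v : OA v →+* kp v)).eval₂ (kio h : kp v →+* kp w) (rs w u) =
        rs w (Q.eval₂ (io h : OA v →+* OA w) u) := by
      rw [Polynomial.eval₂_map]
      change _ = (rs w : OA w →+* kp w) (Q.eval₂ (io h : OA v →+* OA w) u)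
      rw [Polynomial.hom_eval₂]
      rfl
    have e2 : Polynomial.aeval (u : K) (Q.map ((OA v).val : OA v →+* L)) =
        ((Q.eval₂ (io h : OA v →+* OA w) u : OA w) : K) := by
      rw [Polynomial.aeval_def, Polynomial.eval₂_map]
      change _ = ((OA w).val : OA w →+* K) (Q.eval₂ (io h : OA v →+* OA w) u)
      rw [Polynomial.hom_eval₂]
      rfl
    rw [e1, e2, rs_eq_zero]
  refine ⟨P.map (rs v : OA v →+* kp v), ?_, ?_⟩
  · intro h0
    apply h2
    rw [← hP, Polynomial.derivative_map, ← key, ← Polynomial.derivative_map, h0,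
      Polynomial.derivative_zero, Polynomial.eval₂_zero]
  · rw [key, hP]
    exact h1

end two

end Desc

variable {L K : Type} [Field L] [Algebra ℂ L] [Field K] [Algebra ℂ K] [Algebra L K]
  [IsScalarTower ℂ L K]

open Desc in
/-- Proof: the residue field of `w` is algebraic over the one of `v` (`exists_res_poly`). -/
theorem resInd_descend [Algebra.IsAlgebraic L K] {v : DVal L} {w : DVal K} {e : ℤ}
    (h : Over w v e) {k : ℕ} {y : Fin k → K} (hy : ResInd w y) : ∃ y' : Fin k → L, ResInd v y' := by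
  have hreg := resInd_reg w hy
  let y1 : Fin k → OA w := fun i => ⟨y i, hreg i⟩
  have h1 : AlgebraicIndependent ℂ (fun i => rs w (y1 i)) := (resInd_iff w y1).1 hy
  obtain ⟨x', hx'⟩ := descend_ind (F := kp v) (E := kp w) (kio h) (isAlg h) h1
  choose y' hy' using fun i => rs_surj v (x' i)
  refine ⟨fun i => (y' i : L), (resInd_iff v y').2 ?_⟩
  simp only [hy']
  exact hx'

theorem resInd_map {v : DVal L} {w : DVal K} {e : ℤ} (h : Over w v e) {k : ℕ} {y : Fin k → L}
    (hy : ResInd v y) : ResInd w fun i => algebraMap L K (y i) := by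
  intro p hp
  have h1 : aeval (fun i => algebraMap L K (y i)) p = algebraMap L K (aeval y p) :=
    MvPolynomial.aeval_algebraMap_apply K y p
  have h2 := hy p hp
  rw [h1]
  refine ⟨(map_ne_zero _).2 h2.1, ?_⟩
  rw [h.2 _ h2.1, h2.2, mul_zero]

end Pool.Agent.Helper58K9.QT
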