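import Mathlib
import Pool.Agent.Helper58K9.QT.Defs

/-!
# [DER] Extension of derivations
-/

set_option autoImplicit false

namespace Pool.Agent.Helper58K9.QT

open Pool.Agent.H436R3.Fol Pool.Agent.W497.Mld Pool.Agent.TH165.ACC MvPolynomial

/-- Derivations extend to finite extensions (see `Mathlib.FieldTheory.Differential.Basic`,
`differentialFiniteDimensional`). -/
theorem exists_der_ext {L K : Type} [Field L] [Algebra ℂ L] [Field K] [Algebra ℂ K] [Algebra L K]
    [IsScalarTower ℂ L K] [FiniteDimensional L K] (D : Derivation ℂ L L) :
    ∃ D' : Derivation ℂ K K, ∀ f : L, D' (algebraMap L K f) = algebraMap L K (D f) := by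
  have hcL : CharZero L := charZero_of_injective_algebraMap (algebraMap ℂ L).injective
  have hcK : CharZero K := charZero_of_injective_algebraMap (algebraMap L K).injective
  let i1 : Differential L := ⟨D.restrictScalars ℤ⟩
  let i2 : Differential K := Differential.differentialFiniteDimensional L K
  have h : DifferentialAlgebra L K := Differential.differentialAlgebraFiniteDimensional
  have hd : ∀ f : L, i2.deriv (algebraMap L K f) = algebraMap L K (D f) :=
    fun f => h.deriv_algebraMap f
  refine ⟨Derivation.mk'
    { toFun := fun f => i2.deriv f
      map_add' := fun f g => map_add _ _ _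
      map_smul' := fun c f => ?_ } (fun f g => ?_), hd⟩
  · rw [RingHom.id_apply, Algebra.smul_def, Derivation.leibniz,
      IsScalarTower.algebraMap_apply ℂ L K, hd, Derivation.map_algebraMap, map_zero, smul_zero,
      add_zero, smul_eq_mul, ← IsScalarTower.algebraMap_apply ℂ L K, ← Algebra.smul_def]
  · exact Derivation.leibniz _ f g

/-- Derivations of an algebraic extension are determined by their values on `L`. -/
theorem der_ext_unique {L K : Type} [Field L] [Algebra ℂ L] [Field K] [Algebra ℂ K] [Algebra L K]
    [IsScalarTower ℂ L K] [Algebra.IsAlgebraic L K] {D D' : Derivation ℂ K K}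
    (h : ∀ f : L, D (algebraMap L K f) = D' (algebraMap L K f)) : D = D' := by
  have hcL : CharZero L := charZero_of_injective_algebraMap (algebraMap ℂ L).injective
  let E : Derivation L K K := Derivation.mk'
    { toFun := fun f => D f - D' f
      map_add' := fun f g => by rw [map_add, map_add]; ring
      map_smul' := fun c f => by
        rw [RingHom.id_apply, Algebra.smul_def, Derivation.leibniz, Derivation.leibniz, h c]
        simp only [smul_eq_mul, Algebra.smul_def, Algebra.algebraMap_self, RingHom.id_apply]
        ring } (fun f g => by
        change D (f * g) - D' (f * g) = f • (D g - D' g) + g • (D f - D' f)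
        rw [Derivation.leibniz, Derivation.leibniz]
        simp only [smul_eq_mul]
        ring)
  have hE : ∀ x : K, E x = 0 := by
    intro x
    have hx : IsIntegral L x := Algebra.IsIntegral.isIntegral x
    have h1 := Derivation.map_aeval E (minpoly L x) x
    rw [minpoly.aeval, map_zero, smul_eq_mul, eq_comm, mul_eq_zero] at h1
    rcases h1 with h1 | h1
    · exfalso
      have h2 := (minpoly.irreducible hx).separable
      exact Polynomial.Separable.aeval_derivative_ne_zero h2 (minpoly.aeval L x) h1
    · exact h1
  ext f
  have := hE f
  exact sub_eq_zero.mp this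

/-- A basis of the vector fields on `L` is a basis of the vector fields on `K`; `C` is the matrix
of its coordinates with respect to the toric vector fields. Proof: the extensions `D' i` of the
`F.D i` to `K` are linearly independent over `K` (write the coefficients of a relation in a basis of
`K` over `L`) and span `Der (K)` (write the restriction `L → K` of a derivation in a basis of `K` over
`L`: its coordinates are derivations of `L`). -/
theorem exists_C {L K : Type} [Field L] [Algebra ℂ L] [Field K] [Algebra ℂ K] [Algebra L K]
    [IsScalarTower ℂ L K] [FiniteDimensional L K] {n : ℕ} [Algebra (MvPolynomial (Fin n) ℂ) K]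
    [IsFractionRing (MvPolynomial (Fin n) ℂ) K] [IsScalarTower ℂ (MvPolynomial (Fin n) ℂ) K]
    {d : ℕ} (F : Foliation L d) (hF : F.space = ⊤) :
    ∃ (ε : Fin d ≃ Fin n) (C : Matrix (Fin n) (Fin n) K), C.det ≠ 0 ∧
      ∀ (i : Fin d) (f : L), algebraMap L K (F.D i f) =
        ∑ j, C (ε i) j * tor K j (algebraMap L K f) := by
  classical
  choose D' hD' using fun i => exists_der_ext (K := K) (F.D i)
  let b := Module.finBasis L K
  -- linear independence
  have hind : LinearIndependent K D' := by
    rw [Fintype.linearIndependent_iff]
    intro c hc
    have h1 : ∀ k, ∑ i, b.repr (c i) k • F.D i = 0 := by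
      intro k
      ext f
      have h2 := DFunLike.congr_fun hc (algebraMap L K f)
      have h3 : (∑ i, c i • D' i) (algebraMap L K f) = ∑ i, F.D i f • c i := by
        have h4 : ∀ s : Finset (Fin d), (∑ i ∈ s, c i • D' i) (algebraMap L K f)
            = ∑ i ∈ s, F.D i f • c i := by
          intro s
          induction s using Finset.induction_on with
          | empty => simp
          | insert a s ha ih =>
            rw [Finset.sum_insert ha, Finset.sum_insert ha, Derivation.add_apply, ih,
              Derivation.smul_apply, hD', smul_eq_mul, Algebra.smul_def, mul_comm]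
        exact h4 _
      rw [h3, Derivation.coe_zero, Pi.zero_apply] at h2
      have h5 := congrArg (fun z => b.repr z k) h2
      simp only [map_sum, map_smul, map_zero, Finsupp.coe_zero, Pi.zero_apply,
        Finsupp.coe_finsetSum, Finset.sum_apply, Finsupp.smul_apply, smul_eq_mul] at h5
      rw [Derivation.coe_zero, Pi.zero_apply, ← h5]
      have h6 : ∀ s : Finset (Fin d), (∑ i ∈ s, b.repr (c i) k • F.D i) f
          = ∑ i ∈ s, F.D i f * b.repr (c i) k := by
        intro s
        induction s using Finset.induction_on with
        | empty => simp
        | insert a s ha ih =>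
          rw [Finset.sum_insert ha, Finset.sum_insert ha, Derivation.add_apply, ih,
            Derivation.smul_apply, smul_eq_mul, mul_comm]
      exact h6 _
    intro i
    have h7 : ∀ k, b.repr (c i) k = 0 := fun k =>
      Fintype.linearIndependent_iff.mp F.indep _ (h1 k) i
    have h8 : b.repr (c i) = 0 := by
      ext k
      exact h7 k
    exact (LinearEquiv.map_eq_zero_iff b.repr).mp h8
  -- span
  have hspan : ⊤ ≤ Submodule.span K (Set.range D') := by
    intro E _
    -- the coordinates of the restriction
    have hEk : ∀ k, ∃ a : Fin d → L, ∀ f : L, b.repr (E (algebraMap L K f)) k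
        = ∑ i, a i * F.D i f := by
      intro k
      let Ek : Derivation ℂ L L := Derivation.mk'
        { toFun := fun f => b.repr (E (algebraMap L K f)) k
          map_add' := fun f g => by
            rw [map_add, map_add, map_add, Finsupp.add_apply]
          map_smul' := fun c f => by
            rw [RingHom.id_apply, Algebra.smul_def, map_mul, ← IsScalarTower.algebraMap_apply ℂ L K,
              ← Algebra.smul_def, Derivation.map_smul, ← algebraMap_smul L c, map_smul,
              Finsupp.smul_apply, algebraMap_smul] } (fun f g => by
            change b.repr (E (algebraMap L K (f * g))) k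
              = f • b.repr (E (algebraMap L K g)) k + g • b.repr (E (algebraMap L K f)) k
            rw [map_mul, Derivation.leibniz, map_add, Finsupp.add_apply, smul_eq_mul, smul_eq_mul,
              ← Algebra.smul_def, ← Algebra.smul_def, map_smul, map_smul, Finsupp.smul_apply,
              Finsupp.smul_apply])
      have h1 : Ek ∈ F.space := by rw [hF]; exact Submodule.mem_top
      rw [Foliation.space, Submodule.mem_span_range_iff_exists_fun] at h1
      obtain ⟨a, ha⟩ := h1
      refine ⟨a, fun f => ?_⟩
      have h2 := DFunLike.congr_fun ha f
      have h3 : ∀ s : Finset (Fin d), (∑ i ∈ s, a i • F.D i) f = ∑ i ∈ s, a i * F.D i f := by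
        intro s
        induction s using Finset.induction_on with
        | empty => simp
        | insert x s hx ih =>
          rw [Finset.sum_insert hx, Finset.sum_insert hx, Derivation.add_apply, ih,
            Derivation.smul_apply, smul_eq_mul]
      rw [h3] at h2
      exact h2.symm
    choose a ha using hEk
    rw [Submodule.mem_span_range_iff_exists_fun]
    refine ⟨fun i => ∑ k, algebraMap L K (a k i) * b k, ?_⟩
    apply der_ext_unique (L := L)
    intro f
    have h4 : ∀ s : Finset (Fin d), (∑ i ∈ s, (∑ k, algebraMap L K (a k i) * b k) • D' i)
        (algebraMap L K f) = ∑ i ∈ s, (∑ k, algebraMap L K (a k i) * b k) * algebraMap L K (F.D i f) := by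
      intro s
      induction s using Finset.induction_on with
      | empty => simp
      | insert x s hx ih =>
        rw [Finset.sum_insert hx, Finset.sum_insert hx, Derivation.add_apply, ih,
          Derivation.smul_apply, smul_eq_mul, hD']
    rw [h4]
    conv_rhs => rw [← b.sum_repr (E (algebraMap L K f))]
    have h5 : ∀ k, b.repr (E (algebraMap L K f)) k • b k
        = ∑ i, algebraMap L K (a k i) * b k * algebraMap L K (F.D i f) := by
      intro k
      rw [ha, Algebra.smul_def, map_sum, Finset.sum_mul]
      refine Finset.sum_congr rfl fun i _ => ?_
      rw [map_mul]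
      ring
    simp only [h5]
    rw [Finset.sum_comm]
    refine Finset.sum_congr rfl fun i _ => ?_
    rw [Finset.sum_mul]
  -- the toric vector fields
  have htor : LinearIndependent K (fun j => tor K j : Fin n → Derivation ℂ K K) := by
    rw [Fintype.linearIndependent_iff]
    intro g hg i
    have h1 := Fintype.linearIndependent_iff.mp (pd_indep (K := K) (ι := Fin n))
      (fun j => g j * cv K j) (by
        rw [← hg]
        refine Finset.sum_congr rfl fun j _ => ?_
        rw [tor, smul_smul]) i
    rcases mul_eq_zero.mp h1 with h2 | h2
    · exact h2
    · exact absurd h2 (cv_ne i)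
  have htorspan : ⊤ ≤ Submodule.span K (Set.range (fun j => tor K j : Fin n → Derivation ℂ K K)) := by
    intro D _
    rw [der_eq_sum' (ι := Fin n) D]
    refine Submodule.sum_mem _ fun i _ => ?_
    have h1 : D (cv K i) • pd K i = (D (cv K i) / cv K i) • tor K i := by
      rw [tor, smul_smul, div_mul_cancel₀ _ (cv_ne i)]
    rw [h1]
    exact Submodule.smul_mem _ _ (Submodule.subset_span ⟨i, rfl⟩)
  let bD := Module.Basis.mk hind hspan
  let bT := Module.Basis.mk htor htorspan
  let ε := bD.indexEquiv bT
  refine ⟨ε, Matrix.of fun i j => bT.repr (D' (ε.symm i)) j, ?_, ?_⟩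
  · have h1 : LinearIndependent K (fun i => (fun j => bT.repr (D' (ε.symm i)) j : Fin n → K)) := by
      have h2 := (hind.comp ε.symm ε.symm.injective).map' bT.equivFun.toLinearMap
        (LinearEquiv.ker _)
      exact h2
    have h3 := (Matrix.linearIndependent_rows_iff_isUnit
      (A := Matrix.of fun i j => bT.repr (D' (ε.symm i)) j)).mp h1
    rw [Matrix.isUnit_iff_isUnit_det] at h3
    exact h3.ne_zero
  · intro i f
    rw [← hD' i f]
    have h1 := bT.sum_repr (D' i)
    have h2 : ∀ s : Finset (Fin n), (∑ j ∈ s, bT.repr (D' i) j • bT j) (algebraMap L K f)
        = ∑ j ∈ s, bT.repr (D' i) j * tor K j (algebraMap L K f) := by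
      intro s
      induction s using Finset.induction_on with
      | empty => simp
      | insert x s hx ih =>
        rw [Finset.sum_insert hx, Finset.sum_insert hx, Derivation.add_apply, ih,
          Derivation.smul_apply, smul_eq_mul, Module.Basis.mk_apply]
    have h3 := DFunLike.congr_fun h1 (algebraMap L K f)
    rw [h2] at h3
    rw [← h3]
    refine Finset.sum_congr rfl fun j _ => ?_
    rw [Matrix.of_apply, Equiv.symm_apply_apply]

end Pool.Agent.Helper58K9.QT
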