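import Mathlib
import Pool.Agent.Helper58K9.QT.Defs

/-!
# [FIN] Valuation rings over a discrete valuation ring in a finite extension
-/

set_option autoImplicit false

namespace Pool.Agent.Helper58K9.QT

open Pool.Agent.H436R3.Fol

namespace FinG

section one

variable {L : Type} [Field L] [Algebra ℂ L] (v : DVal L)

theorem reg_or_inv (f : L) : v.Reg f ∨ v.Reg f⁻¹ := by
  by_cases hf : f = 0
  · exact Or.inl (Or.inl hf)
  rcases le_total 0 (v.ord f) with h | h
  · exact Or.inl (Or.inr h)
  · exact Or.inr (Or.inr (by rw [v.ord_inv hf]; omega))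

instance isFractionRing_O : IsFractionRing v.O L where
  map_units := by
    intro y
    rw [isUnit_iff_ne_zero]
    have := nonZeroDivisors.ne_zero y.2
    intro h
    exact this (Subtype.ext h)
  surj := by
    intro z
    rcases reg_or_inv v z with h | h
    · exact ⟨(⟨z, h⟩, 1), by simp; rfl⟩
    · by_cases hz : z = 0
      · exact ⟨(0, 1), by simp [hz]⟩
      refine ⟨(1, ⟨⟨z⁻¹, h⟩, ?_⟩), ?_⟩
      · rw [mem_nonZeroDivisors_iff_ne_zero]
        intro h0
        exact inv_ne_zero hz (congrArg Subtype.val h0)
      · show z * z⁻¹ = ((1 : v.O) : L)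
        rw [mul_inv_cancel₀ hz]
        rfl
  exists_of_eq := by
    intro x y h
    exact ⟨1, by rw [Subtype.ext h]⟩

instance isPID_O : IsPrincipalIdealRing v.O where
  principal := by
    intro I
    classical
    by_cases hI : I = ⊥
    · exact ⟨⟨0, by rw [hI]; simp⟩⟩
    obtain ⟨a0, ha0, ha0'⟩ := (Submodule.ne_bot_iff I).1 hI
    have hex : ∃ n : ℕ, ∃ a ∈ I, (a : L) ≠ 0 ∧ v.ord (a : L) = n := by
      have h0 : (a0 : L) ≠ 0 := fun h => ha0' (Subtype.ext h)
      have h1 := a0.2.resolve_left h0
      exact ⟨(v.ord (a0 : L)).toNat, a0, ha0, h0, by omega⟩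
    obtain ⟨a, haI, ha0, ha⟩ := Nat.find_spec hex
    refine ⟨⟨a, le_antisymm ?_ ?_⟩⟩
    · intro b hb
      rw [Submodule.mem_span_singleton]
      by_cases hb0 : (b : L) = 0
      · exact ⟨0, by rw [zero_smul]; exact (Subtype.ext hb0).symm⟩
      have h1 := b.2.resolve_left hb0
      have h2 : Nat.find hex ≤ (v.ord (b : L)).toNat :=
        Nat.find_min' hex ⟨b, hb, hb0, by omega⟩
      have h3 : v.Reg ((b : L) / (a : L)) := by
        right
        rw [v.ord_div hb0 ha0, ha]
        omega
      refine ⟨⟨(b : L) / (a : L), h3⟩, ?_⟩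
      apply Subtype.ext
      show (b : L) / (a : L) * (a : L) = (b : L)
      exact div_mul_cancel₀ _ ha0
    · rw [Submodule.span_singleton_le_iff_mem]
      exact haI

end one

section two

variable {A K : Type} [CommRing A] [Field K] [Algebra A K]

/-- Horner partial sums: `b_k = a_n f^(n-k) + ... + a_k`. -/
noncomputable def horner (p : Polynomial A) (f : K) (k : ℕ) : K :=
  ∑ i ∈ Finset.range (p.natDegree + 1 - k), algebraMap A K (p.coeff (k + i)) * f ^ i

theorem horner_rec (p : Polynomial A) (f : K) (k : ℕ) (hk : k ≤ p.natDegree) :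
    horner p f k = f * horner p f (k + 1) + algebraMap A K (p.coeff k) := by
  unfold horner
  have h1 : p.natDegree + 1 - k = (p.natDegree + 1 - (k + 1)) + 1 := by omega
  rw [h1, Finset.sum_range_succ', Finset.mul_sum]
  congr 1
  · refine Finset.sum_congr rfl fun i _ => ?_
    rw [show k + (i + 1) = k + 1 + i by ring]
    ring
  · simp

theorem horner_top (p : Polynomial A) (f : K) : horner p f (p.natDegree + 1) = 0 := by
  unfold horner
  simp

theorem horner_zero (p : Polynomial A) (f : K) : horner p f 0 = Polynomial.aeval f p := by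
  unfold horner
  rw [Polynomial.aeval_eq_sum_range]
  simp [Algebra.smul_def]

theorem aeval_eq_horner (p : Polynomial A) (f : K) (k : ℕ) (hk : k ≤ p.natDegree + 1) :
    Polynomial.aeval f p = horner p f k * f ^ k +
      ∑ i ∈ Finset.range k, algebraMap A K (p.coeff i) * f ^ i := by
  induction k with
  | zero => simp [horner_zero]
  | succ k ih =>
    rw [ih (by omega), horner_rec p f k (by omega), Finset.sum_range_succ]
    ring

theorem isIntegral_horner {p : Polynomial A} {f : K} (hp : Polynomial.aeval f p = 0) (k : ℕ)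
    (hk : k ≤ p.natDegree + 1) :
    IsIntegral A (horner p f k) ∧ IsIntegral A (f * horner p f k) := by
  induction h : p.natDegree + 1 - k generalizing k with
  | zero =>
    have : k = p.natDegree + 1 := by omega
    rw [this, horner_top, mul_zero]
    exact ⟨isIntegral_zero, isIntegral_zero⟩
  | succ m ih =>
    have h1 : IsIntegral A (horner p f k) := by
      rw [horner_rec p f k (by omega)]
      exact (ih (k + 1) (by omega) (by omega)).2.add isIntegral_algebraMap
    refine ⟨h1, ?_⟩
    by_cases h0 : horner p f k = 0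
    · rw [h0, mul_zero]; exact isIntegral_zero
    -- the polynomial over the integral closure
    let B := integralClosure A K
    let bk : B := ⟨horner p f k, h1⟩
    let q : Polynomial B := Polynomial.C bk * Polynomial.X ^ k +
      ∑ i ∈ Finset.range k, Polynomial.C (algebraMap A B (p.coeff i)) * Polynomial.X ^ i
    have hdeg : (∑ i ∈ Finset.range k,
        Polynomial.C (algebraMap A B (p.coeff i)) * Polynomial.X ^ i).degree < (k : WithBot ℕ) := by
      refine (Polynomial.degree_sum_le _ _).trans_lt ?_
      refine (Finset.sup_lt_iff (WithBot.bot_lt_coe k)).2 ?_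
      intro i hi
      refine (Polynomial.degree_C_mul_X_pow_le _ _).trans_lt ?_
      exact (WithBot.coe_lt_coe (a := i) (b := k)).2 (Finset.mem_range.1 hi)
    have hbk : bk ≠ 0 := fun h => h0 (congrArg Subtype.val h)
    have hlead : q.leadingCoeff = bk := by
      have h2 : (∑ i ∈ Finset.range k,
          Polynomial.C (algebraMap A B (p.coeff i)) * Polynomial.X ^ i).degree <
          (Polynomial.C bk * Polynomial.X ^ k).degree := by
        rw [Polynomial.degree_C_mul_X_pow _ hbk]
        exact hdeg
      show (Polynomial.C bk * Polynomial.X ^ k + _).leadingCoeff = bk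
      rw [Polynomial.leadingCoeff_add_of_degree_lt' h2, Polynomial.leadingCoeff_C_mul_X_pow]
    have hq : Polynomial.aeval f q = 0 := by
      show Polynomial.aeval f (Polynomial.C bk * Polynomial.X ^ k +
        ∑ i ∈ Finset.range k, Polynomial.C (algebraMap A B (p.coeff i)) * Polynomial.X ^ i) = 0
      rw [← hp, aeval_eq_horner p f k hk]
      simp only [map_add, map_mul, Polynomial.aeval_C, map_pow, Polynomial.aeval_X, map_sum]
      rfl
    have h3 := isIntegral_leadingCoeff_smul q f hq
    rw [hlead] at h3
    have h4 : IsIntegral A (bk • f) := isIntegral_trans _ h3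
    have h5 : bk • f = f * horner p f k := by
      rw [Algebra.smul_def, mul_comm]
      rfl
    rwa [h5] at h4

end two

end FinG

variable {L K : Type} [Field L] [Algebra ℂ L] [Field K] [Algebra ℂ K] [Algebra L K]
  [IsScalarTower ℂ L K]

omit [IsScalarTower ℂ L K] in
theorem FinG.reg_map {v : DVal L} {w : DVal K} {e : ℤ} (h : Over w v e) {f : L} (hf : v.Reg f) :
    w.Reg (algebraMap L K f) := by
  by_cases h0 : f = 0
  · left; rw [h0, map_zero]
  right
  rw [h.2 f h0]
  exact mul_nonneg h.1.le (hf.resolve_left h0)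

omit [IsScalarTower ℂ L K] in
theorem FinG.reg_of_isIntegral {v : DVal L} {w : DVal K} {e : ℤ} (h : Over w v e) {x : K}
    (hx : IsIntegral v.O x) : w.Reg x := by
  let φ : v.O →+* w.O :=
    ((algebraMap L K).comp v.O.subtype).codRestrict w.O fun f => FinG.reg_map h f.2
  have h1 : IsIntegral w.O x := by
    obtain ⟨p, hp, hpx⟩ := hx
    refine ⟨p.map φ, hp.map φ, ?_⟩
    rw [Polynomial.eval₂_map]
    exact hpx
  obtain ⟨y, hy⟩ := (IsIntegrallyClosed.isIntegral_iff (R := w.O) (K := K)).1 h1
  rw [← hy]
  exact y.2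

/-- Proof: `A = v.O` is a discrete valuation ring, its integral closure `B` in `K` is a finite
`A`-module (`IsIntegralClosure.finite`, characteristic zero) and a Dedekind domain, `B ⊆ O_w`
because `O_w` is integrally closed, and `O_w` is the localisation of `B` at the prime ideal
`m_w ∩ B` (both are discrete valuation rings of `K`, one is contained in the other).
The `b i` generate `B` over `A`. -/
theorem exists_fin_gen [FiniteDimensional L K] {v : DVal L} {w : DVal K} {e : ℤ}
    (h : Over w v e) : ∃ (m : ℕ) (b : Fin m → K), (∀ i, w.Reg (b i)) ∧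
      ∀ f : K, w.Reg f → ∃ α β : Fin m → L, (∀ i, v.Reg (α i)) ∧ (∀ i, v.Reg (β i)) ∧
        (∑ i, algebraMap L K (β i) * b i) ≠ 0 ∧ w.ord (∑ i, algebraMap L K (β i) * b i) = 0 ∧
        f * (∑ i, algebraMap L K (β i) * b i) = ∑ i, algebraMap L K (α i) * b i := by
  classical
  have : CharZero L := charZero_of_injective_algebraMap (algebraMap ℂ L).injective
  have : Module.Finite v.O (integralClosure v.O K) :=
    IsIntegralClosure.finite v.O L K (integralClosure v.O K)
  obtain ⟨m, s, hs⟩ := Module.Finite.exists_fin (R := v.O) (M := integralClosure v.O K)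
  -- elements of the integral closure are combinations of the generators
  have hgen : ∀ x : K, IsIntegral v.O x → ∃ α : Fin m → L, (∀ i, v.Reg (α i)) ∧
      x = ∑ i, algebraMap L K (α i) * (s i : K) := by
    intro x hx
    have h1 : (⟨x, hx⟩ : integralClosure v.O K) ∈ Submodule.span v.O (Set.range s) := by
      rw [hs]; exact Submodule.mem_top
    obtain ⟨c, hc⟩ := (Submodule.mem_span_range_iff_exists_fun v.O).1 h1
    refine ⟨fun i => (c i : L), fun i => (c i).2, ?_⟩
    have h2 := congrArg (Subtype.val : integralClosure v.O K → K) hc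
    refine Eq.trans h2.symm ?_
    rw [AddSubmonoidClass.coe_finsetSum]
    refine Finset.sum_congr rfl fun i _ => ?_
    show c i • (s i : K) = _
    rw [Algebra.smul_def]
    rfl
  refine ⟨m, fun i => (s i : K), fun i => FinG.reg_of_isIntegral h (s i).2, ?_⟩
  intro f hf
  -- a polynomial with coefficients in `A`, one of them equal to one
  obtain ⟨p0, hp0, hp0f⟩ : ∃ p : Polynomial L, p ≠ 0 ∧ Polynomial.aeval f p = 0 :=
    Algebra.IsAlgebraic.isAlgebraic (R := L) f
  obtain ⟨j, hj, hmin⟩ : ∃ j ∈ p0.support, ∀ i ∈ p0.support,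
      v.ord (p0.coeff j) ≤ v.ord (p0.coeff i) := by
    exact Finset.exists_min_image p0.support (fun i => v.ord (p0.coeff i))
      (Polynomial.nonempty_support_iff.2 hp0)
  have hc0 : p0.coeff j ≠ 0 := Polynomial.mem_support_iff.1 hj
  let p1 : Polynomial L := Polynomial.C (p0.coeff j)⁻¹ * p0
  have hp1 : (p1.coeffs : Set L) ⊆ v.O := by
    intro x hx
    obtain ⟨n, hn, rfl⟩ := Polynomial.mem_coeffs_iff.1 (Finset.mem_coe.1 hx)
    show v.Reg ((Polynomial.C (p0.coeff j)⁻¹ * p0).coeff n)
    rw [Polynomial.coeff_C_mul]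
    by_cases h0 : p0.coeff n = 0
    · left; rw [h0, mul_zero]
    right
    rw [v.map_mul _ _ (inv_ne_zero hc0) h0, v.ord_inv hc0]
    have := hmin n (Polynomial.mem_support_iff.2 h0)
    omega
  let p : Polynomial v.O := p1.toSubring v.O hp1
  have hpf : Polynomial.aeval f p = 0 := by
    have h3 : Polynomial.aeval f p = Polynomial.aeval f p1 := by
      have h4 : p.map v.O.subtype = p1 := Polynomial.map_toSubring p1 v.O hp1
      rw [← h4, Polynomial.aeval_def, Polynomial.aeval_def, Polynomial.eval₂_map]
      rfl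
    rw [h3]
    show Polynomial.aeval f (Polynomial.C (p0.coeff j)⁻¹ * p0) = 0
    rw [map_mul, hp0f, mul_zero]
  have hpj : ((p.coeff j : v.O) : L) = 1 := by
    have h4 : ((p.coeff j : v.O) : L) = p1.coeff j := Polynomial.coeff_toSubring p1 v.O hp1
    rw [h4]
    show (Polynomial.C (p0.coeff j)⁻¹ * p0).coeff j = 1
    rw [Polynomial.coeff_C_mul, inv_mul_cancel₀ hc0]
  have hjn : j ≤ p.natDegree := by
    apply Polynomial.le_natDegree_of_ne_zero
    intro h0
    rw [h0] at hpj
    exact zero_ne_one hpj
  -- one of the partial sums is a unit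
  obtain ⟨k, hk, hkp⟩ : ∃ k ≤ p.natDegree + 1, ¬ w.Pos (FinG.horner p f k) := by
    by_contra hcon
    push Not at hcon
    have h4 := hcon j (by omega)
    have h5 := hcon (j + 1) (by omega)
    have h6 : (1 : K) = FinG.horner p f j + -(f * FinG.horner p f (j + 1)) := by
      rw [FinG.horner_rec p f j hjn]
      have : algebraMap v.O K (p.coeff j) = 1 := by
        show algebraMap L K ((p.coeff j : v.O) : L) = 1
        rw [hpj, map_one]
      rw [this]
      ring
    have h7 : w.Pos (-(f * FinG.horner p f (j + 1))) := by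
      have h8 := w.pos_mul_left hf h5
      have h9 : -(f * FinG.horner p f (j + 1)) = (-1) * (f * FinG.horner p f (j + 1)) := by ring
      rw [h9]
      exact w.pos_mul_left (w.reg_neg w.reg_one) h8
    have h8 : w.Pos (1 : K) := by
      rw [h6]
      exact w.pos_add h4 h7
    rcases h8 with h9 | h9
    · exact one_ne_zero h9
    · rw [w.ord_one] at h9
      exact lt_irrefl _ h9
  obtain ⟨hi1, hi2⟩ := FinG.isIntegral_horner hpf k hk
  obtain ⟨β, hβ, hβ'⟩ := hgen _ hi1
  obtain ⟨α, hα, hα'⟩ := hgen _ hi2
  have hreg := FinG.reg_of_isIntegral h hi1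
  have hne : FinG.horner p f k ≠ 0 := fun h0 => hkp (Or.inl h0)
  have hord : w.ord (FinG.horner p f k) = 0 := by
    have h4 := hreg.resolve_left hne
    have h5 : ¬ 0 < w.ord (FinG.horner p f k) := fun h6 => hkp (Or.inr h6)
    omega
  refine ⟨α, β, hα, hβ, ?_, ?_, ?_⟩
  · rw [← hβ']; exact hne
  · rw [← hβ']; exact hord
  · rw [← hβ', ← hα']

end Pool.Agent.Helper58K9.QT
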