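import Mathlib
import Pool.Agent.Helper58K9.QT.FinGen

/-!
# [DIV] Divisorial valuations in finite extensions
-/

set_option autoImplicit false

namespace Pool.Agent.Helper58K9.QT

open Pool.Agent.H436R3.Fol

variable {L K : Type} [Field L] [Algebra ℂ L] [Field K] [Algebra ℂ K] [Algebra L K]
  [IsScalarTower ℂ L K]

/-- [DIV] Proof: with the `b i` of `exists_fin_gen`, the algebra generated by `R`, by the `b i` and
by the image of `S` has the required property. -/
theorem div_of_over [FiniteDimensional L K] {v : DVal L} {w : DVal K} {e : ℤ} (h : Over w v e)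
    (hS : ∃ S : Subalgebra ℂ L, S.FG ∧ IsLocalRing' S v) (R : Subalgebra ℂ K) (hR : R.FG)
    (hRw : ∀ f ∈ R, w.Reg f) : ∃ S : Subalgebra ℂ K, S.FG ∧ R ≤ S ∧ IsLocalRing' S w := by
  classical
  obtain ⟨S, hSfg, hSreg, hSloc⟩ := hS
  obtain ⟨m, b, hb, hgen⟩ := exists_fin_gen h
  let φ : L →ₐ[ℂ] K := IsScalarTower.toAlgHom ℂ L K
  let T : Subalgebra ℂ K := R ⊔ (Algebra.adjoin ℂ (Set.range b) ⊔ S.map φ)
  have hRT : R ≤ T := le_sup_left
  have hbT : ∀ i, b i ∈ T := fun i =>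
    (le_sup_right : _ ≤ T) ((le_sup_left : _ ≤ Algebra.adjoin ℂ (Set.range b) ⊔ S.map φ)
      (Algebra.subset_adjoin ⟨i, rfl⟩))
  have hST : ∀ f ∈ S, algebraMap L K f ∈ T := fun f hf =>
    (le_sup_right : _ ≤ T) ((le_sup_right : _ ≤ Algebra.adjoin ℂ (Set.range b) ⊔ S.map φ)
      ⟨f, hf, rfl⟩)
  -- the valuation ring as a subalgebra
  let W : Subalgebra ℂ K :=
    { w.O with
      algebraMap_mem' := fun c => w.reg_const c }
  have hTW : T ≤ W := by
    refine sup_le (fun f hf => hRw f hf) (sup_le ?_ ?_)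
    · rw [Algebra.adjoin_le_iff]
      rintro _ ⟨i, rfl⟩
      exact hb i
    · rintro _ ⟨f, hf, rfl⟩
      exact FinG.reg_map h (hSreg f hf)
  refine ⟨T, ?_, hRT, fun f hf => hTW hf, ?_⟩
  · have hb1 : (Algebra.adjoin ℂ (Set.range b)).FG :=
      Subalgebra.fg_def.2 ⟨Set.range b, Set.finite_range b, rfl⟩
    exact hR.sup (hb1.sup (hSfg.map φ))
  intro f hf
  obtain ⟨α, β, hα, hβ, hne, hord, heq⟩ := hgen f hf
  -- common denominators
  choose a d ha hd hd0 hdord had using fun (x : {x : L // v.Reg x}) => hSloc x.1 x.2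
  let dα : Fin m → L := fun i => d ⟨α i, hα i⟩
  let dβ : Fin m → L := fun i => d ⟨β i, hβ i⟩
  let D : L := (∏ i, dα i) * ∏ i, dβ i
  have hDα : ∀ i, dα i ∈ S := fun i => hd _
  have hDβ : ∀ i, dβ i ∈ S := fun i => hd _
  have hDS : D ∈ S := S.mul_mem (S.prod_mem fun i _ => hDα i) (S.prod_mem fun i _ => hDβ i)
  have hD0 : D ≠ 0 := mul_ne_zero (Finset.prod_ne_zero_iff.2 fun i _ => hd0 _)
    (Finset.prod_ne_zero_iff.2 fun i _ => hd0 _)
  have hDord : v.ord D = 0 := by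
    rw [v.map_mul _ _ (Finset.prod_ne_zero_iff.2 fun i _ => hd0 _)
      (Finset.prod_ne_zero_iff.2 fun i _ => hd0 _), v.ord_prod _ _ (fun i _ => hd0 _),
      v.ord_prod _ _ (fun i _ => hd0 _)]
    rw [Finset.sum_eq_zero (fun i _ => hdord _), Finset.sum_eq_zero (fun i _ => hdord _)]
    rfl
  have hmulα : ∀ i, D * α i ∈ S := by
    intro i
    have h1 : D = dα i * ((∏ j ∈ Finset.univ.erase i, dα j) * ∏ j, dβ j) := by
      show (∏ i, dα i) * (∏ i, dβ i) = _
      rw [← Finset.mul_prod_erase Finset.univ dα (Finset.mem_univ i)]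
      ring
    have h2 : D * α i = (α i * dα i) * ((∏ j ∈ Finset.univ.erase i, dα j) * ∏ j, dβ j) := by
      rw [h1]; ring
    rw [h2]
    refine S.mul_mem ?_ (S.mul_mem (S.prod_mem fun j _ => hDα j) (S.prod_mem fun j _ => hDβ j))
    have h3 := had ⟨α i, hα i⟩
    show α i * d ⟨α i, hα i⟩ ∈ S
    rw [h3]
    exact ha _
  have hmulβ : ∀ i, D * β i ∈ S := by
    intro i
    have h1 : D = dβ i * ((∏ j, dα j) * ∏ j ∈ Finset.univ.erase i, dβ j) := by
      show (∏ i, dα i) * (∏ i, dβ i) = _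
      rw [← Finset.mul_prod_erase Finset.univ dβ (Finset.mem_univ i)]
      ring
    have h2 : D * β i = (β i * dβ i) * ((∏ j, dα j) * ∏ j ∈ Finset.univ.erase i, dβ j) := by
      rw [h1]; ring
    rw [h2]
    refine S.mul_mem ?_ (S.mul_mem (S.prod_mem fun j _ => hDα j) (S.prod_mem fun j _ => hDβ j))
    have h3 := had ⟨β i, hβ i⟩
    show β i * d ⟨β i, hβ i⟩ ∈ S
    rw [h3]
    exact ha _
  have hDK : algebraMap L K D ≠ 0 := (map_ne_zero _).2 hD0
  have hin : ∀ γ : Fin m → L, (∀ i, D * γ i ∈ S) →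
      algebraMap L K D * (∑ i, algebraMap L K (γ i) * b i) ∈ T := by
    intro γ hγ
    rw [Finset.mul_sum]
    refine T.sum_mem fun i _ => ?_
    rw [← mul_assoc, ← map_mul]
    exact T.mul_mem (hST _ (hγ i)) (hbT i)
  refine ⟨algebraMap L K D * ∑ i, algebraMap L K (α i) * b i,
    algebraMap L K D * ∑ i, algebraMap L K (β i) * b i, hin α hmulα, hin β hmulβ,
    mul_ne_zero hDK hne, ?_, ?_⟩
  · rw [w.map_mul _ _ hDK hne, hord, h.2 D hD0, hDord]
    ring
  · rw [← heq]; ring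

end Pool.Agent.Helper58K9.QT
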