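import Mathlib
import Pool.Agent.Helper58K9.QT.FinGen
import Pool.Agent.Helper58K9.QT.ResPoly

/-!
# [LOGE] Logarithmic derivations in finite extensions
-/

set_option autoImplicit false

namespace Pool.Agent.Helper58K9.QT

open Pool.Agent.H436R3.Fol

namespace LogE

variable {K : Type} [Field K] [Algebra ℂ K] {w : DVal K}

theorem regOfPos {f : K} (h : w.Pos f) : w.Reg f := by
  rcases h with h | h
  · exact Or.inl h
  · exact Or.inr h.le

theorem reg_sum {ι : Type} (s : Finset ι) {f : ι → K} (h : ∀ i ∈ s, w.Reg (f i)) :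
    w.Reg (∑ i ∈ s, f i) := by
  classical
  induction s using Finset.induction_on with
  | empty => rw [Finset.sum_empty]; exact w.reg_zero
  | insert a s ha ih =>
    rw [Finset.sum_insert ha]
    exact w.reg_add (h a (Finset.mem_insert_self _ _))
      (ih fun i hi => h i (Finset.mem_insert_of_mem hi))

theorem pos_sub {f g : K} (hf : w.Pos f) (hg : w.Pos g) : w.Pos (f - g) := by
  rw [sub_eq_add_neg, ← neg_one_mul]
  exact w.pos_add hf (w.pos_mul_left (w.reg_neg w.reg_one) hg)

/-- the logarithmic derivative of a product -/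
theorem dlog_mul (D : Derivation ℂ K K) {f g : K} (hf : f ≠ 0) (hg : g ≠ 0) :
    D (f * g) / (f * g) = D f / f + D g / g := by
  rw [Derivation.leibniz]
  simp only [smul_eq_mul]
  field_simp
  ring

theorem dlog_zpow (D : Derivation ℂ K K) {f : K} (hf : f ≠ 0) (k : ℤ) :
    D (f ^ k) / f ^ k = (k : K) * (D f / f) := by
  rw [Derivation.leibniz_zpow]
  simp only [smul_eq_mul, zsmul_eq_mul]
  rw [zpow_sub_one₀ hf]
  field_simp

/-- every element is a power of the uniformiser times a unit -/
theorem decomp {p : K} (hp : p ≠ 0) (hp1 : w.ord p = 1) {f : K} (hf : f ≠ 0) :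
    ∃ u : K, u ≠ 0 ∧ w.ord u = 0 ∧ f = p ^ (w.ord f) * u := by
  refine ⟨p ^ (-w.ord f) * f, mul_ne_zero (zpow_ne_zero _ hp) hf, ?_, ?_⟩
  · rw [w.map_mul _ _ (zpow_ne_zero _ hp) hf, w.ord_zpow hp, hp1]
    ring
  · rw [← mul_assoc, ← zpow_add₀ hp, add_neg_cancel, zpow_zero, one_mul]

theorem reg_intCast (k : ℤ) : w.Reg (k : K) := by
  have h : (k : K) = algebraMap ℂ K (k : ℂ) := by simp
  rw [h]
  exact w.reg_const _

end LogE

open LogE

variable {L K : Type} [Field L] [Algebra ℂ L] [Field K] [Algebra ℂ K] [Algebra L K]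
  [IsScalarTower ℂ L K]

/-- [LOGE] Proof: `D` is bounded: there is `N` with `w (D f) ≥ w f - N` for all `f` (use
`exists_fin_gen` and a uniformiser of `w`). Take the least such `N` and suppose `N > 0`. With
`π` a uniformiser of `w`, `D' = π ^ N D` maps `O_w` to itself and the maximal ideal to itself, and
maps `O_v` to the maximal ideal, hence (`exists_res_poly`) it maps `O_w` to the maximal ideal. So
for `f ≠ 0` the residue of `D' f / f` is `w f` times the one of `D' π / π`; for a uniformiser `f` of
`v` it is zero, so it is always zero, a contradiction to the choice of `N`. -/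
theorem log_of_over [FiniteDimensional L K] {v : DVal L} {w : DVal K} {e : ℤ} (h : Over w v e)
    (D : Derivation ℂ K K)
    (hD : ∀ f : L, f ≠ 0 → w.Reg (D (algebraMap L K f) / algebraMap L K f)) : LogAt w D := by
  obtain ⟨p, hp, hp1⟩ := w.surj
  have hpreg : w.Reg p := Or.inr (by omega)
  have hppow : ∀ n : ℕ, w.Reg (p ^ n) := fun n => Or.inr (by rw [w.ord_pow hp, hp1]; omega)
  have hLreg : ∀ f : L, v.Reg f → w.Reg (algebraMap L K f) := by
    intro f hf
    by_cases h0 : f = 0
    · left; rw [h0, map_zero]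
    · right
      rw [h.2 f h0]
      exact mul_nonneg h.1.le (hf.resolve_left h0)
  have hDL : ∀ f : L, v.Reg f → w.Reg (D (algebraMap L K f)) := by
    intro f hf
    by_cases h0 : f = 0
    · left; rw [h0, map_zero, map_zero]
    · have h1 : algebraMap L K f ≠ 0 := (map_ne_zero _).2 h0
      have h2 := w.reg_mul (hD f h0) (hLreg f hf)
      rwa [div_mul_cancel₀ _ h1] at h2
  -- bounded poles
  have hA : ∃ N : ℕ, ∀ f : K, f ≠ 0 → w.Reg (p ^ N * (D f / f)) := by
    obtain ⟨m, b, hb, hgen⟩ := exists_fin_gen h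
    have hN0 : ∀ i, ∃ N : ℕ, w.Reg (p ^ N * D (b i)) := by
      intro i
      by_cases h0 : D (b i) = 0
      · exact ⟨0, by left; rw [h0, mul_zero]⟩
      · refine ⟨(-w.ord (D (b i))).toNat, Or.inr ?_⟩
        rw [w.map_mul _ _ (pow_ne_zero _ hp) h0, w.ord_pow hp, hp1]
        omega
    choose N0 hN0 using hN0
    have hN1 : ∀ i, w.Reg (p ^ (∑ i, N0 i) * D (b i)) := by
      intro i
      have h1 : N0 i ≤ ∑ i, N0 i := Finset.single_le_sum (fun _ _ => Nat.zero_le _)
        (Finset.mem_univ i)
      obtain ⟨c, hc⟩ := Nat.exists_eq_add_of_le h1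
      rw [hc, add_comm, pow_add, mul_assoc]
      exact w.reg_mul (hppow c) (hN0 i)
    set M := ∑ i, N0 i with hM
    have hcomb : ∀ α : Fin m → L, (∀ i, v.Reg (α i)) →
        w.Reg (p ^ M * D (∑ i, algebraMap L K (α i) * b i)) := by
      intro α hα
      rw [map_sum, Finset.mul_sum]
      refine reg_sum _ fun i _ => ?_
      rw [Derivation.leibniz]
      simp only [smul_eq_mul]
      have h1 : p ^ M * (algebraMap L K (α i) * D (b i) + b i * D (algebraMap L K (α i))) =
          algebraMap L K (α i) * (p ^ M * D (b i)) +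
            p ^ M * (b i * D (algebraMap L K (α i))) := by ring
      rw [h1]
      exact w.reg_add (w.reg_mul (hLreg _ (hα i)) (hN1 i))
        (w.reg_mul (hppow M) (w.reg_mul (hb i) (hDL _ (hα i))))
    have hregD : ∀ f : K, w.Reg f → w.Reg (p ^ M * D f) := by
      intro f hf
      obtain ⟨α, β, hα, hβ, hB0, hB, hfB⟩ := hgen f hf
      set B := ∑ i, algebraMap L K (β i) * b i with hBd
      have h1 : D f * B + f * D B = D (∑ i, algebraMap L K (α i) * b i) := by
        rw [← hfB, Derivation.leibniz]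
        simp only [smul_eq_mul]
        ring
      have h2 : p ^ M * D f = B⁻¹ * (p ^ M * D (∑ i, algebraMap L K (α i) * b i) -
          f * (p ^ M * D B)) := by
        rw [← h1]
        field_simp
        ring
      rw [h2]
      refine w.reg_mul (Or.inr (by rw [w.ord_inv hB0, hB]; simp)) ?_
      rw [sub_eq_add_neg]
      exact w.reg_add (hcomb α hα) (w.reg_neg (w.reg_mul hf (hcomb β hβ)))
    refine ⟨M + 1, fun f hf => ?_⟩
    obtain ⟨u, hu0, hu, hfu⟩ := decomp hp hp1 hf
    have hui : w.Reg u⁻¹ := Or.inr (by rw [w.ord_inv hu0, hu]; simp)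
    rw [hfu, dlog_mul D (zpow_ne_zero _ hp) hu0, dlog_zpow D hp, mul_add]
    refine w.reg_add ?_ ?_
    · have h1 : p ^ (M + 1) * ((w.ord f : K) * (D p / p)) = (w.ord f : K) * (p ^ M * D p) := by
        rw [pow_succ]
        field_simp
      rw [h1]
      exact w.reg_mul (reg_intCast _) (hregD p hpreg)
    · have h1 : p ^ (M + 1) * (D u / u) = p * u⁻¹ * (p ^ M * D u) := by
        rw [pow_succ]
        field_simp
      rw [h1]
      exact w.reg_mul (w.reg_mul hpreg hui) (hregD u (Or.inr hu.ge))
  -- descent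
  have hB : ∀ N : ℕ, (∀ f : K, f ≠ 0 → w.Reg (p ^ (N + 1) * (D f / f))) →
      ∀ f : K, f ≠ 0 → w.Reg (p ^ N * (D f / f)) := by
    intro N hN
    set D' : Derivation ℂ K K := p ^ (N + 1) • D with hD'
    have hD'a : ∀ f, D' f = p ^ (N + 1) * D f := fun f => rfl
    have hD'l : ∀ f, D' f / f = p ^ (N + 1) * (D f / f) := fun f => by rw [hD'a, mul_div_assoc]
    have hlog : LogAt w D' := by
      intro f hf
      rw [hD'l]
      exact hN f hf
    have hpp : w.Pos (p ^ (N + 1)) := Or.inr (by rw [w.ord_pow hp, hp1]; push_cast; omega)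
    have hstr := strict_of_over h hlog (by
      intro f hf
      rw [hD'a, mul_comm]
      exact w.pos_mul_left (hDL f hf) hpp)
    have hunit : ∀ u : K, u ≠ 0 → w.ord u = 0 → w.Pos (D' u / u) := by
      intro u hu0 hu
      rw [div_eq_mul_inv, mul_comm]
      exact w.pos_mul_left (Or.inr (by rw [w.ord_inv hu0, hu]; simp)) (hstr u (Or.inr hu.ge))
    have hpi : w.Pos (D' p / p) := by
      obtain ⟨t, ht0, ht⟩ := v.surj
      have hT0 : algebraMap L K t ≠ 0 := (map_ne_zero _).2 ht0
      have hTe : w.ord (algebraMap L K t) = e := by rw [h.2 t ht0, ht, mul_one]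
      obtain ⟨u, hu0, hu, hTu⟩ := decomp hp hp1 hT0
      have h1 : D' (algebraMap L K t) / algebraMap L K t = (e : K) * (D' p / p) + D' u / u := by
        conv_lhs => rw [hTu]
        rw [dlog_mul D' (zpow_ne_zero _ hp) hu0, dlog_zpow D' hp, hTe]
      have h2 : w.Pos (D' (algebraMap L K t) / algebraMap L K t) := by
        rw [hD'l, mul_comm]
        exact w.pos_mul_left (hD t ht0) hpp
      have h3 : w.Pos ((e : K) * (D' p / p)) := by
        have h4 : (e : K) * (D' p / p) = D' (algebraMap L K t) / algebraMap L K t - D' u / u := by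
          rw [h1]
          ring
        rw [h4]
        exact pos_sub h2 (hunit u hu0 hu)
      have he : (e : ℂ) ≠ 0 := by exact_mod_cast h.1.ne'
      have h5 : D' p / p = algebraMap ℂ K (e : ℂ)⁻¹ * ((e : K) * (D' p / p)) := by
        have h6 : (e : K) = algebraMap ℂ K (e : ℂ) := by simp
        rw [h6, ← mul_assoc, ← map_mul, inv_mul_cancel₀ he, map_one, one_mul]
      rw [h5]
      exact w.pos_mul_left (w.reg_const _) h3
    intro f hf
    obtain ⟨u, hu0, hu, hfu⟩ := decomp hp hp1 hf
    have h1 : w.Pos (D' f / f) := by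
      have h2 : D' f / f = (w.ord f : K) * (D' p / p) + D' u / u := by
        conv_lhs => rw [hfu]
        rw [dlog_mul D' (zpow_ne_zero _ hp) hu0, dlog_zpow D' hp]
      rw [h2]
      exact w.pos_add (w.pos_mul_left (reg_intCast _) hpi) (hunit u hu0 hu)
    have h3 : p ^ N * (D f / f) = p⁻¹ * (D' f / f) := by
      rw [hD'l, pow_succ]
      field_simp
    rw [h3]
    by_cases h0 : D' f / f = 0
    · left; rw [h0, mul_zero]
    · right
      rw [w.map_mul _ _ (inv_ne_zero hp) h0, w.ord_inv hp, hp1]
      have := h1.resolve_left h0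
      omega
  obtain ⟨N, hN⟩ := hA
  have h0 : ∀ f : K, f ≠ 0 → w.Reg (p ^ 0 * (D f / f)) := by
    clear hpreg
    induction N with
    | zero => exact hN
    | succ N ih => exact ih (hB N hN)
  intro f hf
  have := h0 f hf
  rwa [pow_zero, one_mul] at this

end Pool.Agent.Helper58K9.QT
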