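import Mathlib
import Pool.Agent.Helper58K9.QT.Basic
import Pool.Agent.Helper58K9.QT.DerExt
import Pool.Agent.Helper58K9.QT.LogExt
import Pool.Agent.Helper58K9.QT.DivExt

/-!
# [GAUSS] Valuations of maximal residual transcendence degree

In this file `K` is a finitely generated field of transcendence degree `k + 1`, `w` a valuation, `t`
an element of positive order and `y 1, ..., y k` have algebraically independent residues. Then `t, y`
are algebraically independent (the order of `∑ t^i p_i (y)` is `w t * min {i | p_i ≠ 0}`), `K` is a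
finite extension of `M = ℂ(t, y)` and `w` lies over the `t`-adic valuation of `M` (with ramification
index `w t`), which is the valuation `valP` of the prime `X 0` in `ℂ[X_0, ..., X_k]`.
-/

set_option autoImplicit false
set_option linter.style.haveILetI false

namespace Pool.Agent.Helper58K9.QT

open Pool.Agent.H436R3.Fol Pool.Agent.W497.Mld Pool.Agent.TH165.ACC MvPolynomial

variable {k : ℕ} {K : Type} [Field K] [Algebra ℂ K]

/-- The function field of a toric germ, and every field over which it is algebraic. -/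
theorem FF_of_toric [Algebra (MvPolynomial (Fin (k + 1)) ℂ) K]
    [IsFractionRing (MvPolynomial (Fin (k + 1)) ℂ) K]
    [IsScalarTower ℂ (MvPolynomial (Fin (k + 1)) ℂ) K] : FF k K := by
  constructor
  · refine ⟨(IsScalarTower.toAlgHom ℂ (MvPolynomial (Fin (k + 1)) ℂ) K).range, ?_, ?_⟩
    · rw [← Algebra.map_top]
      exact (Algebra.FiniteType.out (R := ℂ) (A := MvPolynomial (Fin (k + 1)) ℂ)).map _
    · intro f
      obtain ⟨a, b, hb, rfl⟩ := exists_frac (MvPolynomial (Fin (k + 1)) ℂ) f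
      have hb' : algebraMap (MvPolynomial (Fin (k + 1)) ℂ) K b ≠ 0 :=
        (map_ne_zero_iff _ (IsFractionRing.injective _ K)).2 hb
      exact ⟨_, _, ⟨a, rfl⟩, ⟨b, rfl⟩, hb', by
        show _ / _ * algebraMap (MvPolynomial (Fin (k + 1)) ℂ) K b = _
        rw [div_mul_cancel₀ _ hb']
        rfl⟩
  · have : Algebra.IsAlgebraic (MvPolynomial (Fin (k + 1)) ℂ) K :=
      IsLocalization.isAlgebraic K (nonZeroDivisors (MvPolynomial (Fin (k + 1)) ℂ))
    haveI : FaithfulSMul (MvPolynomial (Fin (k + 1)) ℂ) K :=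
      (faithfulSMul_iff_algebraMap_injective _ _).2 (IsFractionRing.injective _ K)
    have h := trdeg_add_eq ℂ (MvPolynomial (Fin (k + 1)) ℂ) (A := K)
    rw [trdeg_eq_zero (R := MvPolynomial (Fin (k + 1)) ℂ), add_zero,
      MvPolynomial.trdeg_of_isDomain] at h
    rw [← h]
    simp

theorem FF_descend {L : Type} [Field L] [Algebra ℂ L] [Algebra L K] [IsScalarTower ℂ L K]
    [Algebra.IsAlgebraic L K] (h : FF k K) (hL : ∃ S : Subalgebra ℂ L, S.FG ∧
      ∀ f : L, ∃ a b : L, a ∈ S ∧ b ∈ S ∧ b ≠ 0 ∧ f * b = a) : FF k L := by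
  refine ⟨hL, ?_⟩
  have h1 := trdeg_add_eq ℂ L (A := K)
  rw [trdeg_eq_zero (R := L), add_zero] at h1
  rw [h1]
  exact h.2

namespace Gs

/-- split off the part without `X 0` -/
theorem exists_split (q : MvPolynomial (Fin (k + 1)) ℂ) : ∃ (q0 : MvPolynomial (Fin k) ℂ)
    (s : MvPolynomial (Fin (k + 1)) ℂ), q = rename Fin.succ q0 + X 0 * s := by
  induction q using MvPolynomial.induction_on with
  | C a => exact ⟨C a, 0, by simp⟩
  | add p q hp hq =>
    obtain ⟨p0, s, hp⟩ := hp
    obtain ⟨q0, s', hq⟩ := hq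
    refine ⟨p0 + q0, s + s', ?_⟩
    rw [map_add, hp, hq]
    ring
  | mul_X p i hp =>
    obtain ⟨p0, s, hp⟩ := hp
    refine Fin.cases ?_ (fun j => ?_) i
    · exact ⟨0, p, by rw [map_zero]; ring⟩
    · refine ⟨p0 * X j, s * X j.succ, ?_⟩
      rw [map_mul, rename_X]
      nth_rw 1 [hp]
      ring

variable {w : DVal K} {t : K} {y : Fin k → K}

/-- the coordinates -/
def cu (t : K) (y : Fin k → K) : Fin (k + 1) → K := Fin.cons t y

theorem reg_y (hy : ResInd w y) (j : Fin k) : y j ≠ 0 ∧ w.ord (y j) = 0 := by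
  have h := hy (X j) (X_ne_zero j)
  rwa [aeval_X] at h

theorem reg_aeval {σ : Type} {u : σ → K} (hu : ∀ i, w.Reg (u i)) (p : MvPolynomial σ ℂ) :
    w.Reg (aeval u p) := by
  induction p using MvPolynomial.induction_on with
  | C a => rw [aeval_C]; exact w.reg_const a
  | add p q hp hq => rw [map_add]; exact w.reg_add hp hq
  | mul_X p i hp => rw [map_mul, aeval_X]; exact w.reg_mul hp (hu i)

theorem reg_cu (ht : 0 < w.ord t) (hy : ResInd w y) (i : Fin (k + 1)) : w.Reg (cu t y i) := by
  refine Fin.cases ?_ (fun j => ?_) i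
  · exact Or.inr ht.le
  · exact Or.inr (reg_y hy j).2.ge

theorem ord_add_pos {a b : K} (ha : a ≠ 0) (h0 : w.ord a = 0) (hb : w.Pos b) :
    a + b ≠ 0 ∧ w.ord (a + b) = 0 := by
  have hna : ¬ w.Pos a := by
    rintro (h | h)
    · exact ha h
    · omega
  have h1 : ¬ w.Pos (a + b) := by
    intro h
    apply hna
    have h2 : w.Pos (a + b + -b) := w.pos_add h (by
      have h3 := w.pos_mul_left (w.reg_const (-1)) hb
      simpa using h3)
    rwa [add_neg_cancel_right] at h2
  have h2 : w.Reg (a + b) := w.reg_add (Or.inr h0.ge) (reg_of_pos hb)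
  have h3 : a + b ≠ 0 := fun h => h1 (Or.inl h)
  refine ⟨h3, ?_⟩
  have h4 := h2.resolve_left h3
  by_contra h5
  exact h1 (Or.inr (lt_of_le_of_ne h4 (Ne.symm h5)))

theorem ord_unit (ht : 0 < w.ord t) (hy : ResInd w y) {q : MvPolynomial (Fin (k + 1)) ℂ}
    (hq : ¬ X 0 ∣ q) : aeval (cu t y) q ≠ 0 ∧ w.ord (aeval (cu t y) q) = 0 := by
  obtain ⟨q0, s, rfl⟩ := exists_split q
  have hq0 : q0 ≠ 0 := by
    rintro rfl
    apply hq
    rw [map_zero, zero_add]
    exact dvd_mul_right _ _
  have h1 : aeval (cu t y) (rename Fin.succ q0) = aeval y q0 := by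
    rw [aeval_rename]
    rfl
  have h2 : aeval (cu t y) (X 0 * s) = aeval (cu t y) s * t := by
    rw [map_mul, aeval_X, mul_comm]
    rfl
  rw [map_add, h1, h2]
  obtain ⟨h3, h4⟩ := hy q0 hq0
  exact ord_add_pos h3 h4 (w.pos_mul_left (reg_aeval (reg_cu ht hy) s) (Or.inr ht))

theorem X0_prime : Prime (X 0 : MvPolynomial (Fin (k + 1)) ℂ) := MvPolynomial.X_prime

theorem ord_poly (ht0 : t ≠ 0) (ht : 0 < w.ord t) (hy : ResInd w y)
    {p : MvPolynomial (Fin (k + 1)) ℂ} (hp : p ≠ 0) :
    aeval (cu t y) p ≠ 0 ∧ w.ord (aeval (cu t y) p) = w.ord t * multiplicity (X 0) p := by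
  obtain ⟨q, hq, hq'⟩ := (finMult X0_prime hp).exists_eq_pow_mul_and_not_dvd
  obtain ⟨h1, h2⟩ := ord_unit ht hy hq'
  have h3 : aeval (cu t y) p = t ^ multiplicity (X 0) p * aeval (cu t y) q := by
    conv_lhs => rw [hq]
    rw [map_mul, map_pow, aeval_X]
    rfl
  rw [h3]
  refine ⟨mul_ne_zero (pow_ne_zero _ ht0) h1, ?_⟩
  rw [w.map_mul _ _ (pow_ne_zero _ ht0) h1, w.ord_pow ht0, h2]
  ring

theorem inj (ht0 : t ≠ 0) (ht : 0 < w.ord t) (hy : ResInd w y) :
    Function.Injective (aeval (cu t y) : MvPolynomial (Fin (k + 1)) ℂ →ₐ[ℂ] K) := by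
  rw [injective_iff_map_eq_zero]
  intro p hp
  by_contra h
  exact (ord_poly ht0 ht hy h).1 hp

theorem algInd (ht0 : t ≠ 0) (ht : 0 < w.ord t) (hy : ResInd w y) :
    AlgebraicIndependent ℂ (cu t y) := inj ht0 ht hy

theorem tb (hK : FF k K) (ht0 : t ≠ 0) (ht : 0 < w.ord t) (hy : ResInd w y) :
    IsTranscendenceBasis ℂ (cu t y) := by
  apply (algInd ht0 ht hy).isTranscendenceBasis_of_trdeg_le_of_finite
  rw [hK.2]
  simp

/-- the field of rational functions -/
abbrev MM (k : ℕ) : Type := FractionRing (MvPolynomial (Fin (k + 1)) ℂ)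

theorem exists_base (hK : FF k K) (ht0 : t ≠ 0) (ht : 0 < w.ord t) (hy : ResInd w y) :
    ∃ (_ : Algebra (MM k) K) (_ : IsScalarTower ℂ (MM k) K) (_ : FiniteDimensional (MM k) K),
      (∀ p : MvPolynomial (Fin (k + 1)) ℂ,
        algebraMap (MM k) K (algebraMap _ (MM k) p) = aeval (cu t y) p) ∧
      Over w (valP (MM k) (X 0 : MvPolynomial (Fin (k + 1)) ℂ) X0_prime) (w.ord t) := by
  let g : MM k →ₐ[ℂ] K := IsFractionRing.liftAlgHom (inj ht0 ht hy)
  letI : Algebra (MM k) K := g.toRingHom.toAlgebra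
  have hg : ∀ x, algebraMap (MM k) K x = g x := fun x => rfl
  haveI : IsScalarTower ℂ (MM k) K := IsScalarTower.of_algebraMap_eq fun c => by
    rw [hg, AlgHom.commutes]
  have hval : ∀ p : MvPolynomial (Fin (k + 1)) ℂ,
      algebraMap (MM k) K (algebraMap _ (MM k) p) = aeval (cu t y) p := by
    intro p
    rw [hg]
    exact IsFractionRing.lift_algebraMap (inj ht0 ht hy) p
  haveI : Algebra.IsAlgebraic (MM k) K := by
    rw [(tb hK ht0 ht hy).isAlgebraic_iff]
    intro i
    have : cu t y i = algebraMap (MM k) K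
        (algebraMap (MvPolynomial (Fin (k + 1)) ℂ) (MM k) (X i)) := by
      rw [hval, aeval_X]
    rw [this]
    exact isAlgebraic_algebraMap (A := K)
      (algebraMap (MvPolynomial (Fin (k + 1)) ℂ) (MM k) (X i))
  haveI : FiniteDimensional (MM k) K := by
    obtain ⟨⟨S, ⟨s, hs⟩, hS⟩, -⟩ := hK
    have h1 : IntermediateField.adjoin (MM k) (s : Set K) = ⊤ := by
      rw [eq_top_iff]
      intro f _
      have h2 : ∀ x ∈ S, x ∈ IntermediateField.adjoin (MM k) (s : Set K) := by
        intro x hx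
        rw [← hs] at hx
        have h3 : Algebra.adjoin ℂ (s : Set K) ≤
            ((IntermediateField.adjoin (MM k) (s : Set K)).toSubalgebra).restrictScalars ℂ := by
          rw [Algebra.adjoin_le_iff]
          exact IntermediateField.subset_adjoin _ _
        exact h3 hx
      obtain ⟨a, b, ha, hb, hb0, hab⟩ := hS f
      have h4 : f = a / b := by rw [eq_div_iff hb0, hab]
      rw [h4]
      exact div_mem (h2 a ha) (h2 b hb)
    haveI : FiniteDimensional (MM k) (IntermediateField.adjoin (MM k) (s : Set K)) :=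
      IntermediateField.finiteDimensional_adjoin fun x _ => Algebra.IsIntegral.isIntegral x
    rw [h1] at this
    exact LinearEquiv.finiteDimensional (IntermediateField.topEquiv (F := MM k) (E := K)).toLinearEquiv
  refine ⟨inferInstance, inferInstance, inferInstance, hval, ht, ?_⟩
  intro f hf
  obtain ⟨a, b, hb, rfl⟩ := exists_frac (MvPolynomial (Fin (k + 1)) ℂ) f
  have ha : a ≠ 0 := by rintro rfl; simp at hf
  have hinj := IsFractionRing.injective (MvPolynomial (Fin (k + 1)) ℂ) (MM k)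
  have e1 : algebraMap _ (MM k) a ≠ 0 := (map_ne_zero_iff _ hinj).2 ha
  have e2 : algebraMap _ (MM k) b ≠ 0 := (map_ne_zero_iff _ hinj).2 hb
  obtain ⟨h1, h2⟩ := ord_poly ht0 ht hy ha
  obtain ⟨h3, h4⟩ := ord_poly ht0 ht hy hb
  rw [map_div₀, hval, hval, w.ord_div h1 h3, DVal.ord_div _ e1 e2, valP_ord _ ha, valP_ord _ hb,
    h2, h4]
  ring

/-- the value of a derivation at a polynomial in `t, y` -/
theorem der_aeval {n : ℕ} (D : Derivation ℂ K K) (u : Fin n → K) (p : MvPolynomial (Fin n) ℂ) :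
    D (aeval u p) = ∑ i, aeval u (pderiv i p) * D (u i) := by
  induction p using MvPolynomial.induction_on with
  | C a =>
    rw [aeval_C, Derivation.map_algebraMap]
    simp
  | add p q hp hq =>
    rw [map_add, map_add, hp, hq, ← Finset.sum_add_distrib]
    refine Finset.sum_congr rfl fun i _ => ?_
    rw [map_add, map_add, add_mul]
  | mul_X p i hp =>
    rw [map_mul, aeval_X, Derivation.leibniz, hp, smul_eq_mul, smul_eq_mul]
    have h : ∀ j, aeval u (pderiv j (p * X i)) * D (u j) =
        aeval u (pderiv j p) * u i * D (u j) + (if j = i then aeval u p * D (u j) else 0) := by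
      intro j
      rw [Derivation.leibniz, pderiv_X, smul_eq_mul, smul_eq_mul, map_add, map_mul, map_mul,
        aeval_X]
      by_cases hj : j = i
      · subst hj
        rw [if_pos rfl, Pi.single_eq_same, map_one]
        ring
      · rw [if_neg hj, Pi.single_eq_of_ne' hj]
        rw [map_zero]
        ring
    simp_rw [h]
    rw [Finset.sum_add_distrib, Finset.sum_ite_eq' Finset.univ i, if_pos (Finset.mem_univ _),
      Finset.mul_sum]
    rw [add_comm]
    congr 1
    refine Finset.sum_congr rfl fun j _ => ?_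
    ring

end Gs

variable {w : DVal K} {t : K} {y : Fin k → K}

theorem div_of_resInd (hK : FF k K) (ht0 : t ≠ 0) (ht : 0 < w.ord t) (hy : ResInd w y)
    (R : Subalgebra ℂ K) (hR : R.FG) (hRw : ∀ f ∈ R, w.Reg f) :
    ∃ S : Subalgebra ℂ K, S.FG ∧ R ≤ S ∧ IsLocalRing' S w := by
  obtain ⟨_, _, _, -, hov⟩ := Gs.exists_base hK ht0 ht hy
  refine div_of_over hov ?_ R hR hRw
  refine ⟨(IsScalarTower.toAlgHom ℂ (MvPolynomial (Fin (k + 1)) ℂ) (Gs.MM k)).range, ?_, ?_, ?_⟩
  · rw [← Algebra.map_top]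
    exact (Algebra.FiniteType.out (R := ℂ) (A := MvPolynomial (Fin (k + 1)) ℂ)).map _
  · rintro _ ⟨a, rfl⟩
    exact valP_reg Gs.X0_prime a
  · intro f hf
    obtain ⟨a, b, hb, hb', rfl⟩ := exists_frac_of_reg Gs.X0_prime hf
    have hinj := IsFractionRing.injective (MvPolynomial (Fin (k + 1)) ℂ) (Gs.MM k)
    have e2 : algebraMap _ (Gs.MM k) b ≠ 0 := (map_ne_zero_iff _ hinj).2 hb
    refine ⟨_, _, ⟨a, rfl⟩, ⟨b, rfl⟩, e2, ?_, ?_⟩
    · show (valP (Gs.MM k) (X 0) Gs.X0_prime).ord (algebraMap _ (Gs.MM k) b) = 0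
      rw [valP_ord _ hb, multiplicity_eq_zero.2 hb']
      rfl
    · show _ / _ * algebraMap _ (Gs.MM k) b = _
      rw [div_mul_cancel₀ _ e2]
      rfl

theorem log_of_resInd (hK : FF k K) (ht0 : t ≠ 0) (ht : 0 < w.ord t) (hy : ResInd w y)
    (D : Derivation ℂ K K) (h0 : w.Reg (D t / t)) (h : ∀ j, w.Reg (D (y j))) : LogAt w D := by
  obtain ⟨_, _, _, hval, hov⟩ := Gs.exists_base hK ht0 ht hy
  refine log_of_over hov D ?_
  have hDt : w.Reg (D t) := by
    have : D t = D t / t * t := by rw [div_mul_cancel₀ _ ht0]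
    rw [this]
    exact w.reg_mul h0 (Or.inr ht.le)
  have hDc : ∀ i, w.Reg (D (Gs.cu t y i)) := by
    intro i
    refine Fin.cases hDt (fun j => h j) i
  -- the logarithmic derivative of a polynomial
  have key : ∀ p : MvPolynomial (Fin (k + 1)) ℂ, p ≠ 0 →
      w.Reg (D (aeval (Gs.cu t y) p) / aeval (Gs.cu t y) p) := by
    intro p hp
    obtain ⟨q, hq, hq'⟩ := (finMult Gs.X0_prime hp).exists_eq_pow_mul_and_not_dvd
    obtain ⟨h1, h2⟩ := Gs.ord_unit ht hy hq'
    have h3 : aeval (Gs.cu t y) p = t ^ multiplicity (X 0) p * aeval (Gs.cu t y) q := by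
      conv_lhs => rw [hq]
      rw [map_mul, map_pow, aeval_X]
      rfl
    rw [h3, logDer_mul (pow_ne_zero _ ht0) h1]
    apply w.reg_add
    · have h4 := logDer_zpow (D := D) ht0 (multiplicity (X 0) p : ℤ)
      rw [zpow_natCast] at h4
      rw [h4]
      exact w.reg_mul (w.reg_intCast _) h0
    · rw [div_eq_mul_inv]
      refine w.reg_mul ?_ (w.reg_inv h1 h2)
      rw [Gs.der_aeval]
      have : ∀ S : Finset (Fin (k + 1)), w.Reg (∑ i ∈ S, aeval (Gs.cu t y) (pderiv i q) *
          D (Gs.cu t y i)) := by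
        intro S
        classical
        induction S using Finset.induction_on with
        | empty => rw [Finset.sum_empty]; exact w.reg_zero
        | insert a S ha ih =>
          rw [Finset.sum_insert ha]
          exact w.reg_add (w.reg_mul (Gs.reg_aeval (Gs.reg_cu ht hy) _) (hDc a)) ih
      exact this _
  intro f hf
  obtain ⟨a, b, hb, rfl⟩ := exists_frac (MvPolynomial (Fin (k + 1)) ℂ) f
  have ha : a ≠ 0 := by rintro rfl; simp at hf
  rw [map_div₀, hval, hval]
  have ha' := (Gs.ord_poly ht0 ht hy ha).1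
  have hb' := (Gs.ord_poly ht0 ht hy hb).1
  have h5 : D (aeval (Gs.cu t y) a / aeval (Gs.cu t y) b) /
      (aeval (Gs.cu t y) a / aeval (Gs.cu t y) b) =
      D (aeval (Gs.cu t y) a) / aeval (Gs.cu t y) a -
        D (aeval (Gs.cu t y) b) / aeval (Gs.cu t y) b := by
    have h6 := logDer_mul (D := D) (div_ne_zero ha' hb') hb'
    rw [div_mul_cancel₀ _ hb'] at h6
    linear_combination -h6
  rw [h5]
  exact w.reg_sub (key a ha) (key b hb)

theorem strict_of_resInd (hK : FF k K) (ht0 : t ≠ 0) (ht : 0 < w.ord t) (hy : ResInd w y)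
    {D : Derivation ℂ K K} (hlog : LogAt w D) (h : ∀ j, w.Pos (D (y j))) :
    ∀ f : K, w.Reg f → w.Pos (D f) := by
  obtain ⟨_, _, _, hval, hov⟩ := Gs.exists_base hK ht0 ht hy
  refine strict_of_over hov hlog ?_
  have hDt : w.Pos (D t) := by
    have : D t = D t / t * t := by rw [div_mul_cancel₀ _ ht0]
    rw [this]
    exact w.pos_mul_left (hlog t ht0) (Or.inr ht)
  have hDc : ∀ i, w.Pos (D (Gs.cu t y i)) := by
    intro i
    refine Fin.cases hDt (fun j => h j) i
  have key : ∀ p : MvPolynomial (Fin (k + 1)) ℂ, w.Pos (D (aeval (Gs.cu t y) p)) := by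
    intro p
    rw [Gs.der_aeval]
    have : ∀ S : Finset (Fin (k + 1)), w.Pos (∑ i ∈ S, aeval (Gs.cu t y) (pderiv i p) *
        D (Gs.cu t y i)) := by
      intro S
      classical
      induction S using Finset.induction_on with
      | empty => rw [Finset.sum_empty]; exact Or.inl rfl
      | insert a S ha ih =>
        rw [Finset.sum_insert ha]
        exact w.pos_add (w.pos_mul_left (Gs.reg_aeval (Gs.reg_cu ht hy) _) (hDc a)) ih
    exact this _
  intro f hf
  obtain ⟨a, b, hb, hb', rfl⟩ := exists_frac_of_reg Gs.X0_prime hf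
  rw [map_div₀, hval, hval]
  obtain ⟨h1, h2⟩ := Gs.ord_unit ht hy hb'
  set A := aeval (Gs.cu t y) a
  set B := aeval (Gs.cu t y) b
  have h3 : D (A / B) = B⁻¹ * D A + -(B⁻¹ * (B⁻¹ * A)) * D B := by
    have h4 : D A = D (A / B * B) := by rw [div_mul_cancel₀ _ h1]
    rw [Derivation.leibniz, smul_eq_mul, smul_eq_mul] at h4
    have h5 : D (A / B) = B⁻¹ * (D A - A / B * D B) := by
      rw [h4]
      field_simp
      ring
    rw [h5]
    field_simp
    ring
  rw [h3]
  have hBi := w.reg_inv h1 h2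
  exact w.pos_add (w.pos_mul_left hBi (key a)) (w.pos_mul_left (w.reg_neg (w.reg_mul hBi
    (w.reg_mul hBi (Gs.reg_aeval (Gs.reg_cu ht hy) _)))) (key b))

/-- a derivation which kills `t, y` is zero -/
theorem Gs.der_zero (hK : FF k K) (ht0 : t ≠ 0) (ht : 0 < w.ord t) (hy : ResInd w y)
    (D : Derivation ℂ K K) (h : ∀ i, D (Gs.cu t y i) = 0) : D = 0 := by
  obtain ⟨_, _, _, hval, hov⟩ := Gs.exists_base hK ht0 ht hy
  refine der_ext_unique (L := Gs.MM k) ?_
  have key : ∀ p : MvPolynomial (Fin (k + 1)) ℂ, D (aeval (Gs.cu t y) p) = 0 := by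
    intro p
    rw [Gs.der_aeval]
    exact Finset.sum_eq_zero fun i _ => by rw [h i, mul_zero]
  intro f
  rw [Derivation.zero_apply]
  obtain ⟨a, b, hb, rfl⟩ := exists_frac (MvPolynomial (Fin (k + 1)) ℂ) f
  have hb' := (Gs.ord_poly ht0 ht hy hb).1
  rw [map_div₀, hval, hval]
  have h4 : D (aeval (Gs.cu t y) a) =
      D (aeval (Gs.cu t y) a / aeval (Gs.cu t y) b * aeval (Gs.cu t y) b) := by
    rw [div_mul_cancel₀ _ hb']
  rw [Derivation.leibniz, key, key, smul_zero, zero_add, smul_eq_mul] at h4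
  exact (mul_eq_zero.1 h4.symm).resolve_left hb'

theorem Gs.preserves_of_log {D : Derivation ℂ K K} (h : LogAt w D) : Preserves w D := by
  intro f hf
  by_cases hf0 : f = 0
  · rw [hf0, map_zero]
    exact w.reg_zero
  have : D f = D f / f * f := by rw [div_mul_cancel₀ _ hf0]
  rw [this]
  exact w.reg_mul (h f hf0) hf

/-- [CAN] The canonical order in the coordinates `t, y`. Proof: the matrix is invertible because
`t, y` is a transcendence basis; the rows of the inverse matrix give the derivations `∂_t, ∂_{y j}`,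
they preserve `O_w` because `t ∂_t` and `∂_{y j}` are logarithmic, and `t ∂_t` maps `O_w` to the
maximal ideal; conversely, if `A` preserves `O_w` then `A * (F.D (u j))` has entries in `O_w`. -/
theorem canOrd_of_resInd (hK : FF k K) (ht0 : t ≠ 0) (ht : w.ord t = 1) (hy : ResInd w y) {d : ℕ}
    (F : Foliation K d) (hF : F.space = ⊤) (ε : Fin d ≃ Fin (k + 1)) :
    (Matrix.of fun i j : Fin (k + 1) =>
      F.D (ε.symm i) ((Fin.cons t y : Fin (k + 1) → K) j)).det ≠ 0 ∧
    IsCanOrd F w (-w.ord (Matrix.of fun i j : Fin (k + 1) =>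
      F.D (ε.symm i) ((Fin.cons t y : Fin (k + 1) → K) j)).det) := by
  classical
  have ht' : 0 < w.ord t := by omega
  set U : Matrix (Fin (k + 1)) (Fin (k + 1)) K := Matrix.of fun i j : Fin (k + 1) =>
      F.D (ε.symm i) ((Fin.cons t y : Fin (k + 1) → K) j) with hU
  have hUe : ∀ i j, U i j = F.D (ε.symm i) (Gs.cu t y j) := fun i j => rfl
  have hdet : U.det ≠ 0 := by
    intro h0
    obtain ⟨v, hv0, hv⟩ := Matrix.exists_vecMul_eq_zero_iff.2 h0
    have h1 : (∑ i, v (ε i) • F.D i : Derivation ℂ K K) = 0 := by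
      apply Gs.der_zero hK ht0 ht' hy
      intro j
      have h2 := congrFun hv j
      rw [Matrix.vecMul, Pi.zero_apply] at h2
      rw [der_sum_apply, ← h2, dotProduct, ← ε.sum_comp]
      refine Finset.sum_congr rfl fun i _ => ?_
      rw [hUe, Equiv.symm_apply_apply]
    have h3 := Fintype.linearIndependent_iff.1 F.indep (fun i => v (ε i)) h1
    apply hv0
    funext i
    have := h3 (ε.symm i)
    simpa using this
  refine ⟨hdet, ?_⟩
  have hdu : IsUnit U.det := isUnit_iff_ne_zero.2 hdet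
  let dd : Fin (k + 1) → Derivation ℂ K K := fun i => ∑ l, U⁻¹ i (ε l) • F.D l
  have hd : ∀ i j, dd i (Gs.cu t y j) = (1 : Matrix (Fin (k + 1)) (Fin (k + 1)) K) i j := by
    intro i j
    rw [← Matrix.nonsing_inv_mul U hdu, Matrix.mul_apply, der_sum_apply, ← ε.sum_comp]
    refine Finset.sum_congr rfl fun l _ => ?_
    rw [hUe, Equiv.symm_apply_apply]
  have hd0 : ∀ i, dd i t = (1 : Matrix (Fin (k + 1)) (Fin (k + 1)) K) i 0 := fun i => hd i 0
  have hdy : ∀ i j, dd i (y j) = (1 : Matrix (Fin (k + 1)) (Fin (k + 1)) K) i (Fin.succ j) :=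
    fun i j => hd i (Fin.succ j)
  have hpres : ∀ i, Preserves w (dd i) := by
    intro i
    refine Fin.cases ?_ (fun l => ?_) i
    · have hlog : LogAt w (t • dd 0) := by
        apply log_of_resInd hK ht0 ht' hy
        · rw [Derivation.smul_apply, hd0, Matrix.one_apply_eq, smul_eq_mul, mul_one, div_self ht0]
          exact w.reg_one
        · intro j
          rw [Derivation.smul_apply, hdy, Matrix.one_apply_ne (Fin.succ_ne_zero j).symm, smul_zero]
          exact w.reg_zero
      have hstr := strict_of_resInd hK ht0 ht' hy hlog (by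
        intro j
        rw [Derivation.smul_apply, hdy, Matrix.one_apply_ne (Fin.succ_ne_zero j).symm, smul_zero]
        exact Or.inl rfl)
      intro f hf
      have h1 := hstr f hf
      rw [Derivation.smul_apply, smul_eq_mul] at h1
      by_cases h2 : dd 0 f = 0
      · exact Or.inl h2
      · right
        rcases h1 with h1 | h1
        · exact absurd h1 (mul_ne_zero ht0 h2)
        · rw [w.map_mul _ _ ht0 h2, ht] at h1
          omega
    · apply Gs.preserves_of_log
      apply log_of_resInd hK ht0 ht' hy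
      · rw [hd0, Matrix.one_apply_ne (Fin.succ_ne_zero l), zero_div]
        exact w.reg_zero
      · intro j
        rw [hdy]
        by_cases hjl : l.succ = j.succ
        · rw [hjl, Matrix.one_apply_eq]
          exact w.reg_one
        · rw [Matrix.one_apply_ne hjl]
          exact w.reg_zero
  constructor
  · refine ⟨U⁻¹.submatrix ε ε, ?_, ?_, ?_⟩
    · rw [Matrix.det_submatrix_equiv_self, Matrix.det_nonsing_inv, Ring.inverse_eq_inv']
      exact inv_ne_zero hdet
    · intro i
      exact hpres (ε i)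
    · rw [Matrix.det_submatrix_equiv_self, Matrix.det_nonsing_inv, Ring.inverse_eq_inv',
        w.ord_inv hdet]
  · rintro m ⟨A, hA0, hA, rfl⟩
    have h1 : w.Reg (A.submatrix ε.symm ε.symm * U).det := by
      apply det_reg
      intro i j
      have h2 : (A.submatrix ε.symm ε.symm * U) i j =
          (∑ l, A (ε.symm i) l • F.D l : Derivation ℂ K K) (Gs.cu t y j) := by
        rw [Matrix.mul_apply, der_sum_apply, ← ε.symm.sum_comp]
        rfl
      rw [h2]
      exact hA _ _ (Gs.reg_cu ht' hy j)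
    rw [Matrix.det_mul, Matrix.det_submatrix_equiv_self] at h1
    have h2 := w.ord_nonneg (mul_ne_zero hA0 hdet) h1
    rw [w.map_mul _ _ hA0 hdet] at h2
    omega

end Pool.Agent.Helper58K9.QT
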