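import Mathlib
import Pool.Agent.Helper58K9.QT.Basic
import Pool.Agent.Helper58K9.QT.Gauss
import Pool.Agent.Helper58K9.QT.Descend
import Pool.Agent.Helper58K9.QT.TorRes

/-!
# [LAM] The pull-back of `K_X + B` is linear on the cone
-/

set_option autoImplicit false

namespace Pool.Agent.Helper58K9.QT

open Pool.Agent.H436R3.Fol Pool.Agent.H436R3.KT Pool.Agent.W497.Mld Pool.Agent.TH165.ACC
  MvPolynomial

variable {k : ℕ} {L K : Type} [Field L] [Algebra ℂ L] [Field K] [Algebra ℂ K] [Algebra L K]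
  [IsScalarTower ℂ L K] [Algebra (MvPolynomial (Fin (k + 1)) ℂ) K]
  [IsFractionRing (MvPolynomial (Fin (k + 1)) ℂ) K]
  [IsScalarTower ℂ (MvPolynomial (Fin (k + 1)) ℂ) K]

omit [Algebra (MvPolynomial (Fin (k + 1)) ℂ) K] [IsFractionRing (MvPolynomial (Fin (k + 1)) ℂ) K]
  [IsScalarTower ℂ (MvPolynomial (Fin (k + 1)) ℂ) K] in
theorem log_order (hK : FF k K) {w : DVal K} {y : Fin k → K} (hy : ResInd w y)
    (T : Fin (k + 1) → Derivation ℂ K K) {t t' : K} (ht0 : t ≠ 0) (ht0' : t' ≠ 0)
    (ht' : 0 < w.ord t')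
    (hU : (Matrix.of fun i j : Fin (k + 1) =>
      T i ((Fin.cons t y : Fin (k + 1) → K) j)).det ≠ 0)
    (hU' : (Matrix.of fun i j : Fin (k + 1) =>
      T i ((Fin.cons t' y : Fin (k + 1) → K) j)).det ≠ 0) :
    w.ord t - w.ord (Matrix.of fun i j : Fin (k + 1) =>
      T i ((Fin.cons t y : Fin (k + 1) → K) j)).det ≤
    w.ord t' - w.ord (Matrix.of fun i j : Fin (k + 1) =>
      T i ((Fin.cons t' y : Fin (k + 1) → K) j)).det := by
  set U : Matrix (Fin (k + 1)) (Fin (k + 1)) K := Matrix.of fun i j : Fin (k + 1) =>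
      T i ((Fin.cons t' y : Fin (k + 1) → K) j) with hUd
  let d : Fin (k + 1) → K := Fin.cons t' fun _ => 1
  let N : Matrix (Fin (k + 1)) (Fin (k + 1)) K := Matrix.diagonal d * U⁻¹
  have hNU : N * U = Matrix.diagonal d := by
    change Matrix.diagonal d * U⁻¹ * U = _
    rw [Matrix.mul_assoc, Matrix.nonsing_inv_mul _ (isUnit_iff_ne_zero.2 hU'), Matrix.mul_one]
  have hdet : N.det * U.det = t' := by
    rw [← Matrix.det_mul, hNU, Matrix.det_diagonal, Fin.prod_univ_succ]
    simp [d]
  have hN0 : N.det ≠ 0 := by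
    intro h
    rw [h, zero_mul] at hdet
    exact ht0' hdet.symm
  have hval : ∀ i j, (∑ l, N i l • T l) ((Fin.cons t' y : Fin (k + 1) → K) j) =
      Matrix.diagonal d i j := by
    intro i j
    rw [← hNU, Matrix.mul_apply, der_sum_apply]
    rfl
  have hN : ∀ i, LogAt w (∑ l, N i l • T l) := by
    intro i
    apply log_of_resInd hK ht0' ht' hy
    · have h1 := hval i 0
      rw [Fin.cons_zero] at h1
      rw [h1]
      by_cases hi : i = 0
      · subst hi
        rw [Matrix.diagonal_apply_eq]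
        simp only [d, Fin.cons_zero]
        rw [div_self ht0']
        exact w.reg_one
      · rw [Matrix.diagonal_apply_ne _ hi, zero_div]
        exact w.reg_zero
    · intro j
      have h1 := hval i j.succ
      rw [Fin.cons_succ] at h1
      rw [h1]
      by_cases hi : i = j.succ
      · subst hi
        rw [Matrix.diagonal_apply_eq]
        simp only [d, Fin.cons_succ]
        exact w.reg_one
      · rw [Matrix.diagonal_apply_ne _ hi]
        exact w.reg_zero
  have h1 := log_det T hN0 hN ht0 (fun i => by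
    have h2 := hy (MvPolynomial.X i) (X_ne_zero i)
    rw [aeval_X] at h2
    exact h2) hU
  have h2 : w.ord t' = w.ord N.det + w.ord U.det := by
    rw [← w.map_mul _ _ hN0 hU', hdet]
  omega

theorem lam_prime [FiniteDimensional L K] {X : AffVar L} {P : Pt X} {B : EffDiv X}
    {g : ToricGerm (k + 1) K} (hsub : ∀ f ∈ X.R, algebraMap L K f ∈ g.X.R)
    (hpt : ∀ (f : X.R) (f' : g.X.R), (f' : K) = algebraMap L K f → g.P f' = P f)
    (e : LocEq B P) {C : Matrix (Fin (k + 1)) (Fin (k + 1)) K} (hC : C.det ≠ 0)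
    (ε : Fin X.d ≃ Fin (k + 1)) (hCT : ∀ (i : Fin X.d) (f : L),
      algebraMap L K (X.T.D i f) = ∑ j, C (ε i) j * tor K j (algebraMap L K f))
    {w : DVal K} (hw : ∀ f : g.X.R, w.Pos (f : K) → g.P f = 0)
    {y : Fin k → K} (hy : ResInd w y) {v : DVal L} (hv : IsLocalRing' X.R v) {r : ℤ}
    (hov : Over w v r) {N : ℤ} (hN : IsCanOrd g.X.T w N) :
    -(w.ord C.det : ℝ) - ∑ i, e.ρ i * (w.ord (algebraMap L K (e.g i)) : ℝ) =
      -(N + 1) + r * (1 - B.mult v) := by
  have hon : OnAt P v := by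
    refine ⟨hv, fun f hf => ?_⟩
    have h1 := hw ⟨_, hsub f f.2⟩ ((hov.pos_iff _).2 hf)
    rwa [hpt f ⟨_, hsub f f.2⟩ rfl] at h1
  obtain ⟨a, ha, hae⟩ := e.eq v hon
  obtain ⟨t, ht0, ht⟩ := v.surj
  obtain ⟨t', ht0', ht'⟩ := w.surj
  obtain ⟨y', hy'⟩ := resInd_descend hov hy
  have hKF : FF k K := FF_of_toric
  have hLF : FF k L := FF_descend hKF ⟨X.R, X.fg, X.frac⟩
  obtain ⟨hM0, hcan⟩ := canOrd_of_resInd hLF ht0 ht hy' X.T X.top ε
  have htK0 : algebraMap L K t ≠ 0 := (map_ne_zero _).2 ht0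
  have htw : w.ord (algebraMap L K t) = r := by rw [hov.2 _ ht0, ht, mul_one]
  have hyK : ResInd w fun i => algebraMap L K (y' i) := resInd_map hov hy'
  obtain ⟨hU0', hcanw⟩ := canOrd_of_resInd hKF ht0' ht' hyK g.X.T g.X.top g.e
  have hMU := map_det_eq hCT t y'
  have hUU : (Matrix.of fun i j : Fin (k + 1) => g.X.T.D (g.e.symm i)
      ((Fin.cons t' fun i => algebraMap L K (y' i) : Fin (k + 1) → K) j)) =
      Matrix.of fun i j : Fin (k + 1) => tor K i
      ((Fin.cons t' fun i => algebraMap L K (y' i) : Fin (k + 1) → K) j) := by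
    ext i j
    rw [Matrix.of_apply, Matrix.of_apply, g.hT, Equiv.apply_symm_apply]
  rw [hUU] at hU0' hcanw
  have hU0 : (Matrix.of fun i j : Fin (k + 1) => tor K i
      ((Fin.cons (algebraMap L K t) fun i => algebraMap L K (y' i) :
        Fin (k + 1) → K) j)).det ≠ 0 := by
    intro h0
    rw [h0, mul_zero] at hMU
    exact (map_ne_zero _).2 hM0 hMU
  have hr := hov.1
  have hle1 := log_order hKF hyK (fun i => tor K i) htK0 ht0' (by omega) hU0 hU0'
  have hle2 := log_order hKF hyK (fun i => tor K i) ht0' htK0 (by omega) hU0' hU0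
  have h1 := ha.unique hcan
  have h2 := hN.unique hcanw
  have h3 := hov.2 _ hM0
  rw [hMU, w.map_mul _ _ hC hU0] at h3
  have h4 : ∑ i, e.ρ i * (w.ord (algebraMap L K (e.g i)) : ℝ) =
      r * ∑ i, e.ρ i * (v.ord (e.g i) : ℝ) := by
    rw [Finset.mul_sum]
    refine Finset.sum_congr rfl fun i _ => ?_
    rw [hov.2 _ (e.ne i)]
    push_cast
    ring
  rw [h4, ← hae]
  have h5 : r * a = N + 1 - r - w.ord C.det := by
    rw [h1, h2, mul_neg, ← h3]
    omega
  have h6 : (r : ℝ) * a = N + 1 - r - w.ord C.det := by exact_mod_cast h5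
  rw [mul_add, h6]
  ring

/-- Proof. Let `w` be a prime divisor of `T` through the fixed point and `v` the prime divisor of
`X` below it (`OnAt P v`); let `a` be the order of `K_X` at `v`, so `a + B.mult v = ∑ ρ v (g)`. Take
a uniformiser `t` of `v` and `y` with independent residues (`resInd_mon` or `resInd_valP`, then
`resInd_descend`). By `canOrd_of_resInd` for `X.T` and `v`, `a = -v (det T_i (t, y))`, and by
`canOrd_of_resInd` for `g.X.T` (toric) and `w`, with `can_mon` and `can_unit`, `w (det tor_i (t, y))` is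
`1` if `w` is monomial and `0` otherwise. So the left hand side is `1 - B.mult v` if `w` is monomial,
and `0` otherwise (`B.mult v = 0` as `w` is not monomial). Now write the left hand side as
`∑ c_p w (p)` over primes `p` (`fact`): `c_p = 0` if `Thr g p`, and the others are linear
(`lin_of_not_thr`, `eq_of_not_thr`). See the proof of `key_formula` in `TH165.ACC.KForm`. -/
theorem exists_lam [FiniteDimensional L K] {X : AffVar L} {P : Pt X} {B : EffDiv X}
    {g : ToricGerm (k + 1) K} (hsub : ∀ f ∈ X.R, algebraMap L K f ∈ g.X.R)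
    (hpt : ∀ (f : X.R) (f' : g.X.R), (f' : K) = algebraMap L K f → g.P f' = P f)
    (hdiv : ∀ w : DVal K, IsLocalRing' g.X.R w →
      ∃ (v : DVal L) (r : ℤ), IsLocalRing' X.R v ∧ Over w v r)
    (htor : ∀ (w : DVal K) (v : DVal L) (r : ℤ), IsLocalRing' g.X.R w → Over w v r →
      1 - r * (1 - B.mult v) = 0 ∨ (IsMonomial (k + 1) w ∧ r = 1))
    (e : LocEq B P) {C : Matrix (Fin (k + 1)) (Fin (k + 1)) K} (hC : C.det ≠ 0)
    (ε : Fin X.d ≃ Fin (k + 1)) (hCT : ∀ (i : Fin X.d) (f : L),
      algebraMap L K (X.T.D i f) = ∑ j, C (ε i) j * tor K j (algebraMap L K f)) :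
    ∃ b : Fin g.N → ℝ,
      (∀ i (w : DVal K) (v : DVal L) (r : ℤ), IsMonomial (k + 1) w →
        (tv w : Fin (k + 1) → ℤ) = g.E i → Over w v r →
        b i = 1 - r * (1 - B.mult v) ∧ IsLocalRing' X.R v) ∧
      ∀ w : DVal K, IsOverGerm g.P w → ∀ c : Fin g.N → ℝ, (∀ i, 0 ≤ c i) →
        Coord g.E c (tv w) →
        -(w.ord C.det : ℝ) - ∑ i, e.ρ i * (w.ord (algebraMap L K (e.g i)) : ℝ) =
          ∑ i, c i * (1 - b i) := by
  classical
  have hKF : FF k K := FF_of_toric
  -- the edges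
  have hE : ∀ i, ∃ w : DVal K, IsMonomial (k + 1) w ∧ (tv w : Fin (k + 1) → ℤ) = g.E i :=
    fun i => exists_mon (g.prim i)
  choose vE hvE htE using hE
  have hV : ∀ i, ∃ (v : DVal L) (r : ℤ), IsLocalRing' X.R v ∧ Over (vE i) v r :=
    fun i => hdiv _ (ToricGerm.local_E (hvE i) (htE i))
  choose vL rL hvL hvO using hV
  set Λ : DVal K → ℝ := fun w => -(w.ord C.det : ℝ) -
    ∑ i, e.ρ i * (w.ord (algebraMap L K (e.g i)) : ℝ) with hΛ
  have hΛE : ∀ i, Λ (vE i) = rL i * (1 - B.mult (vL i)) := by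
    intro i
    obtain ⟨y, hy⟩ := resInd_mon (hvE i)
    have h1 := lam_prime hsub hpt e hC ε hCT (ToricGerm.onAt_E (hvE i) (htE i)).2 hy (hvL i)
      (hvO i) (can_mon g.e g.hT (hvE i))
    rw [hΛ]
    simp only
    rw [h1]
    push_cast
    ring
  obtain ⟨F, c, hFp, hFd, hc⟩ := fact (n := k + 1)
    (Fin.cons (-1) fun i => -e.ρ i : Fin (e.n + 1) → ℝ)
    (Fin.cons C.det fun i => algebraMap L K (e.g i) : Fin (e.n + 1) → K) (by
      intro i
      refine Fin.cases ?_ (fun i => ?_) i
      · simpa using hC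
      · simpa using e.ne i)
  have hΛc : ∀ w : DVal K, Λ w = ∑ p ∈ F, c p * (w.ord (jo (Fin (k + 1)) K p) : ℝ) := by
    intro w
    rw [← hc, Fin.sum_univ_succ, hΛ]
    simp only [Fin.cons_zero, Fin.cons_succ, neg_mul, one_mul, Finset.sum_neg_distrib]
    ring
  have hcp : ∀ p ∈ F, Thr g p → c p = 0 := by
    rintro p hp ⟨hpp, hcv, hon⟩
    have hL := g.local_prime hpp hcv
    obtain ⟨v, r, hv, hov⟩ := hdiv _ hL
    obtain ⟨y, hy⟩ := resInd_valP (K := K) hpp
    have h1 := lam_prime hsub hpt e hC ε hCT hon.2 hy hv hov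
      (can_unit g.e g.hT (by rw [← g.hR]; exact hL) hcv)
    have h2 : 1 - r * (1 - B.mult v) = 0 := by
      refine (htor _ v r hL hov).resolve_right ?_
      rintro ⟨h, -⟩
      obtain ⟨m1, hm1⟩ := prim_of_mon h
      have h3 : (tv (valP K p hpp) : Fin (k + 1) → ℤ) = 0 := funext hcv
      rw [h3, pr] at hm1
      simp at hm1
    have h5 : ∑ q ∈ F, c q * ((valP K p hpp).ord (jo (Fin (k + 1)) K q) : ℝ) = c p := by
      rw [Finset.sum_eq_single p]
      · rw [valP_self]; push_cast; ring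
      · intro q hq hqp
        rw [valP_other hpp (hFp q hq).ne_zero fun h => hqp (hFd p hp q hq h).symm]
        push_cast; ring
      · intro h; exact absurd hp h
    have h6 := hΛc (valP K p hpp)
    rw [h5, hΛ] at h6
    simp only at h6
    rw [h1] at h6
    rw [← h6]
    push_cast
    linarith
  refine ⟨fun i => 1 - rL i * (1 - B.mult (vL i)), ?_, ?_⟩
  · intro i w v r hw htw hov
    have h1 : ∀ f : K, f ≠ 0 → w.ord f = (vE i).ord f := by
      intro f hf
      obtain ⟨a, b, hb, rfl⟩ := exists_frac (MvPolynomial (Fin (k + 1)) ℂ) f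
      have ha : a ≠ 0 := by rintro rfl; simp at hf
      have key : ∀ q : MvPolynomial (Fin (k + 1)) ℂ, q ≠ 0 →
          w.ord (jo (Fin (k + 1)) K q) = (vE i).ord (jo (Fin (k + 1)) K q) := by
        intro q hq
        obtain ⟨s1, hs1, h1⟩ := (hw q hq).1
        obtain ⟨s2, hs2, h2⟩ := (hvE i q hq).1
        have h3 := (hw q hq).2 s2 hs2
        have h4 := (hvE i q hq).2 s1 hs1
        rw [htw] at h1 h3
        rw [htE] at h2 h4
        omega
      rw [← jo_apply, ← jo_apply, w.ord_div (jo_ne ha) (jo_ne hb),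
        (vE i).ord_div (jo_ne ha) (jo_ne hb), key a ha, key b hb]
    have h12 : ∀ f : L, f ≠ 0 → r * v.ord f = rL i * (vL i).ord f := by
      intro f hf
      rw [← hov.2 f hf, ← (hvO i).2 f hf, h1 _ ((map_ne_zero _).2 hf)]
    have hrr : r = rL i := by
      obtain ⟨f, hf, hf1⟩ := v.surj
      obtain ⟨f', hf', hf1'⟩ := (vL i).surj
      have e1 := h12 f hf
      have e2 := h12 f' hf'
      rw [hf1, mul_one] at e1
      rw [hf1', mul_one] at e2
      exact Int.dvd_antisymm hov.1.le (hvO i).1.le ⟨_, e2.symm⟩ ⟨_, e1⟩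
    have h2 : ∀ f : L, f ≠ 0 → v.ord f = (vL i).ord f := by
      intro f hf
      have h3 := h12 f hf
      rw [hrr] at h3
      exact mul_left_cancel₀ (hvO i).1.ne' h3
    have hreg : ∀ f : L, v.Reg f ↔ (vL i).Reg f := by
      intro f
      by_cases hf : f = 0
      · simp [DVal.Reg, hf]
      · simp only [DVal.Reg, hf, false_or]
        rw [h2 f hf]
    have hmult : B.mult v = B.mult (vL i) := by
      simp only [EffDiv.mult]
      refine Finset.sum_congr rfl fun j _ => ?_
      congr 1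
      apply propext
      constructor
      · intro h f hf
        rw [← h2 f hf]
        exact h f hf
      · intro h f hf
        rw [h2 f hf]
        exact h f hf
    constructor
    · rw [hrr, hmult]
    · refine ⟨fun f hf => (hreg f).2 ((hvL i).1 f hf), fun f hf => ?_⟩
      obtain ⟨a, b, ha, hb, hb0, hb1, hab⟩ := (hvL i).2 f ((hreg f).1 hf)
      exact ⟨a, b, ha, hb, hb0, by rw [h2 b hb0]; exact hb1, hab⟩
  · intro w hw cc hcc hco
    have hint := ToricGerm.inter_of_over (n := k + 1) hw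
    obtain ⟨k', u', hk', hu', htv'⟩ := exists_prim (ne_zero_of_inter hint)
    obtain ⟨v', hv', rfl⟩ := exists_mon (K := K) hu'
    have hk'r : (0 : ℝ) < k' := by exact_mod_cast hk'
    have hint' : g.Inter (tv v') := by
      intro r hr hr0
      have h1 := hint r hr hr0
      rw [htv', pr_smul_right] at h1
      exact (pos_iff_pos_of_mul_pos h1).1 hk'
    have hco' : Coord (fun i => g.E (id i)) (fun i => (k' : ℝ)⁻¹ * cc i) (tv v') := by
      intro l
      have h1 := hco l
      rw [htv'] at h1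
      simp only [Pi.smul_apply, smul_eq_mul, Int.cast_mul] at h1
      simp only [mul_assoc, id]
      rw [← Finset.mul_sum, h1, ← mul_assoc, inv_mul_cancel₀ hk'r.ne', one_mul]
    have hlinp : ∀ p ∈ F, c p * (w.ord (jo (Fin (k + 1)) K p) : ℝ) =
        ∑ i, cc i * (c p * ((vE i).ord (jo (Fin (k + 1)) K p) : ℝ)) := by
      intro p hp
      by_cases hT : Thr g p
      · simp [hcp p hp hT]
      · rw [eq_of_not_thr hw hv' hint'.inCone hk' htv' (hFp p hp) hT]
        have h1 := lin_of_not_thr (a := id) hvE htE (hFp p hp) hT hv'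
          (w := fun i => (k' : ℝ)⁻¹ * cc i) (fun i => mul_nonneg (inv_nonneg.2 hk'r.le) (hcc i))
          hco'
        push_cast
        rw [h1, Finset.mul_sum, Finset.mul_sum]
        refine Finset.sum_congr rfl fun i _ => ?_
        field_simp
    have h1 : Λ w = ∑ i, cc i * Λ (vE i) := by
      simp only [hΛc]
      rw [Finset.sum_congr rfl hlinp, Finset.sum_comm]
      refine Finset.sum_congr rfl fun i _ => ?_
      rw [Finset.mul_sum]
    change Λ w = _
    rw [h1]
    exact Finset.sum_congr rfl fun i _ => by rw [hΛE]; ring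

end Pool.Agent.Helper58K9.QT
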