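import Mathlib
import Pool.Agent.Helper58K9.QT.Defs

/-!
# [NORM] Normalised valuations; restriction to a subfield
-/

set_option autoImplicit false

namespace Pool.Agent.Helper58K9.QT

open Pool.Agent.H436R3.Fol

/-- the image of `o` on `K \ {0}` is a nonzero subgroup `k ℤ` of `ℤ` -/
theorem exists_normalize {K : Type} [Field K] [Algebra ℂ K] (o : K → ℤ)
    (map_mul : ∀ f g, f ≠ 0 → g ≠ 0 → o (f * g) = o f + o g)
    (map_add : ∀ f g, f ≠ 0 → g ≠ 0 → f + g ≠ 0 → min (o f) (o g) ≤ o (f + g))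
    (const : ∀ c : ℂ, c ≠ 0 → o (algebraMap ℂ K c) = 0) (hne : ∃ f, f ≠ 0 ∧ o f ≠ 0) :
    ∃ (w : DVal K) (k : ℤ), 0 < k ∧ ∀ f, f ≠ 0 → o f = k * w.ord f := by
  have h1 : o 1 = 0 := by
    have := map_mul 1 1 one_ne_zero one_ne_zero
    rw [mul_one] at this
    omega
  have hinv : ∀ f, f ≠ 0 → o f⁻¹ = -o f := by
    intro f hf
    have := map_mul f f⁻¹ hf (inv_ne_zero hf)
    rw [mul_inv_cancel₀ hf, h1] at this
    omega
  let H : AddSubgroup ℤ :=
    { carrier := {z | ∃ f, f ≠ 0 ∧ o f = z}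
      zero_mem' := ⟨1, one_ne_zero, h1⟩
      add_mem' := by
        rintro _ _ ⟨f, hf, rfl⟩ ⟨g, hg, rfl⟩
        exact ⟨f * g, mul_ne_zero hf hg, map_mul f g hf hg⟩
      neg_mem' := by
        rintro _ ⟨f, hf, rfl⟩
        exact ⟨f⁻¹, inv_ne_zero hf, hinv f hf⟩ }
  obtain ⟨a, ha⟩ := Int.subgroup_cyclic H
  have hmem : ∀ f, f ≠ 0 → a ∣ o f := by
    intro f hf
    have h2 : o f ∈ H := ⟨f, hf, rfl⟩
    rw [ha, AddSubgroup.mem_closure_singleton] at h2
    obtain ⟨z, hz⟩ := h2
    exact ⟨z, by rw [← hz, smul_eq_mul, mul_comm]⟩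
  have ha' : a ∈ H := by
    rw [ha]
    exact AddSubgroup.subset_closure (Set.mem_singleton a)
  obtain ⟨f0, hf0, hof0⟩ := hne
  have ha0 : a ≠ 0 := by
    rintro rfl
    exact hof0 (zero_dvd_iff.1 (hmem f0 hf0))
  have hk0 : 0 < |a| := abs_pos.2 ha0
  have hk : ∀ f, f ≠ 0 → |a| ∣ o f := fun f hf => (abs_dvd a _).2 (hmem f hf)
  obtain ⟨g, hg, hog⟩ : ∃ g, g ≠ 0 ∧ o g = |a| := by
    have h2 : |a| ∈ H := by
      rcases abs_choice a with h | h
      · rw [h]; exact ha'
      · rw [h]; exact H.neg_mem ha'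
    exact h2
  refine ⟨⟨fun f => o f / |a|, ?_, ?_, ⟨g, hg, ?_⟩, ?_⟩, |a|, hk0, ?_⟩
  · intro f g hf hg
    change o (f * g) / |a| = o f / |a| + o g / |a|
    rw [map_mul f g hf hg, Int.add_ediv_of_dvd_left (hk f hf)]
  · intro f g hf hg hfg
    change min (o f / |a|) (o g / |a|) ≤ o (f + g) / |a|
    rcases min_le_iff.1 (map_add f g hf hg hfg) with h | h
    · exact (min_le_left _ _).trans (Int.ediv_le_ediv hk0 h)
    · exact (min_le_right _ _).trans (Int.ediv_le_ediv hk0 h)
  · change o g / |a| = 1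
    rw [hog]
    exact Int.ediv_self hk0.ne'
  · intro c hc
    change o _ / |a| = 0
    rw [const c hc]
    simp
  · intro f hf
    change o f = |a| * (o f / |a|)
    exact (Int.mul_ediv_cancel' (hk f hf)).symm

/-- elements which are integral over the valuation ring are regular -/
theorem reg_of_integral {L K : Type} [Field L] [Field K] [Algebra ℂ K] [Algebra L K]
    (w : DVal K) (h : ∀ f : L, w.Reg (algebraMap L K f)) {x : K} (hx : IsIntegral L x) :
    w.Reg x := by
  let V : ValuationSubring K :=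
    { w.O with
      mem_or_inv_mem' := by
        intro f
        by_cases hf : f = 0
        · left; left; exact hf
        · rcases le_total 0 (w.ord f) with h1 | h1
          · left; right; exact h1
          · right; right; rw [w.ord_inv hf]; omega }
  have hV : ∀ f, f ∈ V ↔ w.Reg f := fun f => Iff.rfl
  let φ : L →+* V := (algebraMap L K).codRestrict V.toSubring fun f => (hV _).2 (h f)
  have h1 : IsIntegral V x := by
    obtain ⟨p, hp, hp0⟩ := hx
    refine ⟨p.map φ, hp.map φ, ?_⟩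
    rw [Polynomial.eval₂_map]
    exact hp0
  obtain ⟨y, hy⟩ := (IsIntegrallyClosed.isIntegral_iff (R := V) (K := K)).1 h1
  rw [← hy]
  exact (hV _).1 y.2

/-- every valuation of an algebraic extension `K` of `L` lies over a valuation of `L` -/
theorem exists_restrict {L K : Type} [Field L] [Algebra ℂ L] [Field K] [Algebra ℂ K] [Algebra L K]
    [IsScalarTower ℂ L K] [Algebra.IsAlgebraic L K] (w : DVal K) :
    ∃ (v : DVal L) (e : ℤ), Over w v e := by
  have hinj : ∀ f : L, f ≠ 0 → algebraMap L K f ≠ 0 := fun f hf => (map_ne_zero _).2 hf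
  have hne : ∃ f : L, f ≠ 0 ∧ w.ord (algebraMap L K f) ≠ 0 := by
    by_contra hcon
    push Not at hcon
    have h1 : ∀ f : L, w.Reg (algebraMap L K f) := by
      intro f
      by_cases hf : f = 0
      · left; rw [hf, map_zero]
      · right; rw [hcon f hf]
    obtain ⟨g, hg, hg1⟩ := w.surj
    have h2 : w.Reg g⁻¹ := reg_of_integral w h1 (Algebra.IsIntegral.isIntegral g⁻¹)
    rcases h2 with h2 | h2
    · exact inv_ne_zero hg h2
    · rw [w.ord_inv hg] at h2
      omega
  obtain ⟨v, k, hk, hv⟩ := exists_normalize (fun f : L => w.ord (algebraMap L K f))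
    (fun f g hf hg => by
      change w.ord (algebraMap L K (f * g)) = _
      rw [map_mul, w.map_mul _ _ (hinj f hf) (hinj g hg)])
    (fun f g hf hg hfg => by
      change _ ≤ w.ord (algebraMap L K (f + g))
      rw [map_add]
      exact w.map_add _ _ (hinj f hf) (hinj g hg) (by rw [← map_add]; exact hinj _ hfg))
    (fun c hc => by
      change w.ord (algebraMap L K (algebraMap ℂ L c)) = 0
      rw [← IsScalarTower.algebraMap_apply]
      exact w.const c hc) hne
  exact ⟨v, k, hk, hv⟩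

end Pool.Agent.Helper58K9.QT
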