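import Mathlib
import Pool.Agent.Helper58K9.QT.Defs

/-!
# [TAU] Extension of characters
-/

set_option autoImplicit false

namespace Pool.Agent.Helper58K9.QT

open Pool.Agent.TH165.ACC

/-- The group `ℂˣ` (written additively) is an injective abelian group. -/
theorem injective_units : Module.Injective ℤ (Additive ℂˣ) := by
  have surj : ∀ {n : ℕ}, n ≠ 0 → Function.Surjective (fun a : Additive ℂˣ => n • a) := by
    intro n hn a
    obtain ⟨z, hz⟩ := IsAlgClosed.exists_pow_nat_eq ((Additive.toMul a : ℂˣ) : ℂ)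
      (Nat.pos_of_ne_zero hn)
    have hz0 : z ≠ 0 := by
      intro h
      rw [h, zero_pow hn] at hz
      exact (Additive.toMul a).ne_zero hz.symm
    refine ⟨Additive.ofMul (Units.mk0 z hz0), ?_⟩
    apply Additive.toMul.injective
    rw [toMul_nsmul]
    ext
    rw [Units.val_pow_eq_pow_val]
    exact hz
  let i1 : DivisibleBy (Additive ℂˣ) ℕ := divisibleByOfSMulRightSurj _ _ surj
  let i2 : DivisibleBy (Additive ℂˣ) ℤ := AddGroup.divisibleByIntOfDivisibleByNat _
  exact (Module.Baer.of_divisible (Additive ℂˣ)).injective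

/-- Proof: the formula defines `τ` on the subgroup of the vectors `A m - m`, and the group `ℂˣ` is
divisible, so that the character extends to `ℤ^n`. -/
theorem exists_tau {n : ℕ} (A : Matrix (Fin n) (Fin n) ℤ) {c : (Fin n → ℤ) → ℂ}
    (hc0 : ∀ m, c m ≠ 0) (hc : ∀ m m', c (m + m') = c m * c m') {ζ : ℂ} (hζ : ζ ≠ 0)
    {W0 : Fin n → ℤ} (h : ∀ m m', A.mulVec m - m = A.mulVec m' - m' →
      c m * ζ ^ (-pr m W0) = c m' * ζ ^ (-pr m' W0)) :
    ∃ τ : (Fin n → ℤ) → ℂ, (∀ m, τ m ≠ 0) ∧ (∀ m m', τ (m + m') = τ m * τ m') ∧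
      ∀ m, c m * τ (A.mulVec m) = τ m * ζ ^ pr m W0 := by
  classical
  have hinj := injective_units
  let f : (Fin n → ℤ) →ₗ[ℤ] (Fin n → ℤ) := A.mulVecLin - LinearMap.id
  have hf : ∀ m, f m = A.mulVec m - m := fun m => rfl
  have hc00 : c 0 = 1 := by
    have h1 := hc 0 0
    rw [add_zero] at h1
    exact mul_left_cancel₀ (hc0 0) (by rw [← h1, mul_one])
  -- the character `c m * ζ ^ (-pr m W0)`
  let k : (Fin n → ℤ) → ℂˣ := fun m =>
    Units.mk0 (c m * ζ ^ (-pr m W0)) (mul_ne_zero (hc0 m) (zpow_ne_zero _ hζ))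
  have hk : ∀ m, ((k m : ℂˣ) : ℂ) = c m * ζ ^ (-pr m W0) := fun m => rfl
  have hkadd : ∀ m m', k (m + m') = k m * k m' := by
    intro m m'
    ext
    rw [Units.val_mul, hk, hk, hk, hc, pr_add, neg_add, zpow_add₀ hζ]
    ring
  have hk0 : k 0 = 1 := by
    ext
    rw [hk, hc00, pr_zero, neg_zero, zpow_zero, mul_one, Units.val_one]
  let g0 : (Fin n → ℤ) →ₗ[ℤ] Additive ℂˣ := AddMonoidHom.toIntLinearMap
    { toFun := fun m => Additive.ofMul (k m)⁻¹
      map_zero' := by rw [hk0, inv_one, ofMul_one]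
      map_add' := by
        intro m m'
        rw [hkadd, mul_inv, ofMul_mul] }
  have hg0 : ∀ m, g0 m = Additive.ofMul (k m)⁻¹ := fun m => rfl
  have hker : LinearMap.ker f ≤ LinearMap.ker g0 := by
    intro m hm
    rw [LinearMap.mem_ker, hf] at hm
    rw [LinearMap.mem_ker, hg0]
    have h1 := h m 0 (by rw [hm, Matrix.mulVec_zero, sub_zero])
    have h2 : k m = 1 := by
      rw [← hk0]
      ext
      rw [hk, hk, h1]
    rw [h2, inv_one, ofMul_one]
  let g : LinearMap.range f →ₗ[ℤ] Additive ℂˣ :=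
    (LinearMap.ker f).liftQ g0 hker ∘ₗ f.quotKerEquivRange.symm.toLinearMap
  have hg : ∀ m, g ⟨f m, LinearMap.mem_range_self f m⟩ = g0 m := by
    intro m
    have h1 : f.quotKerEquivRange.symm ⟨f m, LinearMap.mem_range_self f m⟩
        = (LinearMap.ker f).mkQ m := by
      rw [LinearEquiv.symm_apply_eq]
      rfl
    change (LinearMap.ker f).liftQ g0 hker (f.quotKerEquivRange.symm _) = _
    rw [h1]
    rfl
  obtain ⟨t, ht⟩ := hinj.out (LinearMap.range f).subtype (Submodule.subtype_injective _) g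
  refine ⟨fun m => ((Additive.toMul (t m) : ℂˣ) : ℂ), fun m => Units.ne_zero _, fun m m' => ?_,
    fun m => ?_⟩
  · change ((Additive.toMul (t (m + m')) : ℂˣ) : ℂ) = _
    rw [map_add, toMul_add, Units.val_mul]
  · have h1 : t (A.mulVec m) = t m + g0 m := by
      rw [← hg m, ← ht, ← map_add]
      congr 1
      change A.mulVec m = m + f m
      rw [hf]
      abel
    have h2 : c m * ((k m)⁻¹ : ℂˣ) = ζ ^ pr m W0 := by
      rw [Units.val_inv_eq_inv_val, hk, mul_inv, ← mul_assoc, mul_inv_cancel₀ (hc0 m), one_mul,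
        zpow_neg, inv_inv]
    change c m * ((Additive.toMul (t (A.mulVec m)) : ℂˣ) : ℂ)
      = ((Additive.toMul (t m) : ℂˣ) : ℂ) * ζ ^ pr m W0
    rw [h1, hg0, toMul_add, toMul_ofMul, Units.val_mul, ← h2]
    ring

end Pool.Agent.Helper58K9.QT
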