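import Mathlib
import Pool.Agent.Helper58K9.QT.Expo
import Pool.Agent.Helper58K9.QT.Laurent
import Pool.Agent.Helper58K9.QT.Tau
import Pool.Agent.Helper58K9.QT.Rank
import Pool.Agent.Helper58K9.QT.TorRes
import Pool.Agent.Helper58K9.QT.ThE

/-!
# [THETA] Valuations adapted to an automorphism of finite order
-/

set_option autoImplicit false

namespace Pool.Agent.Helper58K9.QT

open Pool.Agent.H436R3.Fol Pool.Agent.H436R3.KT Pool.Agent.W497.Mld Pool.Agent.TH165.ACC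
  MvPolynomial

variable {k s r : ℕ} {K : Type} [Field K] [Algebra ℂ K]
  [Algebra (MvPolynomial (Fin (k + 1)) ℂ) K] [IsFractionRing (MvPolynomial (Fin (k + 1)) ℂ) K]
  [IsScalarTower ℂ (MvPolynomial (Fin (k + 1)) ℂ) K]

/-- replace the exponent `j` by a natural number -/
theorem exists_nat_exp {ζ : ℂ} {r : ℕ} (hr : 0 < r) (hζ : ζ ^ r = 1) (j : ℤ) :
    ∃ jn : ℕ, ∀ x : ℤ, ζ ^ (j * x) = ζ ^ ((jn : ℤ) * x) := by
  have hζ0 : ζ ≠ 0 := by
    rintro rfl
    rw [zero_pow hr.ne'] at hζ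
    exact zero_ne_one hζ
  have hr' : (r : ℤ) ≠ 0 := by exact_mod_cast hr.ne'
  refine ⟨(j % r).toNat, fun x => ?_⟩
  rw [Int.toNat_of_nonneg (Int.emod_nonneg _ hr')]
  have h1 : j * x = (r : ℤ) * (j / r * x) + j % r * x := by
    have := Int.mul_ediv_add_emod j r
    calc j * x = (r * (j / r) + j % r) * x := by rw [this]
      _ = _ := by ring
  rw [h1, zpow_add₀ hζ0, zpow_mul, zpow_natCast, hζ, one_zpow, one_mul]

/-- Proof. `Ω = FractionRing (MvPolynomial (Fin (k + 1 + s)) ℂ)`, with coordinates `x_1, ..., b_1, ...`;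
`Θ : K → Ω((t))` maps the monomial `x^m` to
`τ m * ym Ω (∑_(j < r) A^j m, 0) * t^(W m) * ∏_i EE (V i) (Q_(κ i) m * b_i)`, with `τ` from
`exists_tau`. It intertwines the derivation `x^m ↦ Q_l m x^m` of `K` with `(1 / r)` times the
coefficientwise derivation `Q_l` if `η l = 1`, and with `t ^ (-V i) ∂_(b_i)` if `l = κ i`; this
shows that `Θ` is injective on polynomials. `Θ (γ^j f) = S_ζ (Θ f)` with the rotation `S_ζ`, so the
order of `Θ f` is divisible by `r` if `γ f = f`. By `log_trunc` there are linear combinations `f_i`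
of truncated logarithms of the `c m ζ^(-W0 m) x^(A m - m)` with `Θ f_i = b_i t^(V i) + ...`, and the
products `x^(μ i) ∏ f^(l i)` of `exists_rank` have the leading coefficients
`const * ym Ω (∑ A^j μ, l)`, `ym_ind`. -/
theorem exists_theta {A : Matrix (Fin (k + 1)) (Fin (k + 1)) ℤ}
    {P Q : Matrix (Fin (k + 1)) (Fin (k + 1)) ℂ} {η : Fin (k + 1) → ℂ} {κ : Fin s → Fin (k + 1)}
    (hd : IsDiag r A P Q η κ) {c : (Fin (k + 1) → ℤ) → ℂ} (hc0 : ∀ m, c m ≠ 0)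
    (hc : ∀ m m', c (m + m') = c m * c m') {γ : K ≃ₐ[ℂ] K} (hγr : γ ^ r = 1)
    (hγ : ∀ m, γ (ym K m) = algebraMap ℂ K (c m) * ym K (A.mulVec m)) {ζ : ℂ}
    (hζ : IsPrimitiveRoot ζ r) {W0 : Fin (k + 1) → ℤ} (hW0 : Matrix.vecMul W0 A = W0)
    (hτ : ∀ m m', A.mulVec m - m = A.mulVec m' - m' →
      c m * ζ ^ (-pr m W0) = c m' * ζ ^ (-pr m' W0))
    {V0 : Fin s → ℤ} (hV0 : ∀ i, ζ ^ V0 i = η (κ i))
    (j : ℤ) {W : Fin (k + 1) → ℤ} (hW : Matrix.vecMul W A = W) {V : Fin s → ℤ}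
    (hV : ∀ i, 0 < V i) (hWj : ∀ m, ζ ^ pr m W = ζ ^ (j * pr m W0))
    (hVj : ∀ i, ζ ^ V i = ζ ^ (j * V0 i)) :
    ∃ (o : K → ℤ) (f : Fin s → K),
      (∀ a b, a ≠ 0 → b ≠ 0 → o (a * b) = o a + o b) ∧
      (∀ a b, a ≠ 0 → b ≠ 0 → a + b ≠ 0 → min (o a) (o b) ≤ o (a + b)) ∧
      (∀ a : ℂ, a ≠ 0 → o (algebraMap ℂ K a) = 0) ∧
      (∀ m, o (ym K m) = pr m W) ∧
      (∀ i, f i ≠ 0 ∧ o (f i) = V i) ∧
      (∀ a, a ≠ 0 → γ a = a → (r : ℤ) ∣ o a) ∧
      (∀ l, η l = 1 → ∀ a, a ≠ 0 →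
        (∑ m, algebraMap ℂ K (Q l m) • tor K m : Derivation ℂ K K) a ≠ 0 →
        o a ≤ o ((∑ m, algebraMap ℂ K (Q l m) • tor K m : Derivation ℂ K K) a)) ∧
      (∀ i, ∀ a, a ≠ 0 →
        (∑ m, algebraMap ℂ K (Q (κ i) m) • tor K m : Derivation ℂ K K) a ≠ 0 →
        o a ≤ o ((∑ m, algebraMap ℂ K (Q (κ i) m) • tor K m : Derivation ℂ K K) a) + V i) ∧
      ∃ y : Fin k → K, ∀ p : MvPolynomial (Fin k) ℂ, p ≠ 0 →
        aeval y p ≠ 0 ∧ o (aeval y p) = 0 := by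
  classical
  have hζ0 : ζ ≠ 0 := hζ.ne_zero hd.pos.ne'
  obtain ⟨jn, hjn⟩ := exists_nat_exp hd.pos hζ.pow_eq_one j
  obtain ⟨τ, hτ0, hτa, hττ⟩ := exists_tau A hc0 hc hζ0 hτ
  let Ω : Type := FractionRing (MvPolynomial (Fin (k + 1 + s)) ℂ)
  let Φ : (Fin (k + 1) → ℤ) → LaurentSeries Ω := fun m =>
    ThC.Phi Ω r A Q κ W V (τ m) (fun _ => 1) m
  have hΦ : ∀ m m', Φ (m + m') = Φ m * Φ m' := by
    intro m m'
    change ThC.Phi Ω r A Q κ W V (τ (m + m')) (fun _ => 1) (m + m') = _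
    rw [hτa]
    exact ThC.Phi_add hV _ _ _ _ _
  have hΦ0 : ∀ m, Φ m ≠ 0 := fun m => ThC.Phi_ne hV (hτ0 m) _ m
  have hE := fun l => ThD.exists_E (Ω := Ω) (W := W) hd hV l
  choose E hE1 hE2 hE3 using hE
  obtain ⟨Θ, hΘ, hΘD⟩ := ThA.exists_Th (K := K) hΦ hΦ0 hd.PQ (E := E) (fun l m => hE1 l _ m)
  have hinj : ∀ a, a ≠ 0 → Θ a ≠ 0 := fun a ha =>
    (map_ne_zero_iff _ Θ.toRingHom.injective).mpr ha
  have hf := fun i => ThE.exists_f hd hW hV hτ0 hτa hττ hζ0 hΘ i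
  choose f hf using hf
  have hbb : ∀ i : Fin s, ThC.bb (k + 1) Ω i ≠ 0 := fun i => cv_ne _
  refine ⟨fun a => (Θ a).order, f, ?_, ?_, ?_, ?_, ?_, ?_, ?_, ?_, ?_⟩
  · intro a b ha hb
    change (Θ (a * b)).order = (Θ a).order + (Θ b).order
    rw [map_mul, HahnSeries.order_mul (hinj a ha) (hinj b hb)]
  · intro a b ha hb hab
    change min (Θ a).order (Θ b).order ≤ (Θ (a + b)).order
    rw [map_add]
    apply HahnSeries.min_order_le_order_add
    rw [← map_add]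
    exact hinj _ hab
  · intro a ha
    change (Θ (algebraMap ℂ K a)).order = 0
    rw [AlgHom.commutes, HahnSeries.algebraMap_apply', PowerSeries.algebraMap_apply,
      HahnSeries.ofPowerSeries_C, HahnSeries.C_apply, HahnSeries.order_single]
    exact (map_ne_zero _).mpr ha
  · intro m
    change (Θ (ym K m)).order = pr m W
    rw [hΘ]
    exact (ThC.Phi_lead hV (τ m) _ m).order (ThC.lc_ne (hτ0 m) m)
  · intro i
    refine ⟨?_, (hf i).order (hbb i)⟩
    intro h0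
    have := (hf i).ne_zero (hbb i)
    rw [h0, map_zero] at this
    exact this rfl
  · intro a ha hγa
    change (r : ℤ) ∣ (Θ a).order
    obtain ⟨S, hS⟩ := exists_rot (Ω := Ω) (ζ := algebraMap ℂ Ω ζ) ((map_ne_zero _).mpr hζ0)
    have h1 : ∀ j : ℕ, (γ ^ j) a = a := by
      intro j
      induction j with
      | zero => rfl
      | succ j ih => rw [pow_succ, AlgEquiv.mul_apply, hγa, ih]
    have h2 := ThE.rot_eq hd hW hV hγ hW0 hττ hζ0 hΘ jn
      (fun m => by rw [hWj, hjn]) (fun i => by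
        rw [hVj, hjn, mul_comm, zpow_mul, hV0, zpow_natCast]) hS a
    rw [h1] at h2
    have h3 : (Θ a).coeff (Θ a).order ≠ 0 := mt HahnSeries.coeff_order_eq_zero.mp (hinj a ha)
    have h4 : (algebraMap ℂ Ω ζ) ^ (Θ a).order * (Θ a).coeff (Θ a).order =
        (Θ a).coeff (Θ a).order := by
      rw [← hS, h2]
    have h5 : (algebraMap ℂ Ω ζ) ^ (Θ a).order = 1 := by
      apply mul_right_cancel₀ h3
      rw [h4, one_mul]
    rw [← map_zpow₀] at h5
    have h6 : ζ ^ (Θ a).order = 1 := (algebraMap ℂ Ω).injective (by rw [h5, map_one])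
    exact (hζ.zpow_eq_one_iff_dvd _).mp h6
  · intro l hl a ha h0
    change (Θ a).order ≤ (Θ _).order
    rw [hΘD]
    apply hE2 l hl
    rw [← hΘD]
    exact hinj _ h0
  · intro i a ha h0
    change (Θ a).order ≤ (Θ _).order + V i
    rw [hΘD]
    apply hE3 (κ i) i rfl
    rw [← hΘD]
    exact hinj _ h0
  · obtain ⟨μ, l, hμ1, hμ2⟩ := exists_rank hd hW V
    have hΘf : ∀ i, f i ≠ 0 := by
      intro i h0
      have := (hf i).ne_zero (hbb i)
      rw [h0, map_zero] at this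
      exact this rfl
    refine ⟨fun a => ym K (μ a) * ∏ i, f i ^ l a i, fun p hp => ?_⟩
    have hL : ∀ a, ThB.Lead (Θ (ym K (μ a) * ∏ i, f i ^ l a i)) 0
        (algebraMap ℂ Ω (τ (μ a)) *
          ym Ω (Fin.append (∑ j ∈ Finset.range r, (A ^ j).mulVec (μ a)) (l a))) := by
      intro a
      rw [map_mul, map_prod, hΘ]
      have h1 := (ThC.Phi_lead (Ω := Ω) (r := r) (A := A) (Q := Q) (κ := κ) (W := W) hV
        (τ (μ a)) (fun _ => 1) (μ a)).mul
        (ThB.Lead.prod Finset.univ (F := fun i => Θ (f i ^ l a i))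
          (v := fun i => l a i * V i) (u := fun i => ThC.bb (k + 1) Ω i ^ l a i) (fun i _ => by
            change ThB.Lead (Θ (f i ^ l a i)) _ _
            rw [map_zpow₀]
            exact (hf i).zpow (hbb i) _))
      have h2 : pr (μ a) W + ∑ i, l a i * V i = 0 := hμ1 a
      rw [h2] at h1
      convert h1 using 1
      rw [mul_assoc, ThE.base_mul]
    have hA := ThB.Lead.aeval hL p
    have hne := ym_ind (K := Ω) hμ2 (fun a => hτ0 (μ a)) hp
    have h3 : Θ (aeval (fun a => ym K (μ a) * ∏ i, f i ^ l a i) p) =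
        aeval (fun a => Θ (ym K (μ a) * ∏ i, f i ^ l a i)) p := by
      rw [← AlgHom.comp_apply, comp_aeval]
    rw [← h3] at hA
    refine ⟨?_, hA.order hne⟩
    intro h0
    have := hA.ne_zero hne
    rw [h0, map_zero] at this
    exact this rfl

end Pool.Agent.Helper58K9.QT
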