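import Mathlib
import Pool.Agent.Helper58K9.QT.Defs

/-!
# [TORB] Monomial automorphisms, centres
-/

set_option autoImplicit false

namespace Pool.Agent.Helper58K9.QT

open Pool.Agent.H436R3.Fol Pool.Agent.H436R3.KT Pool.Agent.W497.Mld Pool.Agent.TH165.ACC
  MvPolynomial

variable {n : ℕ} {K : Type} [Field K] [Algebra ℂ K]
  [Algebra (MvPolynomial (Fin n) ℂ) K] [IsFractionRing (MvPolynomial (Fin n) ℂ) K]
  [IsScalarTower ℂ (MvPolynomial (Fin n) ℂ) K]

namespace TAct

theorem pr_vecMul (m u : Fin n → ℤ) (A : Matrix (Fin n) (Fin n) ℤ) :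
    pr m (Matrix.vecMul u A) = pr (A.mulVec m) u := by
  change m ⬝ᵥ (Matrix.vecMul u A) = (A.mulVec m) ⬝ᵥ u
  rw [dotProduct_comm m, ← Matrix.dotProduct_mulVec, dotProduct_comm]

theorem ym_single (i : Fin n) : ym K (Pi.single i 1 : Fin n → ℤ) = cv K i := by
  rw [ym, Finset.prod_eq_single i]
  · simp
  · intro j _ hj
    rw [Pi.single_eq_of_ne hj, zpow_zero]
  · intro h
    exact absurd (Finset.mem_univ _) h

/-- a Laurent monomial determines its exponent and its coefficient -/
theorem ym_uniq {m m' : Fin n → ℤ} {c c' : ℂ} (hc : c ≠ 0)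
    (h : algebraMap ℂ K c * ym K m = algebraMap ℂ K c' * ym K m') : m = m' ∧ c = c' := by
  obtain ⟨s, t, rfl⟩ := exists_nat_ex m
  obtain ⟨s', t', rfl⟩ := exists_nat_ex m'
  have h1 : algebraMap ℂ K c * ym K (ex (s + t')) = algebraMap ℂ K c' * ym K (ex (s' + t)) := by
    have e1 : ex (s + t') = (ex s - ex t) + (ex t + ex t') := by rw [ex_add]; abel
    have e2 : ex (s' + t) = (ex s' - ex t') + (ex t + ex t') := by rw [ex_add]; abel
    rw [e1, e2, ym_add, ym_add (ex s' - ex t'), ← mul_assoc, ← mul_assoc, h]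
  rw [← jo_monomial, ← jo_monomial] at h1
  have h2 := jo_inj h1
  rw [monomial_eq_monomial_iff] at h2
  rcases h2 with ⟨h2, h3⟩ | ⟨h2, -⟩
  · refine ⟨?_, h3⟩
    have h4 := congrArg Pool.Agent.TH165.ACC.ex h2
    rw [ex_add, ex_add] at h4
    rw [sub_eq_sub_iff_add_eq_add]
    exact h4
  · exact absurd h2 hc

end TAct

open TAct in
/-- [MONG] Monomial automorphisms preserve monomial valuations. -/
theorem isMonomial_comap {w : DVal K} (hw : IsMonomial n w) {γ : K ≃ₐ[ℂ] K}
    {A A' : Matrix (Fin n) (Fin n) ℤ} (hA : A * A' = 1) (hA' : A' * A = 1) {c : (Fin n → ℤ) → ℂ}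
    (hc : ∀ m, c m ≠ 0) (hγ : ∀ m, γ (ym K m) = algebraMap ℂ K (c m) * ym K (A.mulVec m)) :
    IsMonomial n (comap w γ) ∧ (tv (comap w γ) : Fin n → ℤ) = Matrix.vecMul (tv w) A := by
  classical
  have hord : ∀ m, w.ord (γ (ym K m)) = pr (A.mulVec m) (tv w) := by
    intro m
    rw [hγ, w.map_mul _ _ ((map_ne_zero _).2 (hc m)) (ym_ne _), w.const _ (hc m), zero_add, ord_ym]
  have htv : (tv (comap w γ) : Fin n → ℤ) = Matrix.vecMul (tv w) A := by
    funext i
    have h1 : (tv (comap w γ) : Fin n → ℤ) i = w.ord (γ (ym K (Pi.single i 1 : Fin n → ℤ))) := by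
      rw [ym_single]; rfl
    rw [h1, hord, ← pr_vecMul]
    rw [pr, Finset.sum_eq_single i]
    · simp
    · intro j _ hj
      rw [Pi.single_eq_of_ne hj, zero_mul]
    · intro h
      exact absurd (Finset.mem_univ _) h
  refine ⟨?_, htv⟩
  intro p hp
  -- shift the exponents
  let M : Fin n →₀ ℕ := Finsupp.equivFunOnFinite.symm fun i =>
    ∑ s ∈ p.support, ((A.mulVec (ex s)) i).natAbs
  have hM : ∀ s ∈ p.support, ∀ i, 0 ≤ (A.mulVec (ex s)) i + ex M i := by
    intro s hs i
    have h1 : ((A.mulVec (ex s)) i).natAbs ≤ M i := by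
      simp only [M, Finsupp.equivFunOnFinite_symm_apply_apply]
      exact Finset.single_le_sum (f := fun s => ((A.mulVec (ex s)) i).natAbs)
        (fun _ _ => Nat.zero_le _) hs
    have h2 : ex M i = (M i : ℤ) := rfl
    rw [h2]
    omega
  let t : (Fin n →₀ ℕ) → (Fin n →₀ ℕ) := fun s => Finsupp.equivFunOnFinite.symm fun i =>
    ((A.mulVec (ex s)) i + ex M i).toNat
  have ht : ∀ s ∈ p.support, ex (t s) = A.mulVec (ex s) + ex M := by
    intro s hs
    funext i
    have h1 : Pool.Agent.TH165.ACC.ex (t s) i = ((A.mulVec (Pool.Agent.TH165.ACC.ex s) i + Pool.Agent.TH165.ACC.ex M i).toNat : ℤ) := rfl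
    rw [h1, Pi.add_apply]
    exact Int.toNat_of_nonneg (hM s hs i)
  have hinj : ∀ s ∈ p.support, ∀ s' ∈ p.support, t s = t s' → s = s' := by
    intro s hs s' hs' h
    have h1 := ht s hs
    rw [h, ht s' hs'] at h1
    have h2 : A.mulVec (ex s') = A.mulVec (ex s) := add_right_cancel h1
    have h3 := congrArg A'.mulVec h2
    rw [Matrix.mulVec_mulVec, Matrix.mulVec_mulVec, hA', Matrix.one_mulVec, Matrix.one_mulVec] at h3
    exact (ex_inj h3).symm
  let q : MvPolynomial (Fin n) ℂ := ∑ s ∈ p.support, monomial (t s) (p.coeff s * c (ex s))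
  have hq : γ (jo (Fin n) K p) * ym K (ex M) = jo (Fin n) K q := by
    rw [jo_eq_sum p, map_sum, Finset.sum_mul]
    simp only [q]
    rw [map_sum]
    refine Finset.sum_congr rfl fun s hs => ?_
    rw [map_mul, AlgEquiv.commutes, hγ, jo_monomial, ht s hs, ym_add, map_mul]
    ring
  have hcoef : ∀ s ∈ p.support, q.coeff (t s) = p.coeff s * c (ex s) := by
    intro s hs
    simp only [q]
    rw [coeff_sum, Finset.sum_eq_single s]
    · rw [coeff_monomial, if_pos rfl]
    · intro s' hs' hne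
      rw [coeff_monomial, if_neg]
      intro h
      exact hne (hinj s' hs' s hs h)
    · intro h
      exact absurd hs h
  have hsup : ∀ r ∈ q.support, ∃ s ∈ p.support, t s = r := by
    intro r hr
    by_contra hcon
    push Not at hcon
    rw [mem_support_iff] at hr
    apply hr
    simp only [q]
    rw [coeff_sum]
    refine Finset.sum_eq_zero fun s hs => ?_
    rw [coeff_monomial, if_neg (hcon s hs)]
  have hsup' : ∀ s ∈ p.support, t s ∈ q.support := by
    intro s hs
    rw [mem_support_iff, hcoef s hs]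
    exact mul_ne_zero (mem_support_iff.1 hs) (hc _)
  have hq0 : q ≠ 0 := by
    obtain ⟨s, hs⟩ := support_nonempty.2 hp
    rintro h0
    have := hsup' s hs
    rw [h0] at this
    simp at this
  have hjp : γ (jo (Fin n) K p) ≠ 0 := (map_ne_zero_iff γ γ.injective).2 (jo_ne hp)
  have hord2 : w.ord (jo (Fin n) K q) = w.ord (γ (jo (Fin n) K p)) + pr (ex M) (tv w) := by
    rw [← hq, w.map_mul _ _ hjp (ym_ne _), ord_ym]
  have hpr : ∀ s ∈ p.support, pr (ex (t s)) (tv w) =
      pr (ex s) (tv (comap w γ)) + pr (ex M) (tv w) := by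
    intro s hs
    rw [ht s hs, pr_add, htv, pr_vecMul]
  have hcm : (comap w γ).ord (jo (Fin n) K p) = w.ord (γ (jo (Fin n) K p)) := rfl
  obtain ⟨⟨r, hr, hr1⟩, h2⟩ := hw q hq0
  constructor
  · obtain ⟨s, hs, rfl⟩ := hsup r hr
    refine ⟨s, hs, ?_⟩
    rw [hpr s hs, hord2] at hr1
    rw [hcm]
    omega
  · intro s hs
    have h3 := h2 _ (hsup' s hs)
    rw [hpr s hs, hord2] at h3
    rw [hcm]
    omega

/-- [CENT2] the centre of a valuation whose weights are in the interior of the cone -/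
theorem center_of_inter {g : ToricGerm n K} {w : DVal K} (h : g.Inter (tv w)) (f : g.X.R) :
    w.Pos (f : K) ↔ g.P f = 0 := by
  have hmem : ∀ y, y ∈ Submodule.span ℂ (ym K '' Cn g.E) → y ∈ g.X.R := by
    intro y hy
    rw [← g.span_eq] at hy
    exact hy
  have key : ∀ x : K, x ∈ Submodule.span ℂ (ym K '' Cn g.E) → ∀ hx : x ∈ g.X.R,
      w.Pos (x - algebraMap ℂ K (g.P ⟨x, hx⟩)) := by
    intro x hx
    induction hx using Submodule.span_induction with
    | mem x hx =>
      intro hx'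
      obtain ⟨m, hm, rfl⟩ := hx
      by_cases h0 : m = 0
      · left
        have h2 : (⟨ym K m, hx'⟩ : g.X.R) = 1 := by
          apply Subtype.ext
          change ym K m = 1
          rw [h0, ym_zero]
        rw [h2, map_one, map_one, h0, ym_zero, sub_self]
      · right
        rw [g.hP _ m hm h0 rfl, map_zero, sub_zero, ord_ym]
        exact h m hm h0
    | zero =>
      intro hx'
      left
      have h2 : (⟨0, hx'⟩ : g.X.R) = 0 := rfl
      rw [h2, map_zero, map_zero, sub_zero]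
    | add x y hx hy ihx ihy =>
      intro hxy
      have h1 := w.pos_add (ihx (hmem x hx)) (ihy (hmem y hy))
      have h2 : (⟨x + y, hxy⟩ : g.X.R) = ⟨x, hmem x hx⟩ + ⟨y, hmem y hy⟩ := rfl
      rw [h2, map_add, map_add]
      convert h1 using 1
      ring
    | smul a x hx ihx =>
      intro hax
      have h1 := w.pos_mul_left (w.reg_const a) (ihx (hmem x hx))
      have h2 : (⟨a • x, hax⟩ : g.X.R) = a • ⟨x, hmem x hx⟩ := rfl
      rw [h2, map_smul, smul_eq_mul, map_mul, Algebra.smul_def, ← mul_sub]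
      exact h1
  have h1 := key f (by rw [← g.span_eq]; exact f.2) f.2
  have h3 : g.P ⟨(f : K), f.2⟩ = g.P f := rfl
  rw [h3] at h1
  constructor
  · intro h2
    by_contra h0
    have hneg : w.Pos (-((f : K) - algebraMap ℂ K (g.P f))) := by
      rcases h1 with h4 | h4
      · left; rw [h4, neg_zero]
      · by_cases h5 : (f : K) - algebraMap ℂ K (g.P f) = 0
        · left; rw [h5, neg_zero]
        · right; rw [w.ord_neg h5]; exact h4
    have h4 := w.pos_add hneg h2
    rw [neg_sub, sub_add_cancel] at h4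
    rcases h4 with h4 | h4
    · exact (map_ne_zero _).2 h0 h4
    · rw [w.const _ h0] at h4
      exact lt_irrefl _ h4
  · intro h2
    rwa [h2, map_zero, sub_zero] at h1

open TAct in
/-- [ACT] The action of an automorphism of finite order on the Laurent monomials. -/
theorem exists_action {γ : K ≃ₐ[ℂ] K} {r : ℕ} (hr : 0 < r) (hγr : γ ^ r = 1)
    (h : ∀ m : Fin n → ℤ, ∃ (c : ℂ) (m' : Fin n → ℤ), γ (ym K m) = algebraMap ℂ K c * ym K m') :
    ∃ (A : Matrix (Fin n) (Fin n) ℤ) (c : (Fin n → ℤ) → ℂ), A ^ r = 1 ∧ (∀ m, c m ≠ 0) ∧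
      (∀ m m', c (m + m') = c m * c m') ∧
      ∀ m, γ (ym K m) = algebraMap ℂ K (c m) * ym K (A.mulVec m) := by
  classical
  choose c μ hμ using h
  have hc : ∀ m, c m ≠ 0 := by
    intro m h0
    have h1 : γ (ym K m) ≠ 0 := (map_ne_zero_iff γ γ.injective).2 (ym_ne _)
    rw [hμ, h0, map_zero, zero_mul] at h1
    exact h1 rfl
  have hadd : ∀ m m', μ (m + m') = μ m + μ m' ∧ c (m + m') = c m * c m' := by
    intro m m'
    refine ym_uniq (K := K) (hc _) ?_
    rw [← hμ, ym_add, map_mul, hμ, hμ, ym_add, map_mul]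
    ring
  let φ : (Fin n → ℤ) →ₗ[ℤ] (Fin n → ℤ) :=
    (AddMonoidHom.mk' μ fun m m' => (hadd m m').1).toIntLinearMap
  have hφ : ∀ m, (LinearMap.toMatrix' φ).mulVec m = μ m := by
    intro m
    rw [LinearMap.toMatrix'_mulVec]
    rfl
  refine ⟨LinearMap.toMatrix' φ, c, ?_, hc, fun m m' => (hadd m m').2, fun m => ?_⟩
  · have hpow : ∀ (k : ℕ) (m : Fin n → ℤ), ∃ d : ℂ, d ≠ 0 ∧
        (γ ^ k) (ym K m) = algebraMap ℂ K d * ym K ((LinearMap.toMatrix' φ ^ k).mulVec m) := by
      intro k
      induction k with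
      | zero =>
        intro m
        exact ⟨1, one_ne_zero, by simp⟩
      | succ k ih =>
        intro m
        obtain ⟨d, hd, h1⟩ := ih m
        refine ⟨d * c ((LinearMap.toMatrix' φ ^ k).mulVec m), mul_ne_zero hd (hc _), ?_⟩
        rw [pow_succ', AlgEquiv.mul_apply, h1, map_mul, AlgEquiv.commutes, hμ, pow_succ',
          ← Matrix.mulVec_mulVec, hφ, map_mul]
        ring
    have hid : ∀ m : Fin n → ℤ, (LinearMap.toMatrix' φ ^ r).mulVec m = m := by
      intro m
      obtain ⟨d, hd, h1⟩ := hpow r m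
      rw [hγr, AlgEquiv.one_apply] at h1
      have h2 : algebraMap ℂ K 1 * ym K m =
          algebraMap ℂ K d * ym K ((LinearMap.toMatrix' φ ^ r).mulVec m) := by
        rw [map_one, one_mul]; exact h1
      exact (ym_uniq (K := K) one_ne_zero h2).1.symm
    ext i j
    have h2 := congrFun (hid (Pi.single j 1)) i
    rw [Matrix.mulVec_single_one] at h2
    rw [Matrix.one_apply, ← Pi.single_apply]
    exact h2
  · rw [hφ, hμ]

end Pool.Agent.Helper58K9.QT
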