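import Mathlib
import Pool.Agent.Helper58K9.QT.Basic
import Pool.Agent.Helper58K9.QT.Theta
import Pool.Agent.Helper58K9.QT.Lam
import Pool.Agent.Helper58K9.QT.Norm
import Pool.Agent.Helper58K9.QT.TorAct

/-!
# [UPPER] Upper bounds of the minimal log discrepancy
-/

set_option autoImplicit false
set_option linter.unusedSectionVars false

namespace Pool.Agent.Helper58K9.QT

open Pool.Agent.H436R3.Fol Pool.Agent.H436R3.KT Pool.Agent.W497.Mld Pool.Agent.TH165.ACC
  MvPolynomial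

section main

variable {k s r : ℕ} {L K : Type} [Field L] [Algebra ℂ L] [Field K] [Algebra ℂ K] [Algebra L K]
  [IsScalarTower ℂ L K] [Algebra (MvPolynomial (Fin (k + 1)) ℂ) K]
  [IsFractionRing (MvPolynomial (Fin (k + 1)) ℂ) K]
  [IsScalarTower ℂ (MvPolynomial (Fin (k + 1)) ℂ) K]

/-- the matrix of the logarithmic family -/
noncomputable def famF (κ : Fin s → Fin (k + 1)) (f : Fin s → K) (l : Fin (k + 1)) : K :=
  open Classical in if h : ∃ i, κ i = l then f h.choose else 1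

theorem famF_spec {κ : Fin s → Fin (k + 1)} (hκ : Function.Injective κ) (f : Fin s → K)
    (i : Fin s) : famF κ f (κ i) = f i := by
  have h : ∃ i', κ i' = κ i := ⟨i, rfl⟩
  rw [famF, dif_pos h]
  exact congrArg f (hκ h.choose_spec)

theorem famF_not {κ : Fin s → Fin (k + 1)} (f : Fin s → K) {l : Fin (k + 1)}
    (h : ¬ ∃ i, κ i = l) : famF κ f l = (1 : K) := by
  rw [famF, dif_neg h]

theorem famF_ne {κ : Fin s → Fin (k + 1)} {f : Fin s → K} (hf : ∀ i, f i ≠ 0) (l : Fin (k + 1)) :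
    famF κ f l ≠ 0 := by
  rw [famF]
  split_ifs with h
  · exact hf _
  · exact one_ne_zero

theorem famF_ord {κ : Fin s → Fin (k + 1)} (hκ : Function.Injective κ) {f : Fin s → K}
    (hf : ∀ i, f i ≠ 0) (w : DVal K) : w.ord (∏ l, famF κ f l) = ∑ i, w.ord (f i) := by
  classical
  rw [w.ord_prod _ _ fun l _ => famF_ne hf l]
  have h1 : ∑ l ∈ Finset.univ.image κ, w.ord (famF κ f l) = ∑ l, w.ord (famF κ f l) := by
    apply Finset.sum_subset (Finset.subset_univ _)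
    intro l _ hl
    rw [famF_not, w.ord_one]
    rintro ⟨i, hi⟩
    exact hl (Finset.mem_image.2 ⟨i, Finset.mem_univ _, hi⟩)
  rw [← h1, Finset.sum_image fun a _ b _ h => hκ h]
  exact Finset.sum_congr rfl fun i _ => by rw [famF_spec hκ]

theorem upper [FiniteDimensional L K] {X : AffVar L} {P : Pt X} {B : EffDiv X}
    {g : ToricGerm (k + 1) K} (hq : IsQuotient X P g.X.R g.P)
    (e : LocEq B P) {C : Matrix (Fin (k + 1)) (Fin (k + 1)) K} (hC : C.det ≠ 0)
    (ε : Fin X.d ≃ Fin (k + 1)) (hCT : ∀ (i : Fin X.d) (f : L),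
      algebraMap L K (X.T.D i f) = ∑ j, C (ε i) j * tor K j (algebraMap L K f))
    {b : Fin g.N → ℝ}
    (hlam : ∀ w : DVal K, IsOverGerm g.P w → ∀ c : Fin g.N → ℝ, (∀ i, 0 ≤ c i) →
        Coord g.E c (tv w) →
        -(w.ord C.det : ℝ) - ∑ i, e.ρ i * (w.ord (algebraMap L K (e.g i)) : ℝ) =
          ∑ i, c i * (1 - b i))
    {m : ℝ} (hm0 : 0 ≤ m) (hm : Pool.Agent.W497.Mld.IsMld e m)
    {A : Matrix (Fin (k + 1)) (Fin (k + 1)) ℤ}
    {PP Q : Matrix (Fin (k + 1)) (Fin (k + 1)) ℂ} {η : Fin (k + 1) → ℂ} {κ : Fin s → Fin (k + 1)}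
    (hd : IsDiag r A PP Q η κ) {c : (Fin (k + 1) → ℤ) → ℂ} (hc0 : ∀ m, c m ≠ 0)
    (hc : ∀ m m', c (m + m') = c m * c m') {γ : K ≃ₐ[ℂ] K} (hγr : γ ^ r = 1)
    (hγL : ∀ f : L, γ (algebraMap L K f) = algebraMap L K f)
    (hγ : ∀ m, γ (ym K m) = algebraMap ℂ K (c m) * ym K (A.mulVec m)) {ζ : ℂ}
    (hζ : IsPrimitiveRoot ζ r) {W0 : Fin (k + 1) → ℤ} (hW0 : Matrix.vecMul W0 A = W0)
    (hτ : ∀ m m', A.mulVec m - m = A.mulVec m' - m' →
      c m * ζ ^ (-pr m W0) = c m' * ζ ^ (-pr m' W0))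
    {V0 : Fin s → ℤ} (hV0 : ∀ i, ζ ^ V0 i = η (κ i))
    (j : ℤ) {W1 : Fin (k + 1) → ℤ} (hW1 : Matrix.vecMul W1 A = W1) (V1 : Fin s → ℤ)
    (hint : g.Inter (j • W0 + (r : ℤ) • W1)) (hV : ∀ i, 0 < j * V0 i + r * V1 i)
    {cc : Fin g.N → ℝ} (hcc : ∀ i, 0 ≤ cc i) (hco : Coord g.E cc (j • W0 + (r : ℤ) • W1)) :
    r * m ≤ ∑ i, cc i * (1 - b i) + ∑ i, ((j * V0 i + r * V1 i : ℤ) : ℝ) := by
  classical
  set W : Fin (k + 1) → ℤ := j • W0 + (r : ℤ) • W1 with hWd
  have hr : 0 < r := hd.pos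
  have hζr : ζ ^ r = 1 := hζ.pow_eq_one
  have hζ0 : ζ ≠ 0 := hζ.ne_zero hr.ne'
  have hW : Matrix.vecMul W A = W := by
    rw [hWd, Matrix.add_vecMul, Matrix.smul_vecMul, Matrix.smul_vecMul, hW0, hW1]
  have hζz : ∀ x : ℤ, ζ ^ ((r : ℤ) * x) = 1 := by
    intro x
    rw [zpow_mul, zpow_natCast, hζr, one_zpow]
  obtain ⟨o, f, ho1, ho2, ho3, ho4, ho5, ho6, ho7, ho8, y, hy⟩ :=
    exists_theta hd hc0 hc hγr hγ hζ hW0 hτ hV0 j hW (V := fun i => j * V0 i + r * V1 i) hV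
      (fun m => by
        rw [hWd, pr_add_right, pr_smul_right, pr_smul_right, zpow_add₀ hζ0, hζz, mul_one])
      (fun i => by rw [zpow_add₀ hζ0, hζz, mul_one])
  -- the valuation `w`
  have hWne : W ≠ 0 := ToricGerm.Inter.ne_zero (Nat.succ_pos k) hint
  obtain ⟨i0, hi0⟩ : ∃ i, W i ≠ 0 := by
    by_contra h
    push Not at h
    exact hWne (funext h)
  obtain ⟨w, k', hk', hw⟩ := exists_normalize o ho1 ho2 ho3
    ⟨ym K (Pi.single i0 1 : Fin (k + 1) → ℤ), ym_ne _, by rw [ho4, pr_single]; exact hi0⟩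
  obtain ⟨v, ev, hov⟩ := exists_restrict (L := L) w
  have hk'r : (0 : ℝ) < k' := by exact_mod_cast hk'
  have hev := hov.1
  have hevr : (0 : ℝ) < ev := by exact_mod_cast hev
  have htv : W = k' • (tv w : Fin (k + 1) → ℤ) := by
    funext i
    have h1 := hw (cv K i) (cv_ne i)
    rw [← ym_single, ho4, pr_single] at h1
    rw [h1, ym_single]
    rfl
  have hinw : g.Inter (tv w) := by
    intro μ hμ hμ0
    have h1 := hint μ hμ hμ0
    rw [htv, pr_smul_right] at h1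
    exact pos_of_mul_pos_right h1 hk'.le
  -- the inequality `r ≤ k' ev`
  have hrk : (r : ℤ) ≤ k' * ev := by
    obtain ⟨f0, hf0, h1⟩ := v.surj
    have h2 : algebraMap L K f0 ≠ 0 := (map_ne_zero _).2 hf0
    have h3 := ho6 _ h2 (hγL f0)
    rw [hw _ h2, hov.2 _ hf0, h1, mul_one] at h3
    exact Int.le_of_dvd (mul_pos hk' hev) h3
  -- centres
  have hcw : ∀ f : g.X.R, w.Pos (f : K) ↔ g.P f = 0 := fun f => center_of_inter hinw f
  have hcv : ∀ f : X.R, v.Pos (f : L) ↔ P f = 0 := by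
    intro f
    have h1 : algebraMap L K f ∈ g.X.R := (hq.quot _).1 f.2
    rw [← hov.pos_iff, ← hq.pt f ⟨_, h1⟩ rfl, ← hcw ⟨_, h1⟩]
  -- residues
  have hyw : ResInd w y := by
    intro p hp
    obtain ⟨h1, h2⟩ := hy p hp
    refine ⟨h1, ?_⟩
    rw [hw _ h1] at h2
    exact (mul_eq_zero.1 h2).resolve_left hk'.ne'
  obtain ⟨y', hy'⟩ := resInd_descend hov hyw
  obtain ⟨t, ht0, ht⟩ := v.surj
  have hKF : FF k K := FF_of_toric
  have hLF : FF k L := FF_descend hKF ⟨X.R, X.fg, X.frac⟩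
  have hovP : IsOverGerm P v :=
    ⟨div_of_resInd hLF ht0 (by rw [ht]; norm_num) hy' X.R X.fg
      fun f hf => reg_of_center hcv hf, hcv⟩
  have ht0' : algebraMap L K t ≠ 0 := (map_ne_zero _).2 ht0
  have htw : w.ord (algebraMap L K t) = ev := by rw [hov.2 _ ht0, ht, mul_one]
  have hovg : IsOverGerm g.P w :=
    ⟨div_of_resInd hKF ht0' (by rw [htw]; exact hev) hyw g.X.R g.X.fg
      fun f hf => reg_of_center hcw hf, hcw⟩
  -- the canonical order at `v`
  obtain ⟨hM0, hcan⟩ := canOrd_of_resInd hLF ht0 ht hy' X.T X.top ε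
  set M : Matrix (Fin (k + 1)) (Fin (k + 1)) L := Matrix.of fun i j : Fin (k + 1) =>
      X.T.D (ε.symm i) ((Fin.cons t y' : Fin (k + 1) → L) j) with hMd
  have hmv : m ≤ 1 + ((-v.ord M.det : ℤ) : ℝ) - ∑ i, e.ρ i * (v.ord (e.g i) : ℝ) :=
    hm.2 ⟨v, hovP, _, hcan, rfl⟩
  -- the logarithmic family
  let N : Matrix (Fin (k + 1)) (Fin (k + 1)) K :=
    Matrix.diagonal (famF κ f) * Q.map (algebraMap ℂ K)
  have hf0 : ∀ i, f i ≠ 0 := fun i => (ho5 i).1
  have hQdet : Q.det ≠ 0 := by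
    have h1 := congrArg Matrix.det hd.QP
    rw [Matrix.det_mul, Matrix.det_one] at h1
    exact left_ne_zero_of_mul_eq_one h1
  have hNdet : N.det = (∏ l, famF κ f l) * algebraMap ℂ K Q.det := by
    change (Matrix.diagonal (famF κ f) * Q.map (algebraMap ℂ K)).det = _
    rw [Matrix.det_mul, Matrix.det_diagonal]
    congr 1
    exact (RingHom.map_det (algebraMap ℂ K) Q).symm
  have hF0 : (∏ l, famF κ f l) ≠ 0 := Finset.prod_ne_zero_iff.2 fun l _ => famF_ne hf0 l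
  have hQ0 : algebraMap ℂ K Q.det ≠ 0 := (map_ne_zero _).2 hQdet
  have hN0 : N.det ≠ 0 := by rw [hNdet]; exact mul_ne_zero hF0 hQ0
  have hNord : w.ord N.det = ∑ i, w.ord (f i) := by
    rw [hNdet, w.map_mul _ _ hF0 hQ0, w.const _ hQdet, add_zero, famF_ord hd.inj hf0]
  have hNrow : ∀ l, (∑ j, N l j • tor K j : Derivation ℂ K K) =
      famF κ f l • (∑ j, algebraMap ℂ K (Q l j) • tor K j : Derivation ℂ K K) := by
    intro l
    rw [Finset.smul_sum]
    refine Finset.sum_congr rfl fun j _ => ?_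
    change (Matrix.diagonal (famF κ f) * Q.map (algebraMap ℂ K)) l j • _ = _
    rw [Matrix.diagonal_mul, smul_smul]
    rfl
  have hNlog : ∀ l, LogAt w (∑ j, N l j • tor K j) := by
    intro l a ha
    rw [hNrow, Derivation.smul_apply, smul_eq_mul]
    by_cases hz : (∑ j, algebraMap ℂ K (Q l j) • tor K j : Derivation ℂ K K) a = 0
    · rw [hz, mul_zero, zero_div]
      exact w.reg_zero
    right
    rw [w.ord_div (mul_ne_zero (famF_ne hf0 l) hz) ha, w.map_mul _ _ (famF_ne hf0 l) hz]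
    by_cases hl : ∃ i, κ i = l
    · obtain ⟨i, rfl⟩ := hl
      have h1 := ho8 i a ha hz
      rw [famF_spec hd.inj]
      have h2 := (ho5 i).2
      rw [hw _ (hf0 i)] at h2
      rw [hw _ ha, hw _ hz, ← h2] at h1
      by_contra h3
      push Not at h3
      nlinarith
    · rw [famF_not f hl, w.ord_one]
      have hη : η l = 1 := by
        by_contra h
        exact hl ((hd.ran l).2 h)
      have h1 := ho7 l hη a ha hz
      rw [hw _ ha, hw _ hz] at h1
      have h2 := le_of_mul_le_mul_left h1 hk'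
      omega
  -- the determinants
  set U : Matrix (Fin (k + 1)) (Fin (k + 1)) K := Matrix.of fun i j : Fin (k + 1) =>
      tor K i ((Fin.cons (algebraMap L K t) fun i => algebraMap L K (y' i) :
        Fin (k + 1) → K) j) with hUd
  have hMU : algebraMap L K M.det = C.det * U.det := map_det_eq hCT t y'
  have hU0 : U.det ≠ 0 := by
    intro h0
    rw [h0, mul_zero] at hMU
    exact (map_ne_zero _).2 hM0 hMU
  have hlog := log_det (w := w) (fun i => tor K i) hN0 hNlog (t := algebraMap L K t)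
    (y := fun i => algebraMap L K (y' i)) ht0' (by
      intro i
      have h1 := resInd_map hov hy' (MvPolynomial.X i) (X_ne_zero i)
      rw [aeval_X] at h1
      exact h1) hU0
  have hdet : ev * v.ord M.det = w.ord C.det + w.ord U.det := by
    rw [← hov.2 _ hM0, hMU, w.map_mul _ _ hC hU0]
  have hlog' : ev ≤ w.ord N.det + w.ord U.det := by
    rw [htw] at hlog
    exact hlog
  -- the sum of the `V`
  have hsum : (∑ i, ((j * V0 i + r * V1 i : ℤ) : ℝ)) = k' * (w.ord N.det : ℝ) := by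
    rw [hNord]
    push_cast
    rw [Finset.mul_sum]
    refine Finset.sum_congr rfl fun i _ => ?_
    have h2 := (ho5 i).2
    rw [hw _ (hf0 i)] at h2
    have h3 : ((j * V0 i + r * V1 i : ℤ) : ℝ) = ((k' * w.ord (f i) : ℤ) : ℝ) := by rw [h2]
    push_cast at h3
    linarith
  -- the linear function
  have hlin := hlam w hovg (fun i => (k' : ℝ)⁻¹ * cc i)
    (fun i => mul_nonneg (inv_nonneg.2 hk'r.le) (hcc i)) (by
      intro l
      have h1 := hco l
      rw [htv] at h1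
      simp only [Pi.smul_apply, smul_eq_mul, Int.cast_mul] at h1
      simp only [mul_assoc]
      rw [← Finset.mul_sum, h1, ← mul_assoc, inv_mul_cancel₀ hk'r.ne', one_mul])
  have hlin' : k' * (-(w.ord C.det : ℝ) -
      ∑ i, e.ρ i * (w.ord (algebraMap L K (e.g i)) : ℝ)) = ∑ i, cc i * (1 - b i) := by
    rw [hlin, Finset.mul_sum]
    refine Finset.sum_congr rfl fun i _ => ?_
    field_simp
  have hg : ∑ i, e.ρ i * (w.ord (algebraMap L K (e.g i)) : ℝ) =
      ev * ∑ i, e.ρ i * (v.ord (e.g i) : ℝ) := by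
    rw [Finset.mul_sum]
    refine Finset.sum_congr rfl fun i _ => ?_
    rw [hov.2 _ (e.ne i)]
    push_cast
    ring
  rw [← hlin', hsum]
  have h1 : (r : ℝ) * m ≤ (k' * ev : ℝ) * m := by
    apply mul_le_mul_of_nonneg_right _ hm0
    exact_mod_cast hrk
  have h2 : (k' * ev : ℝ) * m ≤
      (k' * ev : ℝ) * (1 + ((-v.ord M.det : ℤ) : ℝ) - ∑ i, e.ρ i * (v.ord (e.g i) : ℝ)) :=
    mul_le_mul_of_nonneg_left hmv (mul_pos hk'r hevr).le
  have h3 : (ev : ℝ) * (v.ord M.det : ℝ) = w.ord C.det + w.ord U.det := by exact_mod_cast hdet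
  have h4 : (ev : ℝ) ≤ w.ord N.det + w.ord U.det := by exact_mod_cast hlog'
  have h5 : (k' : ℝ) * ev ≤ k' * (w.ord N.det + w.ord U.det) :=
    mul_le_mul_of_nonneg_left h4 hk'r.le
  have h6 : (k' * ev : ℝ) * (1 + ((-v.ord M.det : ℤ) : ℝ) - ∑ i, e.ρ i * (v.ord (e.g i) : ℝ)) =
      k' * ev - k' * (ev * v.ord M.det) - k' * (ev * ∑ i, e.ρ i * (v.ord (e.g i) : ℝ)) := by
    push_cast
    ring
  rw [h3, ← hg] at h6
  rw [h6] at h2
  nlinarith

end main

end Pool.Agent.Helper58K9.QT
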