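import Mathlib
import Pool.Agent.Helper58K9.QT.Defs

/-!
# [DIAG] Diagonalisation
-/

set_option autoImplicit false

namespace Pool.Agent.Helper58K9.QT

open Pool.Agent.H436R3.Fol Pool.Agent.H436R3.KT Pool.Agent.W497.Mld Pool.Agent.TH165.ACC
  MvPolynomial

namespace DiagL

theorem exists_basis {n r : ℕ} (hr : 0 < r) (f : Module.End ℂ (Fin n → ℂ)) (h : f ^ r = 1) :
    ∃ (b : Module.Basis (Fin n) ℂ (Fin n → ℂ)) (η : Fin n → ℂ), ∀ k, f (b k) = η k • b k := by
  classical
  have hss : f.IsSemisimple := by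
    refine Module.End.isSemisimple_of_squarefree_aeval_eq_zero
      (p := (Polynomial.X ^ r - 1 : Polynomial ℂ)) ?_ ?_
    · refine Polynomial.Separable.squarefree ?_
      rw [Polynomial.X_pow_sub_one_separable_iff]
      exact_mod_cast hr.ne'
    · rw [map_sub, map_pow, Polynomial.aeval_X, map_one, h, sub_self]
  have htop := hss.iSup_eigenspace_eq_top
  set s : Set (Fin n → ℂ) := ⋃ μ : ℂ, (f.eigenspace μ : Set (Fin n → ℂ)) with hs
  have hspan : ⊤ ≤ Submodule.span ℂ s := by
    rw [← htop]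
    refine iSup_le fun μ => ?_
    intro v hv
    exact Submodule.subset_span (Set.mem_iUnion.2 ⟨μ, hv⟩)
  let b0 := Module.Basis.ofSpan hspan
  haveI := Module.Finite.finite_basis b0
  haveI := Fintype.ofFinite ((linearIndepOn_empty ℂ id).extend (Set.empty_subset s))
  have hc : Fintype.card ((linearIndepOn_empty ℂ id).extend (Set.empty_subset s)) = n := by
    rw [← Module.finrank_eq_card_basis b0, Module.finrank_fin_fun]
  let b := b0.reindex (Fintype.equivFinOfCardEq hc)
  have hb : ∀ k, ∃ μ : ℂ, f (b k) = μ • b k := by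
    intro k
    have h1 : b k ∈ s := by
      have : b k = b0 ((Fintype.equivFinOfCardEq hc).symm k) := by
        rw [Module.Basis.reindex_apply]
      rw [this]
      exact Module.Basis.ofSpan_subset hspan (Set.mem_range_self _)
    obtain ⟨μ, hμ⟩ := Set.mem_iUnion.1 h1
    exact ⟨μ, Module.End.mem_eigenspace_iff.1 hμ⟩
  choose η hη using hb
  exact ⟨b, η, hη⟩

end DiagL

/-- [DIAG] integral matrices of finite order are diagonalisable over `ℂ` -/
theorem exists_diag {n r : ℕ} (hr : 0 < r) (A : Matrix (Fin n) (Fin n) ℤ) (h : A ^ r = 1) :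
    ∃ (P Q : Matrix (Fin n) (Fin n) ℂ) (η : Fin n → ℂ) (s : ℕ) (κ : Fin s → Fin n),
      IsDiag r A P Q η κ := by
  classical
  set M : Matrix (Fin n) (Fin n) ℂ := A.map (Int.cast : ℤ → ℂ) with hM
  have hM' : M = (Int.castRingHom ℂ).mapMatrix A := rfl
  have hMr : M ^ r = 1 := by rw [hM', ← map_pow, h, map_one]
  obtain ⟨b, η, hη⟩ := DiagL.exists_basis hr (Matrix.toLin' M) (by
    rw [← Matrix.toLin'_pow, hMr, Matrix.toLin'_one]; rfl)
  set P : Matrix (Fin n) (Fin n) ℂ := (Pi.basisFun ℂ (Fin n)).toMatrix b with hP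
  set Q : Matrix (Fin n) (Fin n) ℂ := b.toMatrix (Pi.basisFun ℂ (Fin n)) with hQ
  have hPQ : P * Q = 1 := Module.Basis.toMatrix_mul_toMatrix_flip _ _
  have hQP : Q * P = 1 := Module.Basis.toMatrix_mul_toMatrix_flip _ _
  have hR : M * P = P * Matrix.diagonal η := by
    ext i k
    have h1 := congrFun (hη k) i
    rw [Matrix.toLin'_apply] at h1
    rw [Matrix.mul_diagonal, Matrix.mul_apply]
    simp only [Matrix.mulVec, dotProduct, Pi.smul_apply, smul_eq_mul] at h1
    simp only [hP, Module.Basis.toMatrix_apply, Pi.basisFun_repr]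
    rw [h1, mul_comm]
  have hL : Q * M = Matrix.diagonal η * Q := by
    calc Q * M = Q * M * (P * Q) := by rw [hPQ, mul_one]
      _ = Q * (M * P) * Q := by simp only [mul_assoc]
      _ = Q * P * Matrix.diagonal η * Q := by rw [hR]; simp only [mul_assoc]
      _ = Matrix.diagonal η * Q := by rw [hQP, one_mul]
  have hpow : ∀ j : ℕ, M ^ j * P = P * (Matrix.diagonal η) ^ j := by
    intro j
    induction j with
    | zero => simp
    | succ j ih => rw [pow_succ', pow_succ, mul_assoc, ih, ← mul_assoc, hR, mul_assoc,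
        ← pow_succ', pow_succ]
  have hD : (Matrix.diagonal η) ^ r = 1 := by
    have h1 := hpow r
    rw [hMr, one_mul] at h1
    calc (Matrix.diagonal η) ^ r = Q * P * (Matrix.diagonal η) ^ r := by rw [hQP, one_mul]
      _ = Q * P := by rw [mul_assoc, ← h1]
      _ = 1 := hQP
  have hη1 : ∀ k, η k ^ r = 1 := by
    intro k
    rw [Matrix.diagonal_pow] at hD
    have := congrFun (congrFun hD k) k
    simpa using this
  refine ⟨P, Q, η, Fintype.card {k // η k ≠ 1},
    fun i => ((Fintype.equivFin {k // η k ≠ 1}).symm i).1, hr, h, hPQ, hQP, hη1, hR, hL, ?_, ?_⟩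
  · intro i j hij
    exact (Fintype.equivFin {k // η k ≠ 1}).symm.injective (Subtype.ext hij)
  · intro k
    constructor
    · rintro ⟨i, rfl⟩
      exact ((Fintype.equivFin {k // η k ≠ 1}).symm i).2
    · intro hk
      exact ⟨Fintype.equivFin {k // η k ≠ 1} ⟨k, hk⟩, by simp⟩

end Pool.Agent.Helper58K9.QT
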