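import Mathlib
import Pool.Agent.Helper58K9.QT.Basic
import Pool.Agent.Helper58K9.QT.LogExt

/-!
# [LFAM] Logarithmic families of derivations over a valuation of the quotient
-/

set_option autoImplicit false

namespace Pool.Agent.Helper58K9.QT

open Pool.Agent.H436R3.Fol Pool.Agent.H436R3.KT Pool.Agent.W497.Mld Pool.Agent.TH165.ACC
  MvPolynomial

variable {n : ℕ} {L K : Type} [Field L] [Algebra ℂ L] [Field K] [Algebra ℂ K] [Algebra L K]
  [IsScalarTower ℂ L K] [Algebra (MvPolynomial (Fin n) ℂ) K]
  [IsFractionRing (MvPolynomial (Fin n) ℂ) K] [IsScalarTower ℂ (MvPolynomial (Fin n) ℂ) K]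

omit [Algebra ℂ K] in
theorem exists_log_base {L : Type} [Field L] [Algebra ℂ L] {d : ℕ} {F : Foliation L d}
    {v : DVal L} {a : ℤ} (ha : IsCanOrd F v a) :
    ∃ A : Matrix (Fin d) (Fin d) L, A.det ≠ 0 ∧ v.ord A.det ≤ a + 1 ∧
      ∀ i, ∀ f : L, f ≠ 0 → v.Reg ((∑ j, A i j • F.D j) f / f) := by
  obtain ⟨⟨A, hA0, hA, hAa⟩, -⟩ := ha
  obtain ⟨π, hπ, h1⟩ := v.surj
  set D : Fin d → Derivation ℂ L L := fun i => ∑ j, A i j • F.D j with hD
  have hreg : ∀ i, v.Reg (D i π) := fun i => hA i π (Or.inr (by omega))
  by_cases hall : ∀ i, v.Pos (D i π)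
  · refine ⟨A, hA0, by omega, fun i f hf => ?_⟩
    have h2 := logDer_sub v (hA i) hπ h1 hf
    have h3 : v.Reg (D i π / π) := by
      rcases hall i with h | h
      · rw [h, zero_div]
        exact v.reg_zero
      · by_cases h0 : D i π = 0
        · rw [h0, zero_div]
          exact v.reg_zero
        · right
          rw [v.ord_div h0 hπ]
          omega
    have h4 : D i f / f = (D i f / f - v.ord f * (D i π / π)) + v.ord f * (D i π / π) := by ring
    change v.Reg (D i f / f)
    rw [h4]
    exact v.reg_add h2 (v.reg_mul (v.reg_intCast _) h3)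
  · push Not at hall
    obtain ⟨i0, hi0⟩ := hall
    have hu0 : D i0 π ≠ 0 := fun h => hi0 (Or.inl h)
    have huo : v.ord (D i0 π) = 0 := by
      have h2 := v.ord_nonneg hu0 (hreg i0)
      by_contra h3
      exact hi0 (Or.inr (by omega))
    let c : Fin d → L := fun i => if i = i0 then 0 else -(D i π / D i0 π)
    have hcreg : ∀ i, v.Reg (c i) := by
      intro i
      simp only [c]
      split_ifs
      · exact v.reg_zero
      · apply v.reg_neg
        rw [div_eq_mul_inv]
        exact v.reg_mul (hreg i) (v.reg_inv hu0 huo)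
    let A1 : Matrix (Fin d) (Fin d) L := Matrix.of fun i j => A i j + c i * A i0 j
    have hdet1 : A1.det = A.det :=
      Matrix.det_eq_of_forall_row_eq_smul_add_const c i0 (by simp [c]) fun i j => rfl
    let A2 : Matrix (Fin d) (Fin d) L := A1.updateRow i0 (π • A1 i0)
    have hdet2 : A2.det = π * A.det := by
      change (A1.updateRow i0 (π • A1 i0)).det = _
      rw [Matrix.det_updateRow_smul, Matrix.updateRow_eq_self, hdet1]
    refine ⟨A2, by rw [hdet2]; exact mul_ne_zero hπ hA0, ?_, ?_⟩
    · rw [hdet2, v.map_mul _ _ hπ hA0, h1, hAa]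
      omega
    · intro i f hf
      by_cases hi : i = i0
      · subst hi
        have e1 : (∑ j, A2 i j • F.D j : Derivation ℂ L L) = π • D i := by
          rw [hD, Finset.smul_sum]
          refine Finset.sum_congr rfl fun j _ => ?_
          have : A2 i j = π * A i j := by
            change (A1.updateRow i (π • A1 i)) i j = _
            rw [Matrix.updateRow_self, Pi.smul_apply, smul_eq_mul]
            simp [A1, c]
          rw [this, smul_smul]
        rw [e1, Derivation.smul_apply, smul_eq_mul]
        have h2 := logDer_sub v (hA i) hπ h1 hf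
        have h4 : π * D i f / f = π * (D i f / f - v.ord f * (D i π / π)) +
            v.ord f * D i π := by
          field_simp
          ring
        rw [h4]
        exact v.reg_add (v.reg_mul (Or.inr (by omega)) h2)
          (v.reg_mul (v.reg_intCast _) (hreg i))
      · have e1 : (∑ j, A2 i j • F.D j : Derivation ℂ L L) = D i + c i • D i0 := by
          rw [hD, Finset.smul_sum, ← Finset.sum_add_distrib]
          refine Finset.sum_congr rfl fun j _ => ?_
          have : A2 i j = A i j + c i * A i0 j := by
            change (A1.updateRow i0 (π • A1 i0)) i j = _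
            rw [Matrix.updateRow_ne hi]
            rfl
          rw [this, add_smul, smul_smul]
        rw [e1]
        have hpres : Preserves v (D i + c i • D i0) := by
          intro g hg
          rw [Derivation.add_apply, Derivation.smul_apply, smul_eq_mul]
          exact v.reg_add (hA i g hg) (v.reg_mul (hcreg i) (hA i0 g hg))
        have h2 := logDer_sub v hpres hπ h1 hf
        have h3 : (D i + c i • D i0) π = 0 := by
          rw [Derivation.add_apply, Derivation.smul_apply, smul_eq_mul]
          simp only [c, if_neg hi]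
          field_simp
          ring
        rw [h3, zero_div, mul_zero, sub_zero] at h2
        exact h2

/-- Proof: take a family `A` on `L` which preserves `O_v` with `v (det A) = a`. Let `π` be a uniformiser
of `v`. If all `D_i π` are in the maximal ideal the family is logarithmic; otherwise `D_1 π` is a unit,
say, and one replaces `D_i` by `D_i - (D_i π / D_1 π) D_1` (`i ≠ 1`) and `D_1` by `π D_1`. The result
`A'` is logarithmic at `v`, `v (det A') ≤ a + 1`. The extension to `K` is `∑_j N i j tor_j` with
`N = A' C` (reindexed with `ε`), it is logarithmic at `w` by `log_of_over`. -/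
theorem exists_logFam [FiniteDimensional L K] {d : ℕ} {F : Foliation L d} {v : DVal L} {w : DVal K}
    {e : ℤ} (h : Over w v e) {a : ℤ} (ha : IsCanOrd F v a) {C : Matrix (Fin n) (Fin n) K}
    (hC : C.det ≠ 0) (ε : Fin d ≃ Fin n) (hCT : ∀ (i : Fin d) (f : L),
      algebraMap L K (F.D i f) = ∑ j, C (ε i) j * tor K j (algebraMap L K f)) :
    ∃ N : Matrix (Fin n) (Fin n) K, N.det ≠ 0 ∧ (∀ i, LogAt w (∑ j, N i j • tor K j)) ∧
      w.ord N.det ≤ e * (a + 1) + w.ord C.det := by
  obtain ⟨A, hA0, hAa, hAlog⟩ := exists_log_base ha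
  let A' : Matrix (Fin n) (Fin n) K := (A.submatrix ε.symm ε.symm).map (algebraMap L K)
  have hA' : A'.det = algebraMap L K A.det := by
    change ((A.submatrix ε.symm ε.symm).map (algebraMap L K)).det = _
    rw [← RingHom.mapMatrix_apply, ← RingHom.map_det, Matrix.det_submatrix_equiv_self]
  have hA'0 : A'.det ≠ 0 := by rw [hA']; exact (map_ne_zero _).2 hA0
  refine ⟨A' * C, by rw [Matrix.det_mul]; exact mul_ne_zero hA'0 hC, fun i => ?_, ?_⟩
  · refine log_of_over h _ fun f hf => ?_
    have h1 : (∑ j, (A' * C) i j • tor K j : Derivation ℂ K K) (algebraMap L K f) =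
        algebraMap L K ((∑ j, A (ε.symm i) j • F.D j) f) := by
      rw [der_sum_apply, der_sum_apply, map_sum]
      simp only [Matrix.mul_apply, Finset.sum_mul]
      rw [Finset.sum_comm, ← ε.symm.sum_comp]
      refine Finset.sum_congr rfl fun l _ => ?_
      rw [map_mul, hCT, Equiv.apply_symm_apply, Finset.mul_sum]
      refine Finset.sum_congr rfl fun j _ => ?_
      rw [mul_assoc]
      rfl
    rw [h1, ← map_div₀, h.reg_iff]
    exact hAlog _ f hf
  · rw [Matrix.det_mul, w.map_mul _ _ hA'0 hC, hA', h.2 _ hA0]
    have h1 : e * v.ord A.det ≤ e * (a + 1) := mul_le_mul_of_nonneg_left hAa h.1.le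
    omega

end Pool.Agent.Helper58K9.QT
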