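import Mathlib
import Pool.Agent.Helper58K9.QT.Defs

/-!
# [RAY] Automorphisms of a cone permute the edges
-/

set_option autoImplicit false

namespace Pool.Agent.Helper58K9.QT

open Pool.Agent.H436R3.Fol Pool.Agent.H436R3.KT Pool.Agent.W497.Mld Pool.Agent.TH165.ACC
  MvPolynomial

theorem pr_mulVec {n : ℕ} (A : Matrix (Fin n) (Fin n) ℤ) (m u : Fin n → ℤ) :
    pr (A.mulVec m) u = pr m (Matrix.vecMul u A) := by
  have h1 : pr (A.mulVec m) u = u ⬝ᵥ A.mulVec m := by
    rw [pr, dotProduct]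
    exact Finset.sum_congr rfl fun i _ => mul_comm _ _
  have h2 : pr m (Matrix.vecMul u A) = Matrix.vecMul u A ⬝ᵥ m := by
    rw [pr, dotProduct]
    exact Finset.sum_congr rfl fun i _ => mul_comm _ _
  rw [h1, h2, Matrix.dotProduct_mulVec]

theorem cone_face {n N : ℕ} {E : Fin N → Fin n → ℤ} {u Q : Fin n → ℤ}
    (hu : ∀ m ∈ Cn E, 0 ≤ pr m u) (hQ : Q ∈ Cn E) (h0 : pr Q u = 0) (hu0 : u ≠ 0) :
    ∃ (d : ℕ) (a : Fin d → Fin N) (w : Fin d → ℝ), 0 < d ∧ (∀ i, 0 < w i) ∧
      (∀ k, ∑ i, w i * (E (a i) k : ℝ) = u k) ∧ ∀ i, pr Q (E (a i)) = 0 := by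
  obtain ⟨d, a, w, hw, hs, -⟩ := exists_simplex hu
  refine ⟨d, a, w, ?_, hw, hs, ?_⟩
  · rw [Nat.pos_iff_ne_zero]
    rintro rfl
    apply hu0
    funext k
    have := hs k
    rw [Finset.univ_eq_empty, Finset.sum_empty] at this
    exact_mod_cast this.symm
  · have h1 := coord_pr (A := fun i => E (a i)) (w := w) (u := u) hs Q
    rw [h0, Int.cast_zero] at h1
    have h2 := (Finset.sum_eq_zero_iff_of_nonneg (fun i _ => mul_nonneg (hw i).le
      (by exact_mod_cast hQ (a i)))).1 h1.symm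
    intro i
    have h3 := (mul_eq_zero.1 (h2 i (Finset.mem_univ i))).resolve_left (hw i).ne'
    exact_mod_cast h3

theorem prim_vecMul {n : ℕ} {A A' : Matrix (Fin n) (Fin n) ℤ} (hA : A * A' = 1) {u : Fin n → ℤ}
    (hu : Prim u) : Prim (Matrix.vecMul u A) := by
  obtain ⟨m, hm⟩ := hu
  refine ⟨A'.mulVec m, ?_⟩
  rw [← pr_mulVec, Matrix.mulVec_mulVec, hA, Matrix.one_mulVec, hm]

theorem prim_ne_zero {n : ℕ} {u : Fin n → ℤ} (hu : Prim u) : u ≠ 0 := by
  rintro rfl
  obtain ⟨m, hm⟩ := hu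
  simp [pr] at hm

/-- Proof: `u = E i ᵥ* A` lies in the cone, so `u = ∑ w j E (a j)`, `w j > 0` (`exists_simplex`). If
`Q i` is orthogonal to `E i` and positive on the other edges, then `A' *ᵥ Q i` is orthogonal to `u` and
non-negative on all edges, so it is orthogonal to `E (a j)`, and `E (a j) ᵥ* A'` is an element of the
cone orthogonal to `Q i`, that is, a multiple of `E i`; both vectors are primitive. -/
theorem exists_perm {n N : ℕ} {E : Fin N → Fin n → ℤ} (prim : ∀ i, Prim (E i))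
    (edge : ∀ i, ∃ Q : Fin n → ℤ, pr Q (E i) = 0 ∧ ∀ j, j ≠ i → 0 < pr Q (E j))
    (pointed : ∃ Q : Fin n → ℤ, ∀ j, 0 < pr Q (E j)) {A A' : Matrix (Fin n) (Fin n) ℤ}
    (hA : A * A' = 1) (hA' : A' * A = 1) (h : ∀ m, m ∈ Cn E ↔ A.mulVec m ∈ Cn E) :
    ∃ σ : Fin N → Fin N, ∀ i, E (σ i) = Matrix.vecMul (E i) A := by
  classical
  have key : ∀ i, ∃ l, E l = Matrix.vecMul (E i) A := by
    intro i
    obtain ⟨Qi, hQ0, hQ1⟩ := edge i
    have hQi : Qi ∈ Cn E := by
      intro j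
      by_cases hj : j = i
      · rw [hj, hQ0]
      · exact (hQ1 j hj).le
    have hAA : ∀ m : Fin n → ℤ, A.mulVec (A'.mulVec m) = m := by
      intro m
      rw [Matrix.mulVec_mulVec, hA, Matrix.one_mulVec]
    have hu : ∀ m ∈ Cn E, 0 ≤ pr m (Matrix.vecMul (E i) A) := by
      intro m hm
      rw [← pr_mulVec]
      exact (h m).1 hm i
    have hQ' : A'.mulVec Qi ∈ Cn E := (h _).2 (by rw [hAA]; exact hQi)
    have hQ'u : pr (A'.mulVec Qi) (Matrix.vecMul (E i) A) = 0 := by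
      rw [← pr_mulVec, hAA, hQ0]
    obtain ⟨d, a, w, hd, hw, hs, hz⟩ := cone_face hu hQ' hQ'u
      (prim_ne_zero (prim_vecMul hA (prim i)))
    set l := a ⟨0, hd⟩ with hl
    have hz0 : pr (A'.mulVec Qi) (E l) = 0 := hz _
    have hprim' : Prim (Matrix.vecMul (E l) A') := prim_vecMul hA' (prim l)
    have hu' : ∀ m ∈ Cn E, 0 ≤ pr m (Matrix.vecMul (E l) A') := by
      intro m hm
      rw [← pr_mulVec]
      exact (h _).2 (by rw [hAA]; exact hm) l
    obtain ⟨d', a', w', hd', hw', hs', hz'⟩ := cone_face hu' hQi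
      (by rw [← pr_mulVec]; exact hz0) (prim_ne_zero hprim')
    have ha' : ∀ j, a' j = i := by
      intro j
      by_contra hne
      have h1 := hQ1 _ hne
      rw [hz' j] at h1
      exact lt_irrefl _ h1
    set c : ℝ := ∑ j, w' j with hc
    have hce : ∀ k, ((Matrix.vecMul (E l) A') k : ℝ) = c * (E i k : ℝ) := by
      intro k
      rw [← hs' k, hc, Finset.sum_mul]
      exact Finset.sum_congr rfl fun j _ => by rw [ha' j]
    have hpr : ∀ m : Fin n → ℤ, (pr m (Matrix.vecMul (E l) A') : ℝ) = c * (pr m (E i) : ℝ) := by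
      intro m
      simp only [pr, Int.cast_sum, Int.cast_mul, hce, Finset.mul_sum]
      exact Finset.sum_congr rfl fun k _ => by ring
    have hcpos : 0 < c := by
      rw [hc]
      exact Finset.sum_pos (fun j _ => hw' j) ⟨⟨0, hd'⟩, Finset.mem_univ _⟩
    obtain ⟨m1, hm1⟩ := prim i
    obtain ⟨m2, hm2⟩ := hprim'
    have e1 := hpr m1
    rw [hm1, Int.cast_one, mul_one] at e1
    have e2 := hpr m2
    rw [hm2, Int.cast_one, ← e1] at e2
    have e3 : pr m1 (Matrix.vecMul (E l) A') * pr m2 (E i) = 1 := by exact_mod_cast e2.symm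
    have e4 : 0 < pr m1 (Matrix.vecMul (E l) A') := by
      have : (0 : ℝ) < (pr m1 (Matrix.vecMul (E l) A') : ℝ) := by rw [e1]; exact hcpos
      exact_mod_cast this
    have e5 : pr m1 (Matrix.vecMul (E l) A') = 1 := by
      rcases Int.eq_one_or_neg_one_of_mul_eq_one e3 with h1 | h1
      · exact h1
      · omega
    have hc1 : c = 1 := by rw [← e1, e5, Int.cast_one]
    have hfin : Matrix.vecMul (E l) A' = E i := by
      funext k
      have := hce k
      rw [hc1, one_mul] at this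
      exact_mod_cast this
    refine ⟨l, ?_⟩
    rw [← hfin, Matrix.vecMul_vecMul, hA', Matrix.vecMul_one]
  choose σ hσ using key
  exact ⟨σ, hσ⟩

end Pool.Agent.Helper58K9.QT
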