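import Mathlib
import Pool.Agent.Helper58K9.QT.Defs

/-!
# [GAL] The inertia group of a valuation is cyclic and has a tame generator
-/

set_option autoImplicit false
set_option linter.style.haveILetI false

namespace Pool.Agent.Helper58K9.QT

open Pool.Agent.H436R3.Fol

namespace Ine

section gen

variable {K : Type} [Field K] [Algebra ℂ K] (w : DVal K)

theorem pos_reg {f : K} (h : w.Pos f) : w.Reg f := by
  rcases h with h | h
  · exact Or.inl h
  · exact Or.inr h.le

theorem pos_neg {f : K} (h : w.Pos f) : w.Pos (-f) := by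
  rcases h with h | h
  · left; rw [h, neg_zero]
  · by_cases h0 : f = 0
    · left; rw [h0, neg_zero]
    · right; rw [w.ord_neg h0]; exact h

theorem pos_sub {f g : K} (h : w.Pos f) (h' : w.Pos g) : w.Pos (f - g) := by
  rw [sub_eq_add_neg]
  exact w.pos_add h (pos_neg w h')

theorem not_pos_one : ¬ w.Pos (1 : K) := by
  rintro (h | h)
  · exact one_ne_zero h
  · rw [w.ord_one] at h; exact lt_irrefl _ h

/-- sum of a unit and a small element is a unit -/
theorem ord_one_add {f : K} (h : w.Pos (f - 1)) : f ≠ 0 ∧ w.ord f = 0 := by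
  have hf : f ≠ 0 := by
    rintro rfl
    rw [zero_sub] at h
    have := pos_neg w h
    rw [neg_neg] at this
    exact not_pos_one w this
  refine ⟨hf, ?_⟩
  have h1 : w.Reg f := by
    have := w.reg_add (pos_reg w h) w.reg_one
    rwa [sub_add_cancel] at this
  have h2 : 0 ≤ w.ord f := h1.resolve_left hf
  by_contra h3
  have h4 : w.Pos f := Or.inr (lt_of_le_of_ne h2 (Ne.symm h3))
  have := pos_sub w h4 h
  rw [sub_sub_cancel] at this
  exact not_pos_one w this

/-- the principal units -/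
def U1 : Subgroup Kˣ where
  carrier := {a | w.Pos ((a : K) - 1)}
  one_mem' := by
    left
    simp
  mul_mem' := by
    intro a b ha hb
    have h : ((a * b : Kˣ) : K) - 1 = a * (b - 1) + (a - 1) := by
      push_cast
      ring
    show w.Pos (((a * b : Kˣ) : K) - 1)
    rw [h]
    exact w.pos_add (w.pos_mul_left (Or.inr (ord_one_add w ha).2.ge) hb) ha
  inv_mem' := by
    intro a ha
    have h : ((a⁻¹ : Kˣ) : K) - 1 = -((a⁻¹ : Kˣ) : K) * (a - 1) := by
      have : ((a⁻¹ : Kˣ) : K) * a = 1 := by simp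
      linear_combination this
    show w.Pos (((a⁻¹ : Kˣ) : K) - 1)
    rw [h]
    have h1 := ord_one_add w ha
    refine w.pos_mul_left (w.reg_neg (Or.inr ?_)) ha
    rw [Units.val_inv_eq_inv_val, w.ord_inv h1.1, h1.2, neg_zero]

theorem mem_U1 {a : Kˣ} : a ∈ U1 w ↔ w.Pos ((a : K) - 1) := Iff.rfl

/-- the maximal ideal of the valuation ring -/
def mx : Ideal w.O where
  carrier := {f | w.Pos (f : K)}
  add_mem' := by
    intro a b ha hb
    exact w.pos_add ha hb
  zero_mem' := Or.inl rfl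
  smul_mem' := by
    intro c a ha
    exact w.pos_mul_left c.2 ha

theorem mem_mx {f : w.O} : f ∈ mx w ↔ w.Pos (f : K) := Iff.rfl

instance mx_prime : (mx w).IsPrime := by
  rw [Ideal.isPrime_iff]
  constructor
  · rw [Ne, Ideal.eq_top_iff_one]
    exact not_pos_one w
  · intro a b hab
    rw [mem_mx, mem_mx]
    by_cases ha : (a : K) = 0
    · left; left; exact ha
    by_cases hb : (b : K) = 0
    · right; left; exact hb
    have ha' := a.2.resolve_left ha
    have hb' := b.2.resolve_left hb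
    rcases hab with h | h
    · exact absurd h (mul_ne_zero ha hb)
    · have h2 : w.ord ((a * b : w.O) : K) = w.ord (a : K) + w.ord (b : K) := by
        rw [← w.map_mul _ _ ha hb]
        rfl
      rw [h2] at h
      by_cases h3 : 0 < w.ord (a : K)
      · left; right; exact h3
      · right; right; omega

end gen

section dvr

variable {L : Type} [Field L] [Algebra ℂ L] (v : DVal L)

theorem dvr : IsDiscreteValuationRing v.O := by
  obtain ⟨π, hπ0, hπ⟩ := v.surj
  apply IsDiscreteValuationRing.ofHasUnitMulPowIrreducibleFactorization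
  have hu : ∀ x : v.O, (x : L) ≠ 0 → v.ord (x : L) = 0 → IsUnit x := by
    intro x hx h0
    refine IsUnit.of_mul_eq_one ⟨(x : L)⁻¹, Or.inr (by rw [v.ord_inv hx, h0, neg_zero])⟩ ?_
    apply Subtype.ext
    exact mul_inv_cancel₀ hx
  have hu' : ∀ x : v.O, IsUnit x → (x : L) ≠ 0 ∧ v.ord (x : L) = 0 := by
    rintro x ⟨u, rfl⟩
    have h1 : ((u : v.O) : L) * ((u⁻¹ : v.Oˣ) : v.O) = 1 := by
      rw [← Subring.coe_mul, Units.mul_inv, Subring.coe_one]
    have h2 : ((u : v.O) : L) ≠ 0 := left_ne_zero_of_mul_eq_one h1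
    have h3 : (((u⁻¹ : v.Oˣ) : v.O) : L) ≠ 0 := right_ne_zero_of_mul_eq_one h1
    refine ⟨h2, ?_⟩
    have h4 := v.map_mul _ _ h2 h3
    rw [h1, v.ord_one] at h4
    have h5 := (u : v.O).2.resolve_left h2
    have h6 := ((u⁻¹ : v.Oˣ) : v.O).2.resolve_left h3
    omega
  refine ⟨⟨π, Or.inr (by omega)⟩, ⟨?_, ?_⟩, ?_⟩
  · intro h
    have := (hu' _ h).2
    simp only at this
    omega
  · intro a b hab
    have h1 : π = (a : L) * b := congrArg Subtype.val hab
    have ha : (a : L) ≠ 0 := by rintro h; rw [h, zero_mul] at h1; exact hπ0 h1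
    have hb : (b : L) ≠ 0 := by rintro h; rw [h, mul_zero] at h1; exact hπ0 h1
    have h2 := v.map_mul _ _ ha hb
    rw [← h1, hπ] at h2
    have h3 := a.2.resolve_left ha
    have h4 := b.2.resolve_left hb
    by_cases h5 : v.ord (a : L) = 0
    · left; exact hu a ha h5
    · right; exact hu b hb (by omega)
  · intro x hx
    have hx0 : (x : L) ≠ 0 := fun h => hx (Subtype.ext h)
    have hx1 := x.2.resolve_left hx0
    refine ⟨(v.ord (x : L)).toNat, ?_⟩
    have h1 : v.ord ((x : L) / π ^ (v.ord (x : L)).toNat) = 0 := by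
      rw [v.ord_div hx0 (pow_ne_zero _ hπ0), v.ord_pow hπ0, hπ]
      omega
    have h2 : (x : L) / π ^ (v.ord (x : L)).toNat ≠ 0 := div_ne_zero hx0 (pow_ne_zero _ hπ0)
    obtain ⟨u, hu1⟩ := hu ⟨(x : L) / π ^ (v.ord (x : L)).toNat, Or.inr h1.ge⟩ h2 h1
    refine ⟨u, ?_⟩
    apply Subtype.ext
    rw [hu1]
    show π ^ (v.ord (x : L)).toNat * ((x : L) / π ^ (v.ord (x : L)).toNat) = x
    field_simp

theorem frac : IsFractionRing v.O L := by
  obtain ⟨π, hπ0, hπ⟩ := v.surj
  apply IsFractionRing.of_field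
  intro z
  by_cases hz : z = 0
  · exact ⟨0, 1, by simp [hz]⟩
  by_cases h : 0 ≤ v.ord z
  · exact ⟨⟨z, Or.inr h⟩, 1, by simp; rfl⟩
  · refine ⟨1, ⟨z⁻¹, Or.inr (by rw [v.ord_inv hz]; omega)⟩, ?_⟩
    rw [map_one, one_div]
    show z = (z⁻¹)⁻¹
    rw [inv_inv]

end dvr


section ded

open IsDedekindDomain WithZero

variable {B K : Type} [CommRing B] [IsDedekindDomain B] [Field K] [Algebra ℂ K] [Algebra ℂ B]
  [Algebra B K] [IsFractionRing B K] [IsScalarTower ℂ B K] (P : HeightOneSpectrum B)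

theorem algC (c : ℂ) (hc : c ≠ 0) : P.valuation K (algebraMap ℂ K c) = 1 := by
  have key : ∀ c : ℂ, P.valuation K (algebraMap ℂ K c) ≤ 1 := by
    intro c
    rw [IsScalarTower.algebraMap_apply ℂ B K]
    exact P.valuation_le_one _
  apply le_antisymm (key c)
  have h2 : P.valuation K (algebraMap ℂ K c) * P.valuation K (algebraMap ℂ K c⁻¹) = 1 := by
    rw [← map_mul, ← map_mul, mul_inv_cancel₀ hc, map_one, map_one]
  calc (1 : ℤᵐ⁰) = P.valuation K (algebraMap ℂ K c) * P.valuation K (algebraMap ℂ K c⁻¹) := h2.symm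
    _ ≤ P.valuation K (algebraMap ℂ K c) * 1 := by gcongr; exact key _
    _ = _ := mul_one _

variable (K) in
/-- the valuation of a prime of a Dedekind domain -/
noncomputable def val : DVal K where
  ord := fun f => -log (P.valuation K f)
  map_mul := by
    intro f g hf hg
    rw [map_mul, log_mul (by simpa using hf) (by simpa using hg)]
    ring
  map_add := by
    intro f g hf hg hfg
    have h := (P.valuation K).map_add f g
    have h0 : P.valuation K (f + g) ≠ 0 := by simpa using hfg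
    rcases le_max_iff.1 h with h | h
    · have h1 := (log_le_log h0 (by simpa using hf)).2 h
      exact (min_le_left _ _).trans (neg_le_neg h1)
    · have h1 := (log_le_log h0 (by simpa using hg)).2 h
      exact (min_le_right _ _).trans (neg_le_neg h1)
  surj := by
    obtain ⟨π, hπ⟩ := P.valuation_exists_uniformizer K
    refine ⟨π, ?_, ?_⟩
    · rintro rfl
      rw [map_zero] at hπ
      exact exp_ne_zero hπ.symm
    · rw [hπ, log_exp]
      rfl
  const := by
    intro c hc
    rw [algC P c hc, log_one, neg_zero]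

theorem val_eq {f : K} (hf : f ≠ 0) : P.valuation K f = exp (-(val K P).ord f) := by
  show _ = exp (-(-log (P.valuation K f)))
  rw [neg_neg, exp_log (by simpa using hf)]

theorem reg_iff {f : K} : (val K P).Reg f ↔ P.valuation K f ≤ 1 := by
  by_cases hf : f = 0
  · rw [hf, map_zero]
    exact ⟨fun _ => zero_le_one, fun _ => Or.inl rfl⟩
  · rw [val_eq P hf, ← exp_zero, exp_le_exp]
    constructor
    · intro h
      have := h.resolve_left hf
      omega
    · intro h
      right
      omega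

theorem pos_iff {f : K} : (val K P).Pos f ↔ P.valuation K f < 1 := by
  by_cases hf : f = 0
  · rw [hf, map_zero]
    exact ⟨fun _ => zero_lt_one, fun _ => Or.inl rfl⟩
  · rw [val_eq P hf, ← exp_zero, exp_lt_exp]
    constructor
    · intro h
      have := h.resolve_left hf
      omega
    · intro h
      right
      omega

theorem mem_iff (b : B) : b ∈ P.asIdeal ↔ (val K P).Pos (algebraMap B K b) := by
  rw [pos_iff, P.valuation_lt_one_iff_mem]

theorem reg_alg (b : B) : (val K P).Reg (algebraMap B K b) := by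
  rw [reg_iff]
  exact P.valuation_le_one b

/-- a ring automorphism of `K` which preserves `B` and moves the elements of `B` by elements of
`P` only -/
theorem ord_smul {σ : K ≃+* K} (σ' : B ≃+* B)
    (h : ∀ b : B, algebraMap B K (σ' b) = σ (algebraMap B K b))
    (hP : ∀ b : B, σ' b - b ∈ P.asIdeal) {f : K} (hf : f ≠ 0) :
    (val K P).ord (σ f) = (val K P).ord f := by
  have h1 : ∀ b ∈ P.asIdeal, σ' b ∈ P.asIdeal := by
    intro b hb
    have := P.asIdeal.add_mem (hP b) hb
    rwa [sub_add_cancel] at this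
  have h2 : ∀ b : B, σ' b ∈ P.asIdeal → b ∈ P.asIdeal := by
    intro b hb
    have := P.asIdeal.sub_mem hb (hP b)
    rwa [sub_sub_cancel] at this
  have h3 : P.asIdeal.map σ' = P.asIdeal := by
    apply le_antisymm
    · rw [Ideal.map_le_iff_le_comap]
      exact h1
    · intro b hb
      rw [← σ'.apply_symm_apply b]
      apply Ideal.mem_map_of_mem
      apply h2
      rwa [σ'.apply_symm_apply]
  have h4 : ∀ (n : ℕ) (b : B), σ' b ∈ P.asIdeal ^ n ↔ b ∈ P.asIdeal ^ n := by
    intro n b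
    have h5 : P.asIdeal ^ n = (P.asIdeal ^ n).map σ' := by
      rw [Ideal.map_pow, h3]
    constructor
    · intro hb
      rw [h5, Ideal.mem_map_of_equiv] at hb
      obtain ⟨x, hx, hxb⟩ := hb
      rwa [← σ'.injective hxb]
    · intro hb
      rw [h5]
      exact Ideal.mem_map_of_mem _ hb
  have h6 : ∀ b : B, P.intValuation (σ' b) = P.intValuation b := by
    intro b
    by_cases hb : b = 0
    · rw [hb, map_zero]
    have hb' : σ' b ≠ 0 := by simpa using hb
    have key : ∀ x y : B, x ≠ 0 → y ≠ 0 → (∀ n, x ∈ P.asIdeal ^ n → y ∈ P.asIdeal ^ n) →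
        P.intValuation y ≤ P.intValuation x := by
      intro x y hx hy hxy
      obtain ⟨n, hn⟩ : ∃ n : ℕ, P.intValuation x = exp (-(n : ℤ)) := by
        rw [P.intValuation_if_neg hx]
        exact ⟨_, rfl⟩
      rw [hn]
      rw [P.intValuation_le_pow_iff_mem]
      apply hxy
      rw [← P.intValuation_le_pow_iff_mem, hn]
    exact le_antisymm (key _ _ hb hb' fun n hn => (h4 n b).2 hn)
      (key _ _ hb' hb fun n hn => (h4 n b).1 hn)
  obtain ⟨a, b, hb, rfl⟩ := IsFractionRing.div_surjective (A := B) f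
  have hb0 : b ≠ 0 := nonZeroDivisors.ne_zero hb
  show -log (P.valuation K (σ _)) = -log (P.valuation K _)
  rw [map_div₀, map_div₀, map_div₀, ← h, ← h, P.valuation_of_algebraMap, P.valuation_of_algebraMap,
    P.valuation_of_algebraMap, P.valuation_of_algebraMap, h6, h6]

theorem pos_smul_sub {σ : K ≃+* K} (σ' : B ≃+* B)
    (h : ∀ b : B, algebraMap B K (σ' b) = σ (algebraMap B K b))
    (hP : ∀ b : B, σ' b - b ∈ P.asIdeal) {f : K} (hf : (val K P).Reg f) :
    (val K P).Pos (σ f - f) := by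
  obtain ⟨n, d, hd⟩ := P.exists_primeCompl_mul_eq_of_integer f ((reg_iff P).1 hf)
  have hd0 : algebraMap B K (d : B) ≠ 0 := by
    rw [Ne, FaithfulSMul.algebraMap_eq_zero_iff]
    intro h0
    exact d.2 (by rw [h0]; exact P.asIdeal.zero_mem)
  have hd1 : (val K P).ord (algebraMap B K (d : B)) = 0 := by
    have h1 := (reg_alg (K := K) P (d : B)).resolve_left hd0
    have h2 : ¬ (val K P).Pos (algebraMap B K (d : B)) := by
      rw [← mem_iff]
      exact d.2
    have h3 : ¬ 0 < (val K P).ord (algebraMap B K (d : B)) := fun h => h2 (Or.inr h)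
    omega
  have hd2 : σ (algebraMap B K (d : B)) ≠ 0 := by simpa using hd0
  have hd3 : (val K P).ord (σ (algebraMap B K (d : B))) = 0 := by
    rw [ord_smul P σ' h hP hd0, hd1]
  have e1 : f = algebraMap B K n / algebraMap B K (d : B) := by
    rw [eq_div_iff hd0, hd]
  have e2 : σ f = σ (algebraMap B K n) / σ (algebraMap B K (d : B)) := by
    rw [eq_div_iff hd2, ← map_mul, hd]
  have e3 : σ f - f = (1 / (σ (algebraMap B K (d : B)) * algebraMap B K (d : B))) *
      (algebraMap B K ((σ' n - n) * d - n * (σ' d - d))) := by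
    rw [e2, e1, map_sub, map_mul, map_mul, map_sub, map_sub, h, h]
    field_simp
    ring
  rw [e3]
  apply (val K P).pos_mul_left
  · right
    rw [(val K P).ord_div one_ne_zero (mul_ne_zero hd2 hd0), (val K P).map_mul _ _ hd2 hd0, hd1, hd3,
      (val K P).ord_one]
    simp
  · rw [← mem_iff]
    exact P.asIdeal.sub_mem (P.asIdeal.mul_mem_right _ (hP n)) (P.asIdeal.mul_mem_left _ (hP d))

end ded

open IsDedekindDomain WithZero in
theorem exists_aux {A L K : Type} [CommRing A] [IsDomain A] [IsDiscreteValuationRing A] [Field L]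
    [Algebra A L] [IsFractionRing A L] [Field K] [Algebra L K] [Algebra A K] [IsScalarTower A L K]
    [FiniteDimensional L K] [IsGalois L K] [CharZero L] [Algebra ℂ A] [Algebra ℂ K] [IsScalarTower ℂ A K] :
    ∃ (w : DVal K) (I : Subgroup (K ≃ₐ[L] K)) (e : ℕ), 0 < e ∧ Nat.card I = e ∧
      (∀ π : A, Irreducible π → w.ord (algebraMap A K π) = e) ∧
      (∀ a : A, w.Reg (algebraMap A K a)) ∧
      (∀ σ ∈ I, ∀ f : K, f ≠ 0 → w.ord (σ f) = w.ord f) ∧
      (∀ σ ∈ I, ∀ f : K, w.Reg f → w.Pos (σ f - f)) := by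
  classical
  let B := integralClosure A K
  haveI : IsFractionRing B K := integralClosure.isFractionRing_of_finite_extension L K
  haveI : IsDedekindDomain B := IsIntegralClosure.isDedekindDomain A L K B
  haveI : Module.Finite A B := IsIntegralClosure.finite A L K B
  letI : MulSemiringAction (K ≃ₐ[L] K) B := IsIntegralClosure.MulSemiringAction A L K B
  haveI : IsGaloisGroup (K ≃ₐ[L] K) A B := IsGaloisGroup.of_isFractionRing _ A B L K
  have hinjK : Function.Injective (algebraMap A K) := by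
    rw [IsScalarTower.algebraMap_eq A L K]
    exact (algebraMap L K).injective.comp (IsFractionRing.injective A L)
  have hinj : Function.Injective (algebraMap A B) := by
    intro a b hab
    apply hinjK
    rw [IsScalarTower.algebraMap_apply A B K, hab, ← IsScalarTower.algebraMap_apply A B K]
  haveI : FaithfulSMul A B := (faithfulSMul_iff_algebraMap_injective A B).2 hinj
  haveI : Module.IsTorsionFree A B := inferInstance
  haveI : Module.Flat A B := inferInstance
  have hsm : ∀ (σ : K ≃ₐ[L] K) (b : B), algebraMap B K (σ • b) = σ (algebraMap B K b) := by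
    intro σ b
    exact algebraMap.coe_smul' σ b K
  let v : HeightOneSpectrum A := IsDiscreteValuationRing.maximalIdeal A
  haveI : v.asIdeal.IsMaximal := IsLocalRing.maximalIdeal.isMaximal A
  obtain ⟨Q, hQ1, hQ2⟩ := Ideal.exists_maximal_ideal_liesOver_of_isIntegral v.asIdeal (S := B)
  have hQ3 : Q ≠ ⊥ := Ideal.ne_bot_of_liesOver_of_ne_bot v.ne_bot Q
  let P : HeightOneSpectrum B := ⟨Q, hQ1.isPrime, hQ3⟩
  haveI : P.asIdeal.LiesOver v.asIdeal := hQ2
  haveI : v.asIdeal.IsPrime := v.isPrime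
  haveI : CharZero v.asIdeal.ResidueField := by
    let g : ℂ →+* v.asIdeal.ResidueField := (algebraMap A v.asIdeal.ResidueField).comp
      (algebraMap ℂ A)
    exact charZero_of_injective_ringHom g.injective
  haveI : PerfectField v.asIdeal.ResidueField := inferInstance
  have hcard : Nat.card (P.asIdeal.inertia (K ≃ₐ[L] K)) = v.asIdeal.ramificationIdxIn B :=
    Ideal.card_inertia_eq_ramificationIdxIn v.asIdeal P.asIdeal
  have hr : v.asIdeal.ramificationIdxIn B = v.asIdeal.ramificationIdx' P.asIdeal := by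
    rw [Ideal.ramificationIdxIn_eq_ramificationIdx v.asIdeal P.asIdeal (K ≃ₐ[L] K),
      Ideal.ramificationIdx'_eq_ramificationIdx _ _ v.ne_bot]
  have hπ : ∀ π : A, Irreducible π → (val K P).ord (algebraMap A K π) =
      (v.asIdeal.ramificationIdx' P.asIdeal : ℕ) := by
    intro π hπ
    have hπ0 : π ≠ 0 := hπ.ne_zero
    have h1 := HeightOneSpectrum.valuation_liesOver (K := L) K v P (algebraMap A L π)
    have h2 : v.intValuation π = exp (-1 : ℤ) :=
      HeightOneSpectrum.intValuation_singleton v hπ0 hπ.maximalIdeal_eq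
    rw [HeightOneSpectrum.valuation_of_algebraMap, h2, ← IsScalarTower.algebraMap_apply] at h1
    show -log (P.valuation K (algebraMap A K π)) = _
    rw [← h1, ← exp_nsmul, log_exp]
    simp
  refine ⟨val K P, P.asIdeal.inertia (K ≃ₐ[L] K), v.asIdeal.ramificationIdx' P.asIdeal, ?_, ?_, hπ,
    ?_, ?_, ?_⟩
  · rw [← hr, ← hcard]
    exact Nat.card_pos
  · rw [hcard, hr]
  · intro a
    rw [IsScalarTower.algebraMap_apply A B K]
    exact reg_alg P _
  · intro σ hσ f hf
    exact ord_smul P (σ := σ.toRingEquiv) (MulSemiringAction.toRingEquiv _ B σ) (hsm σ) hσ hf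
  · intro σ hσ f hf
    exact pos_smul_sub P (σ := σ.toRingEquiv) (MulSemiringAction.toRingEquiv _ B σ) (hsm σ) hσ hf

section tame

variable {L K : Type} [Field L] [Field K] [Algebra ℂ K] [Algebra L K] (w : DVal K)

theorem pos_ratio {σ : K ≃ₐ[L] K} (h2 : ∀ f : K, w.Reg f → w.Pos (σ f - f)) {ϖ : K} (hϖ0 : ϖ ≠ 0) (hϖ : w.ord ϖ = 1)
    {ζ : ℂ} (hζ : ζ ≠ 0) (h : w.Pos (σ ϖ / ϖ - algebraMap ℂ K ζ)) {f : K} (hf : f ≠ 0) :
    w.Pos (σ f / f - algebraMap ℂ K (ζ ^ w.ord f)) := by
  have hζ' : algebraMap ℂ K ζ ≠ 0 := by simpa using hζ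
  let z : Kˣ := Units.mk0 _ hζ'
  let P : Kˣ := Units.mk0 _ hϖ0
  let F : Kˣ := Units.mk0 _ hf
  let cu : Kˣ →* Kˣ := Units.map (σ : K →* K) / MonoidHom.id Kˣ
  have hcu : ∀ g : Kˣ, ((cu g : Kˣ) : K) = σ g / g := by
    intro g
    show (((Units.map (σ : K →* K)) g / g : Kˣ) : K) = _
    rw [Units.val_div_eq_div_val]
    rfl
  have e1 : cu P / z ∈ U1 w := by
    rw [mem_U1, Units.val_div_eq_div_val, hcu]
    have : σ (P : K) / (P : K) / (z : K) - 1 =
        algebraMap ℂ K ζ⁻¹ * (σ ϖ / ϖ - algebraMap ℂ K ζ) := by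
      show σ ϖ / ϖ / algebraMap ℂ K ζ - 1 = _
      rw [map_inv₀]
      field_simp
    rw [this]
    exact w.pos_mul_left (w.reg_const _) h
  have e2 : cu (F / P ^ w.ord f) ∈ U1 w := by
    rw [mem_U1, hcu]
    have h0 : ((F / P ^ w.ord f : Kˣ) : K) = f / ϖ ^ w.ord f := by
      rw [Units.val_div_eq_div_val, Units.val_zpow_eq_zpow_val]
      rfl
    have h3 : f / ϖ ^ w.ord f ≠ 0 := div_ne_zero hf (zpow_ne_zero _ hϖ0)
    have h4 : w.ord (f / ϖ ^ w.ord f) = 0 := by
      rw [w.ord_div hf (zpow_ne_zero _ hϖ0), w.ord_zpow hϖ0, hϖ]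
      ring
    rw [h0]
    have h5 : σ (f / ϖ ^ w.ord f) / (f / ϖ ^ w.ord f) - 1 =
        (f / ϖ ^ w.ord f)⁻¹ * (σ (f / ϖ ^ w.ord f) - f / ϖ ^ w.ord f) := by
      rw [mul_sub, inv_mul_cancel₀ h3, div_eq_inv_mul]
    rw [h5]
    exact w.pos_mul_left (Or.inr (by rw [w.ord_inv h3, h4, neg_zero])) (h2 _ (Or.inr h4.ge))
  have e3 : cu F / z ^ w.ord f ∈ U1 w := by
    have : cu F / z ^ w.ord f = cu (F / P ^ w.ord f) * (cu P / z) ^ w.ord f := by
      rw [map_div, map_zpow, div_zpow, div_mul_div_cancel]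
    rw [this]
    exact (U1 w).mul_mem e2 ((U1 w).zpow_mem e1 _)
  rw [mem_U1, Units.val_div_eq_div_val, hcu, Units.val_zpow_eq_zpow_val] at e3
  have e4 : σ f / f - algebraMap ℂ K (ζ ^ w.ord f) =
      algebraMap ℂ K (ζ ^ w.ord f) * (σ (F : K) / (F : K) / (z : K) ^ w.ord f - 1) := by
    show _ = _ * (σ f / f / (algebraMap ℂ K ζ) ^ w.ord f - 1)
    rw [map_zpow₀]
    have : (algebraMap ℂ K ζ) ^ w.ord f ≠ 0 := zpow_ne_zero _ hζ'
    field_simp
  rw [e4]
  exact w.pos_mul_left (w.reg_const _) e3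

theorem eq_one_of_pos [FiniteDimensional L K] {σ : K ≃ₐ[L] K}
    (h : ∀ f : K, f ≠ 0 → w.Pos (σ f / f - 1)) : σ = 1 := by
  have h1 : ∀ (i : ℕ) (f : K), f ≠ 0 → w.Pos ((σ ^ i) f / f - 1) := by
    intro i
    induction i with
    | zero =>
      intro f hf
      left
      rw [pow_zero, AlgEquiv.one_apply, div_self hf, sub_self]
    | succ i ih =>
      intro f hf
      have h0 : (σ ^ i) f ≠ 0 := (map_ne_zero (σ ^ i)).2 hf
      have h2 : (σ ^ (i + 1)) f / f - 1 = ((σ ^ i) f / f) * (σ ((σ ^ i) f) / (σ ^ i) f - 1) +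
          ((σ ^ i) f / f - 1) := by
        rw [pow_succ', AlgEquiv.mul_apply]
        field_simp
        ring
      rw [h2]
      exact w.pos_add (w.pos_mul_left (Or.inr (ord_one_add w (ih f hf)).2.ge) (h _ h0)) (ih f hf)
  ext f
  rw [AlgEquiv.one_apply]
  set l := orderOf σ with hl
  have hl0 : 0 < l := orderOf_pos σ
  haveI : CharZero K := by
    exact charZero_of_injective_algebraMap (algebraMap ℂ K).injective
  have hshift : ∀ g : K, σ (∑ i ∈ Finset.range l, (σ ^ i) g) = ∑ i ∈ Finset.range l, (σ ^ i) g := by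
    intro g
    rw [map_sum]
    have e1 : ∀ i, σ ((σ ^ i) g) = (σ ^ (i + 1)) g := by
      intro i
      rw [pow_succ', AlgEquiv.mul_apply]
    simp_rw [e1]
    have e2 := Finset.sum_range_succ (fun i => (σ ^ i) g) l
    have e3 := Finset.sum_range_succ' (fun i => (σ ^ i) g) l
    rw [e2, pow_orderOf_eq_one, pow_zero] at e3
    exact add_right_cancel e3.symm
  set s := ∑ i ∈ Finset.range l, (σ ^ i) f with hs
  have hsi : ∀ i : ℕ, (σ ^ i) s = s := by
    intro i
    induction i with
    | zero => rw [pow_zero, AlgEquiv.one_apply]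
    | succ i ih => rw [pow_succ', AlgEquiv.mul_apply, ih, hs, hshift]
  by_cases hg : (l : K) * f - s = 0
  · have e1 : (l : K) * f = s := sub_eq_zero.1 hg
    have e2 : (l : K) * σ f = (l : K) * f := by
      have := congrArg σ e1
      rw [map_mul, map_natCast, hs, hshift, ← hs, ← e1] at this
      exact this
    exact mul_left_cancel₀ (by exact_mod_cast hl0.ne') e2
  · exfalso
    have e1 : ∑ i ∈ Finset.range l, (σ ^ i) ((l : K) * f - s) = 0 := by
      simp_rw [map_sub, map_mul, map_natCast, hsi]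
      rw [Finset.sum_sub_distrib, ← Finset.mul_sum, ← hs, Finset.sum_const, Finset.card_range,
        nsmul_eq_mul, sub_self]
    have e2 : w.Pos (∑ i ∈ Finset.range l, ((σ ^ i) ((l : K) * f - s) / ((l : K) * f - s) - 1)) := by
      have : ∀ S : Finset ℕ, w.Pos (∑ i ∈ S,
          ((σ ^ i) ((l : K) * f - s) / ((l : K) * f - s) - 1)) := by
        intro S
        classical
        induction S using Finset.induction_on with
        | empty => left; rw [Finset.sum_empty]
        | insert a S ha ih =>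
          rw [Finset.sum_insert ha]
          exact w.pos_add (h1 _ _ hg) ih
      exact this _
    rw [Finset.sum_sub_distrib, ← Finset.sum_div, e1, zero_div, Finset.sum_const,
      Finset.card_range, zero_sub, nsmul_eq_mul, mul_one] at e2
    have e3 := pos_neg w e2
    rw [neg_neg] at e3
    rcases e3 with e3 | e3
    · exact hl0.ne' (by exact_mod_cast e3)
    · have := w.const (l : ℂ) (by exact_mod_cast hl0.ne')
      rw [map_natCast] at this
      omega

theorem tame [FiniteDimensional L K] (I : Subgroup (K ≃ₐ[L] K)) {e : ℕ} (he : 0 < e)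
    (hI : Nat.card I = e) (h1 : ∀ σ ∈ I, ∀ f : K, f ≠ 0 → w.ord (σ f) = w.ord f)
    (h2 : ∀ σ ∈ I, ∀ f : K, w.Reg f → w.Pos (σ f - f)) :
    ∃ (γ : K ≃ₐ[L] K) (ζ : ℂ), γ ^ e = 1 ∧ IsPrimitiveRoot ζ e ∧
      ∀ f : K, f ≠ 0 → w.Pos (γ f / f - algebraMap ℂ K (ζ ^ w.ord f)) := by
  classical
  obtain ⟨ϖ, hϖ0, hϖ⟩ := w.surj
  have hreg : ∀ σ ∈ I, ∀ f : K, f ≠ 0 → w.Reg (σ f / f) := by
    intro σ hσ f hf
    right
    rw [w.ord_div (by simpa using hf) hf, h1 σ hσ f hf, sub_self]
  let χ : I →* w.O ⧸ mx w :=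
    { toFun := fun σ => Ideal.Quotient.mk (mx w) ⟨(σ : K ≃ₐ[L] K) ϖ / ϖ, hreg _ σ.2 _ hϖ0⟩
      map_one' := by
        rw [← map_one (Ideal.Quotient.mk (mx w))]
        congr 1
        apply Subtype.ext
        show ((1 : K ≃ₐ[L] K)) ϖ / ϖ = 1
        rw [AlgEquiv.one_apply, div_self hϖ0]
      map_mul' := by
        intro σ τ
        rw [← map_mul, Ideal.Quotient.eq, mem_mx]
        show w.Pos (((σ : K ≃ₐ[L] K) * (τ : K ≃ₐ[L] K)) ϖ / ϖ -
          (σ : K ≃ₐ[L] K) ϖ / ϖ * ((τ : K ≃ₐ[L] K) ϖ / ϖ))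
        have h0 : (σ : K ≃ₐ[L] K) ϖ ≠ 0 := by simpa using hϖ0
        have e1 : ((σ : K ≃ₐ[L] K) * (τ : K ≃ₐ[L] K)) ϖ / ϖ -
            (σ : K ≃ₐ[L] K) ϖ / ϖ * ((τ : K ≃ₐ[L] K) ϖ / ϖ) = (σ : K ≃ₐ[L] K) ϖ / ϖ *
            ((σ : K ≃ₐ[L] K) ((τ : K ≃ₐ[L] K) ϖ / ϖ) - (τ : K ≃ₐ[L] K) ϖ / ϖ) := by
          rw [AlgEquiv.mul_apply, map_div₀]
          field_simp
        rw [e1]
        exact w.pos_mul_left (hreg _ σ.2 _ hϖ0) (h2 _ σ.2 _ (hreg _ τ.2 _ hϖ0)) }
  have hχ : Function.Injective χ := by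
    rw [injective_iff_map_eq_one]
    intro σ hσ
    have e1 : w.Pos ((σ : K ≃ₐ[L] K) ϖ / ϖ - algebraMap ℂ K 1) := by
      rw [map_one]
      have : Ideal.Quotient.mk (mx w) ⟨(σ : K ≃ₐ[L] K) ϖ / ϖ, hreg _ σ.2 _ hϖ0⟩ =
        Ideal.Quotient.mk (mx w) 1 := by rw [map_one]; exact hσ
      rw [Ideal.Quotient.eq, mem_mx] at this
      exact this
    apply Subtype.ext
    apply eq_one_of_pos w
    intro f hf
    have := pos_ratio w (h2 _ σ.2) hϖ0 hϖ one_ne_zero e1 hf
    rwa [one_zpow, map_one] at this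
  haveI : IsCyclic I := isCyclic_of_injective_ringHom χ hχ
  obtain ⟨γ, hγ⟩ := IsCyclic.exists_generator (α := I)
  have hord : orderOf γ = e := by
    rw [orderOf_eq_card_of_forall_mem_zpowers hγ, hI]
  have hχγ : IsPrimitiveRoot (χ γ) e := by
    rw [IsPrimitiveRoot.iff_orderOf, orderOf_injective χ hχ, hord]
  let g : ℂ →+* w.O ⧸ mx w :=
    (Ideal.Quotient.mk (mx w)).comp ((algebraMap ℂ K).codRestrict w.O w.reg_const)
  haveI : Nontrivial (w.O ⧸ mx w) := inferInstance
  have hg : Function.Injective g := g.injective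
  haveI : NeZero e := ⟨he.ne'⟩
  have hζ0 := (Complex.isPrimitiveRoot_exp e he.ne').map_of_injective hg
  obtain ⟨i, -, hi⟩ := hζ0.eq_pow_of_pow_eq_one hχγ.pow_eq_one
  rw [← map_pow] at hi
  set ζ := Complex.exp (2 * Real.pi * Complex.I / e) ^ i with hζdef
  have hζ : IsPrimitiveRoot ζ e := by
    rw [← hi] at hχγ
    exact hχγ.of_map_of_injective hg
  refine ⟨γ, ζ, ?_, hζ, ?_⟩
  · have : γ ^ e = 1 := by rw [← hord]; exact pow_orderOf_eq_one γ
    have h3 := congrArg Subtype.val this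
    simpa using h3
  · intro f hf
    refine pos_ratio w (h2 _ γ.2) hϖ0 hϖ (hζ.ne_zero he.ne') ?_ hf
    have h3 : Ideal.Quotient.mk (mx w) ⟨(γ : K ≃ₐ[L] K) ϖ / ϖ, hreg _ γ.2 _ hϖ0⟩ =
      Ideal.Quotient.mk (mx w) ((algebraMap ℂ K).codRestrict w.O w.reg_const ζ) := hi.symm
    rw [Ideal.Quotient.eq, mem_mx] at h3
    exact h3

end tame

end Ine

/-- Proof: the valuation ring `A = v.O` is a discrete valuation ring; take a prime `Q` over its
maximal ideal in the integral closure `B` of `A` in `K`, and the inertia group `I` of `Q`. Its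
order is the ramification index `e` (`Ideal.card_inertia_eq_ramificationIdxIn` in
`Mathlib.NumberTheory.RamificationInertia.Galois`; all residue fields have characteristic zero).
For `σ ∈ I` and a uniformiser `π` the residue `χ σ` of `σ π / π` defines an injective
homomorphism `χ` from `I` to the residue field (if `χ σ = 1` then `σ f / f - 1` is in the maximal
ideal for all `f ≠ 0`, and an element `g ≠ 0` with `∑ σ ^ i g = 0` gives a contradiction if
`σ ≠ 1`), hence `I` is cyclic of order `e`; the values of `χ` are `e`-th roots of unity of the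
residue field, they are residues of constants. -/
theorem exists_inertia {L K : Type} [Field L] [Algebra ℂ L] [Field K] [Algebra ℂ K] [Algebra L K]
    [IsScalarTower ℂ L K] [FiniteDimensional L K] [IsGalois L K] (v : DVal L) :
    ∃ (w : DVal K) (e : ℕ) (γ : K ≃ₐ[L] K) (ζ : ℂ), 0 < e ∧ Over w v e ∧ γ ^ e = 1 ∧
      IsPrimitiveRoot ζ e ∧
      ∀ f : K, f ≠ 0 → w.Pos (γ f / f - algebraMap ℂ K (ζ ^ w.ord f)) := by
  haveI : IsDiscreteValuationRing v.O := Ine.dvr v
  haveI : IsFractionRing v.O L := Ine.frac v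
  letI : Algebra ℂ v.O := ((algebraMap ℂ L).codRestrict v.O v.reg_const).toAlgebra
  haveI : IsScalarTower ℂ v.O K := by
    apply IsScalarTower.of_algebraMap_eq
    intro c
    show algebraMap ℂ K c = algebraMap L K (algebraMap ℂ L c)
    rw [← IsScalarTower.algebraMap_apply]
  haveI : CharZero L := charZero_of_injective_algebraMap (algebraMap ℂ L).injective
  obtain ⟨w, I, e, he, hI, hw, hreg, h1, h2⟩ := Ine.exists_aux (A := v.O) (L := L) (K := K)
  obtain ⟨γ, ζ, hγ, hζ, h⟩ := Ine.tame w I he hI h1 h2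
  refine ⟨w, e, γ, ζ, he, ⟨by exact_mod_cast he, ?_⟩, hγ, hζ, h⟩
  obtain ⟨π, hπ0, hπ⟩ := v.surj
  have hpos : ∀ f : L, v.Reg f → w.Reg (algebraMap L K f) := fun f hf => hreg ⟨f, hf⟩
  have hu : ∀ f : L, f ≠ 0 → v.ord f = 0 → w.ord (algebraMap L K f) = 0 := by
    intro f hf h0
    have hf' : algebraMap L K f ≠ 0 := by simpa using hf
    have e1 := (hpos f (Or.inr h0.ge)).resolve_left hf'
    have e2 := (hpos f⁻¹ (Or.inr (by rw [v.ord_inv hf, h0, neg_zero]))).resolve_left
      (by simpa using hf)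
    rw [map_inv₀, w.ord_inv hf'] at e2
    omega
  have hπ1 : w.ord (algebraMap L K π) = e := by
    obtain ⟨ϖ, hϖ⟩ := IsDiscreteValuationRing.exists_irreducible v.O
    have h3 := hw ϖ hϖ
    have hϖ0 : (ϖ : L) ≠ 0 := fun h => hϖ.ne_zero (Subtype.ext h)
    have hv1 : v.ord (ϖ : L) = 1 := by
      have e1 := ϖ.2.resolve_left hϖ0
      -- write `ϖ = π * (ϖ / π)`
      have e2 : v.ord (ϖ : L) ≠ 0 := by
        intro h0
        apply hϖ.not_isUnit
        refine IsUnit.of_mul_eq_one ⟨(ϖ : L)⁻¹, Or.inr (by rw [v.ord_inv hϖ0, h0, neg_zero])⟩ ?_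
        apply Subtype.ext
        exact mul_inv_cancel₀ hϖ0
      by_contra h0
      have e3 : 0 < v.ord ((ϖ : L) / π) := by
        rw [v.ord_div hϖ0 hπ0, hπ]
        omega
      have e4 : ϖ = (⟨π, Or.inr (by omega)⟩ : v.O) * ⟨(ϖ : L) / π, Or.inr e3.le⟩ := by
        apply Subtype.ext
        show (ϖ : L) = π * ((ϖ : L) / π)
        field_simp
      rcases hϖ.isUnit_or_isUnit e4 with h5 | h5
      · obtain ⟨b, hb⟩ := h5.exists_right_inv
        have h6 : π * (b : L) = 1 := congrArg Subtype.val hb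
        have hb0 : (b : L) ≠ 0 := right_ne_zero_of_mul_eq_one h6
        have h7 := v.map_mul _ _ hπ0 hb0
        rw [h6, v.ord_one] at h7
        have := b.2.resolve_left hb0
        omega
      · obtain ⟨b, hb⟩ := h5.exists_right_inv
        have h6 : (ϖ : L) / π * (b : L) = 1 := congrArg Subtype.val hb
        have hb0 : (b : L) ≠ 0 := right_ne_zero_of_mul_eq_one h6
        have h7 := v.map_mul _ _ (div_ne_zero hϖ0 hπ0) hb0
        rw [h6, v.ord_one] at h7
        have := b.2.resolve_left hb0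
        omega
    have h4 : v.ord (π / (ϖ : L)) = 0 := by rw [v.ord_div hπ0 hϖ0, hπ, hv1]; ring
    have h5 := hu _ (div_ne_zero hπ0 hϖ0) h4
    have hϖ1 : algebraMap L K (ϖ : L) ≠ 0 := by simpa using hϖ0
    rw [map_div₀, w.ord_div (by simpa using hπ0) hϖ1] at h5
    have h6 : algebraMap v.O K ϖ = algebraMap L K (ϖ : L) := rfl
    rw [h6] at h3
    omega
  intro f hf
  have h3 : v.ord (f / π ^ v.ord f) = 0 := by
    rw [v.ord_div hf (zpow_ne_zero _ hπ0), v.ord_zpow hπ0, hπ]
    ring
  have h4 := hu _ (div_ne_zero hf (zpow_ne_zero _ hπ0)) h3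
  have h5 : algebraMap L K π ≠ 0 := by simpa using hπ0
  rw [map_div₀, map_zpow₀, w.ord_div (by simpa using hf) (zpow_ne_zero _ h5), w.ord_zpow h5,
    hπ1] at h4
  linarith

end Pool.Agent.Helper58K9.QT
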