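import Mathlib
import Pool.Agent.Helper58K9.QT.Basic

/-!
# [CEN] Centres of valuations on a quotient
-/

set_option autoImplicit false

namespace Pool.Agent.Helper58K9.QT

open Pool.Agent.H436R3.Fol Pool.Agent.H436R3.KT Pool.Agent.W497.Mld

theorem pos_sum {K : Type} [Field K] [Algebra ℂ K] (w : DVal K) {ι : Type} (s : Finset ι)
    (g : ι → K) (h : ∀ i ∈ s, w.Pos (g i)) : w.Pos (∑ i ∈ s, g i) := by
  classical
  induction s using Finset.induction_on with
  | empty => exact Or.inl (by simp)
  | insert a s ha ih =>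
    rw [Finset.sum_insert ha]
    exact w.pos_add (h a (Finset.mem_insert_self a s))
      (ih fun i hi => h i (Finset.mem_insert_of_mem hi))

theorem center_aux {L K : Type} [Field L] [Algebra ℂ L] [Field K] [Algebra ℂ K] [Algebra L K]
    [IsScalarTower ℂ L K] {X : AffVar L} {P : Pt X} {R : Subalgebra ℂ K} {O : R →ₐ[ℂ] ℂ}
    (hq : IsQuotient X P R O) {v : DVal L} {w : DVal K} {e : ℤ} (h : Over w v e)
    (hv : ∀ f : X.R, v.Pos (f : L) ↔ P f = 0) (f : R) (hf : O f = 0) : w.Pos (f : K) := by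
  classical
  have := hq.fin
  have := hq.gal
  let _ : Fintype (K ≃ₐ[L] K) := Fintype.ofFinite _
  let τ : (K ≃ₐ[L] K) → R := fun γ => ⟨γ f, hq.inv γ f f.2⟩
  let p : Polynomial R := ∏ γ : K ≃ₐ[L] K, (Polynomial.X - Polynomial.C (τ γ))
  have hmon : p.Monic := Polynomial.monic_prod_of_monic _ _ fun γ _ => Polynomial.monic_X_sub_C _
  set N := p.natDegree with hN
  have hmapO : p.map O.toRingHom = Polynomial.X ^ Fintype.card (K ≃ₐ[L] K) := by
    simp only [p]
    rw [Polynomial.map_prod]
    have h1 : ∀ γ : K ≃ₐ[L] K, (Polynomial.X - Polynomial.C (τ γ)).map O.toRingHom =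
        Polynomial.X := by
      intro γ
      rw [Polynomial.map_sub, Polynomial.map_X, Polynomial.map_C]
      have h2 : O.toRingHom (τ γ) = 0 := (hq.fix γ f (τ γ) rfl).trans hf
      rw [h2, Polynomial.C_0, sub_zero]
    rw [Finset.prod_congr rfl fun γ _ => h1 γ, Finset.prod_const, Finset.card_univ]
  have hNc : N = Fintype.card (K ≃ₐ[L] K) := by
    have h1 := hmon.natDegree_map O.toRingHom
    rw [hmapO, Polynomial.natDegree_X_pow] at h1
    exact h1.symm
  have hO : ∀ i < N, O (p.coeff i) = 0 := by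
    intro i hi
    have h1 : (p.map O.toRingHom).coeff i = O (p.coeff i) := Polynomial.coeff_map _ _
    rw [← h1, hmapO, Polynomial.coeff_X_pow, if_neg (by omega)]
  have hfix : ∀ i (σ : K ≃ₐ[L] K), σ (p.coeff i : K) = (p.coeff i : K) := by
    intro i σ
    let q : Polynomial K := p.map (R.val : R →+* K)
    have hq1 : q = ∏ γ : K ≃ₐ[L] K, (Polynomial.X - Polynomial.C (γ f)) := by
      simp only [q, p]
      rw [Polynomial.map_prod]
      refine Finset.prod_congr rfl fun γ _ => ?_
      rw [Polynomial.map_sub, Polynomial.map_X, Polynomial.map_C]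
      rfl
    have hq2 : q.map (σ : K →+* K) = q := by
      rw [hq1, Polynomial.map_prod]
      refine Fintype.prod_equiv (Equiv.mulLeft σ) _ _ fun γ => ?_
      rw [Polynomial.map_sub, Polynomial.map_X, Polynomial.map_C]
      rfl
    have h1 : q.coeff i = (p.coeff i : K) := Polynomial.coeff_map _ _
    rw [← h1]
    calc σ (q.coeff i) = (q.map (σ : K →+* K)).coeff i :=
          (Polynomial.coeff_map (p := q) (σ : K →+* K) i).symm
      _ = q.coeff i := by rw [hq2]
  have hpos : ∀ i < N, w.Pos (p.coeff i : K) := by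
    intro i hi
    obtain ⟨c, hc⟩ := (IsGalois.mem_range_algebraMap_iff_fixed (F := L) (p.coeff i : K)).2
      (hfix i)
    have hcR : c ∈ X.R := (hq.quot c).2 (by rw [hc]; exact (p.coeff i).2)
    have h1 := hq.pt ⟨c, hcR⟩ (p.coeff i) hc.symm
    rw [hO i hi] at h1
    have h2 := (hv ⟨c, hcR⟩).2 h1.symm
    rw [← hc]
    exact (h.pos_iff c).2 h2
  have hroot : ∑ i ∈ Finset.range (N + 1), (p.coeff i : K) * (f : K) ^ i = 0 := by
    have h1 : p.eval f = 0 := by
      simp only [p]
      rw [Polynomial.eval_prod]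
      refine Finset.prod_eq_zero (Finset.mem_univ 1) ?_
      rw [Polynomial.eval_sub, Polynomial.eval_X, Polynomial.eval_C]
      have : τ 1 = f := Subtype.ext rfl
      rw [this, sub_self]
    rw [Polynomial.eval_eq_sum_range] at h1
    have h2 := congrArg (fun x : R => (x : K)) h1
    simpa using h2
  by_contra hcon
  have hf0 : (f : K) ≠ 0 := fun h0 => hcon (Or.inl h0)
  have hord : w.ord (f : K) ≤ 0 := by
    by_contra h0
    exact hcon (Or.inr (by omega))
  rw [Finset.sum_range_succ] at hroot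
  have hlc : (p.coeff N : K) = 1 := by
    have : p.coeff N = 1 := hmon
    rw [this]
    rfl
  rw [hlc, one_mul] at hroot
  have h1 : (-1 : K) = ∑ i ∈ Finset.range N, (p.coeff i : K) * ((f : K)⁻¹) ^ (N - i) := by
    have h2 : (∑ i ∈ Finset.range N, (p.coeff i : K) * (f : K) ^ i) * ((f : K)⁻¹) ^ N = -1 := by
      have h3 : ∑ i ∈ Finset.range N, (p.coeff i : K) * (f : K) ^ i = -(f : K) ^ N := by
        linear_combination hroot
      rw [h3, neg_mul, ← mul_pow, mul_inv_cancel₀ hf0, one_pow]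
    rw [← h2, Finset.sum_mul]
    refine Finset.sum_congr rfl fun i hi => ?_
    have hi' : i ≤ N := (Finset.mem_range.1 hi).le
    rw [mul_assoc]
    congr 1
    have h4 : ((f : K)⁻¹) ^ N = ((f : K)⁻¹) ^ i * ((f : K)⁻¹) ^ (N - i) := by
      rw [← pow_add, Nat.add_sub_cancel' hi']
    rw [h4, ← mul_assoc, ← mul_pow, mul_inv_cancel₀ hf0, one_pow, one_mul]
  have h2 : w.Pos (-1 : K) := by
    rw [h1]
    refine pos_sum w _ _ fun i hi => ?_
    rw [mul_comm]
    refine w.pos_mul_left ?_ (hpos i (Finset.mem_range.1 hi))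
    right
    rw [w.ord_pow (inv_ne_zero hf0), w.ord_inv hf0]
    have : (0 : ℤ) ≤ ((N - i : ℕ) : ℤ) := Int.natCast_nonneg _
    nlinarith
  rcases h2 with h2 | h2
  · exact neg_ne_zero.2 one_ne_zero h2
  · rw [w.ord_neg one_ne_zero, w.ord_one] at h2
    exact lt_irrefl _ h2

/-- Proof: if `O f = 0` then the coefficients of `∏ (X - γ f)` below the top one are in the maximal
ideal of `P`, hence have positive order, and so has `f`. If `O f ≠ 0` apply this to `f - O f`. -/
theorem center_up {L K : Type} [Field L] [Algebra ℂ L] [Field K] [Algebra ℂ K] [Algebra L K]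
    [IsScalarTower ℂ L K] {X : AffVar L} {P : Pt X} {R : Subalgebra ℂ K} {O : R →ₐ[ℂ] ℂ}
    (hq : IsQuotient X P R O) {v : DVal L} {w : DVal K} {e : ℤ} (h : Over w v e)
    (hv : ∀ f : X.R, v.Pos (f : L) ↔ P f = 0) (f : R) : w.Pos (f : K) ↔ O f = 0 := by
  refine ⟨fun hf => ?_, center_aux hq h hv f⟩
  by_contra h0
  have h1 : w.Pos (((f - algebraMap ℂ R (O f) : R) : K)) := by
    apply center_aux hq h hv
    rw [map_sub, AlgHom.commutes]
    simp
  have h2 : w.Pos (algebraMap ℂ K (O f)) := by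
    have h3 : algebraMap ℂ K (O f) = (f : K) + (-1) * ((f - algebraMap ℂ R (O f) : R) : K) := by
      rw [Subalgebra.coe_sub, Subalgebra.coe_algebraMap]
      ring
    rw [h3]
    exact w.pos_add hf (w.pos_mul_left (w.reg_neg w.reg_one) h1)
  rcases h2 with h2 | h2
  · exact (map_ne_zero _).2 h0 h2
  · rw [w.const _ h0] at h2
    exact lt_irrefl _ h2

end Pool.Agent.Helper58K9.QT
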