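import Mathlib
import Pool.Agent.Helper58K9.QT.Defs

/-!
# [COMB] Reduction to the minimal log discrepancies of simplicial cones
-/

set_option autoImplicit false

namespace Pool.Agent.Helper58K9.QT

open Pool.Agent.TH165.ACC

namespace Cmb

variable {n s N C d M : ℕ}

theorem pr_vecMul (B : Matrix (Fin n) (Fin n) ℤ) (m u : Fin n → ℤ) :
    pr m (Matrix.vecMul u B) = pr (B.mulVec m) u := by
  simp only [pr, Matrix.vecMul, Matrix.mulVec, dotProduct, Finset.mul_sum, Finset.sum_mul]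
  rw [Finset.sum_comm]
  exact Finset.sum_congr rfl fun _ _ => Finset.sum_congr rfl fun _ _ => by ring

theorem push (a : Fin d → Fin M) (w : Fin d → ℝ) (g : Fin M → ℝ) :
    ∑ i, w i * g (a i) = ∑ k, (∑ i, if a i = k then w i else 0) * g k := by
  simp only [Finset.sum_mul]
  rw [Finset.sum_comm]
  refine Finset.sum_congr rfl fun i _ => ?_
  rw [Finset.sum_eq_single (a i)]
  · rw [if_pos rfl]
  · intro b _ hb
    rw [if_neg (Ne.symm hb), zero_mul]
  · intro h
    exact absurd (Finset.mem_univ _) h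

/-- the sums over the orbits -/
def SS (C : ℕ) (E : Fin N → Fin n → ℤ) (σ : Fin N → Fin N) (i : Fin N) : Fin n → ℤ :=
  ∑ j ∈ Finset.range C, E (σ^[j] i)

/-- the coefficients on the rays -/
noncomputable def cc (C : ℕ) (σ : Fin N → Fin N) (x : Fin N → ℝ) (k : Fin N) : ℝ :=
  ∑ i, ∑ j ∈ Finset.range C, if σ^[j] i = k then x i else 0

theorem cc_nonneg {σ : Fin N → Fin N} {x : Fin N → ℝ} (hx : ∀ i, 0 ≤ x i) (k : Fin N) :
    0 ≤ cc C σ x k := by
  refine Finset.sum_nonneg fun i _ => Finset.sum_nonneg fun j _ => ?_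
  split_ifs
  · exact hx i
  · exact le_rfl

theorem cc_sum (σ : Fin N → Fin N) (x : Fin N → ℝ) (g : Fin N → ℝ) :
    ∑ k, cc C σ x k * g k = ∑ i, x i * ∑ j ∈ Finset.range C, g (σ^[j] i) := by
  simp only [cc, Finset.sum_mul, Finset.mul_sum]
  rw [Finset.sum_comm]
  refine Finset.sum_congr rfl fun i _ => ?_
  rw [Finset.sum_comm]
  refine Finset.sum_congr rfl fun j _ => ?_
  rw [Finset.sum_eq_single (σ^[j] i)]
  · rw [if_pos rfl]
  · intro b _ hb
    rw [if_neg (Ne.symm hb), zero_mul]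
  · intro h
    exact absurd (Finset.mem_univ _) h

theorem iter_E {E : Fin N → Fin n → ℤ} {A : Matrix (Fin n) (Fin n) ℤ} {σ : Fin N → Fin N}
    (hσ : ∀ i, E (σ i) = Matrix.vecMul (E i) A) (j : ℕ) (i : Fin N) :
    E (σ^[j] i) = Matrix.vecMul (E i) (A ^ j) := by
  induction j with
  | zero => simp
  | succ j ih =>
    rw [Function.iterate_succ_apply', hσ, ih, Matrix.vecMul_vecMul, ← pow_succ]

theorem iter_b {σ : Fin N → Fin N} {b : Fin N → ℝ} (hb : ∀ i, b (σ i) = b i) (j : ℕ) (i : Fin N) :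
    b (σ^[j] i) = b i := by
  induction j with
  | zero => rfl
  | succ j ih => rw [Function.iterate_succ_apply', hb, ih]

theorem vecMul_sum' (s : Finset ℕ) (f : ℕ → Fin n → ℤ) (A : Matrix (Fin n) (Fin n) ℤ) :
    Matrix.vecMul (∑ j ∈ s, f j) A = ∑ j ∈ s, Matrix.vecMul (f j) A := by
  classical
  induction s using Finset.induction_on with
  | empty => simp
  | insert a s ha ih => rw [Finset.sum_insert ha, Finset.sum_insert ha, Matrix.add_vecMul, ih]

theorem SS_inv {E : Fin N → Fin n → ℤ} {A : Matrix (Fin n) (Fin n) ℤ} {σ : Fin N → Fin N}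
    (hAC : A ^ C = 1) (hσ : ∀ i, E (σ i) = Matrix.vecMul (E i) A) (i : Fin N) :
    Matrix.vecMul (SS C E σ i) A = SS C E σ i := by
  unfold SS
  rw [vecMul_sum']
  have h1 : ∀ j, Matrix.vecMul (E (σ^[j] i)) A = E (σ^[j + 1] i) := by
    intro j
    rw [Function.iterate_succ_apply', hσ]
  simp only [h1]
  have h2 := Finset.sum_range_succ' (fun j => E (σ^[j] i)) C
  rw [Finset.sum_range_succ] at h2
  have h3 : E (σ^[C] i) = E (σ^[0] i) := by
    rw [iter_E hσ, hAC, Matrix.vecMul_one]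
    rfl
  rw [h3] at h2
  exact (add_right_cancel h2).symm

theorem pow_inv {A : Matrix (Fin n) (Fin n) ℤ} {W : Fin n → ℤ} (h : Matrix.vecMul W A = W) (j : ℕ) :
    Matrix.vecMul W (A ^ j) = W := by
  induction j with
  | zero => simp
  | succ j ih => rw [pow_succ, ← Matrix.vecMul_vecMul, ih, h]

/-- the vectors -/
def FV (s : ℕ) (S : Fin N → Fin n → ℤ) : Fin (N + s) → Fin (n + s) → ℤ :=
  Fin.addCases (fun i => Fin.append (S i) 0) (fun i => Fin.append 0 (Pi.single i 1))

theorem FV_left (S : Fin N → Fin n → ℤ) (i : Fin N) :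
    FV s S (Fin.castAdd s i) = Fin.append (S i) 0 := by
  unfold FV
  rw [Fin.addCases_left]

theorem FV_right (S : Fin N → Fin n → ℤ) (i : Fin s) :
    FV s S (Fin.natAdd N i) = Fin.append 0 (Pi.single i 1) := by
  unfold FV
  rw [Fin.addCases_right]

/-- the weight of the first kind -/
noncomputable def wx (a : Fin d → Fin (N + s)) (w : Fin d → ℝ) (k : Fin N) : ℝ :=
  ∑ i, if a i = Fin.castAdd s k then w i else 0

/-- the weight of the second kind -/
noncomputable def wy (a : Fin d → Fin (N + s)) (w : Fin d → ℝ) (k : Fin s) : ℝ :=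
  ∑ i, if a i = Fin.natAdd N k then w i else 0

theorem push2 (a : Fin d → Fin (N + s)) (w : Fin d → ℝ) (g : Fin (N + s) → ℝ) :
    ∑ i, w i * g (a i) = ∑ k, wx a w k * g (Fin.castAdd s k) + ∑ k, wy a w k * g (Fin.natAdd N k) := by
  rw [push, Fin.sum_univ_add]
  rfl

theorem wx_nonneg {a : Fin d → Fin (N + s)} {w : Fin d → ℝ} (hw : ∀ i, 0 ≤ w i) (k : Fin N) :
    0 ≤ wx a w k := by
  refine Finset.sum_nonneg fun i _ => ?_
  split_ifs
  · exact hw i
  · exact le_rfl

theorem wy_nonneg {a : Fin d → Fin (N + s)} {w : Fin d → ℝ} (hw : ∀ i, 0 ≤ w i) (k : Fin s) :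
    0 ≤ wy a w k := by
  refine Finset.sum_nonneg fun i _ => ?_
  split_ifs
  · exact hw i
  · exact le_rfl

theorem coord1 (S : Fin N → Fin n → ℤ) (a : Fin d → Fin (N + s)) (w : Fin d → ℝ) (k : Fin n) :
    ∑ i, w i * (FV s S (a i) (Fin.castAdd s k) : ℝ) = ∑ l, wx a w l * (S l k : ℝ) := by
  rw [push2 a w (fun q => (FV s S q (Fin.castAdd s k) : ℝ))]
  simp only [FV_left, FV_right, Fin.append_left, Pi.zero_apply, Int.cast_zero, mul_zero,
    Finset.sum_const_zero, add_zero]

theorem coord2 (S : Fin N → Fin n → ℤ) (a : Fin d → Fin (N + s)) (w : Fin d → ℝ) (k : Fin s) :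
    ∑ i, w i * (FV s S (a i) (Fin.natAdd n k) : ℝ) = wy a w k := by
  rw [push2 a w (fun q => (FV s S q (Fin.natAdd n k) : ℝ))]
  simp only [FV_left, FV_right, Fin.append_right, Pi.zero_apply, Int.cast_zero, mul_zero,
    Finset.sum_const_zero, zero_add]
  rw [Finset.sum_eq_single k]
  · simp
  · intro b _ hb
    rw [Pi.single_eq_of_ne (Ne.symm hb)]
    simp
  · intro h
    exact absurd (Finset.mem_univ _) h

/-- the group -/
def GG (r : ℕ) (A : Matrix (Fin n) (Fin n) ℤ) (F : Fin d → Fin (n + s) → ℤ) (W0 : Fin n → ℤ)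
    (V0 : Fin s → ℤ) : AddSubgroup (Fin d → UnitAddCircle) where
  carrier := {x | ∃ (w : Fin d → ℝ) (j : ℤ) (W1 : Fin n → ℤ) (V1 : Fin s → ℤ),
    (fun i => (w i : UnitAddCircle)) = x ∧ Matrix.vecMul W1 A = W1 ∧
    (∀ k, ∑ i, w i * (F i (Fin.castAdd s k) : ℝ) = (j / r : ℝ) * W0 k + W1 k) ∧
    (∀ k, ∑ i, w i * (F i (Fin.natAdd n k) : ℝ) = (j / r : ℝ) * V0 k + V1 k)}
  zero_mem' := ⟨0, 0, 0, 0, by funext i; simp, Matrix.zero_vecMul A, fun k => by simp,
    fun k => by simp⟩
  add_mem' := by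
    rintro _ _ ⟨w, j, W1, V1, rfl, h1, h2, h3⟩ ⟨w', j', W1', V1', rfl, h1', h2', h3'⟩
    refine ⟨w + w', j + j', W1 + W1', V1 + V1', by funext i; simp, ?_, fun k => ?_, fun k => ?_⟩
    · rw [Matrix.add_vecMul, h1, h1']
    · simp only [Pi.add_apply, add_mul, Finset.sum_add_distrib]
      rw [h2 k, h2' k]
      push_cast
      ring
    · simp only [Pi.add_apply, add_mul, Finset.sum_add_distrib]
      rw [h3 k, h3' k]
      push_cast
      ring
  neg_mem' := by
    rintro _ ⟨w, j, W1, V1, rfl, h1, h2, h3⟩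
    refine ⟨-w, -j, -W1, -V1, by funext i; simp, ?_, fun k => ?_, fun k => ?_⟩
    · rw [Matrix.neg_vecMul, h1]
    · simp only [Pi.neg_apply, neg_mul, Finset.sum_neg_distrib]
      rw [h2 k]
      push_cast
      ring
    · simp only [Pi.neg_apply, neg_mul, Finset.sum_neg_distrib]
      rw [h3 k]
      push_cast
      ring

theorem GG_finite {r : ℕ} (hr : 0 < r) {A : Matrix (Fin n) (Fin n) ℤ} {F : Fin d → Fin (n + s) → ℤ}
    {W0 : Fin n → ℤ} {V0 : Fin s → ℤ} {D : ℤ} (hD : DualVec F D) : Finite (GG r A F W0 V0) := by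
  set K : ℕ := r * D.toNat with hK
  have hD0 : 0 < D.toNat := by have := hD.1; omega
  have hK0 : 0 < K := Nat.mul_pos hr hD0
  have hfin : (Set.pi Set.univ fun _ : Fin d => {x : UnitAddCircle | K • x = 0}).Finite :=
    Set.Finite.pi fun _ => AddCircle.finite_torsion (1 : ℝ) hK0
  refine Set.Finite.subset hfin ?_
  rintro _ ⟨w, j, W1, V1, rfl, -, h2, h3⟩ i -
  obtain ⟨Q, hQ⟩ := hD.2 i
  have hr' : (r : ℝ) ≠ 0 := by exact_mod_cast hr.ne'
  have h1 : (K : ℝ) = (r : ℝ) * (D : ℝ) := by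
    have : (D.toNat : ℤ) = D := by have := hD.1; omega
    rw [hK]
    push_cast
    congr 1
    exact_mod_cast this
  -- pair with `Q`
  have h4 : ∑ l, (Q l : ℝ) * ∑ i, w i * (F i l : ℝ) = w i * (D : ℝ) := by
    have h5 : ∑ l, (Q l : ℝ) * ∑ i, w i * (F i l : ℝ) = ∑ i, w i * (pr Q (F i) : ℝ) := by
      simp only [pr, Finset.mul_sum]
      rw [Finset.sum_comm]
      refine Finset.sum_congr rfl fun i _ => ?_
      push_cast
      rw [Finset.mul_sum]
      refine Finset.sum_congr rfl fun l _ => by ring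
    rw [h5, Finset.sum_eq_single i]
    · rw [hQ, if_pos rfl]
    · intro j _ hj
      rw [hQ, if_neg hj, Int.cast_zero, mul_zero]
    · intro h; exact absurd (Finset.mem_univ _) h
  have h5 : (r : ℝ) * (w i * (D : ℝ)) =
      ((∑ k, Q (Fin.castAdd s k) * (j * W0 k + r * W1 k) +
        ∑ k, Q (Fin.natAdd n k) * (j * V0 k + r * V1 k) : ℤ) : ℝ) := by
    rw [← h4, Fin.sum_univ_add]
    simp only [h2, h3]
    push_cast
    rw [mul_add, Finset.mul_sum, Finset.mul_sum]
    congr 1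
    · refine Finset.sum_congr rfl fun k _ => ?_
      field_simp
    · refine Finset.sum_congr rfl fun k _ => ?_
      field_simp
  change K • ((w i : ℝ) : UnitAddCircle) = 0
  rw [← AddCircle.coe_nsmul, nsmul_eq_mul, h1]
  have h6 : (r : ℝ) * (D : ℝ) * w i = (r : ℝ) * (w i * (D : ℝ)) := by ring
  rw [h6, h5, AddCircle.coe_eq_zero_iff]
  generalize (∑ k, Q (Fin.castAdd s k) * (j * W0 k + r * W1 k) +
        ∑ k, Q (Fin.natAdd n k) * (j * V0 k + r * V1 k) : ℤ) = z
  exact ⟨z, by rw [zsmul_one]⟩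

theorem GG_rep {r : ℕ} {A : Matrix (Fin n) (Fin n) ℤ} {S : Fin N → Fin n → ℤ} {a : Fin d → Fin (N + s)}
    (hS : ∀ i, Matrix.vecMul (S i) A = S i)
    {W0 : Fin n → ℤ} {V0 : Fin s → ℤ} {w : Fin d → ℝ}
    (h : (fun i => (w i : UnitAddCircle)) ∈ GG r A (fun i => FV s S (a i)) W0 V0) :
    ∃ (j : ℤ) (W1 : Fin n → ℤ) (V1 : Fin s → ℤ), Matrix.vecMul W1 A = W1 ∧
    (∀ k, ∑ i, w i * (FV s S (a i) (Fin.castAdd s k) : ℝ) = (j / r : ℝ) * W0 k + W1 k) ∧
    (∀ k, ∑ i, w i * (FV s S (a i) (Fin.natAdd n k) : ℝ) = (j / r : ℝ) * V0 k + V1 k) := by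
  obtain ⟨w', j, W1, V1, h1, h2, h3, h4⟩ := h
  have h5 : ∀ i, ∃ z : ℤ, w i - w' i = z := by
    intro i
    have h4 : ((w i - w' i : ℝ) : UnitAddCircle) = 0 := by
      rw [AddCircle.coe_sub]
      have := congrFun h1 i
      change ((w' i : ℝ) : UnitAddCircle) = ((w i : ℝ) : UnitAddCircle) at this
      rw [this, sub_self]
    rw [AddCircle.coe_eq_zero_iff] at h4
    obtain ⟨z, hz⟩ := h4
    exact ⟨z, by rw [← hz]; simp⟩
  choose z hz using h5
  have hinv : ∀ q : Fin (N + s), Matrix.vecMul (fun k => FV s S q (Fin.castAdd s k)) A =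
      fun k => FV s S q (Fin.castAdd s k) := by
    intro q
    refine Fin.addCases (fun i => ?_) (fun i => ?_) q
    · simp only [FV_left, Fin.append_left]
      exact hS i
    · simp only [FV_right, Fin.append_left]
      exact Matrix.zero_vecMul A
  refine ⟨j, W1 + ∑ i, z i • (fun k => FV s S (a i) (Fin.castAdd s k)),
    V1 + ∑ i, z i • (fun k => FV s S (a i) (Fin.natAdd n k)), ?_, fun k => ?_, fun k => ?_⟩
  · have h6 : ∀ t : Finset (Fin d), Matrix.vecMul (∑ i ∈ t, z i • (fun k => FV s S (a i) (Fin.castAdd s k))) A =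
        ∑ i ∈ t, z i • (fun k => FV s S (a i) (Fin.castAdd s k)) := by
      classical
      intro t
      induction t using Finset.induction_on with
      | empty => simp
      | insert b t hb ih =>
        rw [Finset.sum_insert hb, Matrix.add_vecMul, ih, Matrix.smul_vecMul, hinv]
    rw [Matrix.add_vecMul, h2, h6]
  · have h7 := h3 k
    have h8 : ∑ i, w i * (FV s S (a i) (Fin.castAdd s k) : ℝ) =
        ∑ i, w' i * (FV s S (a i) (Fin.castAdd s k) : ℝ) +
        ∑ i, (z i : ℝ) * (FV s S (a i) (Fin.castAdd s k) : ℝ) := by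
      rw [← Finset.sum_add_distrib]
      exact Finset.sum_congr rfl fun i _ => by rw [← hz i]; ring
    rw [h8, h7, Pi.add_apply, Finset.sum_apply]
    push_cast
    simp only [Pi.smul_apply, smul_eq_mul]
    push_cast
    ring
  · have h7 := h4 k
    have h8 : ∑ i, w i * (FV s S (a i) (Fin.natAdd n k) : ℝ) =
        ∑ i, w' i * (FV s S (a i) (Fin.natAdd n k) : ℝ) +
        ∑ i, (z i : ℝ) * (FV s S (a i) (Fin.natAdd n k) : ℝ) := by
      rw [← Finset.sum_add_distrib]
      exact Finset.sum_congr rfl fun i _ => by rw [← hz i]; ring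
    rw [h8, h7, Pi.add_apply, Finset.sum_apply]
    push_cast
    simp only [Pi.smul_apply, smul_eq_mul]
    push_cast
    ring

theorem ord_single {d : ℕ} (k : Fin d) (w : Fin d → ℝ) :
    ordAlong {Pi.single k 1} w = w k := by
  unfold ordAlong
  rw [Set.image_singleton, csInf_singleton, Finset.sum_eq_single k]
  · simp
  · intro b _ hb
    rw [Pi.single_eq_of_ne hb]
    simp
  · intro h
    exact absurd (Finset.mem_univ _) h

/-- log discrepancies for coordinate divisors -/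
theorem exists_S {d : ℕ} {Γ : Set ℝ} (β : Fin d → ℝ) (hβ0 : ∀ i, 0 ≤ β i)
    (hβ : ∀ i, β i ≠ 0 → β i ∈ Γ) :
    ∃ (r : ℕ) (S : Fin r → Set (Fin d → ℕ)) (c : Fin r → ℝ),
      (∀ j, (S j).Nonempty ∧ 0 ∉ S j ∧ c j ∈ Γ ∧ 0 < c j) ∧
      ∀ w : Fin d → ℝ, logDisc S c w = ∑ i, (1 - β i) * w i := by
  classical
  let φ : Fin (Fintype.card {i // β i ≠ 0}) ≃ {i // β i ≠ 0} := (Fintype.equivFin _).symm
  refine ⟨_, fun j => {Pi.single (φ j).1 1}, fun j => β (φ j).1, fun j => ⟨⟨_, rfl⟩, ?_, ?_, ?_⟩,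
    fun w => ?_⟩
  · intro h
    have h1 := congrFun (Set.mem_singleton_iff.1 h) (φ j).1
    simp at h1
  · exact hβ _ (φ j).2
  · exact lt_of_le_of_ne (hβ0 _) (Ne.symm (φ j).2)
  · unfold logDisc
    have h1 : ∑ j, β (φ j).1 * ordAlong {Pi.single (φ j).1 1} w = ∑ i, β i * w i := by
      simp only [ord_single]
      rw [φ.sum_comp fun i : {i // β i ≠ 0} => β i.1 * w i.1]
      rw [← Finset.sum_subtype (Finset.univ.filter fun i => β i ≠ 0) (by simp)
        fun i => β i * w i]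
      refine Finset.sum_filter_of_ne fun i _ h => ?_
      exact left_ne_zero_of_mul h
    rw [h1, ← Finset.sum_sub_distrib]
    exact Finset.sum_congr rfl fun i _ => by ring

end Cmb

open Cmb

/-- Proof. Let `s_i = ∑_(j < C) E (σ^j i)`, an invariant vector. `W0 = ∑ c_i E_i` with `c ≥ 0`
(`exists_simplex`), and averaging gives `C W0 = ∑ c_i s_i`. By Carathéodory (`carath`, `exists_dual`,
applied to the vectors `(s_i, 0)`, `(0, e_i)` in `ℤ^(n + s)`) the vector `(W0, V0)` has positive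
coordinates with respect to linearly independent vectors `a_1, ..., a_d` among them, which contain all
`(0, e_i)`. Let `G` be the group of the classes of all `w ∈ ℝ^d` such that
`∑ w_i a_i = (j / r) (W0, V0) + (W1, V1)` with `j`, `W1`, `V1` integral and `W1` invariant. It is
finite. For `w > 0` in `G`, the vector `r ∑ w_i a_i` has the form `(W, V)` of `hmin`; with
`u = ∑ w_i a_i`, `m ≤ ∑ w_i ψ_i`, where `ψ_i = C (1 - b_i)` for `a_i = (s_i, 0)` and `ψ_i = 1` for
`a_i = (0, e)`; and there is equality for the coordinates of `(W0, V0) / r`. So `m / C` is in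
`mldsR d r' (Γ ∪ {1 - 1 / C})` with the sets `S = {e_i}` and the coefficients `b_i` (those `≠ 0`) and
`1 - 1 / C`. -/
theorem comb {n s r C : ℕ} (hn : 0 < n) (hr : 0 < r) (hC : 2 ≤ C) {Γ : Set ℝ} {N : ℕ}
    {E : Fin N → Fin n → ℤ} (pointed : ∃ Q : Fin n → ℤ, ∀ j, 0 < pr Q (E j))
    {A : Matrix (Fin n) (Fin n) ℤ} (hAC : A ^ C = 1) {σ : Fin N → Fin N}
    (hσ : ∀ i, E (σ i) = Matrix.vecMul (E i) A) {b : Fin N → ℝ} (hb : ∀ i, b (σ i) = b i)
    (hb0 : ∀ i, 0 ≤ b i) (hbΓ : ∀ i, b i ≠ 0 → b i ∈ Γ)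
    {W0 : Fin n → ℤ} (hW0 : Matrix.vecMul W0 A = W0) (hint : ∀ m ∈ Cn E, m ≠ 0 → 0 < pr m W0)
    {V0 : Fin s → ℤ} (hV0 : ∀ i, 0 < V0 i) {m : ℝ}
    (hm : ∀ c : Fin N → ℝ, (∀ i, 0 ≤ c i) → Coord E c W0 →
      ∑ i, c i * (1 - b i) + ∑ i, (V0 i : ℝ) ≤ r * m)
    (hmin : ∀ (j : ℤ) (W1 : Fin n → ℤ) (V1 : Fin s → ℤ), Matrix.vecMul W1 A = W1 →
      (∀ μ ∈ Cn E, μ ≠ 0 → 0 < pr μ (j • W0 + (r : ℤ) • W1)) →
      (∀ i, 0 < j * V0 i + r * V1 i) → ∀ c : Fin N → ℝ, (∀ i, 0 ≤ c i) →
      Coord E c (j • W0 + (r : ℤ) • W1) →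
      r * m ≤ ∑ i, c i * (1 - b i) + ∑ i, ((j * V0 i + r * V1 i : ℤ) : ℝ)) :
    ∃ d ≤ n + s, ∃ r' : ℕ, m / C ∈ mldsR d r' (Γ ∪ {1 - 1 / (C : ℝ)}) := by
  classical
  have hr' : (0 : ℝ) < r := by exact_mod_cast hr
  have hC' : (2 : ℝ) ≤ C := by exact_mod_cast hC
  have hC0 : (0 : ℝ) < C := by linarith
  set S : Fin N → Fin n → ℤ := SS C E σ with hS
  have hSinv : ∀ i, Matrix.vecMul (S i) A = S i := SS_inv hAC hσ
  have hSk : ∀ i k, S i k = ∑ j ∈ Finset.range C, E (σ^[j] i) k := by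
    intro i k
    rw [hS]
    unfold SS
    rw [Finset.sum_apply]
  -- the pairing with `W0` is nonnegative if the pairings with the `S i` are
  have hnonneg0 : ∀ μ ∈ Cn E, 0 ≤ pr μ W0 := by
    intro μ hμ
    by_cases h0 : μ = 0
    · rw [h0]
      unfold pr
      simp
    · exact (hint μ hμ h0).le
  obtain ⟨d0, a0, w0, hw0, hs0, -⟩ := exists_simplex hnonneg0
  have hSpos : ∀ μ : Fin n → ℤ, (∀ i, 0 ≤ pr μ (S i)) → 0 ≤ pr μ W0 := by
    intro μ hμ
    have hc0 : Coord (fun i => E (a0 i)) w0 W0 := hs0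
    have h1 : ∀ j : ℕ, (pr μ W0 : ℝ) = ∑ i, w0 i * (pr μ (E (σ^[j] (a0 i))) : ℝ) := by
      intro j
      have h2 := coord_pr hc0 ((A ^ j).mulVec μ)
      rw [← pr_vecMul, pow_inv hW0] at h2
      rw [h2]
      refine Finset.sum_congr rfl fun i _ => ?_
      rw [iter_E hσ, pr_vecMul]
    have h2 : (C : ℝ) * (pr μ W0 : ℝ) = ∑ i, w0 i * (pr μ (S (a0 i)) : ℝ) := by
      have h3 : ∑ j ∈ Finset.range C, (pr μ W0 : ℝ) = (C : ℝ) * (pr μ W0 : ℝ) := by
        rw [Finset.sum_const, Finset.card_range, nsmul_eq_mul]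
      rw [← h3, Finset.sum_congr rfl fun j _ => h1 j, Finset.sum_comm]
      refine Finset.sum_congr rfl fun i _ => ?_
      rw [← Finset.mul_sum]
      congr 1
      rw [pr]
      simp only [hSk, Finset.mul_sum]
      rw [Finset.sum_comm]
      push_cast
      refine Finset.sum_congr rfl fun j _ => ?_
      rw [pr]
      push_cast
      rfl
    have h3 : (0 : ℝ) ≤ (C : ℝ) * (pr μ W0 : ℝ) := by
      rw [h2]
      exact Finset.sum_nonneg fun i _ => mul_nonneg (hw0 i).le (by exact_mod_cast hμ (a0 i))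
    have h4 := (mul_nonneg_iff_of_pos_left hC0).1 h3
    exact_mod_cast h4
  -- the simplicial cone
  set u0 : Fin (n + s) → ℤ := Fin.append W0 V0 with hu0
  have hpr_app : ∀ (μ : Fin (n + s) → ℤ) (x : Fin n → ℤ) (y : Fin s → ℤ),
      pr μ (Fin.append x y) = pr (fun k => μ (Fin.castAdd s k)) x + ∑ k, μ (Fin.natAdd n k) * y k := by
    intro μ x y
    unfold pr
    rw [Fin.sum_univ_add]
    simp only [Fin.append_left, Fin.append_right]
  have hcone : ∀ μ ∈ Cn (FV s S), 0 ≤ pr μ u0 := by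
    intro μ hμ
    rw [hu0, hpr_app]
    have h1 : ∀ i, 0 ≤ pr (fun k => μ (Fin.castAdd s k)) (S i) := by
      intro i
      have h2 := hμ (Fin.castAdd s i)
      rw [FV_left, hpr_app] at h2
      simpa using h2
    have h2 : ∀ k, 0 ≤ μ (Fin.natAdd n k) := by
      intro k
      have h3 := hμ (Fin.natAdd N k)
      rw [FV_right, hpr_app] at h3
      have h4 : pr (fun k => μ (Fin.castAdd s k)) 0 = 0 := by unfold pr; simp
      rw [h4, zero_add, Finset.sum_eq_single k] at h3
      · simpa using h3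
      · intro b _ hb
        rw [Pi.single_eq_of_ne hb, mul_zero]
      · intro h
        exact absurd (Finset.mem_univ _) h
    exact add_nonneg (hSpos _ h1) (Finset.sum_nonneg fun k _ => mul_nonneg (h2 k) (hV0 k).le)
  obtain ⟨d, a, w1, hw1, hs1, D, hD⟩ := exists_simplex hcone
  refine ⟨d, hD.le, ?_⟩
  -- second coordinates are positive
  have hy1 : ∀ k, wy a w1 k = (V0 k : ℝ) := by
    intro k
    rw [← coord2 S a w1 k, hs1 (Fin.natAdd n k), hu0, Fin.append_right]
  have hex : ∀ k : Fin s, ∃ i, a i = Fin.natAdd N k := by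
    intro k
    by_contra hcon
    push Not at hcon
    have h1 : wy a w1 k = 0 := Finset.sum_eq_zero fun i _ => if_neg (hcon i)
    rw [hy1] at h1
    have h2 := hV0 k
    have h3 : V0 k = 0 := by exact_mod_cast h1
    omega
  have hypos : ∀ w : Fin d → ℝ, (∀ i, 0 < w i) → ∀ k, 0 < wy a w k := by
    intro w hw k
    obtain ⟨i, hi⟩ := hex k
    refine Finset.sum_pos' (fun j _ => ?_) ⟨i, Finset.mem_univ i, ?_⟩
    · split_ifs
      · exact (hw j).le
      · exact le_rfl
    · rw [if_pos hi]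
      exact hw i
  have hx1 : ∀ k, ∑ l, wx a w1 l * (S l k : ℝ) = (W0 k : ℝ) := by
    intro k
    rw [← coord1 S a w1 k, hs1 (Fin.castAdd s k), hu0, Fin.append_left]
  -- coordinates with respect to the rays
  have hcoord : ∀ (w : Fin d → ℝ) (k : Fin n), ∑ i, cc C σ (wx a w) i * (E i k : ℝ) =
      ∑ l, wx a w l * (S l k : ℝ) := by
    intro w k
    rw [cc_sum σ (wx a w) (fun i => (E i k : ℝ))]
    refine Finset.sum_congr rfl fun l _ => ?_
    rw [hSk]
    push_cast
    rfl
  have hval : ∀ w : Fin d → ℝ, ∑ i, cc C σ (wx a w) i * (1 - b i) =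
      C * ∑ l, wx a w l * (1 - b l) := by
    intro w
    rw [cc_sum σ (wx a w) (fun i => 1 - b i), Finset.mul_sum]
    refine Finset.sum_congr rfl fun l _ => ?_
    simp only [iter_b hb]
    rw [Finset.sum_const, Finset.card_range, nsmul_eq_mul]
    ring
  -- the coefficients
  set B : Fin (N + s) → ℝ := Fin.addCases b (fun _ => 1 - 1 / (C : ℝ)) with hB
  have hBl : ∀ k, B (Fin.castAdd s k) = b k := fun k => by simp only [hB, Fin.addCases_left]
  have hBr : ∀ k, B (Fin.natAdd N k) = 1 - 1 / (C : ℝ) := fun k => by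
    simp only [hB, Fin.addCases_right]
  have h1C : (0 : ℝ) < 1 - 1 / (C : ℝ) := by
    have : 1 / (C : ℝ) ≤ 1 / 2 := one_div_le_one_div_of_le (by norm_num) hC'
    linarith
  have hB0 : ∀ q, 0 ≤ B q := by
    intro q
    refine Fin.addCases (fun i => ?_) (fun i => ?_) q
    · rw [hBl]; exact hb0 i
    · rw [hBr]; exact h1C.le
  have hBΓ : ∀ q, B q ≠ 0 → B q ∈ Γ ∪ {1 - 1 / (C : ℝ)} := by
    intro q
    refine Fin.addCases (fun i => ?_) (fun i => ?_) q
    · rw [hBl]; exact fun h => Or.inl (hbΓ i h)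
    · rw [hBr]; exact fun _ => Or.inr rfl
  obtain ⟨r', T, c, hT, hlog⟩ := exists_S (Γ := Γ ∪ {1 - 1 / (C : ℝ)}) (fun i => B (a i))
    (fun i => hB0 _) (fun i => hBΓ _)
  have hdisc : ∀ w : Fin d → ℝ, (C : ℝ) * logDisc T c w =
      ∑ i, cc C σ (wx a w) i * (1 - b i) + ∑ k, wy a w k := by
    intro w
    have h1 : ∑ i, (1 - B (a i)) * w i = ∑ i, w i * (fun q => 1 - B q) (a i) :=
      Finset.sum_congr rfl fun i _ => by ring
    rw [hlog, h1, push2 a w (fun q => 1 - B q), hval]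
    simp only [hBl, hBr]
    rw [mul_add]
    congr 1
    rw [Finset.mul_sum]
    refine Finset.sum_congr rfl fun k _ => ?_
    field_simp
    ring
  refine ⟨r', GG r A (fun i => FV s S (a i)) W0 V0, T, c, GG_finite hr hD, hT, ?_⟩
  -- the equality
  have heq : (C : ℝ) * logDisc T c w1 = r * m := by
    rw [hdisc]
    have hcE : Coord E (cc C σ (wx a w1)) W0 := fun k => by rw [hcoord, hx1]
    have hnn : ∀ i, 0 ≤ cc C σ (wx a w1) i := cc_nonneg (wx_nonneg fun i => (hw1 i).le)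
    have h1 := hm _ hnn hcE
    have h2 := hmin 1 0 0 (Matrix.zero_vecMul A) (fun μ hμ hμ0 => by
        simpa using hint μ hμ hμ0) (fun i => by simpa using hV0 i) _ hnn (by
        have : (1 : ℤ) • W0 + (r : ℤ) • (0 : Fin n → ℤ) = W0 := by simp
        rw [this]
        exact hcE)
    have h3 : ∑ k, wy a w1 k = ∑ i, (V0 i : ℝ) := Finset.sum_congr rfl fun k _ => hy1 k
    rw [h3]
    refine le_antisymm h1 ?_
    simpa using h2
  constructor
  · -- lower bound
    rintro _ ⟨w, hw, hwG, rfl⟩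
    obtain ⟨j, W1, V1, hW1, e1, e2⟩ := GG_rep hSinv hwG
    have hx : ∀ k, r * ∑ l, wx a w l * (S l k : ℝ) = ((j • W0 + (r : ℤ) • W1) k : ℤ) := by
      intro k
      rw [← coord1 S a w k, e1 k, Pi.add_apply, Pi.smul_apply, Pi.smul_apply, smul_eq_mul, smul_eq_mul]
      push_cast
      field_simp
    have hy : ∀ k, r * wy a w k = ((j * V0 k + r * V1 k : ℤ) : ℝ) := by
      intro k
      rw [← coord2 S a w k, e2 k]
      push_cast
      field_simp
    have hxn : ∀ i, 0 ≤ wx a w i := wx_nonneg fun i => (hw i).le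
    have hcE : Coord E (fun i => r * cc C σ (wx a w) i) (j • W0 + (r : ℤ) • W1) := by
      intro k
      rw [← hx k, ← hcoord, Finset.mul_sum]
      exact Finset.sum_congr rfl fun i _ => by ring
    have h1 := hmin j W1 V1 hW1 (fun μ hμ hμ0 => ?_) (fun i => ?_)
      (fun i => r * cc C σ (wx a w) i) (fun i => mul_nonneg hr'.le (cc_nonneg hxn i)) hcE
    · have h2 : ∑ i, (r * cc C σ (wx a w) i) * (1 - b i) + ∑ i, ((j * V0 i + r * V1 i : ℤ) : ℝ) =
          r * (C * logDisc T c w) := by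
        rw [hdisc, mul_add, Finset.mul_sum, Finset.mul_sum]
        congr 1
        · exact Finset.sum_congr rfl fun i _ => by ring
        · exact Finset.sum_congr rfl fun i _ => (hy i).symm
      rw [h2] at h1
      have h3 := le_of_mul_le_mul_left h1 hr'
      rw [div_le_iff₀ hC0, mul_comm]
      exact h3
    · -- interior
      have hSE : ∀ i, 0 ≤ pr μ (S i) := by
        intro i
        have h2 : pr μ (S i) = ∑ j ∈ Finset.range C, pr μ (E (σ^[j] i)) := by
          simp only [pr, hSk, Finset.mul_sum]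
          rw [Finset.sum_comm]
        rw [h2]
        exact Finset.sum_nonneg fun j _ => hμ _
      have h2 := hint μ hμ hμ0
      -- the pairing with `W0`
      have h3 : (pr μ W0 : ℝ) = ∑ l, wx a w1 l * (pr μ (S l) : ℝ) := by
        simp only [pr, Int.cast_sum, Int.cast_mul]
        simp only [← hx1, Finset.mul_sum]
        rw [Finset.sum_comm]
        exact Finset.sum_congr rfl fun _ _ => Finset.sum_congr rfl fun _ _ => by ring
      obtain ⟨l, hl⟩ : ∃ l, wx a w1 l * (pr μ (S l) : ℝ) ≠ 0 := by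
        by_contra hcon
        push Not at hcon
        have h4 : (pr μ W0 : ℝ) = 0 := by
          rw [h3]
          exact Finset.sum_eq_zero fun l _ => hcon l
        have h5 : pr μ W0 = 0 := by exact_mod_cast h4
        omega
      have hl1 : wx a w1 l ≠ 0 := left_ne_zero_of_mul hl
      have hl2 : (pr μ (S l) : ℝ) ≠ 0 := right_ne_zero_of_mul hl
      obtain ⟨i, hi⟩ : ∃ i, a i = Fin.castAdd s l := by
        by_contra hcon
        push Not at hcon
        exact hl1 (Finset.sum_eq_zero fun i _ => if_neg (hcon i))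
      have hwxl : 0 < wx a w l := by
        refine Finset.sum_pos' (fun j _ => ?_) ⟨i, Finset.mem_univ i, ?_⟩
        · split_ifs
          · exact (hw j).le
          · exact le_rfl
        · rw [if_pos hi]
          exact hw i
      have h4 : ((pr μ (j • W0 + (r : ℤ) • W1) : ℤ) : ℝ) = r * ∑ l, wx a w l * (pr μ (S l) : ℝ) := by
        have h5 : ((pr μ (j • W0 + (r : ℤ) • W1) : ℤ) : ℝ) =
            ∑ k, (μ k : ℝ) * (((j • W0 + (r : ℤ) • W1) k : ℤ) : ℝ) := by
          rw [pr]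
          push_cast
          rfl
        rw [h5]
        simp only [← hx, pr, Int.cast_sum, Int.cast_mul, Finset.mul_sum]
        rw [Finset.sum_comm]
        exact Finset.sum_congr rfl fun _ _ => Finset.sum_congr rfl fun _ _ => by ring
      have h5 : 0 < ∑ l, wx a w l * (pr μ (S l) : ℝ) := by
        refine Finset.sum_pos' (fun l _ => mul_nonneg (hxn l) (by exact_mod_cast hSE l))
          ⟨l, Finset.mem_univ l, mul_pos hwxl ?_⟩
        exact lt_of_le_of_ne (by exact_mod_cast hSE l) (Ne.symm hl2)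
      have h6 : (0 : ℝ) < ((pr μ (j • W0 + (r : ℤ) • W1) : ℤ) : ℝ) := by
        rw [h4]
        exact mul_pos hr' h5
      exact_mod_cast h6
    · have h2 : (0 : ℝ) < ((j * V0 i + r * V1 i : ℤ) : ℝ) := by
        rw [← hy i]
        exact mul_pos hr' (hypos w hw i)
      exact_mod_cast h2
  · -- greatest lower bound
    intro t ht
    refine (ht ⟨fun i => w1 i / r, fun i => div_pos (hw1 i) hr', ?_, rfl⟩).trans ?_
    · refine ⟨fun i => w1 i / r, 1, 0, 0, rfl, Matrix.zero_vecMul A, fun k => ?_, fun k => ?_⟩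
      · have h1 := hs1 (Fin.castAdd s k)
        rw [hu0, Fin.append_left] at h1
        have h2 : ∑ i, w1 i / r * (FV s S (a i) (Fin.castAdd s k) : ℝ) =
            (∑ i, w1 i * (FV s S (a i) (Fin.castAdd s k) : ℝ)) / r := by
          rw [Finset.sum_div]
          exact Finset.sum_congr rfl fun i _ => by ring
        rw [h2, h1]
        simp
        ring
      · have h1 := hs1 (Fin.natAdd n k)
        rw [hu0, Fin.append_right] at h1
        have h2 : ∑ i, w1 i / r * (FV s S (a i) (Fin.natAdd n k) : ℝ) =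
            (∑ i, w1 i * (FV s S (a i) (Fin.natAdd n k) : ℝ)) / r := by
          rw [Finset.sum_div]
          exact Finset.sum_congr rfl fun i _ => by ring
        rw [h2, h1]
        simp
        ring
    · have h1 : logDisc T c (fun i => w1 i / r) = logDisc T c w1 / r := by
        rw [hlog, hlog, Finset.sum_div]
        exact Finset.sum_congr rfl fun i _ => by ring
      rw [h1]
      have h2 : logDisc T c w1 = r * m / C := by
        rw [← heq]
        field_simp
      rw [h2]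
      apply le_of_eq
      field_simp

end Pool.Agent.Helper58K9.QT
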