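import Mathlib
import Pool.Agent.Helper58K9.QT.Defs

/-!
# [MINK] Integral matrices of finite order
-/

set_option autoImplicit false

namespace Pool.Agent.Helper58K9.QT

open Pool.Agent.H436R3.Fol Pool.Agent.H436R3.KT Pool.Agent.W497.Mld Pool.Agent.TH165.ACC
  MvPolynomial

namespace MinkL

/-- reduction modulo three -/
noncomputable abbrev red (n : ℕ) :
    Matrix (Fin n) (Fin n) ℤ →+* Matrix (Fin n) (Fin n) (ZMod 3) :=
  (Int.castRingHom (ZMod 3)).mapMatrix

theorem det_ne {n : ℕ} {S : Matrix (Fin n) (Fin n) ℤ} {c : ZMod 3} (hc : c ≠ 0)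
    (h : red n S = c • 1) : S.det ≠ 0 := by
  intro h0
  have h1 := RingHom.map_det (Int.castRingHom (ZMod 3)) S
  rw [h0, map_zero] at h1
  have h2 : (red n S).det = c ^ n := by
    rw [h, Matrix.det_smul, Matrix.det_one, mul_one, Fintype.card_fin]
  rw [show (Int.castRingHom (ZMod 3)).mapMatrix S = red n S from rfl, h2] at h1
  exact pow_ne_zero n hc h1.symm

theorem eq_zero_of {n : ℕ} {M S : Matrix (Fin n) (Fin n) ℤ} (h : M * S = 0) (hS : S.det ≠ 0) :
    M = 0 := by
  have h1 : M * (S * S.adjugate) = 0 := by rw [← mul_assoc, h, zero_mul]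
  rw [Matrix.mul_adjugate, Matrix.mul_smul, Matrix.mul_one] at h1
  exact (smul_eq_zero.1 h1).resolve_left hS

theorem prime_case {n : ℕ} {B : Matrix (Fin n) (Fin n) ℤ} (hB : red n B = 1) {p : ℕ}
    (hp : p.Prime) (h : B ^ p = 1) : B = 1 := by
  have hg : (B - 1) * (∑ i ∈ Finset.range p, B ^ i) = 0 := by
    rw [mul_geom_sum, h, sub_self]
  rw [← sub_eq_zero]
  by_cases h3 : p = 3
  · subst h3
    have h0 : red n (B - 1) = 0 := by rw [map_sub, hB, map_one, sub_self]
    have hd : ∀ i j, ∃ c : ℤ, (B - 1) i j = 3 * c := by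
      intro i j
      have h1 := congrFun (congrFun h0 i) j
      have h2 : (((B - 1) i j : ℤ) : ZMod 3) = 0 := by
        simpa using h1
      exact (ZMod.intCast_zmod_eq_zero_iff_dvd _ 3).1 h2
    choose M' hM' using hd
    have hM : B - 1 = (3 : ℤ) • (Matrix.of M') := by
      ext i j
      rw [hM', Matrix.smul_apply, Matrix.of_apply, smul_eq_mul]
    set N : Matrix (Fin n) (Fin n) ℤ := Matrix.of M' with hN
    have hBN : B = 1 + (3 : ℤ) • N := by rw [← hM]; abel
    have hS : (∑ i ∈ Finset.range 3, B ^ i) = (3 : ℤ) • (1 + (3 : ℤ) • (N + N * N)) := by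
      rw [Finset.sum_range_succ, Finset.sum_range_succ, Finset.sum_range_one, hBN]
      simp only [pow_zero, pow_one, pow_two, mul_add, add_mul, one_mul, mul_one, smul_add,
        Matrix.smul_mul, Matrix.mul_smul, smul_smul]
      ext i j
      simp only [Matrix.add_apply, Matrix.smul_apply, smul_eq_mul]
      ring
    rw [hS, Matrix.mul_smul] at hg
    have hg' := (smul_eq_zero.1 hg).resolve_left (by norm_num)
    refine eq_zero_of hg' (det_ne (c := 1) one_ne_zero ?_)
    rw [map_add, map_one, one_smul]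
    have : red n ((3 : ℤ) • (N + N * N)) = 0 := by
      ext i j
      simp only [RingHom.mapMatrix_apply, Matrix.map_apply, Matrix.smul_apply, smul_eq_mul,
        Matrix.zero_apply, map_mul]
      have h3 : (Int.castRingHom (ZMod 3)) 3 = 0 := by decide
      rw [h3, zero_mul]
    rw [this, add_zero]
  · refine eq_zero_of hg (det_ne (c := (p : ZMod 3)) ?_ ?_)
    · intro hp0
      rw [ZMod.natCast_eq_zero_iff] at hp0
      exact h3 ((Nat.prime_dvd_prime_iff_eq Nat.prime_three hp).1 hp0).symm
    · rw [map_sum]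
      simp only [map_pow, hB, one_pow]
      rw [Finset.sum_const, Finset.card_range]
      ext i j
      simp

theorem eq_one {n : ℕ} (r : ℕ) : ∀ {B : Matrix (Fin n) (Fin n) ℤ}, red n B = 1 → 0 < r →
    B ^ r = 1 → B = 1 := by
  induction r using Nat.strong_induction_on with
  | _ r ih =>
    intro B hB hr h
    by_cases h1 : r = 1
    · subst h1; simpa using h
    · have hp := Nat.minFac_prime h1
      have hd := Nat.minFac_dvd r
      obtain ⟨m, hm⟩ := hd
      have hm0 : 0 < m := by
        rcases Nat.eq_zero_or_pos m with h0 | h0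
        · subst h0; omega
        · exact h0
      have hmr : m < r := by
        have := hp.two_le
        nlinarith
      have hBm : B ^ m = 1 := by
        refine prime_case (p := r.minFac) ?_ hp ?_
        · rw [map_pow, hB, one_pow]
        · rw [← pow_mul, mul_comm, ← hm, h]
      exact ih m hmr hB hm0 hBm

end MinkL

/-- Minkowski: the order of a matrix of finite order in `GL_n (ℤ)` divides the order of `GL_n (𝔽_3)`.
(If `B` has finite order and `B ≡ 1` modulo `3` then `B = 1`.) -/
theorem exists_exponent (n : ℕ) : ∃ C : ℕ, 2 ≤ C ∧ ∀ (A : Matrix (Fin n) (Fin n) ℤ) (r : ℕ),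
    0 < r → A ^ r = 1 → A ^ C = 1 := by
  classical
  refine ⟨2 * Fintype.card (Matrix (Fin n) (Fin n) (ZMod 3))ˣ, ?_, ?_⟩
  · have := Fintype.card_pos (α := (Matrix (Fin n) (Fin n) (ZMod 3))ˣ)
    omega
  · intro A r hr h
    have hu : IsUnit (MinkL.red n A) := by
      have h1 : (MinkL.red n A) ^ r = 1 := by rw [← map_pow, h, map_one]
      exact (IsUnit.of_pow_eq_one h1 hr.ne')
    obtain ⟨u, hu⟩ := hu
    have h2 : MinkL.red n (A ^ (2 * Fintype.card (Matrix (Fin n) (Fin n) (ZMod 3))ˣ)) = 1 := by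
      rw [map_pow, ← hu, mul_comm, pow_mul, ← Units.val_pow_eq_pow_val, pow_card_eq_one,
        Units.val_one, one_pow]
    refine MinkL.eq_one r h2 hr ?_
    rw [← pow_mul, mul_comm, pow_mul, h, one_pow]

end Pool.Agent.Helper58K9.QT
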