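import Mathlib
import Pool.Agent.Helper58K9.QT.Basic

/-!
# [PDOWN] Prime divisors of `T` lie over prime divisors of the quotient
-/

set_option autoImplicit false

namespace Pool.Agent.Helper58K9.QT

open Pool.Agent.H436R3.Fol Pool.Agent.H436R3.KT Pool.Agent.W497.Mld

variable {L K : Type} [Field L] [Algebra ℂ L] [Field K] [Algebra ℂ K] [Algebra L K]
  [IsScalarTower ℂ L K] {X : AffVar L} {P : Pt X} {R : Subalgebra ℂ K} {O : R →ₐ[ℂ] ℂ}

/-- Proof: for `f ∈ O_v` the ideal of all `b ∈ R` with `f b ∈ R` is invariant under `G` and is not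
contained in the ideal of `w`, hence not in the ideals of the `w ∘ σ`; by prime avoidance it
contains some `b` outside all these ideals, and the norm of `b` is a denominator of `f`. -/
theorem local_down (hq : IsQuotient X P R O) {w : DVal K} {v : DVal L} {e : ℤ}
    (hw : IsLocalRing' R w) (h : Over w v e) : IsLocalRing' X.R v := by
  classical
  have := hq.fin
  have := hq.gal
  let _ : Fintype (K ≃ₐ[L] K) := Fintype.ofFinite _
  refine ⟨fun f hf => (h.reg_iff f).1 (hw.1 _ ((hq.quot f).1 hf)), fun f hf => ?_⟩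
  -- the denominators of `f`
  let J : Ideal R :=
    { carrier := {b | algebraMap L K f * (b : K) ∈ R}
      add_mem' := by
        intro a b ha hb
        change algebraMap L K f * ((a : K) + (b : K)) ∈ R
        rw [mul_add]
        exact add_mem ha hb
      zero_mem' := by
        change algebraMap L K f * ((0 : R) : K) ∈ R
        rw [ZeroMemClass.coe_zero, mul_zero]
        exact zero_mem R
      smul_mem' := by
        intro c b hb
        change algebraMap L K f * ((c : K) * (b : K)) ∈ R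
        have : algebraMap L K f * ((c : K) * (b : K)) = (c : K) * (algebraMap L K f * (b : K)) := by
          ring
        rw [this]
        exact mul_mem c.2 hb }
  let Pr : (K ≃ₐ[L] K) → Ideal R := fun σ =>
    { carrier := {b | w.Pos (σ (b : K))}
      add_mem' := by
        intro a b ha hb
        change w.Pos (σ ((a : K) + (b : K)))
        rw [map_add]
        exact w.pos_add ha hb
      zero_mem' := by
        change w.Pos (σ ((0 : R) : K))
        rw [ZeroMemClass.coe_zero, map_zero]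
        exact Or.inl rfl
      smul_mem' := by
        intro c b hb
        change w.Pos (σ ((c : K) * (b : K)))
        rw [map_mul]
        exact w.pos_mul_left (hw.1 _ (hq.inv σ _ c.2)) hb }
  have hPr : ∀ σ, (Pr σ).IsPrime := by
    intro σ
    refine ⟨?_, ?_⟩
    · rw [Ideal.ne_top_iff_one]
      intro h1
      have h2 : w.Pos (σ ((1 : R) : K)) := h1
      rw [OneMemClass.coe_one, map_one] at h2
      rcases h2 with h2 | h2
      · exact one_ne_zero h2
      · rw [w.ord_one] at h2
        exact lt_irrefl _ h2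
    · intro a b hab
      by_contra hcon
      push Not at hcon
      obtain ⟨ha, hb⟩ := hcon
      have h1 : w.Pos (σ ((a * b : R) : K)) := hab
      have hunit : ∀ c : R, c ∉ Pr σ → σ (c : K) ≠ 0 ∧ w.ord (σ (c : K)) = 0 := by
        intro c hc
        have hc' : ¬ w.Pos (σ (c : K)) := hc
        have h3 : σ (c : K) ≠ 0 := fun h4 => hc' (Or.inl h4)
        have h5 := w.ord_nonneg h3 (hw.1 _ (hq.inv σ _ c.2))
        refine ⟨h3, ?_⟩
        by_contra h6
        exact hc' (Or.inr (by omega))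
      obtain ⟨ha1, ha2⟩ := hunit a ha
      obtain ⟨hb1, hb2⟩ := hunit b hb
      rw [MulMemClass.coe_mul, map_mul] at h1
      rcases h1 with h1 | h1
      · exact mul_ne_zero ha1 hb1 h1
      · rw [w.map_mul _ _ ha1 hb1, ha2, hb2] at h1
        omega
  have hnot : ¬ ((J : Set R) ⊆ ⋃ σ ∈ (Finset.univ : Finset (K ≃ₐ[L] K)), (Pr σ : Set R)) := by
    intro hsub
    have h1 := (Ideal.subset_union_prime (s := Finset.univ) (f := Pr) 1 1
      (fun σ _ _ _ => hPr σ)).1 hsub
    obtain ⟨σ, -, hσ⟩ := h1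
    obtain ⟨a, b, ha, hb, hb0, hb1, hab⟩ := hw.2 _ ((h.reg_iff f).2 hf)
    have h2 : (⟨σ⁻¹ b, hq.inv _ _ hb⟩ : R) ∈ J := by
      change algebraMap L K f * σ⁻¹ b ∈ R
      have h3 : algebraMap L K f * σ⁻¹ b = σ⁻¹ a := by
        rw [← hab, map_mul, AlgEquiv.commutes]
      rw [h3]
      exact hq.inv _ _ ha
    have h3 : w.Pos (σ (σ⁻¹ b)) := hσ h2
    rw [← AlgEquiv.mul_apply, mul_inv_cancel, AlgEquiv.one_apply] at h3
    rcases h3 with h3 | h3
    · exact hb0 h3
    · omega
  obtain ⟨b, hbJ, hb⟩ := Set.not_subset.1 hnot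
  have hb' : ∀ σ : K ≃ₐ[L] K, σ (b : K) ≠ 0 ∧ w.ord (σ (b : K)) = 0 := by
    intro σ
    have hc' : ¬ w.Pos (σ (b : K)) := by
      intro h1
      apply hb
      simp only [Set.mem_iUnion]
      exact ⟨σ, Finset.mem_univ _, h1⟩
    have h3 : σ (b : K) ≠ 0 := fun h4 => hc' (Or.inl h4)
    have h5 := w.ord_nonneg h3 (hw.1 _ (hq.inv σ _ b.2))
    refine ⟨h3, ?_⟩
    by_contra h6
    exact hc' (Or.inr (by omega))
  -- the norm of `b`
  set N : K := ∏ σ : K ≃ₐ[L] K, σ (b : K) with hN
  have hNfix : ∀ τ : K ≃ₐ[L] K, τ N = N := by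
    intro τ
    rw [hN, map_prod]
    exact Fintype.prod_equiv (Equiv.mulLeft τ) _ _ fun σ => rfl
  obtain ⟨β, hβ⟩ := (IsGalois.mem_range_algebraMap_iff_fixed (F := L) N).2 hNfix
  have hNR : N ∈ R := prod_mem fun σ _ => hq.inv σ _ b.2
  have hN0 : N ≠ 0 := Finset.prod_ne_zero_iff.2 fun σ _ => (hb' σ).1
  have hNord : w.ord N = 0 := by
    rw [hN, w.ord_prod _ _ fun σ _ => (hb' σ).1]
    exact Finset.sum_eq_zero fun σ _ => (hb' σ).2
  have hβ0 : β ≠ 0 := by
    rintro rfl
    rw [map_zero] at hβ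
    exact hN0 hβ.symm
  have hfN : algebraMap L K f * N ∈ R := by
    have h1 : N = (b : K) * ∏ σ ∈ Finset.univ.erase (1 : K ≃ₐ[L] K), σ (b : K) := by
      rw [hN, ← Finset.mul_prod_erase _ _ (Finset.mem_univ (1 : K ≃ₐ[L] K))]
      rfl
    rw [h1, ← mul_assoc]
    exact mul_mem hbJ (prod_mem fun σ _ => hq.inv σ _ b.2)
  refine ⟨f * β, β, (hq.quot _).2 (by rw [map_mul, hβ]; exact hfN),
    (hq.quot _).2 (by rw [hβ]; exact hNR), hβ0, ?_, rfl⟩
  have h1 := h.2 β hβ0
  rw [hβ, hNord] at h1
  exact (mul_eq_zero.1 h1.symm).resolve_left h.1.ne'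

end Pool.Agent.Helper58K9.QT
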