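import Mathlib
import Pool.Agent.Helper58K9.QT.Upper
import Pool.Agent.Helper58K9.QT.LogFam
import Pool.Agent.Helper58K9.QT.Lower
import Pool.Agent.Helper58K9.QT.Inertia
import Pool.Agent.Helper58K9.QT.DerExt
import Pool.Agent.Helper58K9.QT.Diag
import Pool.Agent.Helper58K9.QT.Mink
import Pool.Agent.Helper58K9.QT.Ray
import Pool.Agent.Helper58K9.QT.Cent
import Pool.Agent.Helper58K9.QT.PrimeDown
import Pool.Agent.Helper58K9.QT.Comb

/-!
# The ACC for minimal log discrepancies of toric quotient singularities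
-/

set_option autoImplicit false
set_option linter.unusedSectionVars false

namespace Pool.Agent.Helper58K9.QT

open Pool.Agent.H436R3.Fol Pool.Agent.H436R3.KT Pool.Agent.W497.Mld Pool.Agent.TH165.ACC
  MvPolynomial

theorem ym_mem_iff {n : ℕ} {K : Type} [Field K] [Algebra ℂ K]
    [Algebra (MvPolynomial (Fin n) ℂ) K] [IsFractionRing (MvPolynomial (Fin n) ℂ) K]
    [IsScalarTower ℂ (MvPolynomial (Fin n) ℂ) K] (g : ToricGerm n K) (m : Fin n → ℤ) :
    ym K m ∈ g.X.R ↔ m ∈ Cn g.E := by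
  constructor
  · intro h i
    obtain ⟨v, hv, htv⟩ := exists_mon (K := K) (g.prim i)
    have h1 := (ToricGerm.local_E hv htv).1 _ h
    rcases h1 with h1 | h1
    · exact absurd h1 (ym_ne _)
    · rwa [ord_ym, htv] at h1
  · intro h
    rw [g.hR]
    exact ym_mem_LA h

theorem quot_mem {k C0 : ℕ} (hC0 : 2 ≤ C0)
    (hC0' : ∀ (A : Matrix (Fin (k + 1)) (Fin (k + 1)) ℤ) (r : ℕ), 0 < r → A ^ r = 1 → A ^ C0 = 1)
    {Γ : Set ℝ} {m : ℝ} (h : m ∈ quotMlds (k + 1) Γ) :
    ∃ d ≤ 2 * (k + 1), ∃ r' : ℕ, m / C0 ∈ mldsR d r' (Γ ∪ {1 - 1 / (C0 : ℝ)}) := by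
  obtain ⟨hm0, L, _, _, X, P, B, e, hB, hm, K, _, _, _, _, R, O, hq, htor⟩ := h
  obtain ⟨v0, hov0, n0, hcan0, hmn⟩ := hm.1
  have := hq.fin
  have := hq.gal
  obtain ⟨w0, r, γ, ζ, hr, hov, hγr, hζ, hw⟩ := exists_inertia (K := K) v0
  obtain ⟨alg, frac, tow, g, rfl, hO, hmon, hto⟩ := htor γ
  have hOP : O = g.P := AlgHom.ext fun f => hO f f rfl
  subst hOP
  have hγr' : (γ.restrictScalars ℂ) ^ r = 1 := by
    ext f
    have h1 : ∀ j : ℕ, ((γ.restrictScalars ℂ) ^ j) f = (γ ^ j) f := by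
      intro j
      induction j with
      | zero => rfl
      | succ j ih =>
        rw [pow_succ', pow_succ', AlgEquiv.mul_apply, AlgEquiv.mul_apply, ih]
        rfl
    rw [h1, hγr]
    rfl
  obtain ⟨A, c, hAr, hc0, hc, hγ⟩ := exists_action (γ := γ.restrictScalars ℂ) hr hγr' hmon
  obtain ⟨PP, Q, η, s, κ, hd⟩ := exists_diag hr A hAr
  obtain ⟨hinv, hτ, V0, hV0, hV0ζ, hlow⟩ := lower hd hc0 hc hγr' hγ hζ hw
  obtain ⟨ε, C, hC, hCT⟩ := exists_C (K := K) (n := k + 1) X.T X.top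
  have hdiv : ∀ w : DVal K, IsLocalRing' g.X.R w →
      ∃ (v : DVal L) (r : ℤ), IsLocalRing' X.R v ∧ Over w v r := by
    intro w hw
    obtain ⟨v, r, hvo⟩ := exists_restrict (L := L) w
    exact ⟨v, r, local_down hq hw hvo, hvo⟩
  obtain ⟨b, hb1, hb2⟩ := exists_lam (g := g) (B := B) (P := P) (fun f hf => (hq.quot f).1 hf)
    hq.pt hdiv hto e hC ε hCT
  -- `w0` lies over the germ
  have hcen := center_up hq hov hov0.2
  obtain ⟨S, hS, -, hSv⟩ := hov0.1
  have hovg : IsOverGerm g.P w0 :=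
    ⟨div_of_over hov ⟨S, hS, hSv⟩ g.X.R g.X.fg fun f hf => reg_of_center hcen hf, hcen⟩
  have hint0 : g.Inter (tv w0) := ToricGerm.inter_of_over hovg
  -- the symmetries of the cone
  have hA1 : A * A ^ (r - 1) = 1 := by
    rw [← pow_succ', Nat.sub_add_cancel hr, hAr]
  have hA2 : A ^ (r - 1) * A = 1 := by
    rw [← pow_succ, Nat.sub_add_cancel hr, hAr]
  have hcone : ∀ m, m ∈ Cn g.E ↔ A.mulVec m ∈ Cn g.E := by
    intro m
    rw [← ym_mem_iff, ← ym_mem_iff]
    have h1 : γ (ym K m) ∈ g.X.R ↔ ym K m ∈ g.X.R := by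
      constructor
      · intro h
        have h2 := hq.inv γ⁻¹ _ h
        rwa [← AlgEquiv.mul_apply, inv_mul_cancel, AlgEquiv.one_apply] at h2
      · exact hq.inv γ _
    rw [← h1]
    have h2 : γ (ym K m) = algebraMap ℂ K (c m) * ym K (A.mulVec m) := hγ m
    rw [h2]
    constructor
    · intro h
      have h3 : ym K (A.mulVec m) =
          algebraMap ℂ K (c m)⁻¹ * (algebraMap ℂ K (c m) * ym K (A.mulVec m)) := by
        rw [← mul_assoc, ← map_mul, inv_mul_cancel₀ (hc0 m), map_one, one_mul]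
      rw [h3]
      exact mul_mem (Subalgebra.algebraMap_mem _ _) h
    · intro h
      exact mul_mem (Subalgebra.algebraMap_mem _ _) h
  obtain ⟨σ, hσ⟩ := exists_perm g.prim g.edge g.pointed hA1 hA2 hcone
  -- the multiplicities
  have hbE : ∀ i, ∃ (w : DVal K) (v : DVal L) (r : ℤ), IsMonomial (k + 1) w ∧
      (tv w : Fin (k + 1) → ℤ) = g.E i ∧ Over w v r ∧ b i = 1 - r * (1 - B.mult v) ∧
      IsLocalRing' X.R v := by
    intro i
    obtain ⟨w, hwm, htw⟩ := exists_mon (K := K) (g.prim i)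
    obtain ⟨v, r, hv, hvo⟩ := hdiv w (ToricGerm.local_E hwm htw)
    exact ⟨w, v, r, hwm, htw, hvo, hb1 i w v r hwm htw hvo⟩
  have hbσ : ∀ i, b (σ i) = b i := by
    intro i
    obtain ⟨w, v, r', hwm, htw, hvo, hbi, -⟩ := hbE i
    obtain ⟨h1, h2⟩ := isMonomial_comap hwm hA1 hA2 hc0 hγ
    have h3 : Over (comap w (γ.restrictScalars ℂ)) v r' := by
      refine ⟨hvo.1, fun f hf => ?_⟩
      change w.ord (γ (algebraMap L K f)) = _
      rw [AlgEquiv.commutes, hvo.2 f hf]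
    rw [hbi]
    exact (hb1 (σ i) _ v r' h1 (by rw [h2, htw, hσ]) h3).1
  have hb01 : ∀ i, b i = 0 ∨ ∃ v : DVal L, IsLocalRing' X.R v ∧ b i = B.mult v := by
    intro i
    obtain ⟨w, v, r', hwm, htw, hvo, hbi, hv⟩ := hbE i
    rcases hto w v r' (ToricGerm.local_E hwm htw) hvo with h | ⟨-, h⟩
    · left
      rw [hbi, h]
    · right
      refine ⟨v, hv, ?_⟩
      rw [hbi, h]
      push_cast
      ring
  have hb0 : ∀ i, 0 ≤ b i := by
    intro i
    rcases hb01 i with h | ⟨v, -, h⟩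
    · rw [h]
    · rw [h]
      exact mult_nonneg B v
  have hbΓ : ∀ i, b i ≠ 0 → b i ∈ Γ := by
    intro i hi
    rcases hb01 i with h | ⟨v, hv, h⟩
    · exact absurd h hi
    · rw [h] at hi ⊢
      exact hB v hv hi
  -- the lower bound
  obtain ⟨N, hN0, hNlog, hNord⟩ := exists_logFam hov hcan0 hC ε hCT
  have hVN := hlow N hN0 hNlog
  have hrr : (0 : ℝ) < r := by exact_mod_cast hr
  have hs : s ≤ k + 1 := by
    have := Fintype.card_le_of_injective κ hd.inj
    simpa using this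
  obtain ⟨d, hd', r', hmem⟩ := comb (C := C0) (m := m) (Nat.succ_pos k) hr hC0 g.pointed
    (hC0' A r hr hAr) hσ hbσ hb0 hbΓ hinv hint0 hV0 (fun cc hcc hco => by
      have h1 := hb2 w0 hovg cc hcc hco
      rw [← h1]
      have hg : ∑ i, e.ρ i * (w0.ord (algebraMap L K (e.g i)) : ℝ) =
          r * ∑ i, e.ρ i * (v0.ord (e.g i) : ℝ) := by
        rw [Finset.mul_sum]
        refine Finset.sum_congr rfl fun i _ => ?_
        rw [hov.2 _ (e.ne i)]
        push_cast
        ring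
      have h2 : ∑ i, (V0 i : ℝ) ≤ r * (n0 + 1) + w0.ord C.det := by
        have h3 := hVN.trans hNord
        exact_mod_cast h3
      rw [hg, hmn]
      nlinarith) (fun j W1 V1 hW1 hint hV cc hcc hco => by
      exact upper hq e hC ε hCT hb2 hm0 hm hd hc0 hc hγr' (fun f => γ.commutes f) hγ hζ hinv hτ
        hV0ζ j hW1 V1 hint hV hcc hco)
  exact ⟨d, by omega, r', hmem⟩

theorem dcc_insert {Γ : Set ℝ} (hΓ : Pool.Agent.TH165.ACC.IsDCC Γ) (x : ℝ) :
    Pool.Agent.TH165.ACC.IsDCC (Γ ∪ {x}) := by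
  intro u hu hmem
  by_cases hx : ∃ K, ∀ k ≥ K, u k ∉ Γ
  · obtain ⟨K, hK⟩ := hx
    refine ⟨K, fun k hk => ?_⟩
    have h1 := (hmem k).resolve_left (hK k hk)
    have h2 := (hmem K).resolve_left (hK K le_rfl)
    rw [Set.mem_singleton_iff] at h1 h2
    rw [h1, h2]
  · push Not at hx
    have hinf : {k | u k ∈ Γ}.Infinite := by
      rw [Set.infinite_iff_exists_gt]
      intro a
      obtain ⟨k, hk, hk'⟩ := hx (a + 1)
      exact ⟨k, hk', by omega⟩
    let θ := Nat.nth fun k => u k ∈ Γ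
    have hθ : StrictMono θ := Nat.nth_strictMono hinf
    obtain ⟨J, hJ⟩ := hΓ (u ∘ θ) (hu.comp_monotone hθ.monotone)
      fun j => Nat.nth_mem_of_infinite hinf j
    refine ⟨θ J, fun k hk => le_antisymm (hu hk) ?_⟩
    have h1 : J ≤ k := hθ.le_apply.trans hk
    calc u (θ J) = u (θ k) := (hJ k h1).symm
      _ ≤ u k := hu hθ.le_apply

/-- **The ACC for minimal log discrepancies of toric quotient singularities.** -/
theorem quot_acc (n : ℕ) {Γ : Set ℝ} (hΓ : Pool.Agent.TH165.ACC.IsDCC Γ) :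
    IsACC (quotMlds n Γ) := by
  rcases n with _ | k
  · intro u hu hmem
    exfalso
    obtain ⟨hm0, L, _, _, X, P, B, e, hB, hm, K, _, _, _, _, R, O, hq, htor⟩ := hmem 0
    obtain ⟨v0, hov0, -⟩ := hm.1
    obtain ⟨alg, frac, tow, g, -⟩ := htor 1
    obtain ⟨f, hf, h1⟩ := v0.surj
    obtain ⟨a, a', ha', h2⟩ := exists_frac (MvPolynomial (Fin 0) ℂ) (algebraMap L K f)
    obtain ⟨x, rfl⟩ := MvPolynomial.C_surjective (Fin 0) a
    obtain ⟨x', rfl⟩ := MvPolynomial.C_surjective (Fin 0) a'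
    have h3 : algebraMap L K f = algebraMap L K (algebraMap ℂ L (x / x')) := by
      rw [h2, ← IsScalarTower.algebraMap_apply ℂ L K, map_div₀]
      congr 1
      · exact jo_C x
      · exact jo_C x'
    have h4 := (algebraMap L K).injective h3
    have h5 : x / x' ≠ 0 := by
      intro h
      rw [h4, h, map_zero] at hf
      exact hf rfl
    rw [h4, v0.const _ h5] at h1
    exact zero_ne_one h1
  · obtain ⟨C0, hC0, hC0'⟩ := exists_exponent (k + 1)
    intro u hu hmem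
    have hC0r : (0 : ℝ) < C0 := by
      have : 0 < C0 := by omega
      exact_mod_cast this
    obtain ⟨J, hJ⟩ := acc_union (N := 2 * (k + 1))
      (S := fun d => {a | ∃ r, a ∈ mldsR d r (Γ ∪ {1 - 1 / (C0 : ℝ)})})
      (fun d _ => acc (dcc_insert hΓ _)) (fun i => u i / C0)
      (fun i j hij => div_le_div_of_nonneg_right (hu hij) hC0r.le)
      fun i => quot_mem hC0 hC0' (hmem i)
    refine ⟨J, fun i hi => ?_⟩
    have h1 : u i / C0 = u J / C0 := hJ i hi
    exact (div_left_inj' hC0r.ne').1 h1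

end Pool.Agent.Helper58K9.QT
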